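import Pool.Agent.D0H40.KX.InstK

/-! The theorems for an elliptic curve: explicit formula and growth. -/

set_option autoImplicit false

namespace Pool.Agent.D0H40.KX

open Complex MeasureTheory Filter Topology Set Classical
open Pool.Agent.W263.BSD
open Pool.Agent.W524.RY (cf)
open Pool.Agent.D0H40.GC (dat_curve PhiF_order PhiF_fin PhiF_zero)

variable {a b : ℤ} {F : ℂ → ℂ} {k : ℝ}

/-- the direction -/
noncomputable def bt (k τ : ℝ) : ℝ := Real.arctan τ / k

/-- the modulus of `1 + iτ` -/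
noncomputable def qq (τ : ℝ) : ℝ := √(1 + τ ^ 2)

theorem qq_pos (τ : ℝ) : 0 < qq τ := Real.sqrt_pos.2 (by positivity)

theorem qq_zero : qq 0 = 1 := by
  unfold qq
  simp

theorem bt_zero (k : ℝ) : bt k 0 = 0 := by
  unfold bt
  simp

theorem k_bt (hk : 1 < k) (τ : ℝ) : k * bt k τ = Real.arctan τ := by
  unfold bt
  field_simp

theorem k_bt_lt (hk : 1 < k) (τ : ℝ) : |k * bt k τ| < Real.pi / 2 := by
  rw [k_bt hk, abs_lt]
  exact ⟨Real.neg_pi_div_two_lt_arctan τ, Real.arctan_lt_pi_div_two τ⟩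

theorem theta_eq (τ : ℝ) : (1 + τ * I : ℂ) = (qq τ : ℂ) * exp ((Real.arctan τ : ℝ) * I) := by
  have h1 : Real.cos (Real.arctan τ) = 1 / qq τ := Real.cos_arctan τ
  have h2 : Real.sin (Real.arctan τ) = τ / qq τ := Real.sin_arctan τ
  have hq := (qq_pos τ).ne'
  rw [Complex.exp_mul_I, ← Complex.ofReal_cos, ← Complex.ofReal_sin, h1, h2]
  have hqc : (qq τ : ℂ) ≠ 0 := by exact_mod_cast hq
  push_cast
  field_simp

/-- the large parameter is `log X` divided by this constant -/
noncomputable def qk (k τ : ℝ) : ℝ := qq τ ^ (1 / (k - 1))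

theorem qk_pos (k τ : ℝ) : 0 < qk k τ := Real.rpow_pos_of_pos (qq_pos τ) _

theorem qk_zero (k : ℝ) : qk k 0 = 1 := by
  unfold qk
  rw [qq_zero, Real.one_rpow]

theorem sk_kap (hk : 1 < k) (τ : ℝ) {L : ℝ} (hL : 0 < L) :
    sk k (bt k τ) (rh k (L / qk k τ)) = kap k τ L := by
  have hk1 : 0 < k - 1 := by linarith
  have hq := qk_pos k τ
  unfold sk kap
  rw [k_bt hk, theta_eq]
  have h1 : rh k (L / qk k τ) ^ k = qq τ * (L ^ (k - 1))⁻¹ := by
    unfold rh
    rw [← Real.rpow_mul (by positivity)]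
    have e : -(1 / kp k) * k = -(k - 1) := by
      unfold kp
      field_simp
    rw [e, Real.rpow_neg (by positivity), Real.div_rpow hL.le hq.le, inv_div]
    have e2 : qk k τ ^ (k - 1) = qq τ := by
      unfold qk
      rw [← Real.rpow_mul (qq_pos τ).le, one_div, inv_mul_cancel₀ hk1.ne', Real.rpow_one]
    rw [e2]
    rfl
  rw [h1]
  push_cast
  ring

/-- the sector -/
def Sec (k τ : ℝ) : Set ℂ := {w | w ≠ 0 ∧ |arg w - bt k τ| < fc k}

/-- the rate of growth that a zero contributes -/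
noncomputable def rate (k τ : ℝ) (w : ℂ) : ℝ :=
  (k - 1) * Mz k w / qk k τ * Real.cos (kp k * (arg w - bt k τ))

theorem arg_rot {z : ℂ} (hz : z ≠ 0) {x : ℝ} (h : |arg z + x| < Real.pi) :
    arg (exp (x * I) * z) = arg z + x := by
  have h1 := abs_lt.1 h
  have e : exp (x * I) * z = (‖z‖ : ℂ) * (Complex.cos ((arg z + x : ℝ) : ℂ) +
      Complex.sin ((arg z + x : ℝ) : ℂ) * I) := by
    rw [← Complex.exp_mul_I]
    nth_rewrite 1 [← norm_mul_exp_arg_mul_I z]
    have : exp (((arg z + x : ℝ) : ℂ) * I) = exp (x * I) * exp (arg z * I) := by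
      rw [← Complex.exp_add]
      congr 1
      push_cast
      ring
    rw [this]
    ring
  rw [e, Complex.arg_mul_cos_add_sin_mul_I (norm_pos_iff.2 hz) ⟨h1.1, h1.2.le⟩]

theorem bt_abs_lt (hk : 1 < k) (τ : ℝ) : |bt k τ| + fc k < Real.pi / 2 := by
  have := beta_lt hk (k_bt_lt hk τ)
  linarith

theorem sec_re (hk : 1 < k) {τ : ℝ} {w : ℂ} (hw : w ∈ Sec k τ) : 0 < w.re := by
  have h1 := bt_abs_lt hk τ
  have h2 : |arg w| < Real.pi / 2 := by
    have h3 : |arg w| ≤ |arg w - bt k τ| + |bt k τ| := by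
      have := abs_add_le (arg w - bt k τ) (bt k τ)
      rwa [sub_add_cancel] at this
    have := hw.2
    linarith
  rcases Complex.abs_arg_lt_pi_div_two_iff.1 h2 with h | h
  · exact h
  · exact absurd h hw.1

theorem sec_iff (hk : 1 < k) (τ : ℝ) (z : ℂ) : dl (bt k τ) * z ∈ Sec k τ ↔ z ∈ Sk k := by
  have hb := bt_abs_lt hk τ
  have hfc := fc_pos hk
  have hpi := Real.pi_pos
  constructor
  · rintro ⟨h1, h2⟩
    have hz : z ≠ 0 := right_ne_zero_of_mul h1
    refine ⟨hz, ?_⟩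
    have e : z = exp ((-bt k τ : ℝ) * I) * (dl (bt k τ) * z) := by
      unfold dl
      rw [← mul_assoc, ← Complex.exp_add]
      simp
    have h3 : arg z = arg (dl (bt k τ) * z) + -bt k τ := by
      nth_rewrite 1 [e]
      refine arg_rot h1 ?_
      rw [← sub_eq_add_neg]
      have := fc_lt hk
      linarith
    rw [h3, ← sub_eq_add_neg]
    exact h2
  · rintro ⟨h1, h2⟩
    refine ⟨mul_ne_zero (dl_ne _) h1, ?_⟩
    have h3 : arg (dl (bt k τ) * z) = arg z + bt k τ := by
      unfold dl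
      refine arg_rot h1 ?_
      have := abs_add_le (arg z) (bt k τ)
      linarith
    rw [h3, add_sub_cancel_right]
    exact h2

theorem sk_arg (hk : 1 < k) (τ : ℝ) {z : ℂ} (hz : z ∈ Sk k) : arg (dl (bt k τ) * z) - bt k τ = arg z := by
  have hb := bt_abs_lt hk τ
  have h3 : arg (dl (bt k τ) * z) = arg z + bt k τ := by
    unfold dl
    refine arg_rot hz.1 ?_
    have := abs_add_le (arg z) (bt k τ)
    have := hz.2
    have := Real.pi_pos
    linarith
  rw [h3, add_sub_cancel_right]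

theorem rate_eq (hk : 1 < k) (τ : ℝ) {z : ℂ} (hz : z ∈ Sk k) :
    rate k τ (dl (bt k τ) * z) * qk k τ = (om k z).re := by
  unfold rate
  rw [sk_arg hk τ hz, om_re]
  have e : Mz k (dl (bt k τ) * z) = Mz k z := by
    unfold Mz
    rw [norm_mul, dl_norm, one_mul]
  rw [e]
  have := (qk_pos k τ).ne'
  field_simp

theorem rate_pos (hk : 1 < k) {τ : ℝ} {w : ℂ} (hw : w ∈ Sec k τ) : 0 < rate k τ w := by
  have hM := Mz_pos hk hw.1
  have hk1 : 0 < k - 1 := by linarith
  have hq := qk_pos k τ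
  have hkp := kp_pos hk
  have h1 : |kp k * (arg w - bt k τ)| < Real.pi / 2 := by
    rw [abs_mul, abs_of_pos hkp, ← kp_fc hk]
    exact mul_lt_mul_of_pos_left hw.2 hkp
  have h2 := Real.cos_pos_of_mem_Ioo (abs_lt.1 h1)
  unfold rate
  positivity

/-- zeros in turned coordinates -/
theorem zero_iff (hk : 1 < k) (τ : ℝ) {z : ℂ} (hz : z ∈ Sk k) :
    PhiF a b F (dl (bt k τ) * z) = 0 ↔ F (1 + dl (bt k τ) * z) = 0 :=
  PhiF_zero _ (sec_re hk ((sec_iff hk τ z).2 hz)).le

theorem T_tendsto (k τ : ℝ) : Tendsto (fun X : ℝ => Real.log X / qk k τ) atTop atTop :=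
  Real.tendsto_log_atTop.atTop_div_const (qk_pos k τ)

theorem X_tendsto (k τ : ℝ) : Tendsto (fun T : ℝ => Real.exp (T * qk k τ)) atTop atTop :=
  Real.tendsto_exp_atTop.comp (tendsto_id.atTop_mul_const (qk_pos k τ))

/-- the finite sum and the abstract sum -/
theorem wk_ff (hk : 1 < k) (hF : IsLSeries a b F) : ∃ C : ℝ, ∀ τ X : ℝ, 1 < X →
    ‖wk a b k τ X - ff (fun p : ℕ => Real.log p) (cf a b) k (bt k τ) (Real.log X / qk k τ)‖ ≤ C := by
  obtain ⟨C, hC⟩ := wk_le hk hF
  refine ⟨C, fun τ X hX => ?_⟩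
  unfold ff
  rw [sk_kap hk τ (Real.log_pos hX)]
  exact hC τ X hX

/-- `C log X ≤ X^ε` -/
theorem log_small (C : ℝ) {ε : ℝ} (hε : 0 < ε) : ∀ᶠ X : ℝ in atTop, C * Real.log X + C ≤ X ^ ε := by
  have h1 : (fun X : ℝ => C * Real.log X + C) =o[atTop] fun X : ℝ => X ^ ε := by
    have h2 := isLittleO_log_rpow_atTop hε
    refine (h2.const_mul_left C).add ?_
    have h3 : Tendsto (fun X : ℝ => X ^ ε) atTop atTop := tendsto_rpow_atTop hε
    exact Asymptotics.isLittleO_const_left.2 (Or.inr (tendsto_norm_atTop_atTop.comp h3))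
  have h4 := h1.bound (show (0:ℝ) < 1 by norm_num)
  filter_upwards [h4, eventually_gt_atTop 0] with X h5 h6
  rw [one_mul, Real.norm_eq_abs, Real.norm_eq_abs, abs_of_pos (Real.rpow_pos_of_pos h6 _)] at h5
  exact (le_abs_self _).trans h5

/-- upper bound for the growth -/
theorem wk_up (hk : 1 < k) (hF : IsLSeries a b F) (τ : ℝ) {η : ℝ} (hη : 0 ≤ η)
    (h : ∀ w ∈ Sec k τ, F (1 + w) = 0 → rate k τ w ≤ η) {ε : ℝ} (hε : 0 < ε) :
    ∀ᶠ X : ℝ in atTop, ‖wk a b k τ X‖ ≤ X ^ (η + ε) := by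
  have hq := qk_pos k τ
  obtain ⟨m, hm⟩ := PhiF_fin hF 0
  obtain ⟨C, hC0, hC⟩ := grow_up hk (k_bt_lt hk τ) (dat_curve hF) (PhiF_fin hF) hm
    (η := η * qk k τ) (by positivity) (fun z hz h0 => by
      rw [← rate_eq hk τ hz]
      have := h _ ((sec_iff hk τ z).2 hz) ((zero_iff hk τ hz).1 h0)
      gcongr)
  obtain ⟨C', hC'⟩ := wk_ff hk hF
  have hlq := (T_tendsto k τ).eventually hC
  filter_upwards [hlq, eventually_gt_atTop 1, log_small (C * |(qk k τ)⁻¹| + C * |Real.log (qk k τ)| + 2 * C + |C'|) hε,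
    Real.tendsto_log_atTop.eventually (eventually_ge_atTop 1)] with X h1 h2 h3 h4
  have hX0 : 0 < X := by linarith
  have h5 := hC' τ X h2
  have e1 : Real.exp (η * qk k τ * (Real.log X / qk k τ)) = X ^ η := by
    rw [Real.rpow_def_of_pos hX0]
    congr 1
    field_simp
  rw [e1] at h1
  have e2 : Real.log (Real.log X / qk k τ) ≤ Real.log X + |Real.log (qk k τ)| := by
    rw [Real.log_div (by linarith) hq.ne']
    have h6 := Real.log_le_sub_one_of_pos (show 0 < Real.log X by linarith)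
    have h7 := neg_abs_le (Real.log (qk k τ))
    linarith
  have hη1 : 1 ≤ X ^ η := Real.one_le_rpow h2.le hη
  have hη0 : 0 < X ^ η := by linarith
  have h6 : ‖wk a b k τ X‖ ≤ C' + C * (Real.log (Real.log X / qk k τ) + X ^ η) := by
    have e3 : wk a b k τ X = (wk a b k τ X -
      ff (fun p : ℕ => Real.log p) (cf a b) k (bt k τ) (Real.log X / qk k τ)) +
      ff (fun p : ℕ => Real.log p) (cf a b) k (bt k τ) (Real.log X / qk k τ) := by ring
    rw [e3]
    exact (norm_add_le _ _).trans (add_le_add h5 h1)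
  rw [Real.rpow_add hX0]
  have h7 : C' + C * (Real.log (Real.log X / qk k τ) + X ^ η) ≤
      (C * |(qk k τ)⁻¹| + C * |Real.log (qk k τ)| + 2 * C + |C'|) * Real.log X * X ^ η +
      (C * |(qk k τ)⁻¹| + C * |Real.log (qk k τ)| + 2 * C + |C'|) * X ^ η := by
    have g1 : C' ≤ |C'| * X ^ η := (le_abs_self _).trans (le_mul_of_one_le_right (abs_nonneg _) hη1)
    have g2 : C * Real.log (Real.log X / qk k τ) ≤ C * Real.log X * X ^ η + C * |Real.log (qk k τ)| * X ^ η := by
      calc C * Real.log (Real.log X / qk k τ) ≤ C * (Real.log X + |Real.log (qk k τ)|) := by gcongr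
        _ ≤ C * (Real.log X + |Real.log (qk k τ)|) * X ^ η :=
            le_mul_of_one_le_right (by positivity) hη1
        _ = _ := by ring
    have g3 : 0 ≤ C * |(qk k τ)⁻¹| := by positivity
    have g4 : 0 ≤ C * |Real.log (qk k τ)| := by positivity
    have g5 : C * Real.log X * X ^ η ≤
        (C * |(qk k τ)⁻¹| + C * |Real.log (qk k τ)| + 2 * C + |C'|) * Real.log X * X ^ η := by
      have : C ≤ C * |(qk k τ)⁻¹| + C * |Real.log (qk k τ)| + 2 * C + |C'| := by
        have := abs_nonneg C'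
        linarith
      gcongr
    have g6 : C * |Real.log (qk k τ)| * X ^ η + C * X ^ η + |C'| * X ^ η ≤
        (C * |(qk k τ)⁻¹| + C * |Real.log (qk k τ)| + 2 * C + |C'|) * X ^ η := by
      rw [← add_mul, ← add_mul]
      apply mul_le_mul_of_nonneg_right _ hη0.le
      linarith
    linarith
  refine h6.trans (h7.trans ?_)
  calc _ = X ^ η * ((C * |(qk k τ)⁻¹| + C * |Real.log (qk k τ)| + 2 * C + |C'|) * Real.log X +
        (C * |(qk k τ)⁻¹| + C * |Real.log (qk k τ)| + 2 * C + |C'|)) := by ring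
    _ ≤ _ := mul_le_mul_of_nonneg_left h3 hη0.le

/-- the converse for the growth -/
theorem wk_rev (hk : 1 < k) (hF : IsLSeries a b F) (τ : ℝ) {η : ℝ} (hη : 0 ≤ η)
    (h : ∀ ε : ℝ, 0 < ε → ∀ᶠ X : ℝ in atTop, ‖wk a b k τ X‖ ≤ X ^ (η + ε))
    {w : ℂ} (hw : w ∈ Sec k τ) (hw0 : F (1 + w) = 0) : rate k τ w ≤ η := by
  have hq := qk_pos k τ
  have hwd : dl (bt k τ) * (w / dl (bt k τ)) = w := mul_div_cancel₀ _ (dl_ne _)
  have hz : w / dl (bt k τ) ∈ Sk k := by
    rw [← sec_iff hk τ, hwd]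
    exact hw
  obtain ⟨C', hC'⟩ := wk_ff hk hF
  have h1 := grow_conv hk (k_bt_lt hk τ) (dat_curve hF) (PhiF_fin hF) (η := η * qk k τ)
    (by positivity) (fun ε hε => by
      have h2 : 0 < ε / qk k τ / 2 := by positivity
      have h3 := (X_tendsto k τ).eventually ((h _ h2).and ((eventually_gt_atTop 1).and
        (log_small (|C'| + 1) h2)))
      filter_upwards [h3, eventually_gt_atTop 0] with T h4 h5
      obtain ⟨h6, h7, h8⟩ := h4
      have h9 := hC' τ _ h7
      rw [Real.log_exp, mul_div_cancel_right₀ _ hq.ne'] at h9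
      rw [Real.log_exp] at h8
      set X := Real.exp (T * qk k τ) with hX
      have hX0 : 0 < X := Real.exp_pos _
      have e1 : ff (fun p : ℕ => Real.log p) (cf a b) k (bt k τ) T = wk a b k τ X - (wk a b k τ X -
        ff (fun p : ℕ => Real.log p) (cf a b) k (bt k τ) T) := by ring
      rw [e1]
      refine (norm_sub_le _ _).trans ((add_le_add h6 h9).trans ?_)
      have e2 : Real.exp ((η * qk k τ + ε) * T) = X ^ (η + ε / qk k τ / 2) * X ^ (ε / qk k τ / 2) := by
        rw [← Real.rpow_add hX0, hX, ← Real.exp_mul]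
        congr 1
        field_simp
        ring
      rw [e2]
      have g1 : 1 ≤ X ^ (η + ε / qk k τ / 2) := Real.one_le_rpow h7.le (by positivity)
      have g2 : 0 ≤ (|C'| + 1) * (T * qk k τ) := by positivity
      have g3 : 1 + |C'| ≤ X ^ (ε / qk k τ / 2) := by linarith
      calc _ ≤ X ^ (η + ε / qk k τ / 2) + X ^ (η + ε / qk k τ / 2) * |C'| := by
            have g4 : |C'| ≤ X ^ (η + ε / qk k τ / 2) * |C'| :=
              le_mul_of_one_le_left (abs_nonneg _) g1
            have := le_abs_self C'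
            linarith
        _ = X ^ (η + ε / qk k τ / 2) * (1 + |C'|) := by ring
        _ ≤ _ := by gcongr) hz (by rw [hwd]; exact (PhiF_zero _ (sec_re hk hw).le).2 hw0)
  rw [← rate_eq hk τ hz, hwd] at h1
  exact le_of_mul_le_mul_right h1 hq

theorem ff_real (lam c : ℕ → ℝ) (k T : ℝ) : ff lam c k 0 T = ((ff lam c k 0 T).re : ℂ) := by
  have h1 : ∀ i, (c i : ℂ) * EE k (sk k 0 (rh k T)) (lam i) =
      ((c i * Real.exp (-((rh k T) ^ k * lam i ^ k)) : ℝ) : ℂ) := by
    intro i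
    unfold EE sk
    rw [mul_zero, Complex.ofReal_zero, zero_mul, Complex.exp_zero, one_mul]
    push_cast
    rfl
  unfold ff fk
  simp only [h1]
  rw [← Complex.ofReal_tsum, Complex.ofReal_re]

/-- the one-sided converse for the growth -/
theorem wk_one (hk : 1 < k) (hF : IsLSeries a b F) {η : ℝ} (hη : 0 ≤ η)
    (h : ∀ ε : ℝ, 0 < ε → ∀ᶠ X : ℝ in atTop, (wk a b k 0 X).re ≤ X ^ (η + ε))
    {w : ℂ} (hw : w ∈ Sec k 0) (hw0 : F (1 + w) = 0) : rate k 0 w ≤ η := by
  have hd : dl 0 = 1 := by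
    unfold dl
    simp
  have hz : w ∈ Sk k := by
    have h1 := sec_iff hk 0 w
    rw [bt_zero, hd, one_mul] at h1
    exact h1.1 hw
  obtain ⟨C', hC'⟩ := wk_ff hk hF
  have h1 := grow_one hk (dat_curve hF) (PhiF_fin hF) hη (fun T _ => ff_real _ _ _ _)
    (fun ε hε => by
      have h2 : 0 < ε / 2 := by positivity
      have h3 := (X_tendsto k 0).eventually ((h _ h2).and ((eventually_gt_atTop 1).and
        (log_small (|C'| + 1) h2)))
      filter_upwards [h3, eventually_gt_atTop 0] with T h4 h5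
      obtain ⟨h6, h7, h8⟩ := h4
      have h9 := hC' 0 _ h7
      rw [Real.log_exp, qk_zero, mul_one, div_one, bt_zero] at h9
      rw [Real.log_exp, qk_zero, mul_one] at h8
      rw [qk_zero, mul_one] at h6 h7
      set X := Real.exp T with hX
      have hX0 : 0 < X := Real.exp_pos _
      have h10 := (Complex.abs_re_le_norm _).trans h9
      rw [Complex.sub_re, abs_le] at h10
      have e2 : Real.exp ((η + ε) * T) = X ^ (η + ε / 2) * X ^ (ε / 2) := by
        rw [← Real.rpow_add hX0, hX, ← Real.exp_mul]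
        congr 1
        ring
      rw [e2]
      have g1 : 1 ≤ X ^ (η + ε / 2) := Real.one_le_rpow h7.le (by positivity)
      have g2 : 0 ≤ (|C'| + 1) * T := by positivity
      have g3 : 1 + |C'| ≤ X ^ (ε / 2) := by linarith
      have g4 : |C'| ≤ X ^ (η + ε / 2) * |C'| := le_mul_of_one_le_left (abs_nonneg _) g1
      have g5 := le_abs_self C'
      calc _ ≤ X ^ (η + ε / 2) + X ^ (η + ε / 2) * |C'| := by linarith [h10.1]
        _ = X ^ (η + ε / 2) * (1 + |C'|) := by ring
        _ ≤ _ := by gcongr) hz (by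
      rw [hd, one_mul]
      exact (PhiF_zero _ (sec_re hk hw).le).2 hw0)
  have h2 := rate_eq hk 0 hz
  rw [bt_zero, hd, one_mul, qk_zero, mul_one] at h2
  rw [h2]
  exact h1

end Pool.Agent.D0H40.KX
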