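import Pool.Agent.D0H40.KX.Geo

/-! The explicit formula, abstract form. -/

set_option autoImplicit false

namespace Pool.Agent.D0H40.KX

open Complex MeasureTheory Filter Topology Set
open Pool.Agent.D0H40.GC (Dat factor)

variable {k β : ℝ} {lam c : ℕ → ℝ} {G Φ : ℂ → ℂ}

theorem beta_lt (hk : 1 < k) (hβ : |k * β| < Real.pi / 2) : fc k < Real.pi / 2 - |β| := by
  have hk0 : 0 < k := by linarith
  rw [fc_eq hk]
  have h1 : |β| < Real.pi / (2 * k) := by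
    rw [lt_div_iff₀ (by positivity)]
    rw [abs_mul, abs_of_pos hk0] at hβ
    linarith
  linarith

/-- The finite set of the zeros in a slightly larger sector has no members outside the closed sector. -/
theorem exists_phi (hk : 1 < k) (hβ : |k * β| < Real.pi / 2) (D : Dat lam c G Φ)
    (hne : ∃ z, Φ z ≠ 0) : ∃ φ, fc k < φ ∧ φ < Real.pi / 2 - |β| ∧
      ∀ z : ℂ, |arg z| ≤ φ → Φ (dl β * z) = 0 → |arg z| ≤ fc k := by
  have hfc := fc_pos hk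
  have hlt := beta_lt hk hβ
  obtain ⟨φ₁, h1, h2⟩ := exists_between hlt
  obtain ⟨ψ, P⟩ := exists_par hk h1 h2
  have hfin := cone_fin P D hne
  have hφ₁ : φ₁ < Real.pi / 2 := by linarith [abs_nonneg β]
  have h3 : ∀ᶠ φ : ℝ in 𝓝[>] (fc k), ∀ z ∈ hfin.toFinset, fc k < |arg z| → φ < |arg z| := by
    rw [Finset.eventually_all]
    intro z _
    by_cases hz : fc k < |arg z|
    · exact ((eventually_lt_nhds hz).filter_mono nhdsWithin_le_nhds).mono fun φ hφ _ => hφ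
    · exact Eventually.of_forall fun φ h => absurd h hz
  have h4 : ∀ᶠ φ : ℝ in 𝓝[>] (fc k), φ < φ₁ := (eventually_lt_nhds h1).filter_mono nhdsWithin_le_nhds
  obtain ⟨φ, h5, h6, h7⟩ := (h3.and (h4.and self_mem_nhdsWithin)).exists
  have h7' : fc k < φ := h7
  refine ⟨φ, h7', h6.trans h2, fun z hz h0 => ?_⟩
  by_contra hc
  push Not at hc
  have h8 : z ∈ hfin.toFinset := by
    rw [Set.Finite.mem_toFinset]
    exact ⟨(cone_arg (by linarith) hφ₁ z).2 (hz.trans h6.le), h0⟩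
  exact absurd (h5 z h8 hc) (by linarith)

theorem sk_finite (hk : 1 < k) (hβ : |k * β| < Real.pi / 2) (D : Dat lam c G Φ) (hne : ∃ z, Φ z ≠ 0) :
    {z : ℂ | z ∈ Sk k ∧ Φ (dl β * z) = 0}.Finite := by
  have hfc := fc_pos hk
  obtain ⟨φ, h1, h2, -⟩ := exists_phi hk hβ D hne
  obtain ⟨ψ, P⟩ := exists_par hk h1 h2
  have hφ : φ < Real.pi / 2 := by linarith [abs_nonneg β]
  refine (cone_fin P D hne).subset fun z hz => ⟨?_, hz.2⟩
  exact (cone_arg (by linarith) hφ z).2 (hz.1.2.le.trans h1.le)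

/-- **The explicit formula**, abstract form. -/
theorem expl_k (hk : 1 < k) (hβ : |k * β| < Real.pi / 2) (D : Dat lam c G Φ)
    (hfin : ∀ w, ∃ n : ℕ, analyticOrderAt Φ w = n)
    {m : ℕ} (hm : analyticOrderAt Φ 0 = m) (Z : Finset ℂ)
    (hZ : ∀ z, z ∈ Z ↔ z ∈ Sk k ∧ Φ (dl β * z) = 0) :
    ∃ C ρ₀ : ℝ, 0 < ρ₀ ∧ ∀ ρ : ℝ, 0 < ρ → ρ ≤ ρ₀ → ‖fk lam c k (sk k β ρ) -
      (-((m : ℂ) * (Real.log ρ : ℝ)) +
        ∑ z ∈ Z, (analyticOrderNatAt Φ (dl β * z) : ℂ) * (Ak k (z / ρ) 1 - (Real.log ρ : ℝ)))‖ ≤ C := by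
  classical
  have hfc := fc_pos hk
  have hd0 := dl_ne β
  have hne : ∃ z, Φ z ≠ 0 := ⟨3, fun h0 => by
    have := D.eq 3 (by norm_num)
    rw [h0] at this
    exact Complex.exp_ne_zero _ this⟩
  obtain ⟨φ, h1, h2, hφ3⟩ := exists_phi hk hβ D hne
  have hφ : φ < Real.pi / 2 := by linarith [abs_nonneg β]
  have hφ0 : 0 < φ := by linarith
  obtain ⟨ψ, P⟩ := exists_par hk h1 h2
  set t := Real.tan φ with ht
  have hcf := cone_fin P D hne
  -- the zeros in the closed cone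
  set Y : Finset ℂ := hcf.toFinset.filter (fun z => z ≠ 0) with hY
  have hYm : ∀ z, z ∈ Y ↔ (|z.im| ≤ t * z.re ∧ Φ (dl β * z) = 0) ∧ z ≠ 0 := by
    intro z
    rw [hY, Finset.mem_filter, Set.Finite.mem_toFinset]
    rfl
  have hYarg : ∀ z ∈ Y, |arg z| ≤ fc k := by
    intro z hz
    have h3 := ((hYm z).1 hz).1
    exact hφ3 z ((cone_arg hφ0 hφ z).1 h3.1) h3.2
  have hinj : Set.InjOn (fun z => dl β * z) (Y : Set ℂ) := fun z _ w _ h => mul_left_cancel₀ hd0 h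
  set B : Finset ℂ := Y.image (fun z => dl β * z) with hB
  have hBm : ∀ b, b ∈ B ↔ ∃ z, z ∈ Y ∧ dl β * z = b := by
    intro b
    rw [hB, Finset.mem_image]
  have h0B : (0 : ℂ) ∉ B := by
    rw [hBm]
    rintro ⟨z, hz, hz2⟩
    rcases mul_eq_zero.1 hz2 with h1 | h1
    · exact hd0 h1
    · exact ((hYm z).1 hz).2 h1
  obtain ⟨g, hg1, hg2, hg3⟩ := factor D.Φd hfin (insert 0 B)
  have hord0 : analyticOrderNatAt Φ 0 = m := by
    unfold analyticOrderNatAt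
    rw [hm]
    rfl
  have hfac : ∀ w, Φ w = w ^ m * (∏ b ∈ B, (w - b) ^ analyticOrderNatAt Φ b) * g w := by
    intro w
    rw [hg2 w, Finset.prod_insert h0B, hord0, sub_zero]
  have hB2 : ∀ b ∈ B, b.re ≤ 2 := by
    intro b hb
    obtain ⟨z, hz, rfl⟩ := (hBm b).1 hb
    by_contra hc
    push Not at hc
    have := D.eq _ hc
    rw [((hYm z).1 hz).1.2] at this
    exact Complex.exp_ne_zero _ this
  have hgne : ∀ z : ℂ, |z.im| ≤ t * z.re → g (dl β * z) ≠ 0 := by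
    intro z hz h0
    have h1 : Φ (dl β * z) = 0 := by rw [hfac, h0, mul_zero]
    by_cases hz0 : z = 0
    · subst hz0
      rw [mul_zero] at h0
      exact hg3 0 (Finset.mem_insert_self _ _) h0
    · have h2 : dl β * z ∈ B := (hBm _).2 ⟨z, (hYm z).2 ⟨⟨hz, h1⟩, hz0⟩, rfl⟩
      exact hg3 _ (Finset.mem_insert_of_mem h2) h0
  obtain ⟨C, ρ₁, hρ₁, hC⟩ := expl1 P D B (analyticOrderNatAt Φ) hg1 hfac hB2 hgne
  obtain ⟨C₁, hC₁⟩ := Ak_neg_one P
  -- each zero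
  have hone : ∀ z : ℂ, ∃ K r : ℝ, 0 < r ∧ (z ∈ Y → ∀ ρ : ℝ, 0 < ρ → ρ ≤ r →
      ‖(Ak k (z / ρ) 1 - (Real.log ρ : ℝ)) -
        if z ∈ Sk k then (Ak k (z / ρ) 1 - (Real.log ρ : ℝ)) else 0‖ ≤ K) := by
    intro z
    by_cases hz : z ∈ Y
    · by_cases hs : z ∈ Sk k
      · refine ⟨0, 1, one_pos, fun _ ρ _ _ => ?_⟩
        rw [if_pos hs, sub_self, norm_zero]
      · have hz0 := ((hYm z).1 hz).2
        have h3 : |arg z| = fc k := by
          refine le_antisymm (hYarg z hz) ?_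
          by_contra hc
          push Not at hc
          exact hs ⟨hz0, hc⟩
        obtain ⟨K, r, hr, hK⟩ := bdry_zero hk hz0 h3
        refine ⟨K, r, hr, fun _ ρ h4 h5 => ?_⟩
        rw [if_neg hs, sub_zero]
        exact hK ρ h4 h5
    · exact ⟨0, 1, one_pos, fun h => absurd h hz⟩
  choose K r hr hK using hone
  obtain ⟨r₀, hr₀, hr₀'⟩ : ∃ r₀ : ℝ, 0 < r₀ ∧ ∀ z ∈ Y, r₀ ≤ r z := by
    have h3 : ∀ᶠ x : ℝ in 𝓝[>] 0, ∀ z ∈ Y, x ≤ r z := by
      rw [Finset.eventually_all]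
      intro z _
      exact ((eventually_lt_nhds (hr z)).filter_mono nhdsWithin_le_nhds).mono fun x hx => hx.le
    obtain ⟨x, h4, h5⟩ := (h3.and self_mem_nhdsWithin).exists
    exact ⟨x, h5, h4⟩
  have hZY : Z = Y.filter (fun z => z ∈ Sk k) := by
    ext z
    rw [hZ, Finset.mem_filter, hYm]
    constructor
    · rintro ⟨h3, h4⟩
      exact ⟨⟨⟨(cone_arg hφ0 hφ z).2 (h3.2.le.trans h1.le), h4⟩, h3.1⟩, h3⟩
    · rintro ⟨⟨⟨-, h4⟩, -⟩, h3⟩
      exact ⟨h3, h4⟩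
  set N : ℕ := m + ∑ b ∈ B, analyticOrderNatAt Φ b with hN
  refine ⟨C + N * C₁ + ∑ z ∈ Y, (analyticOrderNatAt Φ (dl β * z) : ℝ) * K z,
    min ρ₁ (min 1 r₀), by positivity, fun ρ hρ hρ1 => ?_⟩
  have hρa : ρ ≤ ρ₁ := hρ1.trans (min_le_left _ _)
  have hρb : ρ ≤ 1 := hρ1.trans ((min_le_right _ _).trans (min_le_left _ _))
  have hρc : ρ ≤ r₀ := hρ1.trans ((min_le_right _ _).trans (min_le_right _ _))
  have g1 := hC ρ hρ hρa
  have g2 := hC₁ ρ hρ hρb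
  have e1 : ∑ z ∈ Z, (analyticOrderNatAt Φ (dl β * z) : ℂ) * (Ak k (z / ρ) 1 - (Real.log ρ : ℝ)) =
      ∑ z ∈ Y, (analyticOrderNatAt Φ (dl β * z) : ℂ) *
        (if z ∈ Sk k then (Ak k (z / ρ) 1 - (Real.log ρ : ℝ)) else 0) := by
    rw [hZY, Finset.sum_filter]
    refine Finset.sum_congr rfl fun z _ => ?_
    split_ifs <;> simp
  have e2 : ∑ b ∈ B, (analyticOrderNatAt Φ b : ℂ) * Ak k b (sk k β ρ) =
      ∑ z ∈ Y, (analyticOrderNatAt Φ (dl β * z) : ℂ) * Ak k (z / ρ) 1 := by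
    rw [hB, Finset.sum_image hinj]
    refine Finset.sum_congr rfl fun z _ => ?_
    rw [Ak_sk P hρ]
  have e3 : ((N : ℕ) : ℂ) * (Real.log ρ : ℝ) = (m : ℂ) * (Real.log ρ : ℝ) +
      ∑ z ∈ Y, (analyticOrderNatAt Φ (dl β * z) : ℂ) * (Real.log ρ : ℝ) := by
    rw [hN, hB, Finset.sum_image hinj]
    push_cast
    rw [add_mul, Finset.sum_mul]
  rw [e1]
  rw [e2] at g1
  set f := fk lam c k (sk k β ρ) with hf
  set A := Ak k (-1) (sk k β ρ) with hA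
  set SA := ∑ z ∈ Y, (analyticOrderNatAt Φ (dl β * z) : ℂ) * Ak k (z / ρ) 1 with hSA
  set SL := ∑ z ∈ Y, (analyticOrderNatAt Φ (dl β * z) : ℂ) * (Real.log ρ : ℝ) with hSL
  set SI := ∑ z ∈ Y, (analyticOrderNatAt Φ (dl β * z) : ℂ) *
        (if z ∈ Sk k then (Ak k (z / ρ) 1 - (Real.log ρ : ℝ)) else 0) with hSI
  have e4 : f - (-((m : ℂ) * (Real.log ρ : ℝ)) + SI) = (f - (SA - (N : ℂ) * A)) -
      (N : ℂ) * (A - (Real.log ρ : ℝ)) + (SA - SL - SI) := by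
    rw [mul_sub, e3]
    ring
  have e5 : SA - SL - SI = ∑ z ∈ Y, (analyticOrderNatAt Φ (dl β * z) : ℂ) *
      ((Ak k (z / ρ) 1 - (Real.log ρ : ℝ)) -
        if z ∈ Sk k then (Ak k (z / ρ) 1 - (Real.log ρ : ℝ)) else 0) := by
    rw [hSA, hSL, hSI, ← Finset.sum_sub_distrib, ← Finset.sum_sub_distrib]
    refine Finset.sum_congr rfl fun z _ => ?_
    ring
  rw [e4, e5]
  refine (norm_add_le _ _).trans (add_le_add ((norm_sub_le _ _).trans (add_le_add g1 ?_)) ?_)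
  · rw [norm_mul, Complex.norm_natCast]
    gcongr
  · refine (norm_sum_le _ _).trans (Finset.sum_le_sum fun z hz => ?_)
    rw [norm_mul, Complex.norm_natCast]
    exact mul_le_mul_of_nonneg_left (hK z hz ρ hρ (hρc.trans (hr₀' z hz))) (Nat.cast_nonneg _)

end Pool.Agent.D0H40.KX
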