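import Pool.Agent.D0H40.KX.CurveK2

/-! The geometry of the sectors; the threshold. -/

set_option autoImplicit false

namespace Pool.Agent.D0H40.KX

open Complex MeasureTheory Filter Topology Set Classical
open Pool.Agent.W263.BSD

variable {a b : ℤ} {F : ℂ → ℂ} {k : ℝ}

theorem fc_mono {k k' : ℝ} (hk : 1 < k) (h : k ≤ k') : fc k ≤ fc k' := by
  unfold fc
  have h1 : 1 / k' ≤ 1 / k := one_div_le_one_div_of_le (by linarith) h
  have := Real.pi_pos
  gcongr

theorem sec_mono {k k' : ℝ} (hk : 1 < k) (h : k ≤ k') : Sec k 0 ⊆ Sec k' 0 := by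
  intro w hw
  refine ⟨hw.1, ?_⟩
  have h1 := hw.2
  rw [bt_zero] at h1 ⊢
  exact h1.trans_le (fc_mono hk h)

theorem fc_atTop : Tendsto fc atTop (𝓝 (Real.pi / 2)) := by
  unfold fc
  have h1 : Tendsto (fun k : ℝ => 1 / k) atTop (𝓝 0) := tendsto_const_nhds.div_atTop tendsto_id
  have h2 := (h1.const_sub 1).const_mul (Real.pi / 2)
  rwa [sub_zero, mul_one] at h2

/-- the sectors exhaust the half-plane -/
theorem mem_sec_large {w : ℂ} (hw : 0 < w.re) : ∀ᶠ k : ℝ in atTop, w ∈ Sec k 0 := by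
  have h0 : w ≠ 0 := by
    rintro rfl
    simp at hw
  have h1 : |arg w| < Real.pi / 2 := Complex.abs_arg_lt_pi_div_two_iff.2 (Or.inl hw)
  filter_upwards [fc_atTop.eventually (eventually_gt_nhds h1)] with k hk
  refine ⟨h0, ?_⟩
  rw [bt_zero, sub_zero]
  exact hk

/-- for fixed `k` the sectors of all directions exhaust the half-plane -/
theorem mem_sec_dir (hk : 1 < k) {w : ℂ} (hw : 0 < w.re) : ∃ τ : ℝ, w ∈ Sec k τ := by
  have h0 : w ≠ 0 := by
    rintro rfl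
    simp at hw
  have h1 : |arg w| < Real.pi / 2 := Complex.abs_arg_lt_pi_div_two_iff.2 (Or.inl hw)
  have h2 := abs_lt.1 h1
  refine ⟨Real.tan (arg w), h0, ?_⟩
  unfold bt fc
  rw [Real.arctan_tan h2.1 h2.2]
  have h3 : 0 < 1 - 1 / k := by
    have : 1 / k < 1 := by
      rw [div_lt_one (by linarith)]
      exact hk
    linarith
  have e : arg w - arg w / k = arg w * (1 - 1 / k) := by ring
  rw [e, abs_mul, abs_of_pos h3]
  gcongr

theorem real_mem_sec (hk : 1 < k) {x : ℝ} (hx : 0 < x) : (x : ℂ) ∈ Sec k 0 := by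
  refine ⟨by exact_mod_cast hx.ne', ?_⟩
  rw [bt_zero, sub_zero, Complex.arg_ofReal_of_nonneg hx.le, abs_zero]
  exact fc_pos hk

/-- **The threshold.** -/
theorem threshold (hF : IsLSeries a b F) (hRH : ¬ ∀ w : ℂ, 0 < w.re → F (1 + w) ≠ 0) :
    ∃ kc : ℝ, 1 ≤ kc ∧ (1 < kc ↔ ∀ x : ℝ, 0 < x → F (1 + x) ≠ 0) ∧
      ∀ k : ℝ, 1 < k → ((∀ w ∈ Sec k 0, F (1 + w) ≠ 0) ↔ k ≤ kc) := by
  push Not at hRH
  obtain ⟨w₀, hw₀, hw₀'⟩ := hRH
  set K : Set ℝ := {k | 1 < k ∧ ∀ w ∈ Sec k 0, F (1 + w) ≠ 0} with hK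
  have hdown : ∀ k k' : ℝ, 1 < k → k ≤ k' → k' ∈ K → k ∈ K := fun k k' hk h hk' =>
    ⟨hk, fun w hw => hk'.2 w (sec_mono hk h hw)⟩
  have hbdd : BddAbove K := by
    obtain ⟨k₁, hk₁⟩ := (eventually_atTop.1 (mem_sec_large hw₀))
    refine ⟨k₁, fun k hk => ?_⟩
    by_contra hc
    push Not at hc
    exact hk.2 w₀ (hk₁ k hc.le) hw₀'
  by_cases hreal : ∀ x : ℝ, 0 < x → F (1 + x) ≠ 0
  · obtain ⟨k₀, hk₀, hk₀'⟩ := free_real hF hreal
    have hne : K.Nonempty := ⟨k₀, hk₀, hk₀' k₀ hk₀ le_rfl⟩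
    have hle : k₀ ≤ sSup K := le_csSup hbdd ⟨hk₀, hk₀' k₀ hk₀ le_rfl⟩
    refine ⟨sSup K, by linarith, ⟨fun _ => hreal, fun _ => by linarith⟩, fun k hk =>
      ⟨fun h => le_csSup hbdd ⟨hk, h⟩, fun h => ?_⟩⟩
    rcases h.lt_or_eq with h1 | h1
    · obtain ⟨k', hk', hkk'⟩ := exists_lt_of_lt_csSup hne h1
      exact (hdown k k' hk hkk'.le hk').2
    · intro w hw
      have h2 : |arg w| < fc k := by
        have := hw.2
        rwa [bt_zero, sub_zero] at this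
      have h3 : ContinuousAt fc k := by
        unfold fc
        have : k ≠ 0 := by linarith
        fun_prop (disch := assumption)
      have h4 : ∀ᶠ k'' in 𝓝[<] k, |arg w| < fc k'' :=
        (h3.tendsto.mono_left nhdsWithin_le_nhds).eventually (eventually_gt_nhds h2)
      have h5 : ∀ᶠ k'' in 𝓝[<] k, 1 < k'' :=
        (eventually_gt_nhds hk).filter_mono nhdsWithin_le_nhds
      obtain ⟨k'', h6, h7, h8⟩ := (h4.and (h5.and self_mem_nhdsWithin)).exists
      have h8' : k'' < sSup K := by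
        rw [← h1]
        exact h8
      obtain ⟨k', hk', hkk'⟩ := exists_lt_of_lt_csSup hne h8'
      refine (hdown k'' k' h7 hkk'.le hk').2 w ⟨hw.1, ?_⟩
      rw [bt_zero, sub_zero]
      exact h6
  · have hreal' := hreal
    push Not at hreal
    obtain ⟨x, hx, hx0⟩ := hreal
    refine ⟨1, le_rfl, ⟨fun h => absurd h (lt_irrefl _), fun h => absurd h hreal'⟩, fun k hk =>
      ⟨fun h => absurd hx0 (h _ (real_mem_sec hk hx)), fun h => absurd h (by linarith)⟩⟩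

end Pool.Agent.D0H40.KX
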