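import Pool.Agent.D0H40.KX.KExpl

/-! Turning and scaling the contribution of a zero. -/

set_option autoImplicit false

namespace Pool.Agent.D0H40.KX

open Complex MeasureTheory Filter Topology Set
open Pool.Agent.D0H40.GC (hb hb_le hb_meas)
open scoped ComplexConjugate

variable {k β t ψ : ℝ}

/-- the entire function `(e^{bv} - 1)/v` -/
noncomputable def hE (b v : ℂ) : ℂ := dslope (fun v : ℂ => exp (b * v)) 0 v

theorem hE_of_ne {b v : ℂ} (hv : v ≠ 0) : hE b v = (exp (b * v) - 1) / v := by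
  unfold hE
  rw [dslope_of_ne _ hv, slope_def_module, sub_zero, mul_zero, Complex.exp_zero, smul_eq_mul]
  field_simp

theorem hE_zero (b : ℂ) : hE b 0 = b := by
  unfold hE
  rw [dslope_same]
  have h1 : HasDerivAt (fun v : ℂ => exp (b * v)) (exp (b * 0) * b) 0 := by
    have := ((hasDerivAt_id (0:ℂ)).const_mul b).cexp
    simpa using this
  rw [h1.deriv]
  simp

theorem hE_diff (b : ℂ) : Differentiable ℂ (hE b) := by
  unfold hE
  rw [← differentiableOn_univ, Complex.differentiableOn_dslope univ_mem]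
  exact Differentiable.differentiableOn (by fun_prop)

theorem hE_norm (b v : ℂ) : ‖hE b v‖ ≤ ‖b‖ * Real.exp (‖b‖ * ‖v‖) := by
  by_cases hv : v = 0
  · rw [hv, hE_zero]
    simp
  · rw [hE_of_ne hv, norm_div, div_le_iff₀ (norm_pos_iff.2 hv)]
    refine (GC.norm_exp_sub_one_le _).trans ?_
    have h1 : max 0 (b * v).re ≤ ‖b‖ * ‖v‖ := by
      refine max_le (by positivity) ?_
      rw [← norm_mul]
      exact Complex.re_le_norm _
    rw [norm_mul]
    calc ‖b‖ * ‖v‖ * Real.exp (max 0 (b * v).re) ≤ ‖b‖ * ‖v‖ * Real.exp (‖b‖ * ‖v‖) := by gcongr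
      _ = _ := by ring

theorem Ak_rot (hk : 1 < k) {α ψ : ℝ} (hα : |α| < Real.pi / 2) (hψ : |α + k * ψ| < Real.pi / 2)
    (b : ℂ) : Ak k b (exp (α * I)) = Ak k (b * exp (ψ * I)) (exp ((α + k * ψ : ℝ) * I)) := by
  have h1 := rot (h := hE b) hk (hE_diff b) (fun v => hE_norm b v) (norm_nonneg b) hα hψ
  have e1 : Ak k b (exp (α * I)) = ∫ u in Ioi (0:ℝ), hE b u * EE k (exp (α * I)) u := by
    unfold Ak
    refine setIntegral_congr_fun measurableSet_Ioi fun u hu => ?_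
    have hu' : (u : ℂ) ≠ 0 := by
      have : (0:ℝ) < u := hu
      exact_mod_cast this.ne'
    rw [hE_of_ne hu']
    rfl
  rw [e1, h1]
  unfold Ak
  refine setIntegral_congr_fun measurableSet_Ioi fun u hu => ?_
  have hu' : (u : ℂ) ≠ 0 := by
    have : (0:ℝ) < u := hu
    exact_mod_cast this.ne'
  have hne : exp (ψ * I) ≠ 0 := Complex.exp_ne_zero _
  rw [hE_of_ne (mul_ne_zero hne hu')]
  unfold hb
  congr 1
  rw [mul_div_mul_left _ _ hne |>.symm, mul_assoc b]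
  field_simp

theorem Ak_scale (k : ℝ) {r : ℝ} (hr : 0 < r) (b κ : ℂ) :
    Ak k b κ = Ak k (b * r) (κ * (r ^ k : ℝ)) := by
  unfold Ak
  have hrc : (r : ℂ) ≠ 0 := by exact_mod_cast hr.ne'
  have h1 := integral_comp_mul_left_Ioi (fun v : ℝ => hb b v * EE k κ v) 0 hr
  rw [mul_zero, Complex.real_smul, Complex.ofReal_inv] at h1
  have h2 : ∫ u in Ioi (0:ℝ), hb b u * EE k κ u =
      r * ∫ x in Ioi (0:ℝ), hb b (r * x) * EE k κ (r * x) := by
    rw [h1, ← mul_assoc, mul_inv_cancel₀ hrc, one_mul]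
  rw [h2, ← integral_const_mul]
  refine setIntegral_congr_fun measurableSet_Ioi fun u hu => ?_
  have hu0 : (0:ℝ) ≤ u := le_of_lt hu
  have hu' : (u : ℂ) ≠ 0 := by
    have : (0:ℝ) < u := hu
    exact_mod_cast this.ne'
  unfold hb EE
  rw [Real.mul_rpow hr.le hu0]
  have e1 : (b * ((r * u : ℝ) : ℂ)) = b * r * u := by push_cast; ring
  have e2 : (-(κ * ((r ^ k * u ^ k : ℝ) : ℂ))) = -(κ * (r ^ k : ℝ) * ((u ^ k : ℝ) : ℂ)) := by
    push_cast; ring
  rw [e1, e2]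
  push_cast
  field_simp

/-- the contribution in the turned variable -/
theorem Ak_sk (P : Par k β t ψ) {ρ : ℝ} (hρ : 0 < ρ) (z : ℂ) :
    Ak k (dl β * z) (sk k β ρ) = Ak k (z / ρ) 1 := by
  have hρc : (ρ : ℂ) ≠ 0 := by exact_mod_cast hρ.ne'
  have h1 := Ak_scale k hρ (dl β * z / ρ) (exp ((k * β : ℝ) * I))
  rw [div_mul_cancel₀ _ hρc] at h1
  unfold sk
  rw [← h1, Ak_rot P.hk (α := k * β) (ψ := -β) P.kβ (by
    rw [mul_neg, add_neg_cancel, abs_zero]; positivity), mul_neg, add_neg_cancel,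
    Complex.ofReal_zero, zero_mul, Complex.exp_zero]
  congr 1
  unfold dl
  have : exp (β * I) * exp ((-β : ℝ) * I) = 1 := by
    rw [← Complex.exp_add]
    simp
  have e : exp (β * I) * z / ρ * exp ((-β : ℝ) * I) = (exp (β * I) * exp ((-β : ℝ) * I)) * z / ρ := by
    ring
  rw [e, this, one_mul]

theorem norm_exp_sub_one_le' {z : ℂ} (hz : z.re ≤ 0) : ‖exp z - 1‖ ≤ ‖z‖ := by
  have := GC.norm_exp_sub_one_le z
  rwa [max_eq_left hz, Real.exp_zero, mul_one] at this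

theorem EE_sub_one {k : ℝ} {κ : ℂ} (hκ : 0 ≤ κ.re) {u : ℝ} (hu : 0 ≤ u) :
    ‖EE k κ u - 1‖ ≤ ‖κ‖ * u ^ k := by
  have huk : 0 ≤ u ^ k := Real.rpow_nonneg hu _
  unfold EE
  refine (norm_exp_sub_one_le' ?_).trans ?_
  · rw [Complex.neg_re, Complex.re_mul_ofReal]
    have : 0 ≤ κ.re * u ^ k := by positivity
    linarith
  · rw [norm_neg, norm_mul, Complex.norm_real, Real.norm_eq_abs, abs_of_nonneg huk]

theorem EE_le_one {k : ℝ} {κ : ℂ} (hκ : 0 ≤ κ.re) {u : ℝ} (hu : 0 ≤ u) : ‖EE k κ u‖ ≤ 1 := by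
  have huk : 0 ≤ u ^ k := Real.rpow_nonneg hu _
  rw [EE_norm]
  apply Real.exp_le_one_iff.2
  have : 0 ≤ κ.re * u ^ k := by positivity
  linarith

/-- the pointwise bound -/
theorem neg_pt1 (hk : 1 < k) {κ : ℂ} {ρ c u : ℝ} (hρ : 0 < ρ) (hρ1 : ρ ≤ 1) (hc : 0 < c)
    (hκ : κ.re = c * ρ ^ k) (hκn : ‖κ‖ = ρ ^ k) (hu : 0 < u) :
    ‖hb (-1) u * EE k κ u + (((Ioc 1 ρ⁻¹).indicator (fun u : ℝ => u⁻¹) u : ℝ) : ℂ)‖ ≤
      (Ioc 0 1).indicator (fun _ => (1:ℝ)) u + Real.exp (-(1 * u)) +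
        (Ioc 0 ρ⁻¹).indicator (fun u => ρ ^ k * u ^ (k - 1)) u + 2 * ρ * Real.exp (-(c * ρ * u)) := by
  have hu' : (u : ℂ) ≠ 0 := by exact_mod_cast hu.ne'
  have hρk : 0 < ρ ^ k := Real.rpow_pos_of_pos hρ _
  have hκ0 : 0 ≤ κ.re := by rw [hκ]; positivity
  have hE := EE_le_one (k := k) hκ0 hu.le
  have hbn : ‖exp (-1 * (u : ℂ))‖ = Real.exp (-(1 * u)) := by
    rw [Complex.norm_exp, Complex.re_mul_ofReal, Complex.neg_re, Complex.one_re]
    congr 1
    ring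
  have hb1 : ‖exp (-1 * (u : ℂ))‖ ≤ 1 := by
    rw [hbn]
    apply Real.exp_le_one_iff.2
    linarith
  have hRinv : 1 ≤ ρ⁻¹ := (one_le_inv₀ hρ).2 hρ1
  by_cases h1 : u ≤ 1
  · have e1 : (Ioc 1 ρ⁻¹).indicator (fun u : ℝ => u⁻¹) u = 0 :=
      indicator_of_notMem (fun h => by linarith [h.1]) _
    have e2 : (Ioc (0:ℝ) 1).indicator (fun _ => (1:ℝ)) u = 1 :=
      indicator_of_mem (show u ∈ Ioc (0:ℝ) 1 from ⟨hu, h1⟩) _
    rw [e1, e2, Complex.ofReal_zero, add_zero, norm_mul]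
    have h2 : ‖hb (-1) u‖ ≤ 1 := by
      have := hb_le (b := -1) le_rfl (by simp) hu
      simpa using this
    have h3 : 0 ≤ (Ioc 0 ρ⁻¹).indicator (fun u => ρ ^ k * u ^ (k - 1)) u := by
      refine indicator_nonneg (fun v hv => ?_) _
      have := Real.rpow_nonneg hv.1.le (k - 1)
      positivity
    have h4 : ‖hb (-1) u‖ * ‖EE k κ u‖ ≤ 1 * 1 := mul_le_mul h2 hE (norm_nonneg _) zero_le_one
    have h5 : 0 < Real.exp (-(1 * u)) := Real.exp_pos _
    have h6 : 0 ≤ 2 * ρ * Real.exp (-(c * ρ * u)) := by positivity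
    linarith
  · push Not at h1
    have e2 : (Ioc (0:ℝ) 1).indicator (fun _ => (1:ℝ)) u = 0 :=
      indicator_of_notMem (fun h => by linarith [h.2]) _
    rw [e2]
    by_cases h2 : u ≤ ρ⁻¹
    · have e1 : (Ioc 1 ρ⁻¹).indicator (fun u : ℝ => u⁻¹) u = u⁻¹ :=
        indicator_of_mem (show u ∈ Ioc (1:ℝ) ρ⁻¹ from ⟨h1, h2⟩) _
      have e3 : (Ioc 0 ρ⁻¹).indicator (fun u => ρ ^ k * u ^ (k - 1)) u = ρ ^ k * u ^ (k - 1) :=
        indicator_of_mem (show u ∈ Ioc (0:ℝ) ρ⁻¹ from ⟨hu, h2⟩) _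
      rw [e1, e3]
      have e4 : hb (-1) u * EE k κ u + ((u⁻¹ : ℝ) : ℂ) =
          (exp (-1 * u) * EE k κ u - (EE k κ u - 1)) / u := by
        unfold hb
        push_cast
        field_simp
        ring
      rw [e4, norm_div, Complex.norm_real, Real.norm_eq_abs, abs_of_pos hu, div_le_iff₀ hu]
      have h5 := EE_sub_one (k := k) hκ0 hu.le
      rw [hκn] at h5
      have h6 : ‖exp (-1 * (u : ℂ))‖ * ‖EE k κ u‖ ≤ Real.exp (-(1 * u)) * 1 := by
        rw [hbn]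
        gcongr
      have h7 : ‖exp (-1 * u) * EE k κ u - (EE k κ u - 1)‖ ≤ Real.exp (-(1 * u)) + ρ ^ k * u ^ k := by
        refine (norm_sub_le _ _).trans (add_le_add ?_ h5)
        rw [norm_mul]
        linarith
      have h8 : 0 < Real.exp (-(1 * u)) := Real.exp_pos _
      have h9 : 0 ≤ 2 * ρ * Real.exp (-(c * ρ * u)) * u := by positivity
      have h10 : Real.exp (-(1 * u)) ≤ Real.exp (-(1 * u)) * u := le_mul_of_one_le_right h8.le h1.le
      have h11 : u ^ k = u ^ (k - 1) * u := by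
        rw [← Real.rpow_add_one hu.ne']
        congr 1
        ring
      rw [h11] at h7
      calc _ ≤ _ := h7
        _ ≤ Real.exp (-(1 * u)) * u + ρ ^ k * (u ^ (k - 1) * u) + 2 * ρ * Real.exp (-(c * ρ * u)) * u := by
            linarith
        _ = _ := by ring
    · push Not at h2
      have e1 : (Ioc 1 ρ⁻¹).indicator (fun u : ℝ => u⁻¹) u = 0 :=
        indicator_of_notMem (fun h => by linarith [h.2]) _
      have e3 : (Ioc 0 ρ⁻¹).indicator (fun u => ρ ^ k * u ^ (k - 1)) u = 0 :=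
        indicator_of_notMem (fun h => by linarith [h.2]) _
      rw [e1, e3, Complex.ofReal_zero, add_zero, norm_mul]
      have hρu : 1 ≤ ρ * u := by
        have := mul_le_mul_of_nonneg_left h2.le hρ.le
        rwa [mul_inv_cancel₀ hρ.ne'] at this
      have h3 : ‖hb (-1) u‖ ≤ 2 * ρ := by
        unfold hb
        rw [norm_div, Complex.norm_real, Real.norm_eq_abs, abs_of_pos hu, div_le_iff₀ hu]
        have h4 : ‖exp (-1 * (u : ℂ)) - 1‖ ≤ 2 := by
          refine (norm_sub_le _ _).trans ?_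
          rw [norm_one]
          linarith
        linarith
      have h5 : ‖EE k κ u‖ ≤ Real.exp (-(c * ρ * u)) := by
        rw [EE_norm, hκ]
        apply Real.exp_le_exp.2
        have h6 : ρ * u ≤ (ρ * u) ^ k := by
          have := Real.rpow_le_rpow_of_exponent_le hρu hk.le
          rwa [Real.rpow_one] at this
        rw [Real.mul_rpow hρ.le hu.le] at h6
        have h7 := mul_le_mul_of_nonneg_left h6 hc.le
        linarith
      have h6 : ‖hb (-1) u‖ * ‖EE k κ u‖ ≤ 2 * ρ * Real.exp (-(c * ρ * u)) :=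
        mul_le_mul h3 h5 (norm_nonneg _) (by positivity)
      have h8 : 0 < Real.exp (-(1 * u)) := Real.exp_pos _
      linarith

/-- `Ak` at `-1` -/
theorem Ak_neg_one (P : Par k β t ψ) : ∃ C : ℝ, ∀ ρ : ℝ, 0 < ρ → ρ ≤ 1 →
    ‖Ak k (-1) (sk k β ρ) - (Real.log ρ : ℝ)‖ ≤ C := by
  have hc := P.cos_kβ
  set c : ℝ := Real.cos (k * β) with hcd
  have hk0 := P.k0
  refine ⟨1 + 1 + 1 / k + 2 / c, fun ρ hρ hρ1 => ?_⟩
  have hRinv : 1 ≤ ρ⁻¹ := (one_le_inv₀ hρ).2 hρ1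
  have hR0 : 0 < ρ⁻¹ := by positivity
  have hρk : 0 < ρ ^ k := Real.rpow_pos_of_pos hρ _
  set κ : ℂ := sk k β ρ with hκ
  have hκre : κ.re = c * ρ ^ k := by rw [hκ, sk_re]
  have hκn : ‖κ‖ = ρ ^ k := by
    rw [hκ]
    unfold sk
    rw [norm_mul, norm_exp_I, one_mul, Complex.norm_real, Real.norm_eq_abs, abs_of_pos hρk]
  have hκ0 : 0 < κ.re := by rw [hκre]; positivity
  obtain ⟨hi1, hi2⟩ : IntegrableOn (fun u : ℝ => u⁻¹) (Ioc 1 ρ⁻¹) ∧
      ∫ u in Ioc (1:ℝ) ρ⁻¹, u⁻¹ = Real.log ρ⁻¹ := by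
    have h0 : (0:ℝ) ∉ uIcc 1 ρ⁻¹ := by
      rw [uIcc_of_le hRinv]
      rintro ⟨h, _⟩
      linarith
    constructor
    · have := (intervalIntegral.intervalIntegrable_inv (f := fun u : ℝ => u) (μ := volume)
        (a := 1) (b := ρ⁻¹) (fun x hx h => h0 (h ▸ hx)) continuousOn_id).1
      exact this
    · rw [← intervalIntegral.integral_of_le hRinv, integral_inv h0, div_one]
  have hk1 : -1 < k - 1 := by linarith
  have hj : IntervalIntegrable (fun u : ℝ => u ^ (k - 1)) volume 0 ρ⁻¹ :=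
    intervalIntegral.intervalIntegrable_rpow' hk1
  have hj2 : ∫ u in Ioc (0:ℝ) ρ⁻¹, u ^ (k - 1) = (ρ⁻¹) ^ k / k := by
    rw [← intervalIntegral.integral_of_le hR0.le, integral_rpow (Or.inl hk1), sub_add_cancel,
      Real.zero_rpow hk0.ne', sub_zero]
  have hsub : Ioc 1 ρ⁻¹ ⊆ Ioi (0:ℝ) := fun u hu => by
    have := hu.1
    show (0:ℝ) < u
    linarith
  have hind : ∫ u in Ioi (0:ℝ), (((Ioc 1 ρ⁻¹).indicator (fun u : ℝ => u⁻¹) u : ℝ) : ℂ) =
      (Real.log ρ⁻¹ : ℝ) := by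
    rw [integral_complex_ofReal, setIntegral_indicator measurableSet_Ioc,
      inter_eq_self_of_subset_right hsub, hi2]
  have hindi : IntegrableOn (fun u => (((Ioc 1 ρ⁻¹).indicator (fun u : ℝ => u⁻¹) u : ℝ) : ℂ))
      (Ioi (0:ℝ)) := by
    refine Integrable.ofReal ?_
    refine Integrable.integrableOn ?_
    exact (integrable_indicator_iff measurableSet_Ioc).2 hi1
  have e0 : Ak k (-1) κ - (Real.log ρ : ℝ) = ∫ u in Ioi (0:ℝ), (hb (-1) u * EE k κ u +
      (((Ioc 1 ρ⁻¹).indicator (fun u : ℝ => u⁻¹) u : ℝ) : ℂ)) := by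
    rw [integral_add (hbE_int P.hk (-1) hκ0) hindi, hind, Real.log_inv]
    unfold Ak
    push_cast
    ring
  rw [e0]
  have g1 : IntegrableOn ((Ioc (0:ℝ) 1).indicator (fun _ => (1:ℝ))) (Ioi 0) := by
    refine Integrable.integrableOn ?_
    refine (integrable_indicator_iff measurableSet_Ioc).2 ?_
    exact integrableOn_const (by simp)
  have g3 : IntegrableOn ((Ioc (0:ℝ) ρ⁻¹).indicator (fun u => ρ ^ k * u ^ (k - 1))) (Ioi 0) := by
    refine Integrable.integrableOn ?_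
    refine (integrable_indicator_iff measurableSet_Ioc).2 ?_
    exact hj.1.const_mul _
  have hcρ : 0 < c * ρ := by positivity
  have g4 : IntegrableOn (fun u : ℝ => 2 * ρ * Real.exp (-(c * ρ * u))) (Ioi 0) :=
    (int_exp_neg' hcρ).const_mul _
  have i1 : ∫ u in Ioi (0:ℝ), (Ioc (0:ℝ) 1).indicator (fun _ => (1:ℝ)) u = 1 := by
    rw [setIntegral_indicator measurableSet_Ioc,
      inter_eq_self_of_subset_right (Ioc_subset_Ioi_self), setIntegral_const]
    simp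
  have i3 : ∫ u in Ioi (0:ℝ), (Ioc (0:ℝ) ρ⁻¹).indicator (fun u => ρ ^ k * u ^ (k - 1)) u = 1 / k := by
    rw [setIntegral_indicator measurableSet_Ioc,
      inter_eq_self_of_subset_right (Ioc_subset_Ioi_self), integral_const_mul, hj2,
      Real.inv_rpow hρ.le]
    field_simp
  have i4 : ∫ u in Ioi (0:ℝ), 2 * ρ * Real.exp (-(c * ρ * u)) = 2 / c := by
    rw [integral_const_mul, integral_exp_neg' hcρ]
    field_simp
  have hk2 := integral_exp_neg' one_pos
  rw [inv_one] at hk2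
  have g2 := int_exp_neg' one_pos
  have g12 : IntegrableOn (fun u : ℝ => (Ioc (0:ℝ) 1).indicator (fun _ => (1:ℝ)) u +
      Real.exp (-(1 * u))) (Ioi 0) := g1.add g2
  have g123 : IntegrableOn (fun u : ℝ => (Ioc (0:ℝ) 1).indicator (fun _ => (1:ℝ)) u +
      Real.exp (-(1 * u)) + (Ioc 0 ρ⁻¹).indicator (fun u => ρ ^ k * u ^ (k - 1)) u) (Ioi 0) :=
    g12.add g3
  calc _ ≤ ∫ u in Ioi (0:ℝ), ((Ioc 0 1).indicator (fun _ => (1:ℝ)) u + Real.exp (-(1 * u)) +
        (Ioc 0 ρ⁻¹).indicator (fun u => ρ ^ k * u ^ (k - 1)) u + 2 * ρ * Real.exp (-(c * ρ * u))) := by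
        refine norm_integral_le_of_norm_le (g123.add g4) ?_
        exact (ae_restrict_iff' measurableSet_Ioi).2 (Eventually.of_forall fun u hu =>
          neg_pt1 P.hk hρ hρ1 hc hκre hκn hu)
    _ = _ := by
        rw [integral_add g123 g4, integral_add g12 g3, integral_add g1 g2, i1, i3, i4, hk2]

end Pool.Agent.D0H40.KX
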