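import Pool.Agent.D0H40.KX.Bdz

/-! The asymptotics of the contribution of a zero in the open sector. -/

set_option autoImplicit false

namespace Pool.Agent.D0H40.KX

open Complex MeasureTheory Filter Topology Set
open Pool.Agent.D0H40.GC (hb hb_le hb_meas)

variable {k : ℝ}

/-- the phase -/
noncomputable def DD (k x : ℝ) : ℝ := x ^ k - k * x + (k - 1)

theorem D_low (hk : 1 < k) {x : ℝ} (hx : 0 ≤ x) : (k - 1) * (√x - 1) ^ 2 ≤ DD k x := by
  unfold DD
  have hk0 : k ≠ 0 := by linarith
  rcases hx.eq_or_lt with h | h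
  · rw [← h, Real.zero_rpow hk0, Real.sqrt_zero]
    apply le_of_eq
    ring
  · have hs : 0 < √x := Real.sqrt_pos.2 h
    have hss : √x * √x = x := Real.mul_self_sqrt h.le
    have h1 : x ^ k = x * Real.exp ((k - 1) * Real.log x) := by
      rw [pow_split h, Real.rpow_def_of_pos h, mul_comm, mul_comm (Real.log x)]
    have h2 : 1 + (k - 1) * Real.log x ≤ Real.exp ((k - 1) * Real.log x) := by
      have := Real.add_one_le_exp ((k - 1) * Real.log x)
      linarith
    have h3 : 1 - (√x)⁻¹ ≤ Real.log (√x) := Real.one_sub_inv_le_log_of_pos hs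
    have h4 : Real.log x = 2 * Real.log (√x) := by
      rw [Real.log_sqrt h.le]
      ring
    have h5 : x * (√x)⁻¹ = √x := by
      nth_rewrite 1 [← hss]
      rw [mul_assoc, mul_inv_cancel₀ hs.ne', mul_one]
    have h6 : x - √x ≤ x * Real.log (√x) := by
      have := mul_le_mul_of_nonneg_left h3 h.le
      rw [mul_sub, h5, mul_one] at this
      exact this
    have h7 : x * (1 + (k - 1) * Real.log x) ≤ x ^ k := by
      rw [h1]
      exact mul_le_mul_of_nonneg_left h2 h.le
    have h8 : (k - 1) * (x - √x) ≤ (k - 1) * (x * Real.log (√x)) :=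
      mul_le_mul_of_nonneg_left h6 (by linarith)
    rw [h4] at h7
    have h9 : (√x - 1) ^ 2 = x - 2 * √x + 1 := by
      rw [sub_sq, sq, hss]
      ring
    rw [h9]
    linarith

theorem D_scaled (hk : 1 < k) {μ y : ℝ} (hμ : 1 ≤ μ) (hy : 0 ≤ 1 + y / √μ) :
    (k - 1) * ((|y| - 2) / 2) ≤ μ * DD k (1 + y / √μ) := by
  have hμ0 : 0 < μ := by linarith
  have hsμ : 0 < √μ := Real.sqrt_pos.2 hμ0
  have hsμ1 : 1 ≤ √μ := Real.one_le_sqrt.2 hμ
  have hssμ : √μ * √μ = μ := Real.mul_self_sqrt hμ0.le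
  set x := 1 + y / √μ with hx
  have h1 := D_low hk hy
  have hs : 0 ≤ √x := Real.sqrt_nonneg _
  have hss : √x * √x = x := Real.mul_self_sqrt hy
  have h2 : (|y| - 2) / 2 ≤ μ * (√x - 1) ^ 2 := by
    have h3 : (√x - 1) * (√x + 1) = y / √μ := by
      have : (√x - 1) * (√x + 1) = √x * √x - 1 := by ring
      rw [this, hss, hx]
      ring
    have h4 : μ * ((√x - 1) ^ 2) * (√x + 1) ^ 2 = y ^ 2 := by
      have : μ * ((√x - 1) ^ 2) * (√x + 1) ^ 2 = μ * ((√x - 1) * (√x + 1)) ^ 2 := by ring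
      rw [this, h3, div_pow, Real.sq_sqrt hμ0.le]
      field_simp
    have h5 : (√x + 1) ^ 2 ≤ 4 + 2 * |y| := by
      have h6 : (√x + 1) ^ 2 ≤ 2 * (x + 1) := by
        have := sq_nonneg (√x - 1)
        nlinarith
      have h7 : x ≤ 1 + |y| := by
        rw [hx]
        have : y / √μ ≤ |y| := by
          rw [div_le_iff₀ hsμ]
          calc y ≤ |y| := le_abs_self y
            _ ≤ |y| * √μ := le_mul_of_one_le_right (abs_nonneg _) hsμ1
        linarith
      linarith
    have h6 : 0 < 4 + 2 * |y| := by positivity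
    have h7 : y ^ 2 ≤ μ * ((√x - 1) ^ 2) * (4 + 2 * |y|) := by
      rw [← h4]
      gcongr
    have h8 : (|y| - 2) / 2 * (4 + 2 * |y|) ≤ y ^ 2 := by
      rw [← sq_abs]
      nlinarith
    have h9 : (|y| - 2) / 2 * (4 + 2 * |y|) ≤ μ * ((√x - 1) ^ 2) * (4 + 2 * |y|) := h8.trans h7
    exact le_of_mul_le_mul_right h9 h6
  calc _ ≤ (k - 1) * (μ * (√x - 1) ^ 2) := mul_le_mul_of_nonneg_left h2 (by linarith)
    _ = μ * ((k - 1) * (√x - 1) ^ 2) := by ring
    _ ≤ _ := by gcongr

/-- the second order expansion -/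
theorem D_taylor (hk : 1 < k) : Tendsto (fun h : ℝ => DD k (1 + h) / h ^ 2) (𝓝[≠] 0)
    (𝓝 (k * (k - 1) / 2)) := by
  have hpos : ∀ᶠ h : ℝ in 𝓝[≠] 0, 0 < 1 + h := by
    have h1 : ∀ᶠ h : ℝ in 𝓝 0, -1 < h := eventually_gt_nhds (by norm_num)
    exact (h1.mono fun h hh => by linarith).filter_mono nhdsWithin_le_nhds
  have hd : ∀ {p h : ℝ}, 0 < 1 + h → HasDerivAt (fun h : ℝ => (1 + h) ^ p) (p * (1 + h) ^ (p - 1)) h := by
    intro p h hh
    have h1 := (Real.hasDerivAt_rpow_const (p := p) (Or.inl hh.ne')).comp_const_add 1 h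
    exact h1
  refine HasDerivAt.lhopital_zero_nhdsNE (f' := fun h => k * ((1 + h) ^ (k - 1) - 1))
    (g' := fun h => 2 * h) ?_ ?_ ?_ ?_ ?_ ?_
  · filter_upwards [hpos] with h hh
    have h1 := ((hd (p := k) hh).sub (((hasDerivAt_id h).const_add 1).const_mul k)).add_const (k - 1)
    unfold DD
    refine h1.congr_deriv ?_
    ring
  · refine Eventually.of_forall fun h => ?_
    have := hasDerivAt_pow 2 h
    simpa using this
  · filter_upwards [self_mem_nhdsWithin] with h hh
    exact mul_ne_zero two_ne_zero hh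
  · have h1 : ContinuousAt (fun h : ℝ => DD k (1 + h)) 0 := by
      unfold DD
      have := (hd (p := k) (h := 0) (by norm_num)).continuousAt
      fun_prop (disch := norm_num)
    have h2 := h1.tendsto
    have h3 : DD k (1 + 0) = 0 := by
      unfold DD
      rw [add_zero, Real.one_rpow]
      ring
    rw [h3] at h2
    exact h2.mono_left nhdsWithin_le_nhds
  · have h1 : Continuous fun h : ℝ => h ^ 2 := by fun_prop
    have h2 := h1.tendsto 0
    simp only [ne_eq, OfNat.ofNat_ne_zero, not_false_eq_true, zero_pow] at h2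
    exact h2.mono_left nhdsWithin_le_nhds
  · have h1 := (hd (p := k - 1) (h := 0) (by norm_num))
    rw [add_zero, Real.one_rpow, mul_one, hasDerivAt_iff_tendsto_slope] at h1
    have h2 := h1.const_mul (k / 2)
    have e : k / 2 * (k - 1) = k * (k - 1) / 2 := by ring
    rw [e] at h2
    refine h2.congr' ?_
    filter_upwards [self_mem_nhdsWithin] with h hh
    have hh' : h ≠ 0 := hh
    rw [slope_def_field, sub_zero, add_zero, Real.one_rpow]
    field_simp

theorem int_exp_abs {a : ℝ} (ha : 0 < a) : Integrable fun y : ℝ => Real.exp (-(a * |y|)) := by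
  have h1 : ∫ y : ℝ, Real.exp (-(a * |y|)) = 2 * a⁻¹ := by
    have := integral_comp_abs (f := fun y : ℝ => Real.exp (-(a * y)))
    rw [this, integral_exp_neg' ha]
  exact Integrable.of_integral_ne_zero (by rw [h1]; positivity)

/-- the main part -/
theorem main_part (hk : 1 < k) {κ : ℂ} (hκ : 0 < κ.re) :
    Tendsto (fun μ : ℝ => (√μ : ℂ) * ∫ u in Ioi (1 / 2 : ℝ), exp (-(κ * μ * (DD k u : ℝ))) / u) atTop
      (𝓝 ((Real.pi / (κ * (k * (k - 1) / 2 : ℝ))) ^ (1 / 2 : ℂ))) := by
  have hk1 : 0 < k - 1 := by linarith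
  have hk0 : 0 < k := by linarith
  set g : ℝ → ℝ → ℂ := fun μ u => (Ioi (1 / 2 : ℝ)).indicator
    (fun u : ℝ => exp (-(κ * μ * (DD k u : ℝ))) / u) u with hg
  have hDm : Measurable (DD k) := by
    unfold DD
    fun_prop
  have hgm : ∀ μ, Measurable (g μ) := by
    intro μ
    refine Measurable.indicator ?_ measurableSet_Ioi
    fun_prop
  have h1 : ∀ᶠ μ : ℝ in atTop, (√μ : ℂ) * ∫ u in Ioi (1 / 2 : ℝ), exp (-(κ * μ * (DD k u : ℝ))) / u =
      ∫ y : ℝ, g μ (1 + y / √μ) := by
    filter_upwards [eventually_gt_atTop 0] with μ hμ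
    have hs : 0 < √μ := Real.sqrt_pos.2 hμ
    have e1 : ∫ y : ℝ, g μ (1 + y / √μ) = ∫ y : ℝ, (fun x => g μ (1 + x)) ((√μ)⁻¹ * y) := by
      refine integral_congr_ae (Eventually.of_forall fun y => ?_)
      simp only
      rw [div_eq_inv_mul]
    have e2 := Measure.integral_comp_mul_left (fun x => g μ (1 + x)) (√μ)⁻¹
    rw [e1, e2, inv_inv, abs_of_pos hs, integral_add_left_eq_self (fun x => g μ x) 1, hg]
    simp only
    rw [integral_indicator measurableSet_Ioi, Complex.real_smul]
  refine Tendsto.congr' (EventuallyEq.symm h1) ?_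
  have hre : 0 < (κ * ((k * (k - 1) / 2 : ℝ) : ℂ)).re := by
    rw [Complex.re_mul_ofReal]
    positivity
  have hlim := integral_gaussian_complex hre
  rw [← hlim]
  set a : ℝ := κ.re * (k - 1) / 2 with ha
  have ha0 : 0 < a := by positivity
  refine tendsto_integral_filter_of_dominated_convergence
    (fun y => 2 * Real.exp (κ.re * (k - 1)) * Real.exp (-(a * |y|))) ?_ ?_ ?_ ?_
  · refine Eventually.of_forall fun μ => ?_
    exact ((hgm μ).comp (by fun_prop)).aestronglyMeasurable
  · filter_upwards [eventually_ge_atTop 1] with μ hμ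
    refine Eventually.of_forall fun y => ?_
    by_cases hy : 1 / 2 < 1 + y / √μ
    · have e1 : g μ (1 + y / √μ) = exp (-(κ * μ * (DD k (1 + y / √μ) : ℝ))) / ((1 + y / √μ : ℝ) : ℂ) :=
        indicator_of_mem (show 1 + y / √μ ∈ Ioi (1 / 2 : ℝ) from hy) _
      rw [e1, norm_div, Complex.norm_real, Real.norm_eq_abs, abs_of_pos (by linarith),
        div_le_iff₀ (by linarith), Complex.norm_exp]
      have e2 : (-(κ * μ * ((DD k (1 + y / √μ) : ℝ) : ℂ))).re = -(κ.re * (μ * DD k (1 + y / √μ))) := by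
        rw [Complex.neg_re, Complex.re_mul_ofReal, Complex.re_mul_ofReal]
        ring
      rw [e2]
      have h3 := D_scaled hk (y := y) hμ (by linarith)
      have h4 : Real.exp (-(κ.re * (μ * DD k (1 + y / √μ)))) ≤
          Real.exp (κ.re * (k - 1)) * Real.exp (-(a * |y|)) := by
        rw [← Real.exp_add]
        apply Real.exp_le_exp.2
        have h5 := mul_le_mul_of_nonneg_left h3 hκ.le
        have h6 : κ.re * ((k - 1) * ((|y| - 2) / 2)) = a * |y| - κ.re * (k - 1) := by
          rw [ha]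
          ring
        rw [h6] at h5
        linarith
      refine h4.trans ?_
      have h5 : 0 < Real.exp (κ.re * (k - 1)) * Real.exp (-(a * |y|)) := by positivity
      have h6 : 1 ≤ 2 * (1 + y / √μ) := by linarith
      calc _ ≤ Real.exp (κ.re * (k - 1)) * Real.exp (-(a * |y|)) * (2 * (1 + y / √μ)) :=
            le_mul_of_one_le_right h5.le h6
        _ = _ := by ring
    · have e1 : g μ (1 + y / √μ) = 0 := indicator_of_notMem (show 1 + y / √μ ∉ Ioi (1 / 2 : ℝ) from hy) _
      rw [e1, norm_zero]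
      positivity
  · exact (int_exp_abs ha0).const_mul _
  · refine Eventually.of_forall fun y => ?_
    have hs : Tendsto (fun μ : ℝ => √μ) atTop atTop := Real.tendsto_sqrt_atTop
    have hyμ : Tendsto (fun μ : ℝ => y / √μ) atTop (𝓝 0) := by
      have := hs.inv_tendsto_atTop.const_mul y
      rw [mul_zero] at this
      exact this
    have hxμ : Tendsto (fun μ : ℝ => 1 + y / √μ) atTop (𝓝 1) := by
      have := hyμ.const_add 1
      rwa [add_zero] at this
    have h3 : ∀ᶠ μ : ℝ in atTop, 1 / 2 < 1 + y / √μ :=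
      hxμ.eventually (eventually_gt_nhds (by norm_num))
    have hDl : Tendsto (fun μ : ℝ => μ * DD k (1 + y / √μ)) atTop (𝓝 (k * (k - 1) / 2 * y ^ 2)) := by
      by_cases hy0 : y = 0
      · subst hy0
        have e : ∀ μ : ℝ, μ * DD k (1 + 0 / √μ) = 0 := by
          intro μ
          unfold DD
          rw [zero_div, add_zero, Real.one_rpow]
          ring
        simp only [e]
        simp
      · have h4 : Tendsto (fun μ : ℝ => y / √μ) atTop (𝓝[≠] 0) := by
          rw [tendsto_nhdsWithin_iff]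
          refine ⟨hyμ, ?_⟩
          filter_upwards [eventually_gt_atTop 0] with μ hμ
          exact div_ne_zero hy0 (Real.sqrt_pos.2 hμ).ne'
        have h5 := ((D_taylor hk).comp h4).mul_const (y ^ 2)
        refine h5.congr' ?_
        filter_upwards [eventually_gt_atTop 0] with μ hμ
        have hs0 : 0 < √μ := Real.sqrt_pos.2 hμ
        simp only [Function.comp_apply]
        rw [div_pow, Real.sq_sqrt hμ.le]
        field_simp
    have h4 : Tendsto (fun μ : ℝ => exp (-(κ * ((μ * DD k (1 + y / √μ) : ℝ) : ℂ))) /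
        ((1 + y / √μ : ℝ) : ℂ)) atTop
        (𝓝 (exp (-(κ * ((k * (k - 1) / 2 * y ^ 2 : ℝ) : ℂ))) / ((1 : ℝ) : ℂ))) := by
      refine Tendsto.div ?_ ?_ (by simp)
      · have h5 : Continuous fun v : ℝ => exp (-(κ * (v : ℂ))) := by fun_prop
        exact (h5.tendsto _).comp hDl
      · exact (Complex.continuous_ofReal.tendsto 1).comp hxμ
    have e5 : exp (-(κ * ((k * (k - 1) / 2 * y ^ 2 : ℝ) : ℂ))) / ((1 : ℝ) : ℂ) =
        exp (-(κ * ((k * (k - 1) / 2 : ℝ) : ℂ)) * (y : ℂ) ^ 2) := by
      rw [Complex.ofReal_one, div_one]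
      congr 1
      push_cast
      ring
    rw [e5] at h4
    refine h4.congr' ?_
    filter_upwards [h3] with μ hμ
    have e1 : g μ (1 + y / √μ) = exp (-(κ * μ * (DD k (1 + y / √μ) : ℝ))) / ((1 + y / √μ : ℝ) : ℂ) :=
      indicator_of_mem (show 1 + y / √μ ∈ Ioi (1 / 2 : ℝ) from hμ) _
    rw [e1]
    congr 3
    push_cast
    ring

end Pool.Agent.D0H40.KX
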