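import Pool.Agent.D0H40.KX.Asy

/-! The asymptotics of the contribution of a zero in the open sector: the result. -/

set_option autoImplicit false

namespace Pool.Agent.D0H40.KX

open Complex MeasureTheory Filter Topology Set
open Pool.Agent.D0H40.GC (hb hb_le hb_meas)

variable {k : ℝ}

/-- the constant in the asymptotics -/
noncomputable def Gk (k : ℝ) (κ : ℂ) : ℂ := (Real.pi / (κ * (k * (k - 1) / 2 : ℝ))) ^ (1 / 2 : ℂ)

theorem Gk_ne (hk : 1 < k) {κ : ℂ} (hκ : 0 < κ.re) : Gk k κ ≠ 0 := by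
  unfold Gk
  have h1 : κ ≠ 0 := by
    rintro rfl
    simp at hκ
  have h2 : ((k * (k - 1) / 2 : ℝ) : ℂ) ≠ 0 := by
    have : 0 < k * (k - 1) / 2 := by
      have : 0 < k - 1 := by linarith
      positivity
    exact_mod_cast this.ne'
  have h3 : (Real.pi : ℂ) ≠ 0 := by exact_mod_cast Real.pi_ne_zero
  rw [Ne, Complex.cpow_eq_zero_iff]
  rintro ⟨h, -⟩
  exact div_ne_zero h3 (mul_ne_zero h1 h2) h

theorem Gk_one (hk : 1 < k) : ∃ g : ℝ, 0 < g ∧ Gk k 1 = g := by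
  have h1 : 0 < k * (k - 1) / 2 := by
    have : 0 < k - 1 := by linarith
    positivity
  refine ⟨(Real.pi / (k * (k - 1) / 2)) ^ (1 / 2 : ℝ), by positivity, ?_⟩
  unfold Gk
  rw [one_mul, ← Complex.ofReal_div, Complex.ofReal_cpow (by positivity)]
  norm_num

theorem J1_le (hk : 1 < k) {κ : ℂ} (hκ : 0 < κ.re) {μ : ℝ} (hμ : 0 < μ) :
    ‖∫ u in Ioc (0:ℝ) (1 / 2), hb (k * (κ * μ)) u * EE k (κ * μ) u‖ ≤
      k * ‖κ‖ * μ * Real.exp (κ.re * μ * ((k - 1) * (1 - (√(1 / 2) - 1) ^ 2))) * (1 / 2) := by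
  have hk0 : 0 < k := by linarith
  have hν : 0 < (κ * μ).re := by
    rw [Complex.re_mul_ofReal]
    positivity
  have hre : (κ * μ).re = κ.re * μ := Complex.re_mul_ofReal _ _
  have h3 : ∀ u ∈ Ioc (0:ℝ) (1 / 2), ‖hb (k * (κ * μ)) u * EE k (κ * μ) u‖ ≤
      k * ‖κ‖ * μ * Real.exp (κ.re * μ * ((k - 1) * (1 - (√(1 / 2) - 1) ^ 2))) := by
    intro u hu
    have hu0 := hu.1
    have h4 := hb_le (b := k * (κ * μ)) (σ := k * (κ.re * μ)) (by positivity)
      (by rw [Complex.re_ofReal_mul, hre]) hu0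
    have hn : ‖(k * (κ * μ) : ℂ)‖ = k * ‖κ‖ * μ := by
      rw [norm_mul, norm_mul, Complex.norm_real, Complex.norm_real, Real.norm_eq_abs,
        Real.norm_eq_abs, abs_of_pos hk0, abs_of_pos hμ]
      ring
    rw [hn] at h4
    rw [norm_mul, EE_norm, hre]
    have h5 : Real.exp (k * (κ.re * μ) * u) * Real.exp (-(κ.re * μ * u ^ k)) ≤
        Real.exp (κ.re * μ * ((k - 1) * (1 - (√(1 / 2) - 1) ^ 2))) := by
      rw [← Real.exp_add]
      apply Real.exp_le_exp.2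
      have h6 := D_low hk hu0.le
      have h7 : (√(1 / 2) - 1) ^ 2 ≤ (√u - 1) ^ 2 := by
        have h8 : √u ≤ √(1 / 2) := Real.sqrt_le_sqrt hu.2
        have h9 : √(1 / 2 : ℝ) ≤ 1 := Real.sqrt_le_one.2 (by norm_num)
        nlinarith
      have h8 : (k - 1) * (√(1 / 2) - 1) ^ 2 ≤ (k - 1) * (√u - 1) ^ 2 :=
        mul_le_mul_of_nonneg_left h7 (by linarith)
      unfold DD at h6
      have h9 : k * u - u ^ k ≤ (k - 1) * (1 - (√(1 / 2) - 1) ^ 2) := by
        rw [mul_sub, mul_one]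
        linarith
      calc k * (κ.re * μ) * u + -(κ.re * μ * u ^ k) = κ.re * μ * (k * u - u ^ k) := by ring
        _ ≤ _ := mul_le_mul_of_nonneg_left h9 (by positivity)
    calc _ ≤ (k * ‖κ‖ * μ * Real.exp (k * (κ.re * μ) * u)) * Real.exp (-(κ.re * μ * u ^ k)) := by
          gcongr
      _ = k * ‖κ‖ * μ * (Real.exp (k * (κ.re * μ) * u) * Real.exp (-(κ.re * μ * u ^ k))) := by ring
      _ ≤ _ := by gcongr
  refine (norm_setIntegral_le_of_norm_le_const (by simp) h3).trans ?_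
  rw [Real.volume_real_Ioc]
  norm_num

theorem J3_le (hk : 1 < k) {κ : ℂ} (hκ : 0 < κ.re) : ∃ K : ℝ, ∀ μ : ℝ, 1 ≤ μ →
    ‖∫ u in Ioi (1 / 2 : ℝ), exp (-(κ * μ * ((u ^ k : ℝ) : ℂ))) / u‖ ≤ K := by
  have h1 := (int_dom hk hκ 0).mono_set (Ioi_subset_Ioi (show (0:ℝ) ≤ 1 / 2 by norm_num))
  refine ⟨∫ u in Ioi (1 / 2 : ℝ), 2 * Real.exp (0 * u - κ.re * u ^ k), fun μ hμ => ?_⟩
  refine norm_integral_le_of_norm_le (h1.const_mul 2)
    ((ae_restrict_iff' measurableSet_Ioi).2 (Eventually.of_forall fun u hu => ?_))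
  have hu2 : 1 / 2 < u := hu
  have hu0 : 0 < u := by linarith
  have huk : 0 ≤ u ^ k := Real.rpow_nonneg hu0.le _
  rw [norm_div, Complex.norm_real, Real.norm_eq_abs, abs_of_pos hu0, div_le_iff₀ hu0,
    Complex.norm_exp, Complex.neg_re, Complex.re_mul_ofReal, Complex.re_mul_ofReal, zero_mul, zero_sub]
  have h2 : Real.exp (-(κ.re * μ * u ^ k)) ≤ Real.exp (-(κ.re * u ^ k)) := by
    apply Real.exp_le_exp.2
    have : κ.re * u ^ k ≤ κ.re * μ * u ^ k := by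
      rw [mul_assoc]
      exact mul_le_mul_of_nonneg_left (le_mul_of_one_le_left huk hμ) hκ.le
    linarith
  have h3 : 0 < Real.exp (-(κ.re * u ^ k)) := Real.exp_pos _
  have h4 : 1 ≤ 2 * u := by linarith
  calc _ ≤ Real.exp (-(κ.re * u ^ k)) := h2
    _ ≤ Real.exp (-(κ.re * u ^ k)) * (2 * u) := le_mul_of_one_le_right h3.le h4
    _ = _ := by ring

theorem sqrt_exp_tendsto {s b : ℝ} (hb : 0 < b) (C : ℝ) :
    Tendsto (fun μ : ℝ => C * (μ ^ s * Real.exp (-b * μ))) atTop (𝓝 0) := by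
  have := (tendsto_rpow_mul_exp_neg_mul_atTop_nhds_zero s b hb).const_mul C
  rwa [mul_zero] at this

/-- **The contribution in the open sector.** -/
theorem BB_asym (hk : 1 < k) {κ : ℂ} (hκ : 0 < κ.re) :
    Tendsto (fun μ : ℝ => (√μ : ℂ) * exp (-((k - 1 : ℝ) * (κ * μ))) * BB k (κ * μ)) atTop
      (𝓝 (Gk k κ)) := by
  have hk0 : 0 < k := by linarith
  have hk1 : 0 < k - 1 := by linarith
  set δ : ℝ := (√(1 / 2) - 1) ^ 2 with hδ
  have hδ0 : 0 < δ := by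
    have h9 : √(1 / 2 : ℝ) < 1 := by
      rw [Real.sqrt_lt' one_pos]
      norm_num
    have : √(1 / 2 : ℝ) - 1 ≠ 0 := by linarith
    positivity
  obtain ⟨K, hK⟩ := J3_le hk hκ
  have hne : ∀ μ : ℝ, ‖exp (-((k - 1 : ℝ) * (κ * μ)))‖ = Real.exp (-((k - 1) * (κ.re * μ))) := by
    intro μ
    rw [Complex.norm_exp, Complex.neg_re, Complex.re_ofReal_mul, Complex.re_mul_ofReal]
  set J1 : ℝ → ℂ := fun μ => ∫ u in Ioc (0:ℝ) (1 / 2), hb (k * (κ * μ)) u * EE k (κ * μ) u with hJ1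
  set J3 : ℝ → ℂ := fun μ => ∫ u in Ioi (1 / 2 : ℝ), exp (-(κ * μ * ((u ^ k : ℝ) : ℂ))) / u with hJ3
  have hsplit : ∀ᶠ μ : ℝ in atTop, (√μ : ℂ) * exp (-((k - 1 : ℝ) * (κ * μ))) * BB k (κ * μ) =
      (√μ : ℂ) * exp (-((k - 1 : ℝ) * (κ * μ))) * J1 μ +
      (√μ : ℂ) * (∫ u in Ioi (1 / 2 : ℝ), exp (-(κ * μ * (DD k u : ℝ))) / u) -
      (√μ : ℂ) * exp (-((k - 1 : ℝ) * (κ * μ))) * J3 μ := by
    filter_upwards [eventually_gt_atTop 0] with μ hμ
    have hν : 0 < (κ * μ).re := by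
      rw [Complex.re_mul_ofReal]
      positivity
    have hall := hbE_int hk (k * (κ * μ)) hν
    have hIoc := hall.mono_set (show Ioc (0:ℝ) (1 / 2) ⊆ Ioi 0 from Ioc_subset_Ioi_self)
    have hIoi := hall.mono_set (Ioi_subset_Ioi (show (0:ℝ) ≤ 1 / 2 by norm_num))
    have e0 : BB k (κ * μ) = J1 μ + ∫ u in Ioi (1 / 2 : ℝ), hb (k * (κ * μ)) u * EE k (κ * μ) u := by
      unfold BB Ak
      rw [hJ1, ← setIntegral_union (Ioc_disjoint_Ioi le_rfl)
        measurableSet_Ioi hIoc hIoi, Ioc_union_Ioi_eq_Ioi (by norm_num)]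
    have i1 := eg_int hk hν (show (0:ℝ) < 1 / 2 by norm_num)
    have i2 := en_int hk hν (show (0:ℝ) < 1 / 2 by norm_num)
    have e1 : ∫ u in Ioi (1 / 2 : ℝ), hb (k * (κ * μ)) u * EE k (κ * μ) u =
        (∫ x in Ioi (1 / 2 : ℝ), exp (κ * μ * ((k * x - x ^ k : ℝ) : ℂ)) / x) - J3 μ := by
      rw [hJ3, ← integral_sub i1 i2]
      refine setIntegral_congr_fun measurableSet_Ioi fun u hu => ?_
      unfold hb EE
      have : exp (κ * μ * ((k * u - u ^ k : ℝ) : ℂ)) =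
          exp (k * (κ * μ) * u) * exp (-(κ * μ * ((u ^ k : ℝ) : ℂ))) := by
        rw [← Complex.exp_add]
        congr 1
        push_cast
        ring
      simp only [this]
      ring
    have e2 : exp (-((k - 1 : ℝ) * (κ * μ))) *
        (∫ x in Ioi (1 / 2 : ℝ), exp (κ * μ * ((k * x - x ^ k : ℝ) : ℂ)) / x) =
        ∫ u in Ioi (1 / 2 : ℝ), exp (-(κ * μ * (DD k u : ℝ))) / u := by
      rw [← integral_const_mul]
      refine setIntegral_congr_fun measurableSet_Ioi fun u hu => ?_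
      rw [← mul_div_assoc, ← Complex.exp_add]
      congr 2
      unfold DD
      push_cast
      ring
    rw [e0, e1, ← e2]
    ring
  refine Tendsto.congr' (EventuallyEq.symm hsplit) ?_
  have l1 : Tendsto (fun μ : ℝ => (√μ : ℂ) * exp (-((k - 1 : ℝ) * (κ * μ))) * J1 μ) atTop (𝓝 0) := by
    rw [tendsto_zero_iff_norm_tendsto_zero]
    have hb0 : 0 < κ.re * ((k - 1) * δ) := by positivity
    refine squeeze_zero' (g := fun μ => (k * ‖κ‖ * (1 / 2)) * (μ ^ (3 / 2 : ℝ) *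
      Real.exp (-(κ.re * ((k - 1) * δ)) * μ))) (Eventually.of_forall fun μ => norm_nonneg _) ?_
      (sqrt_exp_tendsto hb0 _)
    filter_upwards [eventually_gt_atTop 0] with μ hμ
    have h1 := J1_le hk hκ hμ
    rw [norm_mul, norm_mul, hne, Complex.norm_real, Real.norm_eq_abs, abs_of_nonneg (Real.sqrt_nonneg _)]
    rw [← hδ] at h1
    have h2 : √μ * μ = μ ^ (3 / 2 : ℝ) := by
      rw [Real.sqrt_eq_rpow, ← Real.rpow_add_one hμ.ne']
      norm_num
    have h3 : Real.exp (-((k - 1) * (κ.re * μ))) * Real.exp (κ.re * μ * ((k - 1) * (1 - δ))) =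
        Real.exp (-(κ.re * ((k - 1) * δ)) * μ) := by
      rw [← Real.exp_add]
      congr 1
      ring
    calc _ ≤ √μ * Real.exp (-((k - 1) * (κ.re * μ))) *
          (k * ‖κ‖ * μ * Real.exp (κ.re * μ * ((k - 1) * (1 - δ))) * (1 / 2)) := by gcongr
      _ = (k * ‖κ‖ * (1 / 2)) * ((√μ * μ) *
          (Real.exp (-((k - 1) * (κ.re * μ))) * Real.exp (κ.re * μ * ((k - 1) * (1 - δ))))) := by ring
      _ = _ := by rw [h2, h3]
  have l3 : Tendsto (fun μ : ℝ => (√μ : ℂ) * exp (-((k - 1 : ℝ) * (κ * μ))) * J3 μ) atTop (𝓝 0) := by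
    rw [tendsto_zero_iff_norm_tendsto_zero]
    have hb0 : 0 < (k - 1) * κ.re := by positivity
    refine squeeze_zero' (g := fun μ => K * (μ ^ (1 / 2 : ℝ) *
      Real.exp (-((k - 1) * κ.re) * μ))) (Eventually.of_forall fun μ => norm_nonneg _) ?_
      (sqrt_exp_tendsto hb0 _)
    filter_upwards [eventually_ge_atTop 1] with μ hμ
    have h1 := hK μ hμ
    rw [norm_mul, norm_mul, hne, Complex.norm_real, Real.norm_eq_abs, abs_of_nonneg (Real.sqrt_nonneg _)]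
    calc _ ≤ √μ * Real.exp (-((k - 1) * (κ.re * μ))) * K := by gcongr
      _ = _ := by
        rw [Real.sqrt_eq_rpow]
        have : -((k - 1) * (κ.re * μ)) = -((k - 1) * κ.re) * μ := by ring
        rw [this]
        ring
  have l2 := main_part hk hκ
  have := (l1.add l2).sub l3
  rw [zero_add, sub_zero] at this
  exact this

end Pool.Agent.D0H40.KX
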