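import Pool.Agent.D0H40.KX.AkR

/-! The normalized contribution of a zero near the boundary of the sector. -/

set_option autoImplicit false

namespace Pool.Agent.D0H40.KX

open Complex MeasureTheory Filter Topology Set
open Pool.Agent.D0H40.GC (hb hb_le hb_meas)

variable {k : ℝ}

/-- the normalized contribution -/
noncomputable def BB (k : ℝ) (ν : ℂ) : ℂ := Ak k (k * ν) ν

theorem g_le (hk : 1 < k) {x : ℝ} (hx : 0 ≤ x) : k * x - x ^ k ≤ k - 1 := by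
  have h1 := one_add_mul_self_le_rpow_one_add (s := x - 1) (p := k) (by linarith) hk.le
  rw [add_sub_cancel] at h1
  linarith

theorem eg_le (hk : 1 < k) {ν : ℂ} (h0 : 0 < ν.re) (h1 : ν.re ≤ 1) {x : ℝ} (hx : 0 ≤ x) :
    ‖exp (ν * ((k * x - x ^ k : ℝ) : ℂ))‖ ≤ Real.exp k := by
  rw [Complex.norm_exp, Complex.re_mul_ofReal]
  apply Real.exp_le_exp.2
  have h2 := g_le hk hx
  rcases le_total (k * x - x ^ k) 0 with h3 | h3
  · have := mul_nonpos_of_nonneg_of_nonpos h0.le h3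
    linarith
  · have := mul_le_mul_of_nonneg_right h1 h3
    linarith

theorem en_le {ν : ℂ} (h0 : 0 < ν.re) {x : ℝ} (hx : 0 ≤ x) :
    ‖exp (-(ν * ((x ^ k : ℝ) : ℂ)))‖ ≤ 1 := EE_le_one (k := k) h0.le hx

/-- the multiplier of the integration by parts -/
noncomputable def hx (k x : ℝ) : ℝ := (k * (x - x ^ k))⁻¹

noncomputable def hx' (k x : ℝ) : ℝ := -(k * (1 - k * x ^ (k - 1))) / (k * (x - x ^ k)) ^ 2

theorem hx_deriv {x : ℝ} (hx0 : 0 < x) (hne : k * (x - x ^ k) ≠ 0) :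
    HasDerivAt (hx k) (hx' k x) x := by
  unfold hx hx'
  have h1 : HasDerivAt (fun x : ℝ => x ^ k) (k * x ^ (k - 1)) x :=
    Real.hasDerivAt_rpow_const (Or.inl hx0.ne')
  have h2 : HasDerivAt (fun x : ℝ => k * (x - x ^ k)) (k * (1 - k * x ^ (k - 1))) x :=
    ((hasDerivAt_id x).sub h1).const_mul k
  exact h2.fun_inv hne

theorem eg_deriv (ν : ℂ) {x : ℝ} (hx0 : 0 < x) :
    HasDerivAt (fun x : ℝ => exp (ν * ((k * x - x ^ k : ℝ) : ℂ)))
      (exp (ν * ((k * x - x ^ k : ℝ) : ℂ)) * (ν * ((k * (1 - x ^ (k - 1)) : ℝ) : ℂ))) x := by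
  have h1 : HasDerivAt (fun x : ℝ => x ^ k) (k * x ^ (k - 1)) x :=
    Real.hasDerivAt_rpow_const (Or.inl hx0.ne')
  have h2 : HasDerivAt (fun x : ℝ => k * x - x ^ k) (k * (1 - x ^ (k - 1))) x := by
    have := ((hasDerivAt_id x).const_mul k).sub h1
    refine this.congr_deriv ?_
    ring
  exact (h2.ofReal_comp.const_mul ν).cexp

theorem pow_split {x : ℝ} (hx0 : 0 < x) : x ^ k = x ^ (k - 1) * x := by
  rw [← Real.rpow_add_one hx0.ne']
  congr 1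
  ring

/-- the primitive used in the integration by parts -/
theorem F_deriv {ν : ℂ} (hν : ν ≠ 0) {x : ℝ} (hx0 : 0 < x) (hne : k * (x - x ^ k) ≠ 0) :
    HasDerivAt (fun x : ℝ => exp (ν * ((k * x - x ^ k : ℝ) : ℂ)) * (hx k x : ℂ) / ν)
      (exp (ν * ((k * x - x ^ k : ℝ) : ℂ)) / x +
        exp (ν * ((k * x - x ^ k : ℝ) : ℂ)) * (hx' k x : ℂ) / ν) x := by
  have h1 := ((eg_deriv (k := k) ν hx0).mul (hx_deriv hx0 hne).ofReal_comp).div_const ν
  refine h1.congr_deriv ?_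
  have hxc : (x : ℂ) ≠ 0 := by exact_mod_cast hx0.ne'
  have h2 : k * (1 - x ^ (k - 1)) * hx k x = x⁻¹ := by
    unfold hx
    have e : k * (x - x ^ k) = k * (1 - x ^ (k - 1)) * x := by
      rw [pow_split hx0]
      ring
    rw [e] at hne ⊢
    have h3 : k * (1 - x ^ (k - 1)) ≠ 0 := left_ne_zero_of_mul hne
    rw [mul_inv, ← mul_assoc, mul_inv_cancel₀ h3, one_mul]
  have h2' : ((k * (1 - x ^ (k - 1)) : ℝ) : ℂ) * (hx k x : ℂ) = (x : ℂ)⁻¹ := by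
    rw [← Complex.ofReal_mul, h2, Complex.ofReal_inv]
  rw [add_div]
  congr 1
  rw [div_eq_mul_inv (exp (ν * ((k * x - x ^ k : ℝ) : ℂ))) (x : ℂ), ← h2']
  field_simp

/-- the small constant -/
theorem c1_pos (hk : 1 < k) : 0 < 1 - (1 / 2 : ℝ) ^ (k - 1) := by
  have : (1 / 2 : ℝ) ^ (k - 1) < 1 := Real.rpow_lt_one (by norm_num) (by norm_num) (by linarith)
  linarith

theorem low_le (hk : 1 < k) {x : ℝ} (hx0 : 0 < x) (hx2 : x ≤ 1 / 2) :
    (1 - (1 / 2 : ℝ) ^ (k - 1)) * x ≤ x - x ^ k := by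
  rw [pow_split hx0]
  have h1 : x ^ (k - 1) ≤ (1 / 2 : ℝ) ^ (k - 1) := Real.rpow_le_rpow hx0.le hx2 (by linarith)
  have := mul_le_mul_of_nonneg_right h1 hx0.le
  linarith

theorem high_le (hk : 1 < k) {x : ℝ} (hx2 : 2 ≤ x) :
    (1 - (1 / 2 : ℝ) ^ (k - 1)) * x ^ k ≤ x ^ k - x := by
  have hx0 : 0 < x := by linarith
  have h1 : x ≤ (1 / 2 : ℝ) ^ (k - 1) * x ^ k := by
    rw [pow_split hx0, ← mul_assoc, ← Real.mul_rpow (by norm_num) hx0.le]
    have h2 : 1 ≤ (1 / 2 * x) ^ (k - 1) := Real.one_le_rpow (by linarith) (by linarith)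
    exact le_mul_of_one_le_left hx0.le h2
  linarith

theorem hx_low (hk : 1 < k) {x : ℝ} (hx0 : 0 < x) (hx2 : x ≤ 1 / 2) :
    |hx k x| ≤ (k * (1 - (1 / 2 : ℝ) ^ (k - 1)))⁻¹ * x⁻¹ ∧
    |hx' k x| ≤ (1 + k) / (k * (1 - (1 / 2 : ℝ) ^ (k - 1)) ^ 2) * (x ^ 2)⁻¹ := by
  have hk0 : 0 < k := by linarith
  set c := 1 - (1 / 2 : ℝ) ^ (k - 1) with hc
  have hc0 : 0 < c := c1_pos hk
  have h1 := low_le hk hx0 hx2
  rw [← hc] at h1
  have h2 : 0 < x - x ^ k := lt_of_lt_of_le (by positivity) h1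
  constructor
  · unfold hx
    rw [abs_inv, abs_of_pos (by positivity), ← mul_inv]
    apply inv_anti₀ (by positivity)
    calc k * c * x = k * (c * x) := by ring
      _ ≤ k * (x - x ^ k) := by gcongr
  · unfold hx'
    rw [abs_div, abs_neg, abs_mul, abs_of_pos hk0, abs_of_pos (by positivity : 0 < (k * (x - x ^ k)) ^ 2)]
    have h3 : |1 - k * x ^ (k - 1)| ≤ 1 + k := by
      have h4 : x ^ (k - 1) ≤ 1 := Real.rpow_le_one hx0.le (by linarith) (by linarith)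
      have h5 : 0 ≤ x ^ (k - 1) := Real.rpow_nonneg hx0.le _
      have h6 : k * x ^ (k - 1) ≤ k * 1 := by gcongr
      have h7 : 0 ≤ k * x ^ (k - 1) := by positivity
      rw [abs_le]
      constructor <;> linarith
    have h4 : (k * (c * x)) ^ 2 ≤ (k * (x - x ^ k)) ^ 2 := by gcongr
    calc k * |1 - k * x ^ (k - 1)| / (k * (x - x ^ k)) ^ 2 ≤ k * (1 + k) / (k * (c * x)) ^ 2 := by gcongr
      _ = _ := by field_simp

theorem hx_high (hk : 1 < k) {x : ℝ} (hx2 : 2 ≤ x) :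
    |hx k x| ≤ (k * (1 - (1 / 2 : ℝ) ^ (k - 1)))⁻¹ * x⁻¹ ∧
    |hx' k x| ≤ (1 + k) / (k * (1 - (1 / 2 : ℝ) ^ (k - 1)) ^ 2) * (x ^ 2)⁻¹ ∧
    k * (x - x ^ k) < 0 := by
  have hk0 : 0 < k := by linarith
  have hx0 : 0 < x := by linarith
  set c := 1 - (1 / 2 : ℝ) ^ (k - 1) with hc
  have hc0 : 0 < c := c1_pos hk
  have h1 := high_le hk hx2
  rw [← hc] at h1
  have hxk : 0 < x ^ k := Real.rpow_pos_of_pos hx0 _
  have hxk1 : 1 ≤ x ^ (k - 1) := Real.one_le_rpow (by linarith) (by linarith)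
  have hxkx : x ≤ x ^ k := by
    rw [pow_split hx0]
    exact le_mul_of_one_le_left hx0.le hxk1
  have h2 : 0 < x ^ k - x := lt_of_lt_of_le (by positivity) h1
  have hneg : k * (x - x ^ k) < 0 := mul_neg_of_pos_of_neg hk0 (by linarith)
  refine ⟨?_, ?_, hneg⟩
  · unfold hx
    rw [abs_inv, abs_of_neg hneg, ← mul_inv]
    apply inv_anti₀ (by positivity)
    calc k * c * x ≤ k * c * x ^ k := by gcongr
      _ = k * (c * x ^ k) := by ring
      _ ≤ k * (x ^ k - x) := by gcongr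
      _ = _ := by ring
  · unfold hx'
    rw [abs_div, abs_neg, abs_mul, abs_of_pos hk0]
    have e : (k * (x - x ^ k)) ^ 2 = (k * (x ^ k - x)) ^ 2 := by ring
    rw [e, abs_of_pos (by positivity : 0 < (k * (x ^ k - x)) ^ 2)]
    have h3 : |1 - k * x ^ (k - 1)| ≤ (1 + k) * x ^ (k - 1) := by
      have h7 : 0 ≤ k * x ^ (k - 1) := by positivity
      rw [abs_le]
      constructor <;> linarith
    have h4 : (k * (c * x ^ k)) ^ 2 ≤ (k * (x ^ k - x)) ^ 2 := by gcongr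
    calc k * |1 - k * x ^ (k - 1)| / (k * (x ^ k - x)) ^ 2 ≤
        k * ((1 + k) * x ^ (k - 1)) / (k * (c * x ^ k)) ^ 2 := by gcongr
      _ = (1 + k) / (k * c ^ 2) * (x ^ (k - 1) * (x ^ k)⁻¹) * (x ^ k)⁻¹ := by field_simp
      _ = (1 + k) / (k * c ^ 2) * x⁻¹ * (x ^ k)⁻¹ := by
          have hpp : x ^ (k - 1) ≠ 0 := by positivity
          have : x ^ (k - 1) * (x ^ k)⁻¹ = x⁻¹ := by
            rw [pow_split (k := k) hx0, mul_inv, ← mul_assoc, mul_inv_cancel₀ hpp, one_mul]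
          rw [this]
      _ ≤ (1 + k) / (k * c ^ 2) * x⁻¹ * x⁻¹ := by
          have : (x ^ k)⁻¹ ≤ x⁻¹ := inv_anti₀ hx0 hxkx
          gcongr
      _ = _ := by
          rw [sq x, mul_inv]
          ring

theorem eg_int (hk : 1 < k) {ν : ℂ} (h0 : 0 < ν.re) {a : ℝ} (ha : 0 < a) :
    IntegrableOn (fun x : ℝ => exp (ν * ((k * x - x ^ k : ℝ) : ℂ)) / x) (Ioi a) := by
  have h1 := (int_dom hk h0 (k * ν.re)).mono_set (Ioi_subset_Ioi ha.le)
  refine Integrable.mono' (h1.const_mul a⁻¹) ?_ ?_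
  · exact (Measurable.aestronglyMeasurable (by fun_prop))
  · refine (ae_restrict_iff' measurableSet_Ioi).2 (Eventually.of_forall fun x hx => ?_)
    have hxa : a < x := hx
    have hx0 : 0 < x := ha.trans hxa
    rw [norm_div, Complex.norm_exp, Complex.re_mul_ofReal, Complex.norm_real, Real.norm_eq_abs,
      abs_of_pos hx0, div_eq_mul_inv, mul_comm]
    have e : ν.re * (k * x - x ^ k) = k * ν.re * x - ν.re * x ^ k := by ring
    rw [e]
    have : x⁻¹ ≤ a⁻¹ := inv_anti₀ ha hxa.le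
    gcongr

theorem en_int (hk : 1 < k) {ν : ℂ} (h0 : 0 < ν.re) {a : ℝ} (ha : 0 < a) :
    IntegrableOn (fun x : ℝ => exp (-(ν * ((x ^ k : ℝ) : ℂ))) / x) (Ioi a) := by
  have h1 := (int_dom hk h0 0).mono_set (Ioi_subset_Ioi ha.le)
  refine Integrable.mono' (h1.const_mul a⁻¹) ?_ ?_
  · exact (Measurable.aestronglyMeasurable (by fun_prop))
  · refine (ae_restrict_iff' measurableSet_Ioi).2 (Eventually.of_forall fun x hx => ?_)
    have hxa : a < x := hx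
    have hx0 : 0 < x := ha.trans hxa
    rw [norm_div, Complex.norm_exp, Complex.neg_re, Complex.re_mul_ofReal, Complex.norm_real,
      Real.norm_eq_abs, abs_of_pos hx0, div_eq_mul_inv, mul_comm, zero_mul, zero_sub]
    have : x⁻¹ ≤ a⁻¹ := inv_anti₀ ha hxa.le
    gcongr

/-- integral of `x⁻²` -/
theorem int_sq_inv {a b : ℝ} (ha : 0 < a) (hab : a ≤ b) : ∫ x in a..b, (x ^ 2)⁻¹ ≤ a⁻¹ := by
  have h6 : ∀ x ∈ uIcc a b, HasDerivAt (fun x : ℝ => -x⁻¹) ((x ^ 2)⁻¹) x := by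
    intro x hx
    rw [uIcc_of_le hab] at hx
    have h7 := (hasDerivAt_inv (ha.trans_le hx.1).ne').neg
    refine h7.congr_deriv ?_
    rw [neg_neg]
  rw [intervalIntegral.integral_eq_sub_of_hasDerivAt h6]
  · have : 0 < b⁻¹ := inv_pos.2 (ha.trans_le hab)
    linarith
  · refine ContinuousOn.intervalIntegrable ?_
    refine ContinuousOn.inv₀ (by fun_prop) fun x hx => ?_
    rw [uIcc_of_le hab] at hx
    exact pow_ne_zero 2 (ha.trans_le hx.1).ne'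

/-- first part -/
theorem part_a (hk : 1 < k) : ∃ C : ℝ, ∀ ν : ℂ, 0 < ν.re → ν.re ≤ 1 → 2 ≤ ‖ν‖ →
    ‖∫ x in (‖ν‖⁻¹)..(1 / 2), exp (ν * ((k * x - x ^ k : ℝ) : ℂ)) / x‖ ≤ C := by
  have hk0 : 0 < k := by linarith
  set c := 1 - (1 / 2 : ℝ) ^ (k - 1) with hc
  have hc0 : 0 < c := c1_pos hk
  set C₁ : ℝ := (k * c)⁻¹ with hC₁
  set C₂ : ℝ := (1 + k) / (k * c ^ 2) with hC₂
  have hC₁0 : 0 < C₁ := by positivity
  have hC₂0 : 0 < C₂ := by positivity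
  refine ⟨Real.exp k * (2 * C₁ + C₁ + C₂), fun ν h0 h1 hν => ?_⟩
  have hμ : 0 < ‖ν‖ := by linarith
  have hν0 : ν ≠ 0 := norm_pos_iff.1 hμ
  have ha : 0 < ‖ν‖⁻¹ := inv_pos.2 hμ
  have hab : ‖ν‖⁻¹ ≤ 1 / 2 := by
    rw [one_div]
    exact inv_anti₀ (by norm_num) hν
  have hpos : ∀ x ∈ Icc (‖ν‖⁻¹) (1 / 2), 0 < x := fun x hx => ha.trans_le hx.1
  have hne : ∀ x ∈ Icc (‖ν‖⁻¹) (1 / 2), k * (x - x ^ k) ≠ 0 := by
    intro x hx
    have h2 := low_le hk (hpos x hx) hx.2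
    have h3 : 0 < (1 - (1 / 2 : ℝ) ^ (k - 1)) * x := mul_pos hc0 (hpos x hx)
    exact (mul_pos hk0 (by linarith)).ne'
  have hder : ∀ x ∈ uIcc (‖ν‖⁻¹) (1 / 2), HasDerivAt
      (fun x : ℝ => exp (ν * ((k * x - x ^ k : ℝ) : ℂ)) * (hx k x : ℂ) / ν)
      (exp (ν * ((k * x - x ^ k : ℝ) : ℂ)) / x +
        exp (ν * ((k * x - x ^ k : ℝ) : ℂ)) * (hx' k x : ℂ) / ν) x := by
    intro x hx
    rw [uIcc_of_le hab] at hx
    exact F_deriv hν0 (hpos x hx) (hne x hx)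
  have hxc : ContinuousOn (fun x : ℝ => x ^ k) (Icc (‖ν‖⁻¹) (1 / 2)) :=
    ContinuousOn.rpow_const continuousOn_id fun x hx => Or.inl (hpos x hx).ne'
  have hxc1 : ContinuousOn (fun x : ℝ => x ^ (k - 1)) (Icc (‖ν‖⁻¹) (1 / 2)) :=
    ContinuousOn.rpow_const continuousOn_id fun x hx => Or.inl (hpos x hx).ne'
  have hec : ContinuousOn (fun x : ℝ => exp (ν * ((k * x - x ^ k : ℝ) : ℂ))) (Icc (‖ν‖⁻¹) (1 / 2)) := by
    refine Complex.continuous_exp.comp_continuousOn (continuousOn_const.mul ?_)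
    exact Complex.continuous_ofReal.comp_continuousOn ((continuousOn_const.mul continuousOn_id).sub hxc)
  have c1 : ContinuousOn (fun x : ℝ => exp (ν * ((k * x - x ^ k : ℝ) : ℂ)) / x) (Icc (‖ν‖⁻¹) (1 / 2)) := by
    refine hec.div (by fun_prop) fun x hx => ?_
    exact_mod_cast (hpos x hx).ne'
  have c2 : ContinuousOn (fun x : ℝ => exp (ν * ((k * x - x ^ k : ℝ) : ℂ)) * (hx' k x : ℂ) / ν)
      (Icc (‖ν‖⁻¹) (1 / 2)) := by
    refine (hec.mul ?_).div_const _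
    refine Complex.continuous_ofReal.comp_continuousOn ?_
    unfold hx'
    refine ContinuousOn.div ?_ ?_ fun x hx => pow_ne_zero 2 (hne x hx)
    · exact ((continuousOn_const.mul (continuousOn_const.sub (continuousOn_const.mul hxc1)))).neg
    · exact (continuousOn_const.mul (continuousOn_id.sub hxc)).pow 2
  rw [← uIcc_of_le hab] at c1 c2
  have i1 := c1.intervalIntegrable (μ := volume)
  have i2 := c2.intervalIntegrable (μ := volume)
  have h2 := intervalIntegral.integral_eq_sub_of_hasDerivAt hder (i1.add i2)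
  rw [intervalIntegral.integral_add i1 i2] at h2
  have h3 : ∫ x in (‖ν‖⁻¹)..(1 / 2), exp (ν * ((k * x - x ^ k : ℝ) : ℂ)) / x =
      (exp (ν * ((k * (1 / 2) - (1 / 2) ^ k : ℝ) : ℂ)) * (hx k (1 / 2) : ℂ) / ν) -
      (exp (ν * ((k * ‖ν‖⁻¹ - ‖ν‖⁻¹ ^ k : ℝ) : ℂ)) * (hx k ‖ν‖⁻¹ : ℂ) / ν) -
      ∫ x in (‖ν‖⁻¹)..(1 / 2), exp (ν * ((k * x - x ^ k : ℝ) : ℂ)) * (hx' k x : ℂ) / ν := by
    linear_combination h2
  rw [h3]
  have hμ1 : ‖ν‖⁻¹ ≤ 1 := by linarith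
  have b1 : ‖exp (ν * ((k * (1 / 2) - (1 / 2) ^ k : ℝ) : ℂ)) * (hx k (1 / 2) : ℂ) / ν‖ ≤
      Real.exp k * (2 * C₁) := by
    rw [norm_div, norm_mul, Complex.norm_real, Real.norm_eq_abs, div_eq_mul_inv]
    have h4 := (hx_low hk (x := 1 / 2) (by norm_num) le_rfl).1
    rw [← hc, ← hC₁] at h4
    calc _ ≤ Real.exp k * (C₁ * (1 / 2)⁻¹) * 1 := by
          gcongr
          exact eg_le hk h0 h1 (by norm_num)
      _ = _ := by norm_num; ring
  have b2 : ‖exp (ν * ((k * ‖ν‖⁻¹ - ‖ν‖⁻¹ ^ k : ℝ) : ℂ)) * (hx k ‖ν‖⁻¹ : ℂ) / ν‖ ≤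
      Real.exp k * C₁ := by
    rw [norm_div, norm_mul, Complex.norm_real, Real.norm_eq_abs]
    have h4 := (hx_low hk ha hab).1
    rw [← hc, ← hC₁, inv_inv] at h4
    rw [div_le_iff₀ hμ]
    calc _ ≤ Real.exp k * (C₁ * ‖ν‖) := by
          gcongr
          exact eg_le hk h0 h1 ha.le
      _ = _ := by ring
  have b3 : ‖∫ x in (‖ν‖⁻¹)..(1 / 2), exp (ν * ((k * x - x ^ k : ℝ) : ℂ)) * (hx' k x : ℂ) / ν‖ ≤
      Real.exp k * C₂ := by
    have h4 : ∀ x ∈ Ioc (‖ν‖⁻¹) (1 / 2), ‖exp (ν * ((k * x - x ^ k : ℝ) : ℂ)) * (hx' k x : ℂ) / ν‖ ≤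
        (Real.exp k * C₂ * ‖ν‖⁻¹) * (x ^ 2)⁻¹ := by
      intro x hx
      have hx0 : 0 < x := ha.trans hx.1
      rw [norm_div, norm_mul, Complex.norm_real, Real.norm_eq_abs, div_eq_mul_inv]
      have h5 := (hx_low hk hx0 hx.2).2
      rw [← hc, ← hC₂] at h5
      calc _ ≤ Real.exp k * (C₂ * (x ^ 2)⁻¹) * ‖ν‖⁻¹ := by
            gcongr
            exact eg_le hk h0 h1 hx0.le
        _ = _ := by ring
    have hi : IntervalIntegrable (fun x : ℝ => (Real.exp k * C₂ * ‖ν‖⁻¹) * (x ^ 2)⁻¹) volume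
        (‖ν‖⁻¹) (1 / 2) := by
      refine ContinuousOn.intervalIntegrable ?_
      rw [uIcc_of_le hab]
      exact continuousOn_const.mul (ContinuousOn.inv₀ (by fun_prop) fun x hx =>
        pow_ne_zero 2 (hpos x hx).ne')
    refine (intervalIntegral.norm_integral_le_of_norm_le hab (Eventually.of_forall h4) hi).trans ?_
    rw [intervalIntegral.integral_const_mul]
    calc _ ≤ (Real.exp k * C₂ * ‖ν‖⁻¹) * (‖ν‖⁻¹)⁻¹ := by
          gcongr
          exact int_sq_inv ha hab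
      _ = _ := by
          rw [inv_inv, mul_assoc, inv_mul_cancel₀ hμ.ne', mul_one]
  refine (norm_sub_le _ _).trans ?_
  refine (add_le_add ((norm_sub_le _ _).trans (add_le_add b1 b2)) b3).trans (le_of_eq ?_)
  ring

/-- second part -/
theorem part_b (hk : 1 < k) : ∃ C : ℝ, ∀ ν : ℂ, 0 < ν.re → ν.re ≤ 1 →
    ‖∫ x in (1 / 2 : ℝ)..2, exp (ν * ((k * x - x ^ k : ℝ) : ℂ)) / x‖ ≤ C := by
  refine ⟨(2 * Real.exp k) * |2 - 1 / 2|, fun ν h0 h1 => ?_⟩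
  refine intervalIntegral.norm_integral_le_of_norm_le_const fun x hx => ?_
  rw [uIoc_of_le (by norm_num)] at hx
  have hx0 : 0 < x := by linarith [hx.1]
  rw [norm_div, Complex.norm_real, Real.norm_eq_abs, abs_of_pos hx0, div_eq_mul_inv, mul_comm]
  have h2 : x⁻¹ ≤ 2 := by
    rw [inv_le_comm₀ hx0 (by norm_num)]
    linarith [hx.1]
  gcongr
  exact eg_le hk h0 h1 hx0.le

theorem int_sq_inv_Ioi {a : ℝ} (ha : 0 < a) :
    IntegrableOn (fun x : ℝ => (x ^ 2)⁻¹) (Ioi a) ∧ ∫ x in Ioi a, (x ^ 2)⁻¹ = a⁻¹ := by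
  have h1 : ∀ x ∈ Ioi a, (x ^ (-2 : ℝ)) = (x ^ 2)⁻¹ := by
    intro x hx
    have hx0 : 0 < x := ha.trans hx
    rw [Real.rpow_neg hx0.le, Real.rpow_two]
  have h2 := integrableOn_Ioi_rpow_of_lt (show (-2:ℝ) < -1 by norm_num) ha
  refine ⟨h2.congr_fun h1 measurableSet_Ioi, ?_⟩
  rw [← setIntegral_congr_fun measurableSet_Ioi h1, integral_Ioi_rpow_of_lt (by norm_num) ha]
  norm_num
  rw [Real.rpow_neg ha.le, Real.rpow_one]

/-- third part -/
theorem part_c (hk : 1 < k) : ∃ C : ℝ, ∀ ν : ℂ, 0 < ν.re → ν.re ≤ 1 → 2 ≤ ‖ν‖ →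
    ‖∫ x in Ioi (2:ℝ), exp (ν * ((k * x - x ^ k : ℝ) : ℂ)) / x‖ ≤ C := by
  have hk0 : 0 < k := by linarith
  set c := 1 - (1 / 2 : ℝ) ^ (k - 1) with hc
  have hc0 : 0 < c := c1_pos hk
  set C₁ : ℝ := (k * c)⁻¹ with hC₁
  set C₂ : ℝ := (1 + k) / (k * c ^ 2) with hC₂
  have hC₁0 : 0 < C₁ := by positivity
  have hC₂0 : 0 < C₂ := by positivity
  refine ⟨Real.exp k * (C₁ + C₂), fun ν h0 h1 hν => ?_⟩
  have hμ : 0 < ‖ν‖ := by linarith
  have hν0 : ν ≠ 0 := norm_pos_iff.1 hμ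
  have hinv : ‖ν‖⁻¹ ≤ 1 := inv_le_one_of_one_le₀ (by linarith)
  have hnb : ∀ x : ℝ, 2 ≤ x → ‖exp (ν * ((k * x - x ^ k : ℝ) : ℂ)) * (hx' k x : ℂ) / ν‖ ≤
      (Real.exp k * C₂) * (x ^ 2)⁻¹ := by
    intro x hx
    have hx0 : 0 < x := by linarith
    rw [norm_div, norm_mul, Complex.norm_real, Real.norm_eq_abs, div_eq_mul_inv]
    have h5 := (hx_high hk hx).2.1
    rw [← hc, ← hC₂] at h5
    calc _ ≤ Real.exp k * (C₂ * (x ^ 2)⁻¹) * 1 := by
          gcongr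
          exact eg_le hk h0 h1 hx0.le
      _ = _ := by ring
  have hFb : ∀ x : ℝ, 2 ≤ x → ‖exp (ν * ((k * x - x ^ k : ℝ) : ℂ)) * (hx k x : ℂ) / ν‖ ≤
      (Real.exp k * C₁) * x⁻¹ := by
    intro x hx
    have hx0 : 0 < x := by linarith
    rw [norm_div, norm_mul, Complex.norm_real, Real.norm_eq_abs, div_eq_mul_inv]
    have h5 := (hx_high hk hx).1
    rw [← hc, ← hC₁] at h5
    calc _ ≤ Real.exp k * (C₁ * x⁻¹) * 1 := by
          gcongr
          exact eg_le hk h0 h1 hx0.le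
      _ = _ := by ring
  obtain ⟨s1, s2⟩ := int_sq_inv_Ioi (show (0:ℝ) < 2 by norm_num)
  have i1 := eg_int hk h0 (show (0:ℝ) < 2 by norm_num)
  have i2 : IntegrableOn (fun x : ℝ => exp (ν * ((k * x - x ^ k : ℝ) : ℂ)) * (hx' k x : ℂ) / ν)
      (Ioi 2) := by
    refine Integrable.mono' (s1.const_mul (Real.exp k * C₂)) ?_ ?_
    · unfold hx'
      exact (Measurable.aestronglyMeasurable (by fun_prop))
    · exact (ae_restrict_iff' measurableSet_Ioi).2 (Eventually.of_forall fun x hx => hnb x (le_of_lt hx))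
  have h2 := integral_Ioi_of_hasDerivAt_of_tendsto' (a := (2:ℝ)) (m := (0:ℂ))
    (f := fun x : ℝ => exp (ν * ((k * x - x ^ k : ℝ) : ℂ)) * (hx k x : ℂ) / ν)
    (f' := fun x : ℝ => exp (ν * ((k * x - x ^ k : ℝ) : ℂ)) / x +
        exp (ν * ((k * x - x ^ k : ℝ) : ℂ)) * (hx' k x : ℂ) / ν)
    (fun x hx => F_deriv hν0 (by have : (2:ℝ) ≤ x := hx; linarith) (hx_high hk hx).2.2.ne)
    (i1.add i2) (by
      rw [tendsto_zero_iff_norm_tendsto_zero]
      have h3 : Tendsto (fun x : ℝ => (Real.exp k * C₁) * x⁻¹) atTop (𝓝 0) := by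
        have := tendsto_inv_atTop_zero.const_mul (Real.exp k * C₁)
        rwa [mul_zero] at this
      refine squeeze_zero' (Eventually.of_forall fun x => norm_nonneg _) ?_ h3
      filter_upwards [eventually_ge_atTop 2] with x hx
      exact hFb x hx)
  rw [integral_add i1 i2] at h2
  have h3 : ∫ x in Ioi (2:ℝ), exp (ν * ((k * x - x ^ k : ℝ) : ℂ)) / x =
      -(exp (ν * ((k * 2 - 2 ^ k : ℝ) : ℂ)) * (hx k 2 : ℂ) / ν) -
      ∫ x in Ioi (2:ℝ), exp (ν * ((k * x - x ^ k : ℝ) : ℂ)) * (hx' k x : ℂ) / ν := by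
    linear_combination h2
  rw [h3]
  refine (norm_sub_le _ _).trans ?_
  rw [norm_neg, mul_add]
  refine add_le_add ((hFb 2 le_rfl).trans ?_) ?_
  · exact mul_le_of_le_one_right (by positivity) (by norm_num)
  · refine (norm_integral_le_of_norm_le (s1.const_mul (Real.exp k * C₂))
      ((ae_restrict_iff' measurableSet_Ioi).2 (Eventually.of_forall fun x hx =>
        hnb x (le_of_lt hx)))).trans ?_
    rw [integral_const_mul, s2]
    exact mul_le_of_le_one_right (by positivity) (by norm_num)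

end Pool.Agent.D0H40.KX
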