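import Pool.Agent.D0H40.KX.Bd

/-! The normalized contribution of a zero near the boundary of the sector: the estimate. -/

set_option autoImplicit false

namespace Pool.Agent.D0H40.KX

open Complex MeasureTheory Filter Topology Set
open Pool.Agent.D0H40.GC (hb hb_le hb_meas)

variable {k : ℝ}

/-- the logarithmic part -/
theorem part_log (hk : 1 < k) : ∃ C : ℝ, ∀ ν : ℂ, 0 < ν.re → 2 ≤ ‖ν‖ →
    ‖(∫ x in Ioi (‖ν‖⁻¹), exp (-(ν * ((x ^ k : ℝ) : ℂ))) / x) -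
      (((k - 1) / k * Real.log ‖ν‖ : ℝ) : ℂ)‖ ≤ C := by
  have hk0 : 0 < k := by linarith
  refine ⟨1 / k + (1 / k + 1 / k), fun ν h0 hν => ?_⟩
  have hμ : 0 < ‖ν‖ := by linarith
  have hν0 : ν ≠ 0 := norm_pos_iff.1 hμ
  set μ := ‖ν‖ with hμd
  set x₁ : ℝ := μ ^ (-(1 / k)) with hx₁
  have hx₁0 : 0 < x₁ := Real.rpow_pos_of_pos hμ _
  have hx₁k : x₁ ^ k = μ⁻¹ := by
    rw [hx₁, ← Real.rpow_mul hμ.le, ← Real.rpow_neg_one]
    congr 1
    field_simp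
  have ha : 0 < μ⁻¹ := inv_pos.2 hμ
  have hax : μ⁻¹ ≤ x₁ := by
    rw [hx₁, ← Real.rpow_neg_one]
    apply Real.rpow_le_rpow_of_exponent_le (by linarith)
    have : 1 / k ≤ 1 := by
      rw [div_le_one hk0]
      exact hk.le
    linarith
  have hall := en_int hk h0 ha
  have hIoc : IntegrableOn (fun x : ℝ => exp (-(ν * ((x ^ k : ℝ) : ℂ))) / x) (Ioc μ⁻¹ x₁) :=
    hall.mono_set Ioc_subset_Ioi_self
  have hIoi : IntegrableOn (fun x : ℝ => exp (-(ν * ((x ^ k : ℝ) : ℂ))) / x) (Ioi x₁) :=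
    hall.mono_set (Ioi_subset_Ioi hax)
  have hsplit : ∫ x in Ioi (μ⁻¹), exp (-(ν * ((x ^ k : ℝ) : ℂ))) / x =
      (∫ x in (μ⁻¹)..x₁, exp (-(ν * ((x ^ k : ℝ) : ℂ))) / x) +
      ∫ x in Ioi x₁, exp (-(ν * ((x ^ k : ℝ) : ℂ))) / x := by
    rw [intervalIntegral.integral_of_le hax, ← setIntegral_union (Ioc_disjoint_Ioi le_rfl)
      measurableSet_Ioi hIoc hIoi, Ioc_union_Ioi_eq_Ioi hax]
  -- the logarithm
  have hlog : ∫ x in (μ⁻¹)..x₁, (x : ℂ)⁻¹ = (((k - 1) / k * Real.log μ : ℝ) : ℂ) := by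
    have h1 : ∫ x in (μ⁻¹)..x₁, (x⁻¹ : ℝ) = (k - 1) / k * Real.log μ := by
      rw [integral_inv_of_pos ha hx₁0, div_inv_eq_mul, Real.log_mul hx₁0.ne' hμ.ne', hx₁,
        Real.log_rpow hμ]
      field_simp
      ring
    rw [← h1, ← intervalIntegral.integral_ofReal]
    push_cast
    rfl
  have hic : ContinuousOn (fun x : ℝ => (x : ℂ)⁻¹) (uIcc μ⁻¹ x₁) := by
    refine ContinuousOn.inv₀ (by fun_prop) fun x hx => ?_
    rw [uIcc_of_le hax] at hx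
    exact_mod_cast (ha.trans_le hx.1).ne'
  have b1 : ‖(∫ x in (μ⁻¹)..x₁, exp (-(ν * ((x ^ k : ℝ) : ℂ))) / x) -
      (((k - 1) / k * Real.log μ : ℝ) : ℂ)‖ ≤ 1 / k := by
    rw [← hlog, ← intervalIntegral.integral_sub
      ((intervalIntegrable_iff_integrableOn_Ioc_of_le hax).2 hIoc) hic.intervalIntegrable]
    have h4 : ∀ x ∈ Ioc μ⁻¹ x₁, ‖exp (-(ν * ((x ^ k : ℝ) : ℂ))) / x - (x : ℂ)⁻¹‖ ≤
        μ * x ^ (k - 1) := by
      intro x hx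
      have hx0 : 0 < x := ha.trans hx.1
      have e : exp (-(ν * ((x ^ k : ℝ) : ℂ))) / x - (x : ℂ)⁻¹ =
          (EE k ν x - 1) / x := by
        unfold EE
        ring
      rw [e, norm_div, Complex.norm_real, Real.norm_eq_abs, abs_of_pos hx0, div_le_iff₀ hx0,
        mul_assoc, ← pow_split hx0]
      exact EE_sub_one h0.le hx0.le
    have hk1 : -1 < k - 1 := by linarith
    have hi : IntervalIntegrable (fun x : ℝ => μ * x ^ (k - 1)) volume μ⁻¹ x₁ :=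
      (intervalIntegral.intervalIntegrable_rpow' hk1).const_mul _
    refine (intervalIntegral.norm_integral_le_of_norm_le hax (Eventually.of_forall h4) hi).trans ?_
    rw [intervalIntegral.integral_const_mul, integral_rpow (Or.inl hk1), sub_add_cancel, hx₁k]
    have h5 : 0 ≤ (μ⁻¹) ^ k := Real.rpow_nonneg ha.le _
    rw [← mul_div_assoc]
    apply div_le_div_of_nonneg_right _ hk0.le
    rw [mul_sub, mul_inv_cancel₀ hμ.ne']
    have : 0 ≤ μ * (μ⁻¹) ^ k := by positivity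
    linarith
  -- the tail
  have hder : ∀ x ∈ Ici x₁, HasDerivAt
      (fun x : ℝ => -(exp (-(ν * ((x ^ k : ℝ) : ℂ))) * (((x ^ k)⁻¹ : ℝ) : ℂ)) / (ν * k))
      (exp (-(ν * ((x ^ k : ℝ) : ℂ))) / x +
        exp (-(ν * ((x ^ k : ℝ) : ℂ))) * (((x ^ (k + 1))⁻¹ : ℝ) : ℂ) / ν) x := by
    intro x hx
    have hx0 : 0 < x := hx₁0.trans_le hx
    have hxk : 0 < x ^ k := Real.rpow_pos_of_pos hx0 _
    have h1 : HasDerivAt (fun x : ℝ => x ^ k) (k * x ^ (k - 1)) x :=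
      Real.hasDerivAt_rpow_const (Or.inl hx0.ne')
    have h2 := (h1.ofReal_comp.const_mul ν).neg.cexp
    have h3 := (h1.fun_inv hxk.ne').ofReal_comp
    have h4 := ((h2.mul h3).neg).div_const (ν * k)
    refine h4.congr_deriv ?_
    simp only [Pi.neg_apply]
    have hxc : (x : ℂ) ≠ 0 := by exact_mod_cast hx0.ne'
    have hkc : (k : ℂ) ≠ 0 := by exact_mod_cast hk0.ne'
    have hp : 0 < x ^ (k - 1) := Real.rpow_pos_of_pos hx0 _
    have hpc : ((x ^ (k - 1) : ℝ) : ℂ) ≠ 0 := by exact_mod_cast hp.ne'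
    have e1 : x ^ k = x ^ (k - 1) * x := pow_split hx0
    have e2 : x ^ (k + 1) = x ^ (k - 1) * x * x := by
      rw [Real.rpow_add_one hx0.ne', e1]
    have e3 : -(k * x ^ (k - 1)) / (x ^ k) ^ 2 = -(k / (x ^ (k - 1) * x * x)) := by
      rw [e1]
      field_simp
    rw [e3, e2]
    have e4 : (((x ^ k)⁻¹ : ℝ) : ℂ) = ((x ^ (k - 1) : ℝ) : ℂ)⁻¹ * (x : ℂ)⁻¹ := by
      rw [e1]
      push_cast
      rw [mul_inv]
    rw [e4]
    push_cast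
    field_simp
    ring
  have hnk : ∀ x : ℝ, 0 < x → ‖exp (-(ν * ((x ^ k : ℝ) : ℂ)))‖ ≤ 1 := fun x hx => en_le h0 hx.le
  have hFb : ∀ x : ℝ, x₁ ≤ x →
      ‖-(exp (-(ν * ((x ^ k : ℝ) : ℂ))) * (((x ^ k)⁻¹ : ℝ) : ℂ)) / (ν * k)‖ ≤ (μ * k)⁻¹ * (x ^ k)⁻¹ := by
    intro x hx
    have hx0 : 0 < x := hx₁0.trans_le hx
    have hxk : 0 < x ^ k := Real.rpow_pos_of_pos hx0 _
    rw [norm_div, norm_neg, norm_mul, norm_mul, Complex.norm_real, Complex.norm_real,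
      Real.norm_eq_abs, Real.norm_eq_abs, abs_of_pos (by positivity : 0 < (x ^ k)⁻¹),
      abs_of_pos hk0, div_eq_mul_inv, mul_comm, ← hμd]
    apply mul_le_mul_of_nonneg_left _ (by positivity)
    exact mul_le_of_le_one_left (by positivity) (hnk x hx0)
  have hk2 : -(k + 1) < -1 := by linarith
  have r1 := integrableOn_Ioi_rpow_of_lt hk2 hx₁0
  have hcong : ∀ x ∈ Ioi x₁, x ^ (-(k + 1)) = (x ^ (k + 1))⁻¹ := by
    intro x hx
    have hx0 : 0 < x := hx₁0.trans hx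
    rw [Real.rpow_neg hx0.le]
  have s1 : IntegrableOn (fun x : ℝ => (x ^ (k + 1))⁻¹) (Ioi x₁) :=
    r1.congr_fun hcong measurableSet_Ioi
  have s2 : ∫ x in Ioi x₁, (x ^ (k + 1))⁻¹ = μ / k := by
    rw [← setIntegral_congr_fun measurableSet_Ioi hcong, integral_Ioi_rpow_of_lt hk2 hx₁0]
    have e : -(k + 1) + 1 = -k := by ring
    rw [e, Real.rpow_neg hx₁0.le, hx₁k, inv_inv]
    field_simp
  have hnb : ∀ x ∈ Ioi x₁, ‖exp (-(ν * ((x ^ k : ℝ) : ℂ))) * (((x ^ (k + 1))⁻¹ : ℝ) : ℂ) / ν‖ ≤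
      μ⁻¹ * (x ^ (k + 1))⁻¹ := by
    intro x hx
    have hx0 : 0 < x := hx₁0.trans hx
    have hxk : 0 < x ^ (k + 1) := Real.rpow_pos_of_pos hx0 _
    rw [norm_div, norm_mul, Complex.norm_real, Real.norm_eq_abs,
      abs_of_pos (by positivity : 0 < (x ^ (k + 1))⁻¹), div_eq_mul_inv, mul_comm, ← hμd]
    apply mul_le_mul_of_nonneg_left _ (by positivity)
    exact mul_le_of_le_one_left (by positivity) (hnk x hx0)
  have i2 : IntegrableOn (fun x : ℝ => exp (-(ν * ((x ^ k : ℝ) : ℂ))) *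
      (((x ^ (k + 1))⁻¹ : ℝ) : ℂ) / ν) (Ioi x₁) := by
    refine Integrable.mono' (s1.const_mul μ⁻¹) ?_ ?_
    · exact (Measurable.aestronglyMeasurable (by fun_prop))
    · exact (ae_restrict_iff' measurableSet_Ioi).2 (Eventually.of_forall hnb)
  have h2 := integral_Ioi_of_hasDerivAt_of_tendsto' (m := (0:ℂ)) hder (hIoi.add i2) (by
      rw [tendsto_zero_iff_norm_tendsto_zero]
      have h3 : Tendsto (fun x : ℝ => (μ * k)⁻¹ * (x ^ k)⁻¹) atTop (𝓝 0) := by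
        have := (tendsto_rpow_atTop hk0).inv_tendsto_atTop.const_mul ((μ * k)⁻¹)
        rwa [mul_zero] at this
      refine squeeze_zero' (Eventually.of_forall fun x => norm_nonneg _) ?_ h3
      filter_upwards [eventually_ge_atTop x₁] with x hx
      exact hFb x hx)
  rw [integral_add hIoi i2] at h2
  have h3 : ∫ x in Ioi x₁, exp (-(ν * ((x ^ k : ℝ) : ℂ))) / x =
      -(-(exp (-(ν * ((x₁ ^ k : ℝ) : ℂ))) * (((x₁ ^ k)⁻¹ : ℝ) : ℂ)) / (ν * k)) -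
      ∫ x in Ioi x₁, exp (-(ν * ((x ^ k : ℝ) : ℂ))) * (((x ^ (k + 1))⁻¹ : ℝ) : ℂ) / ν := by
    linear_combination h2
  have b2 : ‖∫ x in Ioi x₁, exp (-(ν * ((x ^ k : ℝ) : ℂ))) / x‖ ≤ 1 / k + 1 / k := by
    rw [h3]
    refine (norm_sub_le _ _).trans ?_
    rw [norm_neg]
    refine add_le_add ((hFb x₁ le_rfl).trans ?_) ?_
    · rw [hx₁k, inv_inv]
      apply le_of_eq
      field_simp
    · refine (norm_integral_le_of_norm_le (s1.const_mul μ⁻¹)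
        ((ae_restrict_iff' measurableSet_Ioi).2 (Eventually.of_forall hnb))).trans ?_
      rw [integral_const_mul, s2]
      apply le_of_eq
      field_simp
  rw [hsplit]
  have e : (∫ x in (μ⁻¹)..x₁, exp (-(ν * ((x ^ k : ℝ) : ℂ))) / x) +
      (∫ x in Ioi x₁, exp (-(ν * ((x ^ k : ℝ) : ℂ))) / x) - (((k - 1) / k * Real.log μ : ℝ) : ℂ) =
      ((∫ x in (μ⁻¹)..x₁, exp (-(ν * ((x ^ k : ℝ) : ℂ))) / x) -
        (((k - 1) / k * Real.log μ : ℝ) : ℂ)) +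
      ∫ x in Ioi x₁, exp (-(ν * ((x ^ k : ℝ) : ℂ))) / x := by ring
  rw [e]
  exact (norm_add_le _ _).trans (add_le_add b1 b2)

/-- **The contribution near the boundary.** -/
theorem BB_bdry (hk : 1 < k) : ∃ C : ℝ, ∀ ν : ℂ, 0 < ν.re → ν.re ≤ 1 → 2 ≤ ‖ν‖ →
    ‖BB k ν + (((k - 1) / k * Real.log ‖ν‖ : ℝ) : ℂ)‖ ≤ C := by
  have hk0 : 0 < k := by linarith
  obtain ⟨Ca, ha'⟩ := part_a hk
  obtain ⟨Cb, hb'⟩ := part_b hk
  obtain ⟨Cc, hc'⟩ := part_c hk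
  obtain ⟨Cl, hl'⟩ := part_log hk
  refine ⟨k * Real.exp k + (Ca + Cb + Cc) + Cl, fun ν h0 h1 hν => ?_⟩
  have hμ : 0 < ‖ν‖ := by linarith
  have ha : 0 < ‖ν‖⁻¹ := inv_pos.2 hμ
  have hab : ‖ν‖⁻¹ ≤ 1 / 2 := by
    rw [one_div]
    exact inv_anti₀ (by norm_num) hν
  have hall := hbE_int hk (k * ν) h0
  have hIoc := hall.mono_set (show Ioc (0:ℝ) ‖ν‖⁻¹ ⊆ Ioi 0 from Ioc_subset_Ioi_self)
  have hIoi := hall.mono_set (Ioi_subset_Ioi ha.le)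
  have hsplit : BB k ν = (∫ u in Ioc (0:ℝ) ‖ν‖⁻¹, hb (k * ν) u * EE k ν u) +
      ∫ u in Ioi (‖ν‖⁻¹), hb (k * ν) u * EE k ν u := by
    unfold BB Ak
    rw [← setIntegral_union (Ioc_disjoint_Ioi le_rfl)
      measurableSet_Ioi hIoc hIoi, Ioc_union_Ioi_eq_Ioi ha.le]
  have hkre : (k * ν).re ≤ k := by
    rw [Complex.re_ofReal_mul]
    exact mul_le_of_le_one_right hk0.le h1
  have hkn : ‖(k * ν : ℂ)‖ = k * ‖ν‖ := by
    rw [norm_mul, Complex.norm_real, Real.norm_eq_abs, abs_of_pos hk0]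
  have b0 : ‖∫ u in Ioc (0:ℝ) ‖ν‖⁻¹, hb (k * ν) u * EE k ν u‖ ≤ k * Real.exp k := by
    have h3 : ∀ u ∈ Ioc (0:ℝ) ‖ν‖⁻¹, ‖hb (k * ν) u * EE k ν u‖ ≤ k * ‖ν‖ * Real.exp k := by
      intro u hu
      rw [norm_mul]
      have h4 := hb_le hk0.le hkre hu.1
      rw [hkn] at h4
      have h5 : Real.exp (k * u) ≤ Real.exp k := by
        apply Real.exp_le_exp.2
        have : u ≤ 1 := by linarith [hu.2]
        exact mul_le_of_le_one_right hk0.le this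
      calc _ ≤ (k * ‖ν‖ * Real.exp k) * 1 := by
            gcongr
            · exact h4.trans (by gcongr)
            · exact EE_le_one h0.le hu.1.le
        _ = _ := mul_one _
    refine (norm_setIntegral_le_of_norm_le_const (by simp) h3).trans ?_
    rw [Real.volume_real_Ioc, sub_zero, max_eq_left ha.le]
    apply le_of_eq
    field_simp
  have i1 := eg_int hk h0 ha
  have i2 := en_int hk h0 ha
  have e1 : ∫ u in Ioi (‖ν‖⁻¹), hb (k * ν) u * EE k ν u =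
      (∫ x in Ioi (‖ν‖⁻¹), exp (ν * ((k * x - x ^ k : ℝ) : ℂ)) / x) -
      ∫ x in Ioi (‖ν‖⁻¹), exp (-(ν * ((x ^ k : ℝ) : ℂ))) / x := by
    rw [← integral_sub i1 i2]
    refine setIntegral_congr_fun measurableSet_Ioi fun u hu => ?_
    unfold hb EE
    have : exp (ν * ((k * u - u ^ k : ℝ) : ℂ)) = exp (k * ν * u) * exp (-(ν * ((u ^ k : ℝ) : ℂ))) := by
      rw [← Complex.exp_add]
      congr 1
      push_cast
      ring
    simp only [this]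
    ring
  have j1 : IntegrableOn (fun x : ℝ => exp (ν * ((k * x - x ^ k : ℝ) : ℂ)) / x) (Ioc ‖ν‖⁻¹ (1 / 2)) :=
    i1.mono_set Ioc_subset_Ioi_self
  have j1' : IntegrableOn (fun x : ℝ => exp (ν * ((k * x - x ^ k : ℝ) : ℂ)) / x) (Ioi (1 / 2)) :=
    i1.mono_set (Ioi_subset_Ioi hab)
  have j2 : IntegrableOn (fun x : ℝ => exp (ν * ((k * x - x ^ k : ℝ) : ℂ)) / x) (Ioc (1 / 2) 2) :=
    j1'.mono_set Ioc_subset_Ioi_self
  have j3 : IntegrableOn (fun x : ℝ => exp (ν * ((k * x - x ^ k : ℝ) : ℂ)) / x) (Ioi 2) :=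
    j1'.mono_set (Ioi_subset_Ioi (by norm_num))
  have e2 : ∫ x in Ioi (‖ν‖⁻¹), exp (ν * ((k * x - x ^ k : ℝ) : ℂ)) / x =
      (∫ x in (‖ν‖⁻¹)..(1 / 2), exp (ν * ((k * x - x ^ k : ℝ) : ℂ)) / x) +
      ((∫ x in (1 / 2 : ℝ)..2, exp (ν * ((k * x - x ^ k : ℝ) : ℂ)) / x) +
      ∫ x in Ioi (2:ℝ), exp (ν * ((k * x - x ^ k : ℝ) : ℂ)) / x) := by
    rw [intervalIntegral.integral_of_le hab, intervalIntegral.integral_of_le (by norm_num),
      ← setIntegral_union (Ioc_disjoint_Ioi le_rfl) measurableSet_Ioi j2 j3,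
      Ioc_union_Ioi_eq_Ioi (by norm_num),
      ← setIntegral_union (Ioc_disjoint_Ioi le_rfl) measurableSet_Ioi j1 j1',
      Ioc_union_Ioi_eq_Ioi hab]
  have bb : ‖∫ x in Ioi (‖ν‖⁻¹), exp (ν * ((k * x - x ^ k : ℝ) : ℂ)) / x‖ ≤ Ca + Cb + Cc := by
    rw [e2]
    have := norm_add_le (∫ x in (‖ν‖⁻¹)..(1 / 2), exp (ν * ((k * x - x ^ k : ℝ) : ℂ)) / x)
      ((∫ x in (1 / 2 : ℝ)..2, exp (ν * ((k * x - x ^ k : ℝ) : ℂ)) / x) +
      ∫ x in Ioi (2:ℝ), exp (ν * ((k * x - x ^ k : ℝ) : ℂ)) / x)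
    have := norm_add_le (∫ x in (1 / 2 : ℝ)..2, exp (ν * ((k * x - x ^ k : ℝ) : ℂ)) / x)
      (∫ x in Ioi (2:ℝ), exp (ν * ((k * x - x ^ k : ℝ) : ℂ)) / x)
    have := ha' ν h0 h1 hν
    have := hb' ν h0 h1
    have := hc' ν h0 h1 hν
    linarith
  have hl := hl' ν h0 hν
  rw [hsplit, e1]
  have e : (∫ u in Ioc (0:ℝ) ‖ν‖⁻¹, hb (k * ν) u * EE k ν u) +
      ((∫ x in Ioi (‖ν‖⁻¹), exp (ν * ((k * x - x ^ k : ℝ) : ℂ)) / x) -
      ∫ x in Ioi (‖ν‖⁻¹), exp (-(ν * ((x ^ k : ℝ) : ℂ))) / x) +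
      (((k - 1) / k * Real.log ‖ν‖ : ℝ) : ℂ) =
      (∫ u in Ioc (0:ℝ) ‖ν‖⁻¹, hb (k * ν) u * EE k ν u) +
      (∫ x in Ioi (‖ν‖⁻¹), exp (ν * ((k * x - x ^ k : ℝ) : ℂ)) / x) -
      ((∫ x in Ioi (‖ν‖⁻¹), exp (-(ν * ((x ^ k : ℝ) : ℂ))) / x) -
        (((k - 1) / k * Real.log ‖ν‖ : ℝ) : ℂ)) := by ring
  rw [e]
  exact (norm_sub_le _ _).trans (add_le_add ((norm_add_le _ _).trans (add_le_add b0 bb)) hl)

end Pool.Agent.D0H40.KX
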