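import Pool.Agent.D0H40.KX.Bd2

/-! The contribution of a zero in terms of the normalized contribution; zeros on the boundary. -/

set_option autoImplicit false

namespace Pool.Agent.D0H40.KX

open Complex MeasureTheory Filter Topology Set
open Pool.Agent.D0H40.GC (hb hb_le hb_meas)

variable {k : ℝ}

/-- the conjugate exponent -/
noncomputable def kp (k : ℝ) : ℝ := k / (k - 1)

/-- the half-angle of the sector -/
noncomputable def fc (k : ℝ) : ℝ := Real.pi / 2 * (1 - 1 / k)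

theorem kp_pos (hk : 1 < k) : 0 < kp k := div_pos (by linarith) (by linarith)

theorem kp_fc (hk : 1 < k) : kp k * fc k = Real.pi / 2 := by
  unfold kp fc
  have h1 : k ≠ 0 := by linarith
  have h2 : k - 1 ≠ 0 := by linarith
  field_simp

theorem fc_pos (hk : 1 < k) : 0 < fc k := by
  unfold fc
  have h1 : 1 / k < 1 := by
    rw [div_lt_one (by linarith)]
    exact hk
  have := Real.pi_pos
  have h2 : 0 < 1 - 1 / k := by linarith
  positivity

theorem fc_eq (hk : 1 < k) : fc k = Real.pi / 2 - Real.pi / (2 * k) := by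
  unfold fc
  have h1 : k ≠ 0 := by linarith
  field_simp

theorem fc_lt (hk : 1 < k) : fc k < Real.pi / 2 := by
  rw [fc_eq hk]
  have := Real.pi_pos
  have h2 : 0 < Real.pi / (2 * k) := by positivity
  linarith

theorem Ak_cont (hk : 1 < k) : Continuous fun b : ℂ => Ak k b 1 := by
  rw [continuous_iff_continuousAt]
  intro b₀
  unfold Ak
  have h1 : (0:ℝ) < (1:ℂ).re := by simp
  refine continuousAt_of_dominated (bound := fun u : ℝ =>
    (‖b₀‖ + 1) * Real.exp ((‖b₀‖ + 1) * u - 1 * u ^ k)) ?_ ?_ ?_ ?_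
  · exact Eventually.of_forall fun b => (hbE_int hk b h1).aestronglyMeasurable
  · have h2 : ∀ᶠ b in 𝓝 b₀, ‖b‖ < ‖b₀‖ + 1 :=
      continuous_norm.continuousAt.eventually_lt continuousAt_const (by linarith)
    filter_upwards [h2] with b hb
    refine (ae_restrict_iff' measurableSet_Ioi).2 (Eventually.of_forall fun u hu => ?_)
    have hu0 : 0 < u := hu
    have h3 := hb_le (norm_nonneg b) ((le_abs_self _).trans (Complex.abs_re_le_norm b)) hu0
    rw [norm_mul, EE_norm, Complex.one_re, sub_eq_add_neg, Real.exp_add, ← mul_assoc]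
    refine mul_le_mul_of_nonneg_right (h3.trans ?_) (Real.exp_pos _).le
    have : Real.exp (‖b‖ * u) ≤ Real.exp ((‖b₀‖ + 1) * u) := by
      apply Real.exp_le_exp.2
      gcongr
    gcongr
  · exact (int_dom hk one_pos _).const_mul _
  · refine (ae_restrict_iff' measurableSet_Ioi).2 (Eventually.of_forall fun u hu => ?_)
    have hu0 : (u : ℂ) ≠ 0 := by
      have : (0:ℝ) < u := hu
      exact_mod_cast this.ne'
    unfold hb
    have : ContinuousAt (fun b : ℂ => (exp (b * u) - 1) / u * EE k 1 u) b₀ := by fun_prop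
    exact this

/-- the contribution of a zero in the open sector -/
theorem Ak_BB (hk : 1 < k) {α r : ℝ} (hα : |α| < fc k) (hr : 0 < r) :
    Ak k (r * exp (α * I)) 1 = BB k (((r / k) ^ kp k : ℝ) * exp ((kp k * α : ℝ) * I)) := by
  have hk0 : 0 < k := by linarith
  have hk1 : 0 < k - 1 := by linarith
  have hkp := kp_pos hk
  have hka : |kp k * α| < Real.pi / 2 := by
    rw [abs_mul, abs_of_pos hkp, ← kp_fc hk]
    exact mul_lt_mul_of_pos_left hα hkp
  have hψ : k * (α / (k - 1)) = kp k * α := by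
    unfold kp
    ring
  have h1 := Ak_rot hk (α := 0) (ψ := α / (k - 1)) (by
    rw [abs_zero]
    exact half_pos Real.pi_pos) (by rw [zero_add, hψ]; exact hka) (r * exp (α * I))
  rw [Complex.ofReal_zero, zero_mul, Complex.exp_zero, zero_add, hψ] at h1
  set μ : ℝ := (r / k) ^ kp k with hμ
  have hμ0 : 0 < μ := Real.rpow_pos_of_pos (by positivity) _
  set s : ℝ := μ ^ (1 / k) with hs
  have hs0 : 0 < s := Real.rpow_pos_of_pos hμ0 _
  have hsk : s ^ k = μ := by
    rw [hs, ← Real.rpow_mul hμ0.le, one_div, inv_mul_cancel₀ hk0.ne', Real.rpow_one]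
  have hrs : r * s = k * μ := by
    have h2 : s * (r / k) = μ := by
      rw [hs, hμ, ← Real.rpow_mul (by positivity)]
      have h3 : (r / k) ^ (kp k * (1 / k)) * (r / k) = (r / k) ^ (kp k * (1 / k) + 1) := by
        rw [Real.rpow_add_one (by positivity)]
      rw [h3]
      congr 1
      unfold kp
      field_simp
      ring
    rw [← h2]
    field_simp
  rw [h1, Ak_scale k hs0, hsk]
  unfold BB
  have e1 : (r : ℂ) * exp (α * I) * exp ((α / (k - 1) : ℝ) * I) * s =
      k * ((μ : ℂ) * exp ((kp k * α : ℝ) * I)) := by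
    have e2 : exp (α * I) * exp ((α / (k - 1) : ℝ) * I) = exp ((kp k * α : ℝ) * I) := by
      rw [← Complex.exp_add, ← add_mul, ← Complex.ofReal_add]
      congr 3
      unfold kp
      field_simp
      ring
    have e3 : (r : ℂ) * s = k * μ := by exact_mod_cast hrs
    calc _ = (exp (α * I) * exp ((α / (k - 1) : ℝ) * I)) * (r * s) := by ring
      _ = _ := by
        rw [e2, e3]
        ring
  rw [e1, mul_comm (exp _) (μ : ℂ)]

theorem bdry_term (hk : 1 < k) : ∃ C : ℝ, ∀ α r : ℝ, |α| = fc k → 0 < r → 2 ≤ (r / k) ^ kp k →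
    ‖Ak k (r * exp (α * I)) 1 + (Real.log (r / k) : ℝ)‖ ≤ C := by
  have hk0 : 0 < k := by linarith
  have hkp := kp_pos hk
  have hfc := fc_pos hk
  obtain ⟨C, hC⟩ := BB_bdry hk
  refine ⟨C, fun α r hα hr hμ2 => ?_⟩
  set μ : ℝ := (r / k) ^ kp k with hμ
  have hμ0 : 0 < μ := by linarith
  have hlog : (k - 1) / k * Real.log μ = Real.log (r / k) := by
    rw [hμ, Real.log_rpow (by positivity)]
    unfold kp
    have : k - 1 ≠ 0 := by linarith
    field_simp
  have hcont : Continuous fun t : ℝ => ‖Ak k (r * exp ((t * α : ℝ) * I)) 1 + (Real.log (r / k) : ℝ)‖ := by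
    have h1 := Ak_cont hk
    have h2 : Continuous fun t : ℝ => (r : ℂ) * exp ((t * α : ℝ) * I) := by fun_prop
    exact ((h1.comp h2).add continuous_const).norm
  have hlim : Tendsto (fun t : ℝ => ‖Ak k (r * exp ((t * α : ℝ) * I)) 1 + (Real.log (r / k) : ℝ)‖)
      (𝓝[<] 1) (𝓝 ‖Ak k (r * exp (α * I)) 1 + (Real.log (r / k) : ℝ)‖) := by
    have := hcont.tendsto 1
    rw [one_mul] at this
    exact this.mono_left nhdsWithin_le_nhds
  refine le_of_tendsto hlim ?_
  have hcos : Continuous fun t : ℝ => μ * Real.cos (kp k * (t * α)) := by fun_prop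
  have hcos1 : Real.cos (kp k * (1 * α)) = 0 := by
    rw [← Real.cos_abs, one_mul, abs_mul, abs_of_pos hkp, hα, kp_fc hk, Real.cos_pi_div_two]
  have h3 : ∀ᶠ t : ℝ in 𝓝[<] 1, μ * Real.cos (kp k * (t * α)) < 1 := by
    have := hcos.continuousAt (x := 1)
    exact (this.eventually_lt continuousAt_const (by rw [hcos1]; simp)).filter_mono
      nhdsWithin_le_nhds
  have h4 : ∀ᶠ t : ℝ in 𝓝[<] 1, 0 < t :=
    (eventually_gt_nhds (show (0:ℝ) < 1 by norm_num)).filter_mono nhdsWithin_le_nhds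
  filter_upwards [h3, h4, self_mem_nhdsWithin] with t h5 h6 h7
  have h7' : t < 1 := h7
  have h8 : |t * α| < fc k := by
    rw [abs_mul, hα, abs_of_pos h6]
    exact mul_lt_of_lt_one_left hfc h7'
  rw [Ak_BB hk h8 hr, ← hμ, ← hlog]
  have h9 : |kp k * (t * α)| < Real.pi / 2 := by
    rw [abs_mul, abs_of_pos hkp, ← kp_fc hk]
    exact mul_lt_mul_of_pos_left h8 hkp
  have h10 : 0 < Real.cos (kp k * (t * α)) := Real.cos_pos_of_mem_Ioo (abs_lt.1 h9)
  have hn : ‖(μ : ℂ) * exp ((kp k * (t * α) : ℝ) * I)‖ = μ := by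
    rw [norm_mul, norm_exp_I, mul_one, Complex.norm_real, Real.norm_eq_abs, abs_of_pos hμ0]
  have hre : ((μ : ℂ) * exp ((kp k * (t * α) : ℝ) * I)).re = μ * Real.cos (kp k * (t * α)) := by
    rw [Complex.re_ofReal_mul, exp_I_re]
  have h11 := hC ((μ : ℂ) * exp ((kp k * (t * α) : ℝ) * I)) (by rw [hre]; positivity)
    (by rw [hre]; exact h5.le) (by rw [hn]; exact hμ2)
  rw [hn] at h11
  exact h11

/-- the boundary zeros -/
theorem bdry_zero (hk : 1 < k) {z : ℂ} (hz : z ≠ 0) (harg : |arg z| = fc k) :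
    ∃ C ρ₀ : ℝ, 0 < ρ₀ ∧ ∀ ρ : ℝ, 0 < ρ → ρ ≤ ρ₀ → ‖Ak k (z / ρ) 1 - (Real.log ρ : ℝ)‖ ≤ C := by
  have hk0 : 0 < k := by linarith
  have hkp := kp_pos hk
  obtain ⟨C, hC⟩ := bdry_term hk
  have hz0 : 0 < ‖z‖ := norm_pos_iff.2 hz
  refine ⟨C + |Real.log (‖z‖ / k)|, ‖z‖ / k / 2 ^ (1 / kp k), by positivity, fun ρ hρ hρ1 => ?_⟩
  have hr : 0 < ‖z‖ / ρ := by positivity
  have h2 : 2 ≤ (‖z‖ / ρ / k) ^ kp k := by
    have h3 : (2:ℝ) ^ (1 / kp k) ≤ ‖z‖ / ρ / k := by
      rw [le_div_iff₀ (by positivity)] at hρ1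
      rw [div_div, le_div_iff₀ (by positivity)]
      rw [le_div_iff₀ hk0] at hρ1
      calc _ = ρ * 2 ^ (1 / kp k) * k := by ring
        _ ≤ _ := hρ1
    calc (2:ℝ) = ((2:ℝ) ^ (1 / kp k)) ^ kp k := by
          rw [← Real.rpow_mul (by norm_num), one_div, inv_mul_cancel₀ hkp.ne', Real.rpow_one]
      _ ≤ _ := Real.rpow_le_rpow (by positivity) h3 hkp.le
  have h3 := hC (arg z) (‖z‖ / ρ) harg hr h2
  have hρc : (ρ : ℂ) ≠ 0 := by exact_mod_cast hρ.ne'
  have e1 : ((‖z‖ / ρ : ℝ) : ℂ) * exp (arg z * I) = z / ρ := by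
    rw [Complex.ofReal_div, div_mul_eq_mul_div, norm_mul_exp_arg_mul_I]
  rw [e1] at h3
  have e2 : Real.log (‖z‖ / ρ / k) = Real.log (‖z‖ / k) - Real.log ρ := by
    rw [div_right_comm, Real.log_div (by positivity) hρ.ne']
  rw [e2] at h3
  have e3 : Ak k (z / ρ) 1 - (Real.log ρ : ℝ) =
      (Ak k (z / ρ) 1 + ((Real.log (‖z‖ / k) - Real.log ρ : ℝ) : ℂ)) - (Real.log (‖z‖ / k) : ℝ) := by
    push_cast
    ring
  rw [e3]
  refine (norm_sub_le _ _).trans (add_le_add h3 ?_)
  rw [Complex.norm_real, Real.norm_eq_abs]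

end Pool.Agent.D0H40.KX
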