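import Pool.Agent.D0H40.KX.CurveK

/-! The explicit formula for an elliptic curve; sectors without zeros. -/

set_option autoImplicit false

namespace Pool.Agent.D0H40.KX

open Complex MeasureTheory Filter Topology Set Classical
open Pool.Agent.W263.BSD
open Pool.Agent.W524.RY (cf)
open Pool.Agent.D0H40.GC (dat_curve PhiF_order PhiF_fin PhiF_zero hb)

variable {a b : ℤ} {F : ℂ → ℂ} {k : ℝ}

/-- the contribution of the zero `1 + w` -/
noncomputable def zterm (k τ : ℝ) (w : ℂ) (X : ℝ) : ℂ :=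
  ∫ v in Ioi (0:ℝ), (exp (w * v * Real.log X) - 1) / v *
    exp (-((1 + τ * I) * ((v ^ k : ℝ) : ℂ) * Real.log X))

theorem par_ex (hk : 1 < k) (τ : ℝ) : ∃ t ψ : ℝ, Par k (bt k τ) t ψ := by
  obtain ⟨φ, h1, h2⟩ := exists_between (beta_lt hk (k_bt_lt hk τ))
  obtain ⟨ψ, P⟩ := exists_par hk h1 h2
  exact ⟨_, ψ, P⟩

theorem zterm_eq (hk : 1 < k) (τ : ℝ) (z : ℂ) {X : ℝ} (hX : 1 < X) :
    Ak k (z / rh k (Real.log X / qk k τ)) 1 = zterm k τ (dl (bt k τ) * z) X := by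
  have hL : 0 < Real.log X := Real.log_pos hX
  have hq := qk_pos k τ
  obtain ⟨t, ψ, P⟩ := par_ex hk τ
  rw [← Ak_sk P (rh_pos k (by positivity)), sk_kap hk τ hL, Ak_scale k hL]
  have e : kap k τ (Real.log X) * ((Real.log X ^ k : ℝ) : ℂ) = (1 + τ * I) * Real.log X := by
    unfold kap
    have h1 : 0 < Real.log X ^ (k - 1) := Real.rpow_pos_of_pos hL _
    have h2 : (Real.log X ^ (k - 1))⁻¹ * Real.log X ^ k = Real.log X := by
      rw [pow_split (k := k) hL, ← mul_assoc, inv_mul_cancel₀ h1.ne', one_mul]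
    rw [mul_assoc, ← Complex.ofReal_mul, h2]
  rw [e]
  unfold Ak zterm
  refine setIntegral_congr_fun measurableSet_Ioi fun u _ => ?_
  unfold hb EE
  congr 2
  · congr 2
    ring
  · ring

theorem zeros_fin (hk : 1 < k) (hF : IsLSeries a b F) (τ : ℝ) :
    {w : ℂ | w ∈ Sec k τ ∧ F (1 + w) = 0}.Finite := by
  have hne : ∃ z, PhiF a b F z ≠ 0 :=
    ⟨3, Pool.Agent.W189.ML.PhiF_ne_zero_of_one_lt hF (w := 3) (by norm_num)⟩
  have hfin := sk_finite hk (k_bt_lt hk τ) (dat_curve hF) hne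
  have h1 := hfin.image (fun z => dl (bt k τ) * z)
  refine h1.subset fun w hw => ?_
  have hwd : dl (bt k τ) * (w / dl (bt k τ)) = w := mul_div_cancel₀ _ (dl_ne _)
  have hz : w / dl (bt k τ) ∈ Sk k := by
    rw [← sec_iff hk τ, hwd]
    exact hw.1
  refine ⟨w / dl (bt k τ), ⟨hz, ?_⟩, hwd⟩
  rw [zero_iff hk τ hz, hwd]
  exact hw.2

/-- **The explicit formula.** -/
theorem expl_curve (hk : 1 < k) (hF : IsLSeries a b F) {m : ℕ} (hm : analyticOrderAt F 1 = m) (τ : ℝ)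
    (Z : Finset ℂ) (hZ : ∀ w, w ∈ Z ↔ w ∈ Sec k τ ∧ F (1 + w) = 0) :
    ∃ C : ℝ, ∀ᶠ X : ℝ in atTop, ‖wk a b k τ X -
      (((m + ∑ w ∈ Z, analyticOrderNatAt F (1 + w) : ℕ) : ℂ) *
        ((1 - 1 / k) * Real.log (Real.log X) : ℝ) +
        ∑ w ∈ Z, (analyticOrderNatAt F (1 + w) : ℂ) * zterm k τ w X)‖ ≤ C := by
  have hq := qk_pos k τ
  have hd0 := dl_ne (bt k τ)
  have hne : ∃ z, PhiF a b F z ≠ 0 :=
    ⟨3, Pool.Agent.W189.ML.PhiF_ne_zero_of_one_lt hF (w := 3) (by norm_num)⟩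
  set Y : Finset ℂ := (sk_finite hk (k_bt_lt hk τ) (dat_curve hF) hne).toFinset with hY
  have hYm : ∀ z, z ∈ Y ↔ z ∈ Sk k ∧ PhiF a b F (dl (bt k τ) * z) = 0 := by
    intro z
    rw [hY, Set.Finite.mem_toFinset]
    rfl
  have hm0 : analyticOrderAt (PhiF a b F) 0 = m := by
    rw [PhiF_order hF (by simp), add_zero]
    exact hm
  obtain ⟨C, hC⟩ := expl_T hk (k_bt_lt hk τ) (dat_curve hF) (PhiF_fin hF) hm0 Y hYm
  obtain ⟨C', hC'⟩ := wk_ff hk hF
  have hinj : Set.InjOn (fun z => dl (bt k τ) * z) (Y : Set ℂ) :=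
    fun z _ w _ h => mul_left_cancel₀ hd0 h
  have hZY : Z = Y.image (fun z => dl (bt k τ) * z) := by
    ext w
    rw [Finset.mem_image, hZ]
    have hwd : dl (bt k τ) * (w / dl (bt k τ)) = w := mul_div_cancel₀ _ hd0
    constructor
    · rintro ⟨h1, h2⟩
      have hz : w / dl (bt k τ) ∈ Sk k := by
        rw [← sec_iff hk τ, hwd]
        exact h1
      refine ⟨w / dl (bt k τ), (hYm _).2 ⟨hz, ?_⟩, hwd⟩
      rw [zero_iff hk τ hz, hwd]
      exact h2
    · rintro ⟨z, hz, rfl⟩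
      obtain ⟨h1, h2⟩ := (hYm z).1 hz
      exact ⟨(sec_iff hk τ z).2 h1, (zero_iff hk τ h1).1 h2⟩
  have hord : ∀ z ∈ Y, analyticOrderNatAt F (1 + dl (bt k τ) * z) =
      analyticOrderNatAt (PhiF a b F) (dl (bt k τ) * z) := by
    intro z hz
    unfold analyticOrderNatAt
    rw [PhiF_order hF (sec_re hk ((sec_iff hk τ z).2 ((hYm z).1 hz).1)).le]
  have hsum : ∑ w ∈ Z, analyticOrderNatAt F (1 + w) =
      ∑ z ∈ Y, analyticOrderNatAt (PhiF a b F) (dl (bt k τ) * z) := by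
    rw [hZY, Finset.sum_image hinj]
    exact Finset.sum_congr rfl hord
  set N : ℕ := m + ∑ z ∈ Y, analyticOrderNatAt (PhiF a b F) (dl (bt k τ) * z) with hN
  refine ⟨C' + C + ‖(N : ℂ) * ((1 - 1 / k) * Real.log (qk k τ) : ℝ)‖, ?_⟩
  filter_upwards [(T_tendsto k τ).eventually hC, eventually_gt_atTop 1] with X h1 h2
  have hL : 0 < Real.log X := Real.log_pos h2
  have h3 := hC' τ X h2
  have e1 : ∑ w ∈ Z, (analyticOrderNatAt F (1 + w) : ℂ) * zterm k τ w X =
      ∑ z ∈ Y, (analyticOrderNatAt (PhiF a b F) (dl (bt k τ) * z) : ℂ) *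
        Ak k (z / rh k (Real.log X / qk k τ)) 1 := by
    rw [hZY, Finset.sum_image hinj]
    refine Finset.sum_congr rfl fun z hz => ?_
    rw [zterm_eq hk τ z h2, hord z hz]
  rw [hsum, ← hN, e1]
  set A := ∑ z ∈ Y, (analyticOrderNatAt (PhiF a b F) (dl (bt k τ) * z) : ℂ) *
        Ak k (z / rh k (Real.log X / qk k τ)) 1 with hA
  set f := ff (fun p : ℕ => Real.log p) (cf a b) k (bt k τ) (Real.log X / qk k τ) with hf
  have e2 : 1 / kp k * Real.log (Real.log X / qk k τ) =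
      (1 - 1 / k) * Real.log (Real.log X) - (1 - 1 / k) * Real.log (qk k τ) := by
    rw [Real.log_div hL.ne' hq.ne', ← mul_sub]
    congr 1
    unfold kp
    have : k - 1 ≠ 0 := by linarith
    field_simp
  rw [e2] at h1
  have e3 : wk a b k τ X - ((N : ℂ) * ((1 - 1 / k) * Real.log (Real.log X) : ℝ) + A) =
      (wk a b k τ X - f) + (f - ((N : ℂ) * (((1 - 1 / k) * Real.log (Real.log X) -
        (1 - 1 / k) * Real.log (qk k τ) : ℝ) : ℂ) + A)) -
      (N : ℂ) * ((1 - 1 / k) * Real.log (qk k τ) : ℝ) := by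
    push_cast
    ring
  rw [e3]
  exact (norm_sub_le _ _).trans (add_le_add ((norm_add_le _ _).trans (add_le_add h3 h1)) le_rfl)

/-- the law in a sector without zeros -/
theorem law_curve (hk : 1 < k) (hF : IsLSeries a b F) {m : ℕ} (hm : analyticOrderAt F 1 = m) (τ : ℝ)
    (h : ∀ w ∈ Sec k τ, F (1 + w) ≠ 0) : ∃ C : ℝ, ∀ᶠ X : ℝ in atTop,
      ‖wk a b k τ X - (((1 - 1 / k) * m * Real.log (Real.log X) : ℝ) : ℂ)‖ ≤ C := by
  obtain ⟨C, hC⟩ := expl_curve hk hF hm τ ∅ (fun w => by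
    constructor
    · intro h; simp at h
    · rintro ⟨h1, h2⟩
      exact absurd h2 (h w h1))
  refine ⟨C, ?_⟩
  filter_upwards [hC] with X hX
  rw [Finset.sum_empty, Finset.sum_empty, add_zero, add_zero] at hX
  refine le_trans (le_of_eq ?_) hX
  congr 2
  push_cast
  ring

/-! ### Sectors without zeros -/

/-- the zeros in the sector `|arg w| ≤ π/4` are finite in number -/
theorem quarter_fin (hF : IsLSeries a b F) : {w : ℂ | w ≠ 0 ∧ |arg w| < Real.pi / 3 ∧ F (1 + w) = 0}.Finite := by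
  have h3 : (1:ℝ) < 3 := by norm_num
  refine (zeros_fin h3 hF 0).subset fun w hw => ⟨⟨hw.1, ?_⟩, hw.2.2⟩
  rw [bt_zero, sub_zero]
  have : fc 3 = Real.pi / 3 := by
    unfold fc
    ring
  rw [this]
  exact hw.2.1

theorem fc_tendsto : Tendsto fc (𝓝[>] 1) (𝓝 0) := by
  have h1 : ContinuousAt fc 1 := by
    unfold fc
    fun_prop (disch := norm_num)
  have h2 : fc 1 = 0 := by
    unfold fc
    norm_num
  have := h1.tendsto
  rw [h2] at this
  exact this.mono_left nhdsWithin_le_nhds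

/-- without real zeros, all sectors with `k` near `1` are free of zeros -/
theorem free_real (hF : IsLSeries a b F) (h : ∀ x : ℝ, 0 < x → F (1 + x) ≠ 0) :
    ∃ k₀ : ℝ, 1 < k₀ ∧ ∀ k : ℝ, 1 < k → k ≤ k₀ → ∀ w ∈ Sec k 0, F (1 + w) ≠ 0 := by
  have hfin := quarter_fin hF
  have h1 : ∀ᶠ k : ℝ in 𝓝[>] 1, ∀ w ∈ hfin.toFinset, fc k < |arg w| := by
    rw [Finset.eventually_all]
    intro w hw
    rw [Set.Finite.mem_toFinset] at hw
    refine fc_tendsto.eventually (eventually_lt_nhds ?_)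
    rw [abs_pos]
    intro h0
    rw [Complex.arg_eq_zero_iff] at h0
    have hw1 : (w.re : ℂ) = w := Complex.ext (by simp) (by simp [h0.2])
    have hpos : 0 < w.re := by
      rcases h0.1.eq_or_lt with h2 | h2
      · exfalso
        exact hw.1 (Complex.ext h2.symm h0.2)
      · exact h2
    exact h _ hpos (by rw [hw1]; exact hw.2.2)
  have h2 : ∀ᶠ k : ℝ in 𝓝[>] 1, fc k < Real.pi / 3 :=
    fc_tendsto.eventually (eventually_lt_nhds (by positivity))
  obtain ⟨ε, hε, h3⟩ := (mem_nhdsGT_iff_exists_Ioc_subset).1 (h1.and h2)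
  refine ⟨ε, hε, fun k hk hk2 w hw h0 => ?_⟩
  obtain ⟨h4, h5⟩ := h3 ⟨hk, hk2⟩
  have h6 : |arg w| < fc k := by
    have := hw.2
    rwa [bt_zero, sub_zero] at this
  have h7 : w ∈ hfin.toFinset := by
    rw [Set.Finite.mem_toFinset]
    exact ⟨hw.1, h6.trans h5, h0⟩
  exact absurd (h4 w h7) (by linarith)

/-- for every curve there is a direction such that all sectors with `k` near `1` are free of zeros -/
theorem free_all (hF : IsLSeries a b F) :
    ∃ τ k₀ : ℝ, 1 < k₀ ∧ ∀ k : ℝ, 1 < k → k ≤ k₀ → ∀ w ∈ Sec k τ, F (1 + w) ≠ 0 := by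
  have hfin := quarter_fin hF
  have hpi := Real.pi_pos
  -- the angle
  have h1 : ∀ᶠ α : ℝ in 𝓝[>] 0, ∀ w ∈ hfin.toFinset, 0 < arg w → 2 * α < arg w := by
    rw [Finset.eventually_all]
    intro w _
    by_cases h : 0 < arg w
    · refine ((eventually_lt_nhds (show (0:ℝ) < arg w / 2 by positivity)).filter_mono
        nhdsWithin_le_nhds).mono fun α hα _ => ?_
      linarith
    · exact Eventually.of_forall fun α h2 => absurd h2 h
  have h2 : ∀ᶠ α : ℝ in 𝓝[>] 0, 2 * α < Real.pi / 3 :=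
    ((eventually_lt_nhds (show (0:ℝ) < Real.pi / 3 / 2 by positivity)).filter_mono
        nhdsWithin_le_nhds).mono fun α hα => by linarith
  obtain ⟨α, h3, h4, h5⟩ := (h1.and (h2.and self_mem_nhdsWithin)).exists
  have hα : 0 < α := h5
  have harc : Real.arctan (Real.tan α) = α := Real.arctan_tan (by linarith) (by linarith)
  -- the exponent
  have h6 : Tendsto (fun k : ℝ => α / k) (𝓝[>] 1) (𝓝 α) := by
    have : ContinuousAt (fun k : ℝ => α / k) 1 := by fun_prop (disch := norm_num)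
    have h7 := this.tendsto
    rw [div_one] at h7
    exact h7.mono_left nhdsWithin_le_nhds
  have h7 : ∀ᶠ k : ℝ in 𝓝[>] 1, α / k - fc k > 0 := by
    have := h6.sub fc_tendsto
    rw [sub_zero] at this
    exact this.eventually (eventually_gt_nhds hα)
  have h8 : ∀ᶠ k : ℝ in 𝓝[>] 1, α / k + fc k < 2 * α := by
    have := h6.add fc_tendsto
    rw [add_zero] at this
    exact this.eventually (eventually_lt_nhds (by linarith))
  obtain ⟨ε, hε, h9⟩ := (mem_nhdsGT_iff_exists_Ioc_subset).1 (h7.and h8)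
  refine ⟨Real.tan α, ε, hε, fun k hk hk2 w hw h0 => ?_⟩
  obtain ⟨h10, h11⟩ := h9 ⟨hk, hk2⟩
  have h12 := abs_lt.1 hw.2
  unfold bt at h12
  rw [harc] at h12
  have h13 : 0 < arg w := by linarith [h12.1]
  have h14 : arg w < 2 * α := by linarith [h12.2]
  have h15 : w ∈ hfin.toFinset := by
    rw [Set.Finite.mem_toFinset]
    refine ⟨hw.1, ?_, h0⟩
    rw [abs_of_pos h13]
    linarith
  exact absurd (h3 w h15 h13) (by linarith)

end Pool.Agent.D0H40.KX
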