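import Pool.Agent.D0H40.KX.Asy2
import Pool.Agent.D0H40.GC.Fact

/-! Cones, sectors and the choice of the parameters. -/

set_option autoImplicit false

namespace Pool.Agent.D0H40.KX

open Complex MeasureTheory Filter Topology Set
open Pool.Agent.D0H40.GC (Dat)

variable {k β t ψ : ℝ}

/-- cones are sectors -/
theorem cone_arg {φ : ℝ} (h0 : 0 < φ) (h1 : φ < Real.pi / 2) (z : ℂ) :
    |z.im| ≤ Real.tan φ * z.re ↔ |arg z| ≤ φ := by
  have hcos : 0 < Real.cos φ := Real.cos_pos_of_mem_Ioo ⟨by linarith, h1⟩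
  have htan : 0 < Real.tan φ := Real.tan_pos_of_pos_of_lt_pi_div_two h0 h1
  rcases lt_trichotomy z.re 0 with h | h | h
  · have h2 : ¬ |z.im| ≤ Real.tan φ * z.re := by
      have := mul_neg_of_pos_of_neg htan h
      have := abs_nonneg z.im
      linarith
    have h3 : ¬ |arg z| ≤ φ := by
      intro h4
      have := Complex.abs_arg_le_pi_div_two_iff.1 (h4.trans h1.le)
      linarith
    exact ⟨fun h => absurd h h2, fun h => absurd h h3⟩
  · rw [h, mul_zero]
    by_cases hi : z.im = 0
    · have hz : z = 0 := Complex.ext h hi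
      rw [hz]
      simp [h0.le]
    · have h2 : 0 < |z.im| := abs_pos.2 hi
      have h3 : |arg z| = Real.pi / 2 := by
        refine le_antisymm (Complex.abs_arg_le_pi_div_two_iff.2 h.ge) ?_
        by_contra hc
        push Not at hc
        rw [Complex.abs_arg_lt_pi_div_two_iff] at hc
        rcases hc with hc | hc
        · linarith
        · apply hi
          rw [hc]
          rfl
      exact ⟨fun h => absurd h (by linarith), fun h => absurd h (by linarith)⟩
  · have h2 : |arg z| < Real.pi / 2 := Complex.abs_arg_lt_pi_div_two_iff.2 (Or.inl h)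
    have h3 : Real.tan |arg z| = |z.im| / z.re := by
      rcases le_total 0 (arg z) with h4 | h4
      · rw [abs_of_nonneg h4, Complex.tan_arg, abs_of_nonneg (Complex.arg_nonneg_iff.1 h4)]
      · have h5 : z.im ≤ 0 := by
          by_contra hc
          push Not at hc
          have h6 : 0 ≤ arg z := Complex.arg_nonneg_iff.2 hc.le
          have h7 : arg z = 0 := le_antisymm h4 h6
          rw [Complex.arg_eq_zero_iff] at h7
          linarith [h7.2]
        rw [abs_of_nonpos h4, Real.tan_neg, Complex.tan_arg, abs_of_nonpos h5]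
        ring
    rw [← div_le_iff₀ h, ← h3]
    refine Real.strictMonoOn_tan.le_iff_le ?_ ?_
    · exact ⟨by linarith [abs_nonneg (arg z), Real.pi_pos], h2⟩
    · exact ⟨by linarith, h1⟩

/-- the parameters exist -/
theorem exists_par (hk : 1 < k) {φ : ℝ} (h1 : fc k < φ) (h2 : φ < Real.pi / 2 - |β|) :
    ∃ ψ, Par k β (Real.tan φ) ψ := by
  have hk0 : 0 < k := by linarith
  have hfc := fc_pos hk
  have hfe := fc_eq hk
  have hβ0 := abs_nonneg β
  have hφ0 : 0 < φ := by linarith
  have hφ2 : φ < Real.pi / 2 := by linarith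
  have hcos : 0 < Real.cos φ := Real.cos_pos_of_mem_Ioo ⟨by linarith, hφ2⟩
  have hkk : k * (Real.pi / (2 * k)) = Real.pi / 2 := by field_simp
  refine ⟨(Real.pi / 2 - φ + Real.pi / (2 * k)) / 2, hk, ?_, ?_, ?_, ?_⟩
  · linarith
  · rw [← hkk]
    apply mul_lt_mul_of_pos_left _ hk0
    linarith
  · set ψ : ℝ := (Real.pi / 2 - φ + Real.pi / (2 * k)) / 2 with hψ
    have h3 : Real.cos (ψ + φ) < 0 := by
      apply Real.cos_neg_of_pi_div_two_lt_of_lt
      · rw [hψ]
        linarith
      · rw [hψ]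
        linarith [Real.pi_pos]
    rw [Real.cos_add] at h3
    rw [Real.tan_eq_sin_div_cos, div_mul_eq_mul_div, lt_div_iff₀ hcos]
    linarith
  · have h3 : 0 < Real.cos (φ + |β|) :=
      Real.cos_pos_of_mem_Ioo ⟨by linarith [Real.pi_pos], by linarith⟩
    have h4 : Real.sin |β| = |Real.sin β| := by
      rcases le_total 0 β with h5 | h5
      · rw [abs_of_nonneg h5, abs_of_nonneg (Real.sin_nonneg_of_nonneg_of_le_pi h5 (by
          have := le_abs_self β
          linarith [Real.pi_pos]))]
      · rw [abs_of_nonpos h5, Real.sin_neg, abs_of_nonpos (Real.sin_nonpos_of_nonpos_of_neg_pi_le h5 (by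
          have := neg_le_abs β
          linarith [Real.pi_pos]))]
    rw [Real.cos_add, Real.cos_abs, h4] at h3
    rw [Real.tan_eq_sin_div_cos, div_mul_eq_mul_div, div_lt_iff₀ hcos]
    linarith

/-- the open sector -/
def Sk (k : ℝ) : Set ℂ := {z | z ≠ 0 ∧ |arg z| < fc k}

variable {lam c : ℕ → ℝ} {G Φ : ℂ → ℂ}

/-- zeros in a closed cone -/
theorem cone_fin (P : Par k β t ψ) (D : Dat lam c G Φ) (hne : ∃ z, Φ z ≠ 0) :
    {z : ℂ | |z.im| ≤ t * z.re ∧ Φ (dl β * z) = 0}.Finite := by
  have hd : Differentiable ℂ fun z => Φ (dl β * z) :=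
    D.Φd.comp (differentiable_id.const_mul _)
  have hc0 : 0 < Real.cos β - t * |Real.sin β| := by linarith [P.ht2]
  obtain ⟨v, hv⟩ := hne
  have h1 := GC.zeros_finite hd ⟨v / dl β, by rw [mul_div_cancel₀ _ (dl_ne β)]; exact hv⟩
    (Ct_compact P.t0 (2 / (Real.cos β - t * |Real.sin β|)))
  refine h1.subset fun z hz => ⟨⟨?_, hz.1⟩, hz.2⟩
  by_contra hc
  push Not at hc
  rw [div_lt_iff₀ hc0] at hc
  have h2 : 2 < (dl β * z).re := by
    rw [Complex.mul_re, dl_re, dl_im]
    have h3 : Real.sin β * z.im ≤ |Real.sin β| * (t * z.re) := by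
      calc Real.sin β * z.im ≤ |Real.sin β| * |z.im| := by rw [← abs_mul]; exact le_abs_self _
        _ ≤ _ := mul_le_mul_of_nonneg_left hz.1 (abs_nonneg _)
    linarith
  have h3 := D.eq _ h2
  rw [hz.2] at h3
  exact Complex.exp_ne_zero _ h3

end Pool.Agent.D0H40.KX
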