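import Pool.Agent.D0H40.KX.Mean

/-! The rate of growth, abstract form. -/

set_option autoImplicit false

namespace Pool.Agent.D0H40.KX

open Complex MeasureTheory Filter Topology Set
open Pool.Agent.D0H40.GC (Dat factor)

variable {k β : ℝ} {lam c : ℕ → ℝ} {G Φ : ℂ → ℂ}

/-- the modulus of the rate, up to the factor `k - 1` -/
noncomputable def Mz (k : ℝ) (z : ℂ) : ℝ := (‖z‖ / k) ^ kp k

/-- the complex rate of a zero -/
noncomputable def om (k : ℝ) (z : ℂ) : ℂ := (((k - 1) * Mz k z : ℝ) : ℂ) * exp ((kp k * arg z : ℝ) * I)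

/-- the scale -/
noncomputable def rh (k T : ℝ) : ℝ := T ^ (-(1 / kp k))

theorem rh_pos (k : ℝ) {T : ℝ} (hT : 0 < T) : 0 < rh k T := Real.rpow_pos_of_pos hT _

theorem rh_log (k : ℝ) {T : ℝ} (hT : 0 < T) : Real.log (rh k T) = -(1 / kp k * Real.log T) := by
  unfold rh
  rw [Real.log_rpow hT]
  ring

theorem rh_tendsto (hk : 1 < k) : Tendsto (rh k) atTop (𝓝 0) :=
  tendsto_rpow_neg_atTop (one_div_pos.2 (kp_pos hk))

theorem rh_pow (hk : 1 < k) {T : ℝ} (hT : 0 < T) : ((rh k T)⁻¹) ^ kp k = T := by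
  have hkp := kp_pos hk
  unfold rh
  rw [← Real.rpow_neg hT.le, neg_neg, ← Real.rpow_mul hT.le, one_div, inv_mul_cancel₀ hkp.ne',
    Real.rpow_one]

theorem Mz_pos (hk : 1 < k) {z : ℂ} (hz : z ≠ 0) : 0 < Mz k z := by
  have : 0 < ‖z‖ := norm_pos_iff.2 hz
  unfold Mz
  have hk0 : 0 < k := by linarith
  positivity

theorem om_re (k : ℝ) (z : ℂ) : (om k z).re = (k - 1) * Mz k z * Real.cos (kp k * arg z) := by
  unfold om
  rw [Complex.re_ofReal_mul, exp_I_re]

theorem om_im (k : ℝ) (z : ℂ) : (om k z).im = (k - 1) * Mz k z * Real.sin (kp k * arg z) := by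
  unfold om
  rw [Complex.im_ofReal_mul, Complex.exp_ofReal_mul_I_im]

theorem kp_arg (hk : 1 < k) {z : ℂ} (hz : z ∈ Sk k) : |kp k * arg z| < Real.pi / 2 := by
  rw [abs_mul, abs_of_pos (kp_pos hk), ← kp_fc hk]
  exact mul_lt_mul_of_pos_left hz.2 (kp_pos hk)

theorem om_inj (hk : 1 < k) {z w : ℂ} (hz : z ∈ Sk k) (hw : w ∈ Sk k) (h : om k z = om k w) : z = w := by
  have hk1 : 0 < k - 1 := by linarith
  have hk0 : 0 < k := by linarith
  have hkp := kp_pos hk
  have hMz := Mz_pos hk hz.1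
  have hMw := Mz_pos hk hw.1
  have e1 : ∀ {z : ℂ}, 0 < Mz k z → ‖om k z‖ = (k - 1) * Mz k z := by
    intro z hz
    unfold om
    rw [norm_mul, norm_exp_I, mul_one, Complex.norm_real, Real.norm_eq_abs, abs_of_pos (by positivity)]
  have e2 : ∀ {z : ℂ}, z ∈ Sk k → arg (om k z) = kp k * arg z := by
    intro z hz
    have h1 := abs_lt.1 (kp_arg hk hz)
    have hM := Mz_pos hk hz.1
    unfold om
    rw [Complex.exp_mul_I, ← Complex.ofReal_cos, ← Complex.ofReal_sin, Complex.ofReal_cos,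
      Complex.ofReal_sin, Complex.arg_mul_cos_add_sin_mul_I (by positivity)]
    constructor <;> linarith [Real.pi_pos]
  have h1 : arg z = arg w := by
    have := congrArg arg h
    rw [e2 hz, e2 hw] at this
    exact mul_left_cancel₀ hkp.ne' this
  have h2 : ‖z‖ = ‖w‖ := by
    have h3 := congrArg norm h
    rw [e1 hMz, e1 hMw] at h3
    have h4 : Mz k z = Mz k w := mul_left_cancel₀ hk1.ne' h3
    unfold Mz at h4
    have h5 : ‖z‖ / k = ‖w‖ / k := by
      have := congrArg (fun x : ℝ => x ^ (kp k)⁻¹) h4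
      rwa [Real.rpow_rpow_inv (by positivity) hkp.ne', Real.rpow_rpow_inv (by positivity) hkp.ne'] at this
    field_simp at h5
    exact h5
  rw [← norm_mul_exp_arg_mul_I z, ← norm_mul_exp_arg_mul_I w, h1, h2]

/-- the contribution of a zero in terms of the large parameter -/
theorem Ak_T (hk : 1 < k) {z : ℂ} (hz : z ∈ Sk k) {T : ℝ} (hT : 0 < T) :
    Ak k (z / rh k T) 1 = BB k (exp ((kp k * arg z : ℝ) * I) * (Mz k z * T : ℝ)) := by
  have hk0 : 0 < k := by linarith
  have hρ := rh_pos k hT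
  have hz0 : 0 < ‖z‖ := norm_pos_iff.2 hz.1
  have e1 : ((‖z‖ / rh k T : ℝ) : ℂ) * exp (arg z * I) = z / rh k T := by
    rw [Complex.ofReal_div, div_mul_eq_mul_div, norm_mul_exp_arg_mul_I]
  rw [← e1, Ak_BB hk hz.2 (by positivity)]
  have e2 : (‖z‖ / rh k T / k) ^ kp k = Mz k z * T := by
    unfold Mz
    have h1 : ‖z‖ / rh k T / k = ‖z‖ / k * (rh k T)⁻¹ := by field_simp
    rw [h1, Real.mul_rpow (by positivity) (by positivity), rh_pow hk hT]
  rw [e2, mul_comm]

/-- the constant -/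
noncomputable def Az (k : ℝ) (z : ℂ) : ℂ := Gk k (exp ((kp k * arg z : ℝ) * I)) / (√(Mz k z) : ℂ)

theorem Az_ne (hk : 1 < k) {z : ℂ} (hz : z ∈ Sk k) : Az k z ≠ 0 := by
  unfold Az
  refine div_ne_zero (Gk_ne hk ?_) ?_
  · rw [exp_I_re]
    exact Real.cos_pos_of_mem_Ioo (abs_lt.1 (kp_arg hk hz))
  · exact_mod_cast (Real.sqrt_pos.2 (Mz_pos hk hz.1)).ne'

theorem term_asym (hk : 1 < k) {z : ℂ} (hz : z ∈ Sk k) :
    Tendsto (fun T : ℝ => (√T : ℂ) * exp (-(om k z * T)) * Ak k (z / rh k T) 1) atTop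
      (𝓝 (Az k z)) := by
  have hM := Mz_pos hk hz.1
  have hκ : 0 < (exp ((kp k * arg z : ℝ) * I)).re := by
    rw [exp_I_re]
    exact Real.cos_pos_of_mem_Ioo (abs_lt.1 (kp_arg hk hz))
  have h1 : Tendsto (fun T : ℝ => Mz k z * T) atTop atTop := tendsto_id.const_mul_atTop hM
  have h2 := ((BB_asym hk hκ).comp h1).div_const (√(Mz k z) : ℂ)
  refine h2.congr' ?_
  filter_upwards [eventually_gt_atTop 0] with T hT
  simp only [Function.comp_apply]
  rw [Ak_T hk hz hT, Real.sqrt_mul hM.le]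
  have hs : (√(Mz k z) : ℂ) ≠ 0 := by exact_mod_cast (Real.sqrt_pos.2 hM).ne'
  have e : (((k - 1 : ℝ) : ℂ) * (exp ((kp k * arg z : ℝ) * I) * ((Mz k z * T : ℝ) : ℂ))) = om k z * T := by
    unfold om
    push_cast
    ring
  rw [e]
  push_cast
  field_simp

theorem term_bound (hk : 1 < k) {z : ℂ} (hz : z ∈ Sk k) :
    ∀ᶠ T : ℝ in atTop, ‖Ak k (z / rh k T) 1‖ ≤ (‖Az k z‖ + 1) * Real.exp ((om k z).re * T) := by
  have h1 := (term_asym hk hz).norm
  have h2 := h1.eventually (eventually_lt_nhds (show ‖Az k z‖ < ‖Az k z‖ + 1 by linarith))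
  filter_upwards [h2, eventually_ge_atTop 1] with T h3 h4
  rw [norm_mul, norm_mul, Complex.norm_exp, Complex.neg_re, Complex.re_mul_ofReal, Complex.norm_real,
    Real.norm_eq_abs, abs_of_nonneg (Real.sqrt_nonneg _)] at h3
  have h5 : 1 ≤ √T := Real.one_le_sqrt.2 h4
  have h6 : 0 ≤ Real.exp (-((om k z).re * T)) * ‖Ak k (z / rh k T) 1‖ := by positivity
  have h7 : Real.exp (-((om k z).re * T)) * ‖Ak k (z / rh k T) 1‖ ≤ ‖Az k z‖ + 1 := by
    refine le_trans ?_ h3.le
    rw [mul_assoc]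
    exact le_mul_of_one_le_left h6 h5
  calc ‖Ak k (z / rh k T) 1‖ = (Real.exp (-((om k z).re * T)) * ‖Ak k (z / rh k T) 1‖) *
        Real.exp ((om k z).re * T) := by
        rw [mul_right_comm, ← Real.exp_add, neg_add_cancel, Real.exp_zero, one_mul]
    _ ≤ _ := by gcongr

/-- the sum as a function of the large parameter -/
noncomputable def ff (lam c : ℕ → ℝ) (k β T : ℝ) : ℂ := fk lam c k (sk k β (rh k T))

/-- the explicit formula in terms of the large parameter -/
theorem expl_T (hk : 1 < k) (hβ : |k * β| < Real.pi / 2) (D : Dat lam c G Φ)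
    (hfin : ∀ w, ∃ n : ℕ, analyticOrderAt Φ w = n)
    {m : ℕ} (hm : analyticOrderAt Φ 0 = m) (Z : Finset ℂ)
    (hZ : ∀ z, z ∈ Z ↔ z ∈ Sk k ∧ Φ (dl β * z) = 0) :
    ∃ C : ℝ, ∀ᶠ T : ℝ in atTop, ‖ff lam c k β T -
      (((m + ∑ z ∈ Z, analyticOrderNatAt Φ (dl β * z) : ℕ) : ℂ) * (1 / kp k * Real.log T : ℝ) +
        ∑ z ∈ Z, (analyticOrderNatAt Φ (dl β * z) : ℂ) * Ak k (z / rh k T) 1)‖ ≤ C := by
  obtain ⟨C, ρ₀, hρ₀, hC⟩ := expl_k hk hβ D hfin hm Z hZ
  refine ⟨C, ?_⟩
  filter_upwards [(rh_tendsto hk).eventually (eventually_lt_nhds hρ₀), eventually_gt_atTop 0]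
    with T h1 h2
  have h3 := hC _ (rh_pos k h2) h1.le
  rw [rh_log k h2] at h3
  unfold ff
  refine le_trans (le_of_eq ?_) h3
  congr 2
  have e : ∑ z ∈ Z, (analyticOrderNatAt Φ (dl β * z) : ℂ) *
      (Ak k (z / rh k T) 1 - ((-(1 / kp k * Real.log T) : ℝ) : ℂ)) =
      ∑ z ∈ Z, (analyticOrderNatAt Φ (dl β * z) : ℂ) * Ak k (z / rh k T) 1 +
      (∑ z ∈ Z, (analyticOrderNatAt Φ (dl β * z) : ℂ)) * ((1 / kp k * Real.log T : ℝ) : ℂ) := by
    rw [Finset.sum_mul, ← Finset.sum_add_distrib]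
    refine Finset.sum_congr rfl fun z _ => ?_
    push_cast
    ring
  rw [e]
  push_cast
  ring

/-- upper bound -/
theorem grow_up (hk : 1 < k) (hβ : |k * β| < Real.pi / 2) (D : Dat lam c G Φ)
    (hfin : ∀ w, ∃ n : ℕ, analyticOrderAt Φ w = n)
    {m : ℕ} (hm : analyticOrderAt Φ 0 = m) {η : ℝ} (hη : 0 ≤ η)
    (hZ : ∀ z, z ∈ Sk k → Φ (dl β * z) = 0 → (om k z).re ≤ η) :
    ∃ C : ℝ, 0 ≤ C ∧ ∀ᶠ T : ℝ in atTop, ‖ff lam c k β T‖ ≤ C * (Real.log T + Real.exp (η * T)) := by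
  have hne : ∃ z, Φ z ≠ 0 := ⟨3, fun h0 => by
    have := D.eq 3 (by norm_num)
    rw [h0] at this
    exact Complex.exp_ne_zero _ this⟩
  set Z : Finset ℂ := (sk_finite hk hβ D hne).toFinset with hZd
  have hZm : ∀ z, z ∈ Z ↔ z ∈ Sk k ∧ Φ (dl β * z) = 0 := by
    intro z
    rw [hZd, Set.Finite.mem_toFinset]
    rfl
  obtain ⟨C, hC⟩ := expl_T hk hβ D hfin hm Z hZm
  have hb : ∀ᶠ T : ℝ in atTop, ∀ z ∈ Z,
      ‖Ak k (z / rh k T) 1‖ ≤ (‖Az k z‖ + 1) * Real.exp ((om k z).re * T) := by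
    rw [Finset.eventually_all]
    intro z hz
    exact term_bound hk ((hZm z).1 hz).1
  set N : ℕ := m + ∑ z ∈ Z, analyticOrderNatAt Φ (dl β * z) with hN
  set K : ℝ := ∑ z ∈ Z, (analyticOrderNatAt Φ (dl β * z) : ℝ) * (‖Az k z‖ + 1) with hK
  have hK0 : 0 ≤ K := Finset.sum_nonneg fun z _ => by positivity
  have hkp := kp_pos hk
  refine ⟨|C| + N * (1 / kp k) + K, by positivity, ?_⟩
  filter_upwards [hC, hb, eventually_ge_atTop 1] with T h1 h2 h3
  have hlog : 0 ≤ Real.log T := Real.log_nonneg h3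
  have hexp : 1 ≤ Real.exp (η * T) := Real.one_le_exp (by positivity)
  set R : ℂ := ((N : ℕ) : ℂ) * (1 / kp k * Real.log T : ℝ) +
        ∑ z ∈ Z, (analyticOrderNatAt Φ (dl β * z) : ℂ) * Ak k (z / rh k T) 1 with hR
  have hRn : ‖R‖ ≤ N * (1 / kp k) * Real.log T + K * Real.exp (η * T) := by
    rw [hR]
    refine (norm_add_le _ _).trans (add_le_add ?_ ?_)
    · rw [norm_mul, Complex.norm_natCast, Complex.norm_real, Real.norm_eq_abs,
        abs_of_nonneg (by positivity)]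
      apply le_of_eq
      ring
    · rw [hK, Finset.sum_mul]
      refine (norm_sum_le _ _).trans (Finset.sum_le_sum fun z hz => ?_)
      rw [norm_mul, Complex.norm_natCast, mul_assoc]
      refine mul_le_mul_of_nonneg_left ((h2 z hz).trans ?_) (Nat.cast_nonneg _)
      have h4 := hZ z ((hZm z).1 hz).1 ((hZm z).1 hz).2
      gcongr
  have e : ff lam c k β T = (ff lam c k β T - R) + R := by ring
  rw [e]
  refine (norm_add_le _ _).trans ?_
  have h5 := le_abs_self C
  have h6 : 0 ≤ N * (1 / kp k) := by positivity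
  have h7 : |C| ≤ |C| * (Real.log T + Real.exp (η * T)) :=
    le_mul_of_one_le_right (abs_nonneg _) (by linarith)
  have h8 : N * (1 / kp k) * Real.log T ≤ N * (1 / kp k) * (Real.log T + Real.exp (η * T)) := by
    apply mul_le_mul_of_nonneg_left _ h6
    linarith
  have h9 : K * Real.exp (η * T) ≤ K * (Real.log T + Real.exp (η * T)) := by
    apply mul_le_mul_of_nonneg_left _ hK0
    linarith
  calc _ ≤ C + (N * (1 / kp k) * Real.log T + K * Real.exp (η * T)) := add_le_add h1 hRn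
    _ ≤ |C| * (Real.log T + Real.exp (η * T)) + N * (1 / kp k) * (Real.log T + Real.exp (η * T)) +
        K * (Real.log T + Real.exp (η * T)) := by linarith
    _ = _ := by ring

theorem decay (a : ℝ) {b : ℝ} (hb : 0 < b) (C : ℝ) :
    Tendsto (fun T : ℝ => C * (T ^ a * Real.exp (-b * T))) atTop (𝓝 0) := sqrt_exp_tendsto hb C

/-- the leading part -/
theorem leading (hk : 1 < k) (hβ : |k * β| < Real.pi / 2) (D : Dat lam c G Φ)
    (hfin : ∀ w, ∃ n : ℕ, analyticOrderAt Φ w = n)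
    {m : ℕ} (hm : analyticOrderAt Φ 0 = m) (Z : Finset ℂ)
    (hZ : ∀ z, z ∈ Z ↔ z ∈ Sk k ∧ Φ (dl β * z) = 0) {η : ℝ} (hη : 0 < η)
    (hmax : ∀ z ∈ Z, (om k z).re ≤ η) :
    Tendsto (fun T : ℝ => (√T : ℂ) * exp (-(η * T : ℝ)) * ff lam c k β T -
      ∑ z ∈ Z.filter (fun z => (om k z).re = η), (analyticOrderNatAt Φ (dl β * z) : ℂ) * Az k z *
        exp (((om k z).im * T : ℝ) * I)) atTop (𝓝 0) := by
  classical
  obtain ⟨C, hC⟩ := expl_T hk hβ D hfin hm Z hZ
  have hkp := kp_pos hk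
  set n : ℂ → ℂ := fun z => (analyticOrderNatAt Φ (dl β * z) : ℂ) with hn
  set N : ℕ := m + ∑ z ∈ Z, analyticOrderNatAt Φ (dl β * z) with hN
  set E : ℝ → ℂ := fun T => (√T : ℂ) * exp (-(η * T : ℝ)) with hE
  have hEn : ∀ T, ‖E T‖ = √T * Real.exp (-(η * T)) := by
    intro T
    rw [hE]
    simp only
    rw [norm_mul, Complex.norm_real, Real.norm_eq_abs, abs_of_nonneg (Real.sqrt_nonneg _),
      Complex.norm_exp, Complex.neg_re, Complex.ofReal_re]
  -- the error
  have t1 : Tendsto (fun T : ℝ => E T * (ff lam c k β T - (((N : ℕ) : ℂ) *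
      (1 / kp k * Real.log T : ℝ) + ∑ z ∈ Z, n z * Ak k (z / rh k T) 1))) atTop (𝓝 0) := by
    rw [tendsto_zero_iff_norm_tendsto_zero]
    refine squeeze_zero' (g := fun T => C * (T ^ (1 / 2 : ℝ) * Real.exp (-η * T)))
      (Eventually.of_forall fun T => norm_nonneg _) ?_ (decay _ hη C)
    filter_upwards [hC] with T h1
    rw [norm_mul, hEn, ← Real.sqrt_eq_rpow]
    have e : -(η * T) = -η * T := by ring
    rw [e, mul_comm]
    exact mul_le_mul_of_nonneg_right h1 (by positivity)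
  -- the logarithm
  have t2 : Tendsto (fun T : ℝ => E T * (((N : ℕ) : ℂ) * (1 / kp k * Real.log T : ℝ))) atTop (𝓝 0) := by
    rw [tendsto_zero_iff_norm_tendsto_zero]
    refine squeeze_zero' (g := fun T => (N * (1 / kp k)) * (T ^ (3 / 2 : ℝ) * Real.exp (-η * T)))
      (Eventually.of_forall fun T => norm_nonneg _) ?_ (decay _ hη _)
    filter_upwards [eventually_ge_atTop 1] with T h1
    have h2 : 0 ≤ Real.log T := Real.log_nonneg h1
    have h3 : Real.log T ≤ T := (Real.log_le_sub_one_of_pos (by linarith)).trans (by linarith)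
    have h4 : √T * T = T ^ (3 / 2 : ℝ) := by
      rw [Real.sqrt_eq_rpow, ← Real.rpow_add_one (by linarith)]
      norm_num
    rw [norm_mul (E T), hEn, norm_mul, Complex.norm_natCast, Complex.norm_real, Real.norm_eq_abs,
      abs_of_nonneg (by positivity), ← h4]
    have e : -(η * T) = -η * T := by ring
    rw [e]
    calc _ ≤ √T * Real.exp (-η * T) * (N * (1 / kp k * T)) := by gcongr
      _ = _ := by ring
  -- the terms
  have t3 : ∀ z ∈ Z, Tendsto (fun T : ℝ => E T * (n z * Ak k (z / rh k T) 1) -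
      if (om k z).re = η then n z * Az k z * exp (((om k z).im * T : ℝ) * I) else 0) atTop (𝓝 0) := by
    intro z hz
    have hs := ((hZ z).1 hz).1
    have h1 := term_asym hk hs
    by_cases hre : (om k z).re = η
    · have h2 : Tendsto (fun T : ℝ => (√T : ℂ) * exp (-(om k z * T)) * Ak k (z / rh k T) 1 - Az k z)
          atTop (𝓝 0) := by
        have := h1.sub_const (Az k z)
        rwa [sub_self] at this
      have h3 : Tendsto (fun T : ℝ => (n z * exp (((om k z).im * T : ℝ) * I)) *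
          ((√T : ℂ) * exp (-(om k z * T)) * Ak k (z / rh k T) 1 - Az k z)) atTop (𝓝 0) := by
        rw [tendsto_zero_iff_norm_tendsto_zero] at h2 ⊢
        have h4 := h2.const_mul ‖n z‖
        rw [mul_zero] at h4
        refine h4.congr fun T => ?_
        rw [norm_mul, norm_mul, norm_exp_I, mul_one]
      refine h3.congr fun T => ?_
      rw [if_pos hre]
      have e : exp (-(η * T : ℝ)) = exp (((om k z).im * T : ℝ) * I) * exp (-(om k z * T)) := by
        rw [← Complex.exp_add]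
        congr 1
        rw [← hre]
        apply Complex.ext
        · simp
        · simp
      rw [hE]
      simp only
      rw [e]
      ring
    · have hlt : (om k z).re < η := lt_of_le_of_ne (hmax z hz) hre
      simp only [if_neg hre, sub_zero]
      rw [tendsto_zero_iff_norm_tendsto_zero]
      have h2 := h1.norm
      have h5 := h2.eventually (eventually_lt_nhds (show ‖Az k z‖ < ‖Az k z‖ + 1 by linarith))
      refine squeeze_zero' (g := fun T => (‖n z‖ * (‖Az k z‖ + 1)) *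
        (T ^ (0 : ℝ) * Real.exp (-(η - (om k z).re) * T)))
        (Eventually.of_forall fun T => norm_nonneg _) ?_ (decay _ (by linarith) _)
      filter_upwards [h5] with T h6
      rw [norm_mul, norm_mul, Complex.norm_exp, Complex.neg_re, Complex.re_mul_ofReal, Complex.norm_real,
        Real.norm_eq_abs, abs_of_nonneg (Real.sqrt_nonneg _)] at h6
      rw [norm_mul (E T), hEn, norm_mul, Real.rpow_zero, one_mul]
      have e : Real.exp (-(η * T)) = Real.exp (-((om k z).re * T)) * Real.exp (-(η - (om k z).re) * T) := by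
        rw [← Real.exp_add]
        congr 1
        ring
      rw [e]
      calc _ = ‖n z‖ * (√T * Real.exp (-((om k z).re * T)) * ‖Ak k (z / rh k T) 1‖) *
            Real.exp (-(η - (om k z).re) * T) := by ring
        _ ≤ ‖n z‖ * (‖Az k z‖ + 1) * Real.exp (-(η - (om k z).re) * T) := by gcongr
  have t4 := tendsto_finsetSum Z t3
  rw [Finset.sum_const_zero] at t4
  have t5 := (t1.add t2).add t4
  rw [add_zero, add_zero] at t5
  refine t5.congr fun T => ?_
  rw [Finset.sum_sub_distrib, Finset.sum_filter, ← Finset.mul_sum]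
  rw [hE]
  simp only
  ring

/-- the frequencies are distinct -/
theorem im_inj (hk : 1 < k) (Z : Finset ℂ) (hZ : ∀ z ∈ Z, z ∈ Sk k) (η : ℝ) :
    Set.InjOn (fun z => (om k z).im) (Z.filter (fun z => (om k z).re = η) : Finset ℂ) := by
  intro z hz w hw h
  have hz' := Finset.mem_filter.1 (Finset.mem_coe.1 hz)
  have hw' := Finset.mem_filter.1 (Finset.mem_coe.1 hw)
  exact om_inj hk (hZ z hz'.1) (hZ w hw'.1) (Complex.ext (hz'.2.trans hw'.2.symm) h)

theorem exp_pow_eq (x h : ℝ) (i : ℕ) : exp ((x * h : ℝ) * I) ^ i = exp ((x * (i * h) : ℝ) * I) := by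
  rw [← Complex.exp_nat_mul]
  congr 1
  push_cast
  ring

theorem order_pos (hfin : ∀ w, ∃ n : ℕ, analyticOrderAt Φ w = n) (hd : Differentiable ℂ Φ) {w : ℂ}
    (h : Φ w = 0) : (analyticOrderNatAt Φ w : ℂ) ≠ 0 := by
  obtain ⟨n, hn⟩ := hfin w
  have h1 : analyticOrderNatAt Φ w = n := by
    unfold analyticOrderNatAt
    rw [hn]
    rfl
  rw [h1]
  rintro h2
  have h3 : n = 0 := by exact_mod_cast h2
  rw [h3] at hn
  have h4 : analyticOrderAt Φ w = 0 := by exact_mod_cast hn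
  rw [(hd.analyticAt w).analyticOrderAt_eq_zero] at h4
  exact h4 h

theorem seq_atTop {h : ℝ} (hh : 0 < h) : Tendsto (fun i : ℕ => (i : ℝ) * h) atTop atTop :=
  tendsto_natCast_atTop_atTop.atTop_mul_const hh

/-- the converse -/
theorem grow_conv (hk : 1 < k) (hβ : |k * β| < Real.pi / 2) (D : Dat lam c G Φ)
    (hfin : ∀ w, ∃ n : ℕ, analyticOrderAt Φ w = n) {η : ℝ} (hη : 0 ≤ η)
    (h : ∀ ε : ℝ, 0 < ε → ∀ᶠ T : ℝ in atTop, ‖ff lam c k β T‖ ≤ Real.exp ((η + ε) * T))
    {z : ℂ} (hz : z ∈ Sk k) (hz0 : Φ (dl β * z) = 0) : (om k z).re ≤ η := by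
  classical
  by_contra hc
  push Not at hc
  have hne : ∃ z, Φ z ≠ 0 := ⟨3, fun h0 => by
    have := D.eq 3 (by norm_num)
    rw [h0] at this
    exact Complex.exp_ne_zero _ this⟩
  obtain ⟨m, hm⟩ := hfin 0
  set Z : Finset ℂ := (sk_finite hk hβ D hne).toFinset with hZd
  have hZm : ∀ z, z ∈ Z ↔ z ∈ Sk k ∧ Φ (dl β * z) = 0 := by
    intro z
    rw [hZd, Set.Finite.mem_toFinset]
    rfl
  have hzZ : z ∈ Z := (hZm z).2 ⟨hz, hz0⟩
  obtain ⟨w, hwZ, hw⟩ := Finset.exists_max_image Z (fun z => (om k z).re) ⟨z, hzZ⟩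
  set η₀ : ℝ := (om k w).re with hη₀
  have hη₀' : η < η₀ := hc.trans_le (hw z hzZ)
  have hlead := leading hk hβ D hfin hm Z hZm (show 0 < η₀ by linarith) hw
  set S : Finset ℂ := Z.filter (fun z => (om k z).re = η₀) with hS
  have hwS : w ∈ S := Finset.mem_filter.2 ⟨hwZ, rfl⟩
  obtain ⟨s, hs, hinj, -⟩ := exists_step S (fun z => (om k z).im)
    (im_inj hk Z (fun z hz => ((hZm z).1 hz).1) η₀)
  have hsmall : Tendsto (fun T : ℝ => (√T : ℂ) * exp (-(η₀ * T : ℝ)) * ff lam c k β T) atTop (𝓝 0) := by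
    rw [tendsto_zero_iff_norm_tendsto_zero]
    refine squeeze_zero' (g := fun T => 1 * (T ^ (1 / 2 : ℝ) * Real.exp (-((η₀ - η) / 2) * T)))
      (Eventually.of_forall fun T => norm_nonneg _) ?_ (decay _ (by linarith) 1)
    filter_upwards [h ((η₀ - η) / 2) (by linarith)] with T h1
    rw [norm_mul, norm_mul, Complex.norm_real, Real.norm_eq_abs, abs_of_nonneg (Real.sqrt_nonneg _),
      Complex.norm_exp, Complex.neg_re, Complex.ofReal_re, one_mul, ← Real.sqrt_eq_rpow, mul_assoc]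
    refine mul_le_mul_of_nonneg_left ?_ (Real.sqrt_nonneg _)
    calc _ ≤ Real.exp (-(η₀ * T)) * Real.exp ((η + (η₀ - η) / 2) * T) := by gcongr
      _ = _ := by
        rw [← Real.exp_add]
        congr 1
        ring
  have h1 : Tendsto (fun T : ℝ => ∑ z ∈ S, (analyticOrderNatAt Φ (dl β * z) : ℂ) * Az k z *
        exp (((om k z).im * T : ℝ) * I)) atTop (𝓝 0) := by
    have := hsmall.sub hlead
    rw [sub_zero] at this
    refine this.congr fun T => ?_
    ring
  have h2 := coef_zero_of_tendsto S (fun z => (analyticOrderNatAt Φ (dl β * z) : ℂ) * Az k z)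
    (fun z => exp (((om k z).im * s : ℝ) * I)) (fun z _ => norm_exp_I _) hinj (by
      refine (h1.comp (seq_atTop hs)).congr fun i => ?_
      simp only [Function.comp_apply]
      refine Finset.sum_congr rfl fun z _ => ?_
      rw [exp_pow_eq]) hwS
  rcases mul_eq_zero.1 h2 with h3 | h3
  · exact order_pos hfin D.Φd ((hZm w).1 hwZ).2 h3
  · exact Az_ne hk ((hZm w).1 hwZ).1 h3

/-- the one-sided converse -/
theorem grow_one (hk : 1 < k) (D : Dat lam c G Φ)
    (hfin : ∀ w, ∃ n : ℕ, analyticOrderAt Φ w = n) {η : ℝ} (hη : 0 ≤ η)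
    (hreal : ∀ T : ℝ, 0 < T → ff lam c k 0 T = ((ff lam c k 0 T).re : ℂ))
    (h : ∀ ε : ℝ, 0 < ε → ∀ᶠ T : ℝ in atTop, (ff lam c k 0 T).re ≤ Real.exp ((η + ε) * T))
    {z : ℂ} (hz : z ∈ Sk k) (hz0 : Φ (dl 0 * z) = 0) : (om k z).re ≤ η := by
  classical
  have hβ : |k * 0| < Real.pi / 2 := by
    rw [mul_zero, abs_zero]
    exact half_pos Real.pi_pos
  have hkp := kp_pos hk
  by_contra hc
  push Not at hc
  have hne : ∃ z, Φ z ≠ 0 := ⟨3, fun h0 => by
    have := D.eq 3 (by norm_num)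
    rw [h0] at this
    exact Complex.exp_ne_zero _ this⟩
  obtain ⟨m, hm⟩ := hfin 0
  set Z : Finset ℂ := (sk_finite hk hβ D hne).toFinset with hZd
  have hZm : ∀ z, z ∈ Z ↔ z ∈ Sk k ∧ Φ (dl 0 * z) = 0 := by
    intro z
    rw [hZd, Set.Finite.mem_toFinset]
    rfl
  have hzZ : z ∈ Z := (hZm z).2 ⟨hz, hz0⟩
  obtain ⟨w, hwZ, hw⟩ := Finset.exists_max_image Z (fun z => (om k z).re) ⟨z, hzZ⟩
  set η₀ : ℝ := (om k w).re with hη₀
  have hη₀' : η < η₀ := hc.trans_le (hw z hzZ)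
  have hlead := leading hk hβ D hfin hm Z hZm (show 0 < η₀ by linarith) hw
  set S : Finset ℂ := Z.filter (fun z => (om k z).re = η₀) with hS
  have hwS : w ∈ S := Finset.mem_filter.2 ⟨hwZ, rfl⟩
  obtain ⟨s, hs, hinj, hone⟩ := exists_step S (fun z => (om k z).im)
    (im_inj hk Z (fun z hz => ((hZm z).1 hz).1) η₀)
  have hseq := seq_atTop hs
  have hv : Tendsto (fun T : ℝ => 1 * (T ^ (1 / 2 : ℝ) * Real.exp (-((η₀ - η) / 2) * T))) atTop (𝓝 0) :=
    decay _ (by linarith) 1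
  have hub : ∀ᶠ T : ℝ in atTop, √T * Real.exp (-(η₀ * T)) * (ff lam c k 0 T).re ≤
      1 * (T ^ (1 / 2 : ℝ) * Real.exp (-((η₀ - η) / 2) * T)) := by
    filter_upwards [h ((η₀ - η) / 2) (by linarith)] with T h1
    rw [one_mul, ← Real.sqrt_eq_rpow, mul_assoc]
    refine mul_le_mul_of_nonneg_left ?_ (Real.sqrt_nonneg _)
    calc _ ≤ Real.exp (-(η₀ * T)) * Real.exp ((η + (η₀ - η) / 2) * T) := by gcongr
      _ = _ := by
        rw [← Real.exp_add]
        congr 1
        ring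
  have h2 := coef_zero_one S (fun z => (analyticOrderNatAt Φ (dl 0 * z) : ℂ) * Az k z)
    (fun z => exp (((om k z).im * s : ℝ) * I)) (fun z _ => norm_exp_I _) hinj (fun z hzS h1 => by
      have h3 := hone z hzS h1
      have hzs := ((hZm z).1 (Finset.mem_filter.1 hzS).1).1
      have hM := Mz_pos hk hzs.1
      have hk1 : 0 < k - 1 := by linarith
      rw [om_im] at h3
      have h4 : Real.sin (kp k * arg z) = 0 := by
        rcases mul_eq_zero.1 h3 with h5 | h5
        · exact absurd h5 (by positivity)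
        · exact h5
      have h5 := abs_lt.1 (kp_arg hk hzs)
      have h6 : kp k * arg z = 0 :=
        (Real.sin_eq_zero_iff_of_lt_of_lt (by linarith [Real.pi_pos]) (by linarith [Real.pi_pos])).1 h4
      obtain ⟨g, hg, hg'⟩ := Gk_one hk
      unfold Az
      rw [h6, Complex.ofReal_zero, zero_mul, Complex.exp_zero, hg', ← Complex.ofReal_div,
        ← Complex.ofReal_natCast, ← Complex.ofReal_mul, Complex.ofReal_re]
      positivity)
    (fun i => √(i * s) * Real.exp (-(η₀ * (i * s))) * (ff lam c k 0 (i * s)).re) (by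
      refine (hlead.comp hseq).congr' ?_
      filter_upwards [hseq.eventually (eventually_gt_atTop 0)] with i hi
      simp only [Function.comp_apply]
      congr 1
      · rw [hreal _ hi]
        push_cast
        rw [Complex.ofReal_re]
      · refine Finset.sum_congr rfl fun z _ => ?_
        rw [exp_pow_eq])
    (hv.comp hseq) (hseq.eventually hub) hwS
  rcases mul_eq_zero.1 h2 with h3 | h3
  · exact order_pos hfin D.Φd ((hZm w).1 hwZ).2 h3
  · exact Az_ne hk ((hZm w).1 hwZ).1 h3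

end Pool.Agent.D0H40.KX
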