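import Pool.Agent.D0H40.KX.GrowK
import Pool.Agent.D0H40.GC.Inst

/-! The finite sums of an elliptic curve. -/

set_option autoImplicit false

namespace Pool.Agent.D0H40.KX

open Complex MeasureTheory Filter Topology Set Classical
open Pool.Agent.W263.BSD
open Pool.Agent.W189.ML (ser sdata exp_eq)
open Pool.Agent.W524.RY (cf F_ne_zero small_ne_zero GG_sector')
open Pool.Agent.D0H40.GC (dat_curve cf_abs_le)

variable {a b : ℤ} {F : ℂ → ℂ} {k : ℝ}

/-- telescoping bound -/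
theorem tele (hk : 1 < k) {x : ℝ} (hx : 1 < x) :
    x ^ (-k) ≤ ((x - 1) ^ (-(k - 1)) - x ^ (-(k - 1))) / (k - 1) := by
  have hk1 : 0 < k - 1 := by linarith
  have hx0 : 0 < x := by linarith
  have hx1 : 0 < 1 - x⁻¹ := by
    have : x⁻¹ < 1 := inv_lt_one_of_one_lt₀ hx
    linarith
  have e1 : x - 1 = x * (1 - x⁻¹) := by
    rw [mul_sub, mul_one, mul_inv_cancel₀ hx0.ne']
  have h1 : 1 + (k - 1) * x⁻¹ ≤ (1 - x⁻¹) ^ (-(k - 1)) := by
    rw [Real.rpow_def_of_pos hx1]
    have h2 : Real.log (1 - x⁻¹) ≤ -x⁻¹ := by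
      have := Real.log_le_sub_one_of_pos hx1
      linarith
    have h3 := Real.add_one_le_exp (Real.log (1 - x⁻¹) * (-(k - 1)))
    have h4 : (k - 1) * x⁻¹ ≤ Real.log (1 - x⁻¹) * (-(k - 1)) := by
      have := mul_le_mul_of_nonneg_left h2 hk1.le
      linarith
    linarith
  rw [le_div_iff₀ hk1, e1, Real.mul_rpow hx0.le hx1.le]
  have h5 : 0 < x ^ (-(k - 1)) := Real.rpow_pos_of_pos hx0 _
  have h6 := mul_le_mul_of_nonneg_left h1 h5.le
  have h7 : x ^ (-(k - 1)) * x⁻¹ = x ^ (-k) := by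
    rw [← Real.rpow_neg_one, ← Real.rpow_add hx0]
    congr 1
    ring
  calc x ^ (-k) * (k - 1) = x ^ (-(k - 1)) * (1 + (k - 1) * x⁻¹) - x ^ (-(k - 1)) := by
        rw [← h7]
        ring
    _ ≤ _ := by linarith

theorem sum_tail (hk : 1 < k) {N : ℕ} (hN : 1 ≤ N) {n : ℕ} (hn : N ≤ n) :
    ∑ i ∈ Finset.Ioc N n, ((i : ℝ)) ^ (-k) ≤ ((N : ℝ) ^ (-(k - 1)) - (n : ℝ) ^ (-(k - 1))) / (k - 1) := by
  induction n, hn using Nat.le_induction with
  | base => simp
  | succ n hn ih =>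
    rw [← Finset.insert_Ioc_right_eq_Ioc_add_one hn, Finset.sum_insert (by simp)]
    have h1 := tele hk (x := ((n + 1 : ℕ) : ℝ)) (by
      have : (1:ℝ) ≤ n := by exact_mod_cast hN.trans hn
      push_cast
      linarith)
    have e : ((n + 1 : ℕ) : ℝ) - 1 = n := by push_cast; ring
    rw [e] at h1
    refine (add_le_add h1 ih).trans (le_of_eq ?_)
    ring

/-- tail of the powers -/
theorem tail_pw (hk : 1 < k) {X : ℝ} (hX : 1 ≤ X) {h : ℕ → ℝ} (h0 : ∀ n, 0 ≤ h n)
    (h1 : ∀ n : ℕ, n < ⌊X⌋₊ + 1 → h n = 0)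
    (h2 : ∀ n : ℕ, ⌊X⌋₊ + 1 ≤ n → h n ≤ X ^ (k - 1) * ((n : ℝ)) ^ (-k))
    (n : ℕ) : ∑ i ∈ Finset.range n, h i ≤ 2 ^ (k - 1) / (k - 1) := by
  have hk1 : 0 < k - 1 := by linarith
  set N : ℕ := ⌊X⌋₊ with hN
  have hN1 : 1 ≤ N := (Nat.one_le_floor_iff X).2 hX
  have hN0 : (0:ℝ) < N := by exact_mod_cast hN1
  have hXN : X < N + 1 := Nat.lt_floor_add_one X
  have hX2 : X ≤ 2 * N := by
    have : (1:ℝ) ≤ N := by exact_mod_cast hN1
    linarith
  have hXp : 0 ≤ X ^ (k - 1) := Real.rpow_nonneg (by linarith) _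
  by_cases hn : n ≤ N
  · have : ∑ i ∈ Finset.range n, h i = 0 := Finset.sum_eq_zero fun i hi => h1 i (by
      have := Finset.mem_range.1 hi
      omega)
    rw [this]
    positivity
  · push Not at hn
    have hsub : ∑ i ∈ Finset.range n, h i ≤ ∑ i ∈ Finset.Ioc N n, h i := by
      have e : ∑ i ∈ Finset.range n, h i = ∑ i ∈ (Finset.range n).filter (fun i => N < i), h i := by
        rw [Finset.sum_filter]
        refine Finset.sum_congr rfl fun i _ => ?_
        split_ifs with hi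
        · rfl
        · exact h1 i (by omega)
      rw [e]
      refine Finset.sum_le_sum_of_subset_of_nonneg ?_ fun i _ _ => h0 i
      intro i hi
      rw [Finset.mem_filter, Finset.mem_range] at hi
      rw [Finset.mem_Ioc]
      omega
    refine hsub.trans ?_
    have hnn : 0 ≤ (n : ℝ) ^ (-(k - 1)) := Real.rpow_nonneg (Nat.cast_nonneg _) _
    calc ∑ i ∈ Finset.Ioc N n, h i ≤ ∑ i ∈ Finset.Ioc N n, X ^ (k - 1) * ((i : ℝ)) ^ (-k) :=
          Finset.sum_le_sum fun i hi => h2 i (by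
            have := (Finset.mem_Ioc.1 hi).1
            omega)
      _ = X ^ (k - 1) * ∑ i ∈ Finset.Ioc N n, ((i : ℝ)) ^ (-k) := by rw [Finset.mul_sum]
      _ ≤ X ^ (k - 1) * (((N : ℝ) ^ (-(k - 1)) - (n : ℝ) ^ (-(k - 1))) / (k - 1)) := by
          gcongr
          exact sum_tail hk hN1 hn.le
      _ ≤ X ^ (k - 1) * ((N : ℝ) ^ (-(k - 1)) / (k - 1)) := by
          gcongr
          linarith
      _ ≤ (2 * N) ^ (k - 1) * ((N : ℝ) ^ (-(k - 1)) / (k - 1)) := by
          have : 0 ≤ (N : ℝ) ^ (-(k - 1)) / (k - 1) := by positivity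
          gcongr
      _ = _ := by
          rw [Real.mul_rpow (by norm_num) hN0.le, Real.rpow_neg hN0.le]
          have : 0 < (N : ℝ) ^ (k - 1) := Real.rpow_pos_of_pos hN0 _
          field_simp

/-- the weighted sum over the primes up to `X` -/
noncomputable def wk (a b : ℤ) (k τ X : ℝ) : ℂ :=
  ∑ p ∈ (Finset.range (⌊X⌋₊ + 1)).filter (GoodPrime a b),
    exp (-((1 + τ * I) * ((Real.log p) ^ k / (Real.log X) ^ (k - 1) : ℝ))) *
      (Real.log (((pointCount a b p : ℝ) + 1) / p) : ℝ)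

/-- the parameter -/
noncomputable def kap (k τ L : ℝ) : ℂ := (1 + τ * I) * ((L ^ (k - 1))⁻¹ : ℝ)

theorem kap_re (k τ L : ℝ) : (kap k τ L).re = (L ^ (k - 1))⁻¹ := by
  unfold kap
  rw [Complex.re_mul_ofReal]
  simp

theorem kap_pos (k τ : ℝ) {L : ℝ} (hL : 0 < L) : 0 < (kap k τ L).re := by
  rw [kap_re]
  have := Real.rpow_pos_of_pos hL (k - 1)
  positivity

theorem wk_weight (k τ L : ℝ) (u : ℝ) :
    exp (-((1 + τ * I) * (u ^ k / L ^ (k - 1) : ℝ))) = EE k (kap k τ L) u := by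
  unfold EE kap
  congr 1
  push_cast
  ring

/-- the term -/
noncomputable def tk (a b : ℤ) (k τ L : ℝ) (p : ℕ) : ℂ :=
  (cf a b p : ℂ) * EE k (kap k τ L) (Real.log p)

theorem tk_norm (k τ : ℝ) {L : ℝ} (p : ℕ) :
    ‖tk a b k τ L p‖ = |cf a b p| * Real.exp (-((L ^ (k - 1))⁻¹ * (Real.log p) ^ k)) := by
  unfold tk
  rw [norm_mul, Complex.norm_real, Real.norm_eq_abs, EE_norm, kap_re]

theorem tk_tail (hk : 1 < k) (τ : ℝ) {X : ℝ} (hX : 1 < X) {p : ℕ} (hp : ⌊X⌋₊ + 1 ≤ p) :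
    ‖tk a b k τ (Real.log X) p‖ ≤ X ^ (k - 1) * ((p : ℝ)) ^ (-k) := by
  have hL : 0 < Real.log X := Real.log_pos hX
  have hX0 : 0 < X := by linarith
  have hXp : X < p := (Nat.lt_floor_add_one X).trans_le (by exact_mod_cast hp)
  have hp0 : (0:ℝ) < p := hX0.trans hXp
  set L := Real.log X with hLd
  set u := Real.log (p : ℝ) with hu
  have hu0 : 0 < u := Real.log_pos (by linarith)
  rw [tk_norm]
  have h0 : L + k * (u - L) ≤ (L ^ (k - 1))⁻¹ * u ^ k := by
    have h1 := one_add_mul_self_le_rpow_one_add (s := u / L - 1) (p := k) (by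
      have : 0 < u / L := by positivity
      linarith) hk.le
    rw [add_sub_cancel, Real.div_rpow hu0.le hL.le] at h1
    have h2 := mul_le_mul_of_nonneg_left h1 hL.le
    have e1 : L * (1 + k * (u / L - 1)) = L + k * (u - L) := by field_simp
    have e2 : L * (u ^ k / L ^ k) = (L ^ (k - 1))⁻¹ * u ^ k := by
      rw [pow_split (k := k) hL]
      have : 0 < L ^ (k - 1) := Real.rpow_pos_of_pos hL _
      field_simp
    rw [e1, e2] at h2
    exact h2
  have h1 : Real.exp (-((L ^ (k - 1))⁻¹ * u ^ k)) ≤ Real.exp ((k - 1) * L + -k * u) := by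
    apply Real.exp_le_exp.2
    linarith
  have h2 : Real.exp ((k - 1) * L + -k * u) = X ^ (k - 1) * ((p : ℝ)) ^ (-k) := by
    rw [Real.exp_add, Real.rpow_def_of_pos hX0, Real.rpow_def_of_pos hp0, mul_comm (k - 1), mul_comm (-k)]
  rw [← h2]
  calc |cf a b p| * Real.exp (-((L ^ (k - 1))⁻¹ * u ^ k)) ≤
      1 * Real.exp ((k - 1) * L + -k * u) := by
        gcongr
        exact cf_abs_le p
    _ = _ := one_mul _

theorem tk_summable (hk : 1 < k) (τ : ℝ) {L : ℝ} (hL : 0 < L) (hF : IsLSeries a b F) :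
    Summable (tk a b k τ L) := by
  have := fk_summable (dat_curve hF) hk (kap_pos k τ hL)
  exact this.of_norm

theorem trunc_le (hk : 1 < k) (hF : IsLSeries a b F) (τ : ℝ) {X : ℝ} (hX : 1 < X) :
    ‖fk (fun p : ℕ => Real.log p) (cf a b) k (kap k τ (Real.log X)) -
      ∑ p ∈ Finset.range (⌊X⌋₊ + 1), tk a b k τ (Real.log X) p‖ ≤ 2 ^ (k - 1) / (k - 1) := by
  have hL : 0 < Real.log X := Real.log_pos hX
  have hs := tk_summable (a := a) (b := b) hk τ hL hF
  set N := ⌊X⌋₊ + 1 with hN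
  have e1 : fk (fun p : ℕ => Real.log p) (cf a b) k (kap k τ (Real.log X)) =
      ∑' p, tk a b k τ (Real.log X) p := rfl
  rw [e1, ← hs.sum_add_tsum_compl (s := Finset.range N), add_sub_cancel_left]
  set h : ℕ → ℝ := fun p => if p < N then 0 else ‖tk a b k τ (Real.log X) p‖ with hh
  have h0 : ∀ n, 0 ≤ h n := by
    intro n
    rw [hh]
    simp only
    split_ifs
    · exact le_rfl
    · exact norm_nonneg _
  have hb : ∀ n, ∑ i ∈ Finset.range n, h i ≤ 2 ^ (k - 1) / (k - 1) := tail_pw hk hX.le h0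
    (fun n hn => by rw [hh]; simp only; rw [if_pos hn])
    (fun n hn => by
      rw [hh]
      simp only
      rw [if_neg (by omega)]
      exact tk_tail hk τ hX hn)
  have hsum : Summable h := summable_of_sum_range_le h0 hb
  have hle : ∑' n, h n ≤ 2 ^ (k - 1) / (k - 1) := Real.tsum_le_of_sum_range_le h0 hb
  refine le_trans ?_ hle
  rw [tsum_subtype ((Finset.range N : Set ℕ)ᶜ) (tk a b k τ (Real.log X))]
  refine tsum_of_norm_bounded hsum.hasSum fun i => ?_
  by_cases hi : i < N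
  · have : i ∉ ((Finset.range N : Set ℕ)ᶜ) := by simpa using hi
    rw [indicator_of_notMem this, norm_zero]
    exact h0 i
  · have : i ∈ ((Finset.range N : Set ℕ)ᶜ) := by simpa using hi
    rw [indicator_of_mem this, hh]
    simp only
    rw [if_neg hi]

/-- the small primes -/
theorem small_le (k τ : ℝ) {X : ℝ} (hX : 1 < X) :
    ‖wk a b k τ X - ∑ p ∈ Finset.range (⌊X⌋₊ + 1), tk a b k τ (Real.log X) p‖ ≤
      ∑ p ∈ Finset.range 25, |lp a b p| := by
  have hL : 0 < Real.log X := Real.log_pos hX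
  set N := ⌊X⌋₊ + 1 with hN
  unfold wk
  rw [Finset.sum_filter, ← Finset.sum_sub_distrib]
  have key : ∀ p ∈ Finset.range N, ‖(if GoodPrime a b p then
      exp (-((1 + τ * I) * ((Real.log p) ^ k / (Real.log X) ^ (k - 1) : ℝ))) *
      (Real.log (((pointCount a b p : ℝ) + 1) / p) : ℝ) else 0) - tk a b k τ (Real.log X) p‖ ≤
      if p < 25 then |lp a b p| else 0 := by
    intro p _
    rw [wk_weight]
    unfold tk cf
    by_cases hg : GoodPrime a b p
    · by_cases h25 : 25 ≤ p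
      · have hS : p ∈ SS a b := ⟨hg, h25⟩
        rw [if_pos hg, if_pos hS, if_neg (by omega), cc_eq_lp (by omega)]
        unfold Pool.Agent.W263.BSD.lp
        rw [mul_comm, sub_self, norm_zero]
      · have hS : p ∉ SS a b := fun h => h25 h.2
        rw [if_pos hg, if_neg hS, if_pos (by omega), Complex.ofReal_zero, zero_mul, sub_zero]
        rw [norm_mul, Complex.norm_real, Real.norm_eq_abs]
        have h1 : ‖EE k (kap k τ (Real.log X)) (Real.log p)‖ ≤ 1 :=
          EE_le_one (kap_pos k τ hL).le (Real.log_natCast_nonneg p)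
        exact mul_le_of_le_one_left (abs_nonneg _) h1
    · have hS : p ∉ SS a b := fun h => hg h.1
      rw [if_neg hg, if_neg hS, Complex.ofReal_zero, zero_mul, sub_zero, norm_zero]
      split_ifs
      · exact abs_nonneg _
      · exact le_rfl
  refine (norm_sum_le _ _).trans ((Finset.sum_le_sum key).trans ?_)
  rw [← Finset.sum_filter]
  refine Finset.sum_le_sum_of_subset_of_nonneg ?_ fun _ _ _ => abs_nonneg _
  intro p hp
  rw [Finset.mem_filter] at hp
  exact Finset.mem_range.2 hp.2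

/-- the finite sum is the full sum up to a bounded amount -/
theorem wk_le (hk : 1 < k) (hF : IsLSeries a b F) : ∃ C : ℝ, ∀ τ X : ℝ, 1 < X →
    ‖wk a b k τ X - fk (fun p : ℕ => Real.log p) (cf a b) k (kap k τ (Real.log X))‖ ≤ C := by
  refine ⟨∑ p ∈ Finset.range 25, |lp a b p| + 2 ^ (k - 1) / (k - 1), fun τ X hX => ?_⟩
  have h1 := small_le (a := a) (b := b) k τ hX
  have h2 := trunc_le hk hF τ hX
  rw [norm_sub_rev] at h2
  have e : wk a b k τ X - fk (fun p : ℕ => Real.log p) (cf a b) k (kap k τ (Real.log X)) =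
    (wk a b k τ X - ∑ p ∈ Finset.range (⌊X⌋₊ + 1), tk a b k τ (Real.log X) p) +
    (∑ p ∈ Finset.range (⌊X⌋₊ + 1), tk a b k τ (Real.log X) p -
      fk (fun p : ℕ => Real.log p) (cf a b) k (kap k τ (Real.log X))) := by ring
  rw [e]
  exact (norm_add_le _ _).trans (add_le_add h1 h2)

end Pool.Agent.D0H40.KX
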