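import Pool.Agent.D0H40.KX.Ker

/-! Inversion of the kernel. -/

set_option autoImplicit false

namespace Pool.Agent.D0H40.KX

open Complex MeasureTheory Filter Topology Set
open scoped FourierTransform RealInnerProductSpace

variable {k : ℝ}

/-- the kernel on the line -/
noncomputable def NN (k : ℝ) (κ : ℂ) (y : ℝ) : ℂ := KK k κ (3 + y * I) - 1 / (1 - y * I)

/-- the function on the half line -/
noncomputable def fx (k : ℝ) (κ : ℂ) (x : ℝ) : ℂ :=
  if 0 ≤ x then exp (3 * x) * (EE k κ x - exp (-(4 * x))) else 0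

theorem EE_cont (hk : 1 < k) (κ : ℂ) : Continuous (EE k κ) := by
  unfold EE
  have h1 : Continuous fun u : ℝ => u ^ k := Real.continuous_rpow_const (by linarith)
  exact (continuous_const.mul (Complex.continuous_ofReal.comp h1)).neg.cexp

theorem EE_zero (hk : 1 < k) (κ : ℂ) : EE k κ 0 = 1 := by
  unfold EE
  rw [Real.zero_rpow (by linarith)]
  simp

theorem fx_cont (hk : 1 < k) (κ : ℂ) : Continuous (fx k κ) := by
  unfold fx
  refine Continuous.if_le ?_ continuous_const continuous_const continuous_id ?_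
  · have h1 := EE_cont hk κ
    fun_prop
  · intro x hx
    have hx' : (0:ℝ) = x := hx
    rw [← hx', EE_zero hk]
    simp

theorem fx_int_on (hk : 1 < k) {κ : ℂ} (hκ : 0 < κ.re) :
    IntegrableOn (fun x : ℝ => exp (3 * x) * (EE k κ x - exp (-(4 * x)))) (Ioi 0) := by
  have h1 := KK_int hk hκ 3
  have h2 : IntegrableOn (fun x : ℝ => exp (-1 * (x : ℂ))) (Ioi 0) :=
    integrableOn_exp_mul_complex_Ioi (by norm_num) 0
  refine (h1.sub h2).congr (Eventually.of_forall fun x => ?_)
  simp only [Pi.sub_apply]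
  rw [mul_sub, ← Complex.exp_add]
  congr 2
  ring

theorem fx_int (hk : 1 < k) {κ : ℂ} (hκ : 0 < κ.re) : Integrable (fx k κ) := by
  have h1 : fx k κ =ᵐ[volume] (Ioi (0:ℝ)).indicator
      (fun x : ℝ => exp (3 * x) * (EE k κ x - exp (-(4 * x)))) := by
    refine Eventually.of_forall fun x => ?_
    unfold fx
    rcases lt_trichotomy 0 x with h | h | h
    · rw [indicator_of_mem (show x ∈ Ioi (0:ℝ) from h), if_pos h.le]
    · rw [← h, indicator_of_notMem (by simp), if_pos le_rfl, EE_zero hk]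
      simp
    · rw [indicator_of_notMem (by simp; exact h.le), if_neg (by linarith)]
  exact ((fx_int_on hk hκ).integrable_indicator measurableSet_Ioi).congr h1.symm

theorem fx_fourier (hk : 1 < k) {κ : ℂ} (hκ : 0 < κ.re) (ξ : ℝ) :
    𝓕 (fx k κ) ξ = NN k κ (-2 * Real.pi * ξ) := by
  rw [Real.fourier_real_eq_integral_exp_smul]
  have h0 : ∫ x : ℝ, exp ((-2 * Real.pi * x * ξ : ℝ) * I) • fx k κ x =
      ∫ x in Ioi (0:ℝ), exp ((-2 * Real.pi * x * ξ : ℝ) * I) *
        (exp (3 * x) * (EE k κ x - exp (-(4 * x)))) := by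
    rw [← integral_indicator measurableSet_Ioi]
    refine integral_congr_ae (Eventually.of_forall fun x => ?_)
    simp only
    unfold fx
    rcases lt_trichotomy 0 x with h | h | h
    · rw [indicator_of_mem (show x ∈ Ioi (0:ℝ) from h), if_pos h.le, smul_eq_mul]
    · rw [← h, indicator_of_notMem (by simp), if_pos le_rfl, EE_zero hk]
      simp
    · rw [indicator_of_notMem (by simp; exact h.le), if_neg (by linarith), smul_zero]
  rw [h0]
  set w : ℂ := 3 + ((-2 * Real.pi * ξ : ℝ) : ℂ) * I with hw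
  have h1 := KK_int hk hκ w
  have hre : (w - 4).re < 0 := by
    rw [hw]
    simp
    norm_num
  have h2 : IntegrableOn (fun x : ℝ => exp ((w - 4) * (x : ℂ))) (Ioi 0) :=
    integrableOn_exp_mul_complex_Ioi hre 0
  have e : ∀ x : ℝ, exp ((-2 * Real.pi * x * ξ : ℝ) * I) *
        (exp (3 * x) * (EE k κ x - exp (-(4 * x)))) =
      exp (w * x) * EE k κ x - exp ((w - 4) * x) := by
    intro x
    rw [mul_sub, mul_sub, ← mul_assoc, ← Complex.exp_add, ← mul_assoc, ← Complex.exp_add,
      ← Complex.exp_add, hw]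
    congr 3
    · push_cast; ring
    · push_cast; ring
  simp only [e]
  rw [integral_sub h1 h2, integral_exp_mul_complex_Ioi hre 0]
  unfold NN KK
  rw [← hw]
  congr 1
  have hw4 : w - 4 = -(1 - ((-2 * Real.pi * ξ : ℝ) : ℂ) * I) := by
    rw [hw]
    ring
  rw [hw4]
  simp only [Complex.ofReal_zero, mul_zero, Complex.exp_zero]
  rw [neg_div_neg_eq]

/-- **Inversion.** -/
theorem inv_line (hk : 1 < k) {κ : ℂ} (hκ : 0 < κ.re) (hint : Integrable (NN k κ)) {u : ℝ}
    (hu : 0 ≤ u) :
    EE k κ u - exp (-(4 * u)) =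
      (1 / (2 * Real.pi) : ℝ) * ∫ y : ℝ, NN k κ y * exp (-((3 + y * I) * u)) := by
  have hpi := Real.pi_pos
  have hF : 𝓕 (fx k κ) = fun ξ => NN k κ (-2 * Real.pi * ξ) := by
    funext ξ
    exact fx_fourier hk hκ ξ
  have hne : (-2 * Real.pi : ℝ) ≠ 0 := by
    have : 0 < 2 * Real.pi := by positivity
    linarith
  have hFi : Integrable (𝓕 (fx k κ)) := by
    rw [hF]
    exact hint.comp_mul_left' hne
  have h1 := (fx_cont hk κ).fourierInv_fourier_eq (fx_int hk hκ) hFi
  have h2 := congrFun h1 u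
  rw [Real.fourierInv_eq', hF] at h2
  have h3 : ∫ v : ℝ, exp ((2 * Real.pi * ⟪v, u⟫ : ℝ) * I) • NN k κ (-2 * Real.pi * v) =
      ∫ v : ℝ, (fun y : ℝ => exp (-(y * I * u)) * NN k κ y) (-2 * Real.pi * v) := by
    refine integral_congr_ae (Eventually.of_forall fun v => ?_)
    simp only
    rw [smul_eq_mul]
    congr 2
    have : (⟪v, u⟫ : ℝ) = u * v := by
      simp
    rw [this]
    push_cast
    ring
  rw [h3, MeasureTheory.Measure.integral_comp_mul_left (fun y : ℝ => exp (-(y * I * u)) * NN k κ y)] at h2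
  have habs : |(-2 * Real.pi)⁻¹| = 1 / (2 * Real.pi) := by
    rw [abs_inv, abs_mul, abs_neg, abs_of_pos hpi, abs_two, one_div]
  rw [habs, Complex.real_smul] at h2
  unfold fx at h2
  rw [if_pos hu] at h2
  have h4 : EE k κ u - exp (-(4 * u)) = exp (-(3 * u)) * (exp (3 * u) * (EE k κ u - exp (-(4 * u)))) := by
    rw [← mul_assoc, ← Complex.exp_add, neg_add_cancel, Complex.exp_zero, one_mul]
  rw [h4, ← h2, ← mul_assoc, mul_comm (exp (-(3 * u))), mul_assoc, ← integral_const_mul]
  congr 1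
  refine integral_congr_ae (Eventually.of_forall fun y => ?_)
  simp only
  rw [← mul_assoc, ← Complex.exp_add, mul_comm (NN k κ y)]
  congr 2
  ring

end Pool.Agent.D0H40.KX
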