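import Pool.Agent.D0H40.KX.Sum

/-! The explicit formula, first form. -/

set_option autoImplicit false

namespace Pool.Agent.D0H40.KX

open Complex MeasureTheory Filter Topology Set
open Pool.Agent.W189.ML (ser)
open Pool.Agent.D0H40.GC (Dat Dat2 hb hb_le hb_meas frul int_exp_real slit_of_re norm_log_sub_le pt)
open scoped ComplexConjugate

variable {k β t ψ : ℝ} {lam c : ℕ → ℝ} {G Φ : ℂ → ℂ}

/-- the Dirichlet series with the logarithms of the zeros -/
noncomputable def S2 (lam c : ℕ → ℝ) (Z : Finset ℂ) (n : ℂ → ℕ) (N : ℕ) (w : ℂ) : ℂ :=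
  ser lam c w + ∑ b ∈ Z, (n b : ℂ) * (log (w - b) - log w) - (N : ℂ) * (log (w - (-1)) - log w)

theorem dat_S2 (D : Dat lam c G Φ) {m : ℕ} (Z : Finset ℂ) (n : ℂ → ℕ) {Q₀ : ℂ → ℂ}
    (hQa : Differentiable ℂ Q₀)
    (hQ : ∀ w, Φ w = w ^ m * (∏ b ∈ Z, (w - b) ^ n b) * Q₀ w) (hZ : ∀ b ∈ Z, b.re ≤ 2) :
    Dat2 (S2 lam c Z n (m + ∑ b ∈ Z, n b)) G
      (fun w => (w - (-1)) ^ (m + ∑ b ∈ Z, n b) * Q₀ w) where
  Sd := by
    unfold S2
    refine (D.ser_diff.add ?_).sub ?_
    · refine DifferentiableOn.fun_sum fun b hb => ?_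
      refine (DifferentiableOn.sub ?_ ?_).const_mul _
      · intro w hw
        have hw' : 2 < w.re := hw
        have h1 : w - b ∈ slitPlane := slit_of_re (by simp; linarith [hZ b hb])
        exact (DifferentiableAt.clog (f := fun w : ℂ => w - b) (x := w) (by fun_prop) h1).differentiableWithinAt
      · intro w hw
        have hw' : 2 < w.re := hw
        exact (differentiableAt_log (slit_of_re (by linarith))).differentiableWithinAt
    · refine (DifferentiableOn.sub ?_ ?_).const_mul _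
      · intro w hw
        have hw' : 2 < w.re := hw
        have h1 : w - (-1) ∈ slitPlane := slit_of_re (by simp; linarith)
        exact (DifferentiableAt.clog (f := fun w : ℂ => w - (-1)) (x := w) (by fun_prop)
          h1).differentiableWithinAt
      · intro w hw
        have hw' : 2 < w.re := hw
        exact (differentiableAt_log (slit_of_re (by linarith))).differentiableWithinAt
  Sb := by
    obtain ⟨M, hM0, hM⟩ := D.two.Sb
    refine ⟨M + ∑ b ∈ Z, (n b : ℝ) * ‖b‖ + ((m + ∑ b ∈ Z, n b : ℕ) : ℝ) * ‖(-1 : ℂ)‖, by positivity,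
      fun w hw => ?_⟩
    unfold S2
    refine (norm_sub_le _ _).trans (add_le_add ((norm_add_le _ _).trans (add_le_add (hM w hw) ?_)) ?_)
    · refine (norm_sum_le _ _).trans (Finset.sum_le_sum fun b hb => ?_)
      rw [norm_mul, Complex.norm_natCast]
      exact mul_le_mul_of_nonneg_left (norm_log_sub_le (hZ b hb) hw) (Nat.cast_nonneg _)
    · rw [norm_mul, Complex.norm_natCast]
      exact mul_le_mul_of_nonneg_left (norm_log_sub_le (by simp; norm_num) hw) (Nat.cast_nonneg _)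
  Gd := D.Gd
  Gb := D.Gb
  Φd := by fun_prop
  eq := by
    intro w hw
    have hw0 : w ≠ 0 := by
      rintro rfl
      simp at hw
      linarith
    have hw1 : w - (-1) ≠ 0 := by
      intro h0
      have := congrArg Complex.re h0
      simp at this
      linarith
    have hwb : ∀ b ∈ Z, w - b ≠ 0 := by
      intro b hb h0
      have := congrArg Complex.re h0
      simp at this
      linarith [hZ b hb]
    unfold S2
    set N : ℕ := m + ∑ b ∈ Z, n b with hN
    have e1 : G w - (ser lam c w + ∑ b ∈ Z, (n b : ℂ) * (log (w - b) - log w) -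
        (N : ℂ) * (log (w - (-1)) - log w)) =
        (G w - ser lam c w) + ∑ b ∈ Z, (n b : ℂ) * (log w - log (w - b)) +
          (N : ℂ) * (log (w - (-1)) - log w) := by
      have e0 : ∑ b ∈ Z, (n b : ℂ) * (log w - log (w - b)) =
          -∑ b ∈ Z, (n b : ℂ) * (log (w - b) - log w) := by
        rw [← Finset.sum_neg_distrib]
        exact Finset.sum_congr rfl fun b _ => by ring
      rw [e0]
      ring
    rw [e1, Complex.exp_add, Complex.exp_add, D.eq w hw, hQ w, Complex.exp_sum, Complex.exp_nat_mul,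
      Complex.exp_sub, Complex.exp_log hw0, Complex.exp_log hw1]
    have e2 : ∀ b ∈ Z, exp ((n b : ℂ) * (log w - log (w - b))) = w ^ n b / (w - b) ^ n b := by
      intro b hb
      rw [Complex.exp_nat_mul, Complex.exp_sub, Complex.exp_log hw0, Complex.exp_log (hwb b hb),
        div_pow]
    rw [Finset.prod_congr rfl e2, Finset.prod_div_distrib, Finset.prod_pow_eq_pow_sum, div_pow, hN,
      pow_add w m]
    have h3 : ∏ b ∈ Z, (w - b) ^ n b ≠ 0 := Finset.prod_ne_zero_iff.2 fun b hb => pow_ne_zero _ (hwb b hb)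
    field_simp

theorem Par.re_cone (P : Par k β t ψ) {z : ℂ} (hz : |z.im| ≤ t * z.re) : 0 ≤ (dl β * z).re := by
  have h0 : 0 ≤ z.re := Ct_re (R := 0) P.t0 hz
  rw [Complex.mul_re, dl_re, dl_im]
  have h2 : Real.sin β * z.im ≤ |Real.sin β| * (t * z.re) := by
    calc Real.sin β * z.im ≤ |Real.sin β| * |z.im| := by rw [← abs_mul]; exact le_abs_self _
      _ ≤ _ := mul_le_mul_of_nonneg_left hz (abs_nonneg _)
  have h3 : t * |Real.sin β| * z.re ≤ Real.cos β * z.re := mul_le_mul_of_nonneg_right P.ht2.le h0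
  linarith

/-- **The explicit formula**, first form. -/
theorem expl1 (P : Par k β t ψ) (D : Dat lam c G Φ) {m : ℕ} (Z : Finset ℂ) (n : ℂ → ℕ) {Q₀ : ℂ → ℂ}
    (hQa : Differentiable ℂ Q₀)
    (hQ : ∀ w, Φ w = w ^ m * (∏ b ∈ Z, (w - b) ^ n b) * Q₀ w) (hZ : ∀ b ∈ Z, b.re ≤ 2)
    (hQ0 : ∀ z : ℂ, |z.im| ≤ t * z.re → Q₀ (dl β * z) ≠ 0) :
    ∃ C ρ₀ : ℝ, 0 < ρ₀ ∧ ∀ ρ : ℝ, 0 < ρ → ρ ≤ ρ₀ → ‖fk lam c k (sk k β ρ) -
      (∑ b ∈ Z, (n b : ℂ) * Ak k b (sk k β ρ) -
        ((m + ∑ b ∈ Z, n b : ℕ) : ℂ) * Ak k (-1) (sk k β ρ))‖ ≤ C := by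
  have D2 := dat_S2 D Z n hQa hQ hZ
  set N : ℕ := m + ∑ b ∈ Z, n b with hN
  obtain ⟨C, ρ₀, hρ₀, hC⟩ := law0 P D2 (fun z hz => by
    refine mul_ne_zero (pow_ne_zero _ ?_) (hQ0 z hz)
    intro h0
    have h1 := P.re_cone hz
    have h2 := congrArg Complex.re h0
    rw [Complex.sub_re, Complex.neg_re, Complex.one_re, Complex.zero_re] at h2
    linarith)
  set cc : ℂ → ℂ := fun b => ∫ u in Ioi (0:ℝ), hb b u * exp (-(4 * (u : ℂ))) with hcc
  refine ⟨1 / (2 * Real.pi) * C + ‖ser lam c 4 - ∑ b ∈ Z, (n b : ℂ) * cc b + (N : ℂ) * cc (-1)‖,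
    ρ₀, hρ₀, fun ρ hρ hρ1 => ?_⟩
  have h1 := hC ρ hρ hρ1
  have hN' := NN_int P hρ
  have hlogc : ∀ b : ℂ, b.re ≤ 2 → Continuous fun y : ℝ => log (3 + y * I - b) - log (3 + y * I) := by
    intro b hb
    refine Continuous.sub ?_ ?_
    · refine Continuous.clog (by fun_prop) fun y => slit_of_re ?_
      simp
      linarith
    · refine Continuous.clog (by fun_prop) fun y => slit_of_re ?_
      simp
  have hli : ∀ b : ℂ, b.re ≤ 2 → Integrable fun y : ℝ =>
      NN k (sk k β ρ) y * (log (3 + y * I - b) - log (3 + y * I)) := by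
    intro b hb
    exact hN'.mul_bdd (c := ‖b‖) (hlogc b hb).aestronglyMeasurable
      (Eventually.of_forall fun y => norm_log_sub_le hb (by simp))
  have hsi : Integrable fun y : ℝ => NN k (sk k β ρ) y * ser lam c (3 + y * I) := by
    have h2 : ContinuousOn (ser lam c) {w | 2 < w.re} := D.ser_diff.continuousOn
    have h3 : Continuous fun y : ℝ => ser lam c (3 + y * I) := by
      refine h2.comp_continuous (by fun_prop) fun y => ?_
      show 2 < (3 + (y : ℂ) * I).re
      simp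
      norm_num
    obtain ⟨M, -, hM⟩ := D.two.Sb
    exact hN'.mul_bdd (c := M) h3.aestronglyMeasurable
      (Eventually.of_forall fun y => hM _ (by simp))
  have hm1 : (-1 : ℂ).re ≤ 2 := by simp; norm_num
  have e1 : ∀ y : ℝ, NN k (sk k β ρ) y * S2 lam c Z n N (3 + y * I) =
      NN k (sk k β ρ) y * ser lam c (3 + y * I) +
      (∑ b ∈ Z, (n b : ℂ) * (NN k (sk k β ρ) y * (log (3 + y * I - b) - log (3 + y * I)))) -
      (N : ℂ) * (NN k (sk k β ρ) y * (log (3 + y * I - (-1)) - log (3 + y * I))) := by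
    intro y
    unfold S2
    rw [mul_sub, mul_add, Finset.mul_sum]
    congr 1
    · congr 1
      refine Finset.sum_congr rfl fun b _ => ?_
      ring
    · ring
  have hsum : Integrable fun y : ℝ => ∑ b ∈ Z, (n b : ℂ) *
      (NN k (sk k β ρ) y * (log (3 + y * I - b) - log (3 + y * I))) :=
    integrable_finsetSum _ fun b hb => (hli b (hZ b hb)).const_mul _
  have hA : Integrable fun y : ℝ => NN k (sk k β ρ) y * ser lam c (3 + y * I) + ∑ b ∈ Z, (n b : ℂ) *
      (NN k (sk k β ρ) y * (log (3 + y * I - b) - log (3 + y * I))) := hsi.add hsum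
  have e2 : ((1 / (2 * Real.pi) : ℝ) : ℂ) * ∫ y : ℝ, NN k (sk k β ρ) y * S2 lam c Z n N (3 + y * I) =
      (fk lam c k (sk k β ρ) - ser lam c 4) +
      (∑ b ∈ Z, (n b : ℂ) * (cc b - Ak k b (sk k β ρ))) -
      (N : ℂ) * (cc (-1) - Ak k (-1) (sk k β ρ)) := by
    simp only [e1]
    rw [integral_sub hA ((hli (-1) hm1).const_mul _), integral_add hsi hsum,
      integral_finsetSum _ fun b hb => (hli b (hZ b hb)).const_mul _, integral_const_mul, mul_sub,
      mul_add, rep_ser P D hρ, Finset.mul_sum]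
    congr 1
    · congr 1
      refine Finset.sum_congr rfl fun b hb => ?_
      rw [integral_const_mul, mul_left_comm, rep_log P (hZ b hb) hρ]
    · rw [mul_left_comm, rep_log P hm1 hρ]
  have e3 : fk lam c k (sk k β ρ) - (∑ b ∈ Z, (n b : ℂ) * Ak k b (sk k β ρ) -
      (N : ℂ) * Ak k (-1) (sk k β ρ)) =
      ((1 / (2 * Real.pi) : ℝ) : ℂ) * (∫ y : ℝ, NN k (sk k β ρ) y * S2 lam c Z n N (3 + y * I)) +
      (ser lam c 4 - ∑ b ∈ Z, (n b : ℂ) * cc b + (N : ℂ) * cc (-1)) := by
    rw [e2]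
    have e4 : ∑ b ∈ Z, (n b : ℂ) * (cc b - Ak k b (sk k β ρ)) =
        ∑ b ∈ Z, (n b : ℂ) * cc b - ∑ b ∈ Z, (n b : ℂ) * Ak k b (sk k β ρ) := by
      rw [← Finset.sum_sub_distrib]
      exact Finset.sum_congr rfl fun b _ => by ring
    rw [e4]
    ring
  rw [e3]
  refine (norm_add_le _ _).trans (add_le_add ?_ le_rfl)
  rw [norm_mul, Complex.norm_real, Real.norm_eq_abs, abs_of_pos (by positivity)]
  gcongr

end Pool.Agent.D0H40.KX
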