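import Pool.Agent.D0H40.KX.Line

/-! The integral is bounded when there are no zeros in the closed sector. -/

set_option autoImplicit false

namespace Pool.Agent.D0H40.KX

open Complex MeasureTheory Filter Topology Set
open Pool.Agent.W334.BSD (exists_log)
open Pool.Agent.D0H40.GC (zt zt_re zt_im pt pt_re pt_im Dat2 continuation exists_prim zt_hasDeriv
  split_line half_convex pt_deriv_x pt_deriv_u pt_cont zt_mem)
open scoped ComplexConjugate

variable {k β t ψ : ℝ} {S G Φ : ℂ → ℂ}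

/-- the truncated closed cone of slope `t` -/
def Ct (t R : ℝ) : Set ℂ := {z | z.re ≤ R ∧ |z.im| ≤ t * z.re}

theorem Ct_convex (t R : ℝ) : Convex ℝ (Ct t R) := by
  intro z hz w hw s r hs hr hsr
  have e1 : (s • z + r • w).re = s * z.re + r * w.re := by simp
  have e2 : (s • z + r • w).im = s * z.im + r * w.im := by simp
  show (s • z + r • w).re ≤ R ∧ |(s • z + r • w).im| ≤ t * (s • z + r • w).re
  rw [e1, e2]
  constructor
  · have h1 : s * z.re ≤ s * R := mul_le_mul_of_nonneg_left hz.1 hs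
    have h2 : r * w.re ≤ r * R := mul_le_mul_of_nonneg_left hw.1 hr
    have h3 : s * R + r * R = R := by rw [← add_mul, hsr, one_mul]
    linarith
  · refine (abs_add_le _ _).trans ?_
    rw [abs_mul, abs_mul, abs_of_nonneg hs, abs_of_nonneg hr]
    have h1 := mul_le_mul_of_nonneg_left hz.2 hs
    have h2 := mul_le_mul_of_nonneg_left hw.2 hr
    linarith

theorem Ct_re {t R : ℝ} (ht : 0 < t) {z : ℂ} (hz : |z.im| ≤ t * z.re) : 0 ≤ z.re := by
  have h := (abs_nonneg _).trans hz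
  exact nonneg_of_mul_nonneg_right h ht

theorem Ct_compact {t : ℝ} (ht : 0 < t) (R : ℝ) : IsCompact (Ct t R) := by
  have h1 : IsClosed (Ct t R) :=
    (isClosed_le Complex.continuous_re continuous_const).inter
      (isClosed_le (Complex.continuous_im.abs) (continuous_const.mul Complex.continuous_re))
  have h2 : Ct t R ⊆ Metric.closedBall 0 ((1 + t) * R) := by
    intro z hz
    rw [mem_closedBall_zero_iff]
    have h3 := Complex.norm_le_abs_re_add_abs_im z
    have h4 : 0 ≤ z.re := Ct_re (R := R) ht hz.2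
    rw [abs_of_nonneg h4] at h3
    have h5 := hz.1
    have h6 := hz.2
    have h7 : t * z.re ≤ t * R := mul_le_mul_of_nonneg_left h5 ht.le
    linarith
  exact (isCompact_closedBall 0 _).of_isClosed_subset h1 h2

theorem Par.re_pt (P : Par k β t ψ) {x u : ℝ} (hx : 0 < x) (hu : |u| ≤ t) :
    x * (Real.cos β - t * |Real.sin β|) ≤ (dl β * pt x u).re := by
  rw [Complex.mul_re, dl_re, dl_im, pt_re, pt_im]
  have h2 : Real.sin β * u ≤ |Real.sin β| * t := by
    calc Real.sin β * u ≤ |Real.sin β| * |u| := by rw [← abs_mul]; exact le_abs_self _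
      _ ≤ |Real.sin β| * t := mul_le_mul_of_nonneg_left hu (abs_nonneg _)
  have h3 : x * (Real.sin β * u) ≤ x * (|Real.sin β| * t) := mul_le_mul_of_nonneg_left h2 hx.le
  linarith

/-- the integral over a ray -/
theorem kray {k : ℝ} (hk : 0 < k) {ρ C B x₀ x₁ u : ℝ} (hC : 0 ≤ C) (hρ : 0 < ρ) (hx0 : ρ ≤ x₀)
    (h01 : x₀ ≤ x₁) {U : Set ℂ} {P g : ℂ → ℂ} (hU : ∀ x ∈ Icc x₀ x₁, pt x u ∈ U)
    (hP : ∀ z ∈ U, HasDerivAt P (g z) z) (hg : ContinuousOn g U)
    (hb : ∀ x ∈ Icc x₀ x₁, ‖g (pt x u)‖ ≤ C * ρ ^ k * x ^ (-(k + 1)) * B) (hB : 0 ≤ B) :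
    ‖P (pt x₁ u) - P (pt x₀ u)‖ ≤ (1 + |u|) * (C * B / k) := by
  have hx00 : 0 < x₀ := hρ.trans_le hx0
  have key : ∀ x ∈ uIcc x₀ x₁, HasDerivAt (fun x : ℝ => P (pt x u)) (g (pt x u) * (1 + u * I)) x := by
    intro x hx
    rw [uIcc_of_le h01] at hx
    exact (hP _ (hU x hx)).comp x (pt_deriv_x x u)
  have hcont : ContinuousOn (fun x : ℝ => g (pt x u) * (1 + u * I)) (uIcc x₀ x₁) := by
    rw [uIcc_of_le h01]
    exact (hg.comp (pt_cont u).continuousOn hU).mul continuousOn_const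
  rw [← intervalIntegral.integral_eq_sub_of_hasDerivAt key (hcont.intervalIntegrable)]
  have hn : ‖(1 : ℂ) + u * I‖ ≤ 1 + |u| := by
    refine (norm_add_le _ _).trans ?_
    rw [norm_one, norm_mul, Complex.norm_I, mul_one, Complex.norm_real, Real.norm_eq_abs]
  have hρk : 0 < ρ ^ k := Real.rpow_pos_of_pos hρ _
  have hpt : ∀ x ∈ Icc x₀ x₁, ‖g (pt x u) * (1 + u * I)‖ ≤
      ((1 + |u|) * (C * B) * ρ ^ k) * x ^ (-(k + 1)) := by
    intro x hx
    have hx' : 0 < x := hx00.trans_le hx.1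
    have hxk : 0 < x ^ (-(k + 1)) := Real.rpow_pos_of_pos hx' _
    rw [norm_mul]
    calc _ ≤ (C * ρ ^ k * x ^ (-(k + 1)) * B) * (1 + |u|) := by
          have := hb x hx
          gcongr
      _ = _ := by ring
  have hcx : ContinuousOn (fun x : ℝ => x ^ (-(k + 1))) (uIcc x₀ x₁) := by
    rw [uIcc_of_le h01]
    exact ContinuousOn.rpow_const continuousOn_id fun x hx => Or.inl (hx00.trans_le hx.1).ne'
  refine (intervalIntegral.norm_integral_le_of_norm_le h01
    (Eventually.of_forall fun x hx => hpt x (Ioc_subset_Icc_self hx))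
    ((continuousOn_const.mul hcx).intervalIntegrable)).trans ?_
  rw [intervalIntegral.integral_const_mul]
  have h3 : ∫ x in x₀..x₁, x ^ (-(k + 1)) = (x₁ ^ (-k) - x₀ ^ (-k)) / (-k) := by
    have h4 : ∀ x ∈ uIcc x₀ x₁, HasDerivAt (fun x : ℝ => x ^ (-k) / (-k)) (x ^ (-(k + 1))) x := by
      intro x hx
      rw [uIcc_of_le h01] at hx
      have hx' : x ≠ 0 := (hx00.trans_le hx.1).ne'
      have h5 := (Real.hasDerivAt_rpow_const (x := x) (p := -k) (Or.inl hx')).div_const (-k)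
      refine h5.congr_deriv ?_
      rw [show -(k + 1) = -k - 1 by ring]
      field_simp
    rw [intervalIntegral.integral_eq_sub_of_hasDerivAt h4 hcx.intervalIntegrable]
    ring
  have h4 : (x₁ ^ (-k) - x₀ ^ (-k)) / (-k) ≤ ρ ^ (-k) / k := by
    have h5 : 0 < x₁ ^ (-k) := Real.rpow_pos_of_pos (hx00.trans_le h01) _
    have h6 : x₀ ^ (-k) ≤ ρ ^ (-k) := Real.rpow_le_rpow_of_nonpos hρ hx0 (by linarith)
    rw [div_neg, ← neg_div, neg_sub]
    exact div_le_div_of_nonneg_right (by linarith) hk.le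
  rw [h3]
  calc _ ≤ ((1 + |u|) * (C * B) * ρ ^ k) * (ρ ^ (-k) / k) := by gcongr
    _ = (1 + |u|) * (C * B / k) * (ρ ^ k * ρ ^ (-k)) := by ring
    _ = _ := by rw [← Real.rpow_add hρ, add_neg_cancel, Real.rpow_zero, mul_one]

/-- the short segment near the origin -/
theorem kseg {ρ C B s : ℝ} (hρ : 0 < ρ) (hs : 0 ≤ s) {U : Set ℂ} {P g : ℂ → ℂ}
    (hU : ∀ u ∈ Icc (-s) s, pt ρ u ∈ U) (hP : ∀ z ∈ U, HasDerivAt P (g z) z)
    (hb : ∀ u ∈ Icc (-s) s, ‖g (pt ρ u)‖ ≤ C / ρ * B) :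
    ‖P (pt ρ s) - P (pt ρ (-s))‖ ≤ C * B * (2 * s) := by
  have hder : ∀ u ∈ Icc (-s) s, HasDerivWithinAt (fun u : ℝ => P (pt ρ u))
      (g (pt ρ u) * (ρ * I)) (Icc (-s) s) u := fun u hu =>
    ((hP _ (hU u hu)).comp u (pt_deriv_u ρ u)).hasDerivWithinAt
  have hb' : ∀ u ∈ Icc (-s) s, ‖g (pt ρ u) * (ρ * I)‖ ≤ C * B := by
    intro u hu
    rw [norm_mul, norm_mul, Complex.norm_I, mul_one, Complex.norm_real, Real.norm_eq_abs,
      abs_of_pos hρ]
    calc ‖g (pt ρ u)‖ * ρ ≤ (C / ρ * B) * ρ := by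
          have := hb u hu
          gcongr
      _ = C * B := by field_simp
  have h5 := Convex.norm_image_sub_le_of_norm_hasDerivWithin_le hder hb'
    (convex_Icc (-s) s) (x := -s) (y := s) ⟨le_rfl, by linarith⟩ ⟨by linarith, le_rfl⟩
  rw [Real.norm_eq_abs, show s - -s = 2 * s by ring, abs_of_nonneg (by linarith)] at h5
  exact h5

theorem kcont (hk : 1 < k) (ρ : ℝ) : Differentiable ℂ (Kr k ρ) := by
  unfold Kr
  have h1 : Differentiable ℂ (KK k 1) := KK_diff hk (by norm_num)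
  have h2 : Differentiable ℂ fun z : ℂ => KK k 1 (z / ρ) := h1.comp (by fun_prop)
  exact h2.const_mul _

/-- **Boundedness.** -/
theorem law0 (P : Par k β t ψ) (D : Dat2 S G Φ)
    (hQ0 : ∀ z : ℂ, |z.im| ≤ t * z.re → Φ (dl β * z) ≠ 0) :
    ∃ C ρ₀ : ℝ, 0 < ρ₀ ∧ ∀ ρ : ℝ, 0 < ρ → ρ ≤ ρ₀ →
      ‖∫ y : ℝ, NN k (sk k β ρ) y * S (3 + y * I)‖ ≤ C := by
  have ht0 := P.t0
  have hx1 := P.X1pos
  have hx2 := P.X2pos
  have hk0 := P.k0
  have hg0 : 0 < Real.cos β - t * |Real.sin β| := by linarith [P.ht2]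
  set R : ℝ := max (X1 β t) (X2 β t) with hR
  have hR0 : 0 < R := hx1.trans_le (le_max_left _ _)
  have hQa : Differentiable ℂ fun z => Φ (dl β * z) := D.Φd.comp (differentiable_id.const_mul _)
  have hQo : IsOpen {z | Φ (dl β * z) ≠ 0} := isOpen_ne_fun hQa.continuous continuous_const
  have hKs : Ct t R ⊆ {z | Φ (dl β * z) ≠ 0} := fun z hz => hQ0 z hz.2
  obtain ⟨δ, hδ, hsub⟩ := (Ct_compact ht0 R).exists_cthickening_subset_open hQo hKs
  set V : Set ℂ := Metric.thickening δ (Ct t R) with hV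
  have hVo : IsOpen V := Metric.isOpen_thickening
  have hVc : Convex ℝ V := (Ct_convex t R).thickening δ
  have h0K : (0 : ℂ) ∈ Ct t R := by
    constructor
    · simpa using hR0.le
    · simp
  have hVn : V.Nonempty := ⟨0, Metric.self_subset_thickening hδ _ h0K⟩
  have hVs : V ⊆ {z | Φ (dl β * z) ≠ 0} := (Metric.thickening_subset_cthickening _ _).trans hsub
  obtain ⟨L, hL1, hL2⟩ := exists_log hVo hVc hVn (Φ := fun z => Φ (dl β * z))
    hQa.differentiableOn (fun z hz => hVs hz)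
  have hCV : Ct t R ⊆ V := Metric.self_subset_thickening hδ _
  obtain ⟨Mq, hMq⟩ := (Ct_compact ht0 R).exists_bound_of_continuousOn (hL1.continuousOn.mono hCV)
  set U : Set ℂ := V ∩ {z | 0 < (dl β * z).re} with hU
  have hdo : IsOpen {z : ℂ | 0 < (dl β * z).re} :=
    isOpen_lt continuous_const (Complex.continuous_re.comp (by fun_prop))
  have hUo : IsOpen U := hVo.inter hdo
  have hUc : Convex ℝ U := hVc.inter (half_convex (dl β) 0)
  have hptC : ∀ x u : ℝ, 0 < x → x ≤ R → |u| ≤ t → pt x u ∈ Ct t R := by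
    intro x u hx hxR hu
    refine ⟨by rw [pt_re]; exact hxR, ?_⟩
    rw [pt_re, pt_im, abs_mul, abs_of_pos hx, mul_comm t]
    exact mul_le_mul_of_nonneg_left hu hx.le
  have hptU : ∀ x u : ℝ, 0 < x → x ≤ R → |u| ≤ t → pt x u ∈ U := by
    intro x u hx hxR hu
    refine ⟨hCV (hptC x u hx hxR hu), ?_⟩
    have := P.re_pt hx hu
    show 0 < (dl β * pt x u).re
    have h1 : 0 < x * (Real.cos β - t * |Real.sin β|) := mul_pos hx hg0
    linarith
  obtain ⟨κ, hκ⟩ := continuation D (d := dl β) hUo hUc (fun z hz => hz.2)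
    (M := fun _ => 0) (L := L) (differentiableOn_const _) (hL1.mono inter_subset_left) (fun z hz => by
      rw [zero_add]
      exact hL2 z hz.1)
  set T : ℂ → ℂ := fun z => G (dl β * z) - 0 - L z - κ with hT
  have hTd : DifferentiableOn ℂ T U := by
    intro z hz
    refine DifferentiableAt.differentiableWithinAt ?_
    have h1 : DifferentiableAt ℂ (fun z => G (dl β * z)) z :=
      DifferentiableAt.comp (g := G) (f := fun z : ℂ => dl β * z) z (D.Gd _ hz.2) (by fun_prop)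
    have h2 : DifferentiableAt ℂ L z := hL1.differentiableAt (hVo.mem_nhds hz.1)
    exact ((h1.sub_const 0).sub h2).sub_const κ
  obtain ⟨CG, hCG⟩ := D.Gb ((1 + t) / (Real.cos β - t * |Real.sin β|)) (by positivity)
  set B : ℝ := |CG| + |Mq| + ‖κ‖ with hB
  have hB0 : 0 ≤ B := by positivity
  have hTb : ∀ x u : ℝ, 0 < x → x ≤ R → |u| ≤ t → ‖T (pt x u)‖ ≤ B := by
    intro x u hx hxR hu
    have h1 : ‖G (dl β * pt x u)‖ ≤ |CG| := by
      have h2 := P.re_pt hx hu
      have h3 : 0 < x * (Real.cos β - t * |Real.sin β|) := mul_pos hx hg0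
      refine (hCG _ (by linarith) ?_).trans (le_abs_self _)
      rw [norm_mul, dl_norm, one_mul]
      have h4 : ‖pt x u‖ ≤ x * (1 + t) := by
        have h5 := Complex.norm_le_abs_re_add_abs_im (pt x u)
        rw [pt_re, pt_im, abs_mul, abs_of_pos hx] at h5
        have := mul_le_mul_of_nonneg_left hu hx.le
        linarith
      calc ‖pt x u‖ ≤ x * (1 + t) := h4
        _ = (1 + t) / (Real.cos β - t * |Real.sin β|) * (x * (Real.cos β - t * |Real.sin β|)) := by
            field_simp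
        _ ≤ _ := by gcongr
    have h2 : ‖L (pt x u)‖ ≤ |Mq| := (hMq _ (hptC x u hx hxR hu)).trans (le_abs_self _)
    rw [hT]
    simp only [sub_zero]
    exact (norm_sub_le _ _).trans (add_le_add ((norm_sub_le _ _).trans (add_le_add h1 h2)) le_rfl)
  obtain ⟨M, hM0, hMb⟩ := D.Sb
  obtain ⟨C₁, hC₁, hE1⟩ := E_tail P
  obtain ⟨C₂, hC₂, hE2⟩ := E_ray P
  obtain ⟨C₃, hC₃, hE3⟩ := E_seg P.hk
  set Ip : ℝ := ∫ y : ℝ, (1 + y ^ 2)⁻¹ with hIp
  have hIp0 : 0 ≤ Ip := integral_nonneg fun y => by positivity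
  have h12 := P.Y12
  have habs : |t| ≤ t := by rw [abs_of_pos ht0]
  have habs' : |-t| ≤ t := by rw [abs_neg]; exact habs
  have hmem : ∀ y ∈ Icc (Y1 β t) (Y2 β t), zt (dl β) y ∈ U := by
    intro y hy
    refine zt_mem hUc h12 ?_ ?_ hy
    · rw [P.zY1]; exact hptU _ _ hx1 (le_max_left _ _) habs'
    · rw [P.zY2]; exact hptU _ _ hx2 (le_max_right _ _) habs
  refine ⟨(2 * ((1 + t) * (C₂ * B / k)) + C₃ * B * (2 * t) + C₁ * M * Ip) + 4 * M * Ip,
    min 1 (min (X1 β t) (X2 β t)), lt_min one_pos (lt_min hx1 hx2), fun ρ hρ hρ1 => ?_⟩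
  have hρ1' : ρ ≤ 1 := hρ1.trans (min_le_left _ _)
  have hρx1 : ρ ≤ X1 β t := (hρ1.trans (min_le_right _ _)).trans (min_le_left _ _)
  have hρx2 : ρ ≤ X2 β t := (hρ1.trans (min_le_right _ _)).trans (min_le_right _ _)
  have hρk : 0 < ρ ^ k := Real.rpow_pos_of_pos hρ _
  have hρk1 : ρ ^ k ≤ 1 := Real.rpow_le_one hρ.le hρ1' hk0.le
  have hS : ∀ y : ℝ, ‖S (3 + y * I)‖ ≤ M := fun y => hMb _ (by simp)
  have hScont : Continuous fun y : ℝ => S (3 + y * I) := by
    have h1 : ContinuousOn S {w | 2 < w.re} := D.Sd.continuousOn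
    refine h1.comp_continuous (by fun_prop) fun y => ?_
    show 2 < (3 + (y : ℂ) * I).re
    simp
    norm_num
  -- the two parts
  have hNi := NN_int P hρ
  have hNS : Integrable fun y : ℝ => NN k (sk k β ρ) y * S (3 + y * I) :=
    hNi.mul_bdd (c := M) hScont.aestronglyMeasurable (Eventually.of_forall hS)
  have hfc : Continuous fun y : ℝ => (1 / (3 + y * I) + 1 / (1 - y * I) : ℂ) := by
    refine Continuous.add ?_ ?_
    · refine continuous_const.div (by fun_prop) fun y => ?_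
      intro h
      have := congrArg Complex.re h
      simp at this
    · refine continuous_const.div (by fun_prop) fun y => ?_
      intro h
      have := congrArg Complex.re h
      simp at this
  have hfS : Integrable fun y : ℝ => (1 / (3 + y * I) + 1 / (1 - y * I) : ℂ) * S (3 + y * I) := by
    refine Integrable.mono' (g := fun y : ℝ => (4 * M) * (1 + y ^ 2)⁻¹)
      (integrable_inv_one_add_sq.const_mul _) (hfc.mul hScont).aestronglyMeasurable
      (Eventually.of_forall fun y => ?_)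
    rw [norm_mul]
    calc _ ≤ (4 * (1 + y ^ 2)⁻¹) * M := mul_le_mul (frac_le y) (hS y) (norm_nonneg _) (by positivity)
      _ = _ := by ring
  set f : ℝ → ℂ := fun y => conj (dl β) * (Kr k ρ (zt (dl β) y) + 1 / zt (dl β) y) * S (3 + y * I)
    with hf
  have hfe : ∀ y : ℝ, f y = NN k (sk k β ρ) y * S (3 + y * I) +
      (1 / (3 + y * I) + 1 / (1 - y * I) : ℂ) * S (3 + y * I) := by
    intro y
    rw [hf, NN_eq P hρ]
    ring
  have hfi : Integrable f := (hNS.add hfS).congr (Eventually.of_forall fun y => (hfe y).symm)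
  have hsplit : ∫ y : ℝ, NN k (sk k β ρ) y * S (3 + y * I) = (∫ y, f y) -
      ∫ y : ℝ, (1 / (3 + y * I) + 1 / (1 - y * I) : ℂ) * S (3 + y * I) := by
    rw [← integral_sub hfi hfS]
    refine integral_congr_ae (Eventually.of_forall fun y => ?_)
    simp only
    rw [hfe]
    ring
  have hsec : ‖∫ y : ℝ, (1 / (3 + y * I) + 1 / (1 - y * I) : ℂ) * S (3 + y * I)‖ ≤ 4 * M * Ip := by
    rw [hIp, ← integral_const_mul]
    refine norm_integral_le_of_norm_le (integrable_inv_one_add_sq.const_mul _)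
      (Eventually.of_forall fun y => ?_)
    rw [norm_mul]
    calc _ ≤ (4 * (1 + y ^ 2)⁻¹) * M := mul_le_mul (frac_le y) (hS y) (norm_nonneg _) (by positivity)
      _ = _ := by ring
  -- the primitive
  set g : ℂ → ℂ := fun z => (Kr k ρ z + 1 / z) * T z with hg
  have hUne : ∀ z ∈ U, z ≠ 0 := by
    rintro z hz rfl
    have : 0 < (dl β * 0).re := hz.2
    simp at this
  have hgd : DifferentiableOn ℂ g U := by
    refine DifferentiableOn.mul ?_ hTd
    refine (kcont P.hk ρ).differentiableOn.add ?_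
    exact (differentiableOn_const _).div differentiableOn_id hUne
  obtain ⟨Pr, hPr⟩ := exists_prim hUo hUc hgd
  have hmid : ∫ y in (Y1 β t)..(Y2 β t), f y =
      (Pr (zt (dl β) (Y2 β t)) - Pr (zt (dl β) (Y1 β t))) / I := by
    have key : ∀ y ∈ uIcc (Y1 β t) (Y2 β t), HasDerivAt (fun y : ℝ => Pr (zt (dl β) y) / I) (f y) y := by
      intro y hy'
      rw [uIcc_of_le h12.le] at hy'
      have h1 := (hPr _ (hmem y hy')).comp y (zt_hasDeriv (dl β) y)
      have h2 := h1.div_const I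
      refine h2.congr_deriv ?_
      have h3 : T (zt (dl β) y) = S (3 + y * I) := by
        have h4 := hκ _ (hmem y hy') (by
          rw [mul_zt]
          simp
          norm_num)
        rw [mul_zt] at h4
        rw [hT]
        simp only
        rw [mul_zt]
        exact h4
      rw [hg, hf]
      simp only
      rw [h3, mul_div_assoc, mul_div_assoc, div_self I_ne_zero, mul_one]
      ring
    rw [intervalIntegral.integral_eq_sub_of_hasDerivAt key hfi.intervalIntegrable, sub_div]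
  have hray2 := kray (k := k) (C := C₂) (B := B) (x₀ := ρ) (x₁ := X2 β t) (u := t) hk0 hC₂ hρ le_rfl hρx2
    (fun x hx => hptU x t (hρ.trans_le hx.1) (hx.2.trans (le_max_right _ _)) habs) hPr hgd.continuousOn
    (fun x hx => by
      rw [hg, norm_mul]
      exact mul_le_mul (hE2 ρ hρ x (hρ.trans_le hx.1)).1
        (hTb x t (hρ.trans_le hx.1) (hx.2.trans (le_max_right _ _)) habs) (norm_nonneg _) (by
          have : 0 < x ^ (-(k + 1)) := Real.rpow_pos_of_pos (hρ.trans_le hx.1) _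
          positivity)) hB0
  have hray1 := kray (k := k) (C := C₂) (B := B) (x₀ := ρ) (x₁ := X1 β t) (u := -t) hk0 hC₂ hρ le_rfl hρx1
    (fun x hx => hptU x (-t) (hρ.trans_le hx.1) (hx.2.trans (le_max_left _ _)) habs') hPr
    hgd.continuousOn (fun x hx => by
      rw [hg, norm_mul]
      exact mul_le_mul (hE2 ρ hρ x (hρ.trans_le hx.1)).2
        (hTb x (-t) (hρ.trans_le hx.1) (hx.2.trans (le_max_left _ _)) habs') (norm_nonneg _) (by
          have : 0 < x ^ (-(k + 1)) := Real.rpow_pos_of_pos (hρ.trans_le hx.1) _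
          positivity)) hB0
  have hρR : ρ ≤ R := hρx1.trans (le_max_left _ _)
  have hseg := kseg (C := C₃) (B := B) hρ ht0.le (fun u hu => hptU ρ u hρ hρR (abs_le.2 hu)) hPr
    (fun u hu => by
      rw [hg, norm_mul]
      exact mul_le_mul (hE3 ρ hρ u) (hTb ρ u hρ hρR (abs_le.2 hu)) (norm_nonneg _) (by positivity))
  rw [abs_of_pos ht0] at hray2
  rw [abs_neg, abs_of_pos ht0] at hray1
  have hmid2 : ‖∫ y in (Y1 β t)..(Y2 β t), f y‖ ≤
      2 * ((1 + t) * (C₂ * B / k)) + C₃ * B * (2 * t) := by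
    rw [hmid, norm_div, Complex.norm_I, div_one, P.zY2, P.zY1]
    have e : Pr (pt (X2 β t) t) - Pr (pt (X1 β t) (-t)) = (Pr (pt (X2 β t) t) - Pr (pt ρ t)) +
        (Pr (pt ρ t) - Pr (pt ρ (-t))) - (Pr (pt (X1 β t) (-t)) - Pr (pt ρ (-t))) := by ring
    rw [e]
    refine (norm_sub_le _ _).trans ?_
    refine (add_le_add (norm_add_le _ _) le_rfl).trans ?_
    refine (add_le_add (add_le_add hray2 hseg) hray1).trans (le_of_eq ?_)
    ring
  have hbd : ∀ y, (y < Y1 β t ∨ Y2 β t < y) → ‖f y‖ ≤ (C₁ * M) * (1 + y ^ 2)⁻¹ := by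
    intro y hy
    rw [hf]
    simp only
    rw [norm_mul, norm_mul, Complex.norm_conj, dl_norm, one_mul]
    have hy2 : 0 < (1 + y ^ 2)⁻¹ := by positivity
    calc _ ≤ (C₁ * ρ ^ k * (1 + y ^ 2)⁻¹) * M :=
          mul_le_mul (hE1 ρ hρ y hy) (hS y) (norm_nonneg _) (by positivity)
      _ ≤ (C₁ * 1 * (1 + y ^ 2)⁻¹) * M := by gcongr
      _ = _ := by ring
  have hfirst := split_line hfi h12.le (g := fun y => (C₁ * M) * (1 + y ^ 2)⁻¹)
    (integrable_inv_one_add_sq.const_mul _) (fun y => by positivity) hbd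
  rw [integral_const_mul, ← hIp] at hfirst
  rw [hsplit]
  refine (norm_sub_le _ _).trans (add_le_add ?_ hsec)
  exact hfirst.trans (add_le_add hmid2 le_rfl)

end Pool.Agent.D0H40.KX
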