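import Pool.Agent.D0H40.KX.Rot

/-! The kernels `∫ exp (ζ u - κ u^k) du`. -/

set_option autoImplicit false

namespace Pool.Agent.D0H40.KX

open Complex MeasureTheory Filter Topology Set

variable {k : ℝ}

/-- the kernel -/
noncomputable def KK (k : ℝ) (κ ζ : ℂ) : ℂ := ∫ u in Ioi (0:ℝ), exp (ζ * u) * EE k κ u

theorem exp_lin_le (ζ v : ℂ) : ‖exp (ζ * v)‖ ≤ 1 * Real.exp (‖ζ‖ * ‖v‖) := by
  rw [one_mul, Complex.norm_exp]
  apply Real.exp_le_exp.2
  rw [← norm_mul]
  exact Complex.re_le_norm _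

theorem KK_norm_int (k : ℝ) (κ ζ : ℂ) (u : ℝ) :
    ‖exp (ζ * u) * EE k κ u‖ = Real.exp (ζ.re * u - κ.re * u ^ k) := by
  rw [norm_mul, EE_norm, Complex.norm_exp, Complex.re_mul_ofReal, ← Real.exp_add]
  congr 1

theorem KK_meas (k : ℝ) (κ ζ : ℂ) : Measurable fun u : ℝ => exp (ζ * u) * EE k κ u :=
  (by fun_prop : Measurable fun u : ℝ => exp (ζ * u)).mul (EE_meas _ _)

theorem KK_int (hk : 1 < k) {κ : ℂ} (hκ : 0 < κ.re) (ζ : ℂ) :
    IntegrableOn (fun u : ℝ => exp (ζ * u) * EE k κ u) (Ioi 0) := by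
  refine (int_dom hk hκ ζ.re).mono' (KK_meas _ _ _).aestronglyMeasurable ?_
  exact Eventually.of_forall fun u => (KK_norm_int _ _ _ _).le

/-- turning -/
theorem KK_rot (hk : 1 < k) {α ψ : ℝ} (hα : |α| < Real.pi / 2) (hψ : |α + k * ψ| < Real.pi / 2)
    (ζ : ℂ) : KK k (exp (α * I)) ζ =
      exp (ψ * I) * KK k (exp ((α + k * ψ : ℝ) * I)) (ζ * exp (ψ * I)) := by
  have h1 := rot (h := fun v => exp (ζ * v)) hk (by fun_prop) (exp_lin_le ζ) (norm_nonneg ζ) hα hψ
  unfold KK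
  rw [h1, ← integral_const_mul]
  refine integral_congr_ae (Eventually.of_forall fun u => ?_)
  simp only
  rw [mul_assoc, mul_assoc]

/-- scaling -/
theorem KK_scale (k : ℝ) {ρ : ℝ} (hρ : 0 < ρ) (κ ζ : ℂ) :
    KK k (κ * (ρ ^ k : ℝ)) ζ = (ρ : ℂ)⁻¹ * KK k κ (ζ / ρ) := by
  unfold KK
  have h1 := integral_comp_mul_left_Ioi (fun v : ℝ => exp (ζ / ρ * v) * EE k κ v) 0 hρ
  rw [mul_zero] at h1
  have hρc : (ρ : ℂ) ≠ 0 := by exact_mod_cast hρ.ne'
  rw [Complex.real_smul, Complex.ofReal_inv] at h1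
  rw [← h1]
  refine setIntegral_congr_fun measurableSet_Ioi fun u hu => ?_
  have hu0 : (0:ℝ) ≤ u := le_of_lt hu
  unfold EE
  rw [Real.mul_rpow hρ.le hu0]
  congr 2
  · push_cast
    field_simp
  · push_cast
    ring

theorem integral_exp_neg' {σ : ℝ} (hσ : 0 < σ) : ∫ u in Ioi (0:ℝ), Real.exp (-(σ * u)) = σ⁻¹ := by
  have := integral_exp_mul_Ioi (a := -σ) (by linarith) 0
  simp only [neg_mul] at this
  rw [this]
  simp

theorem int_exp_neg' {σ : ℝ} (hσ : 0 < σ) : IntegrableOn (fun u : ℝ => Real.exp (-(σ * u))) (Ioi 0) := by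
  have := integrableOn_exp_mul_Ioi (a := -σ) (by linarith) 0
  refine this.congr_fun (fun u _ => ?_) measurableSet_Ioi
  simp only [neg_mul]

/-- the bound in a half plane -/
theorem KK_le_left {κ : ℂ} (hκ : 0 ≤ κ.re) {ζ : ℂ} {σ : ℝ} (hσ : 0 < σ)
    (hζ : ζ.re ≤ -σ) : ‖KK k κ ζ‖ ≤ σ⁻¹ := by
  unfold KK
  rw [← integral_exp_neg' hσ]
  refine norm_integral_le_of_norm_le (int_exp_neg' hσ) ?_
  refine (ae_restrict_iff' measurableSet_Ioi).2 (Eventually.of_forall fun u hu => ?_)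
  have hu0 : 0 < u := hu
  rw [KK_norm_int]
  apply Real.exp_le_exp.2
  have h1 : ζ.re * u ≤ -σ * u := by gcongr
  have h2 : 0 ≤ κ.re * u ^ k := by positivity
  linarith

/-- the first term of the expansion -/
theorem KK_add_le (hk : 1 < k) {κ : ℂ} (hκ : 0 ≤ κ.re) {ζ : ℂ} {σ : ℝ} (hσ : 0 < σ)
    (hζ : ζ.re ≤ -σ) :
    ‖KK k κ ζ + 1 / ζ‖ ≤ ‖κ‖ * ((1 / σ) ^ (k + 1) * Real.Gamma (k + 1)) := by
  have hζ0 : ζ ≠ 0 := by
    rintro rfl
    simp at hζ
    linarith
  have hre : ζ.re < 0 := by linarith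
  have h1 : ∫ u in Ioi (0:ℝ), exp (ζ * u) = -1 / ζ := by
    have := integral_exp_mul_complex_Ioi hre 0
    rw [this]
    simp
  have hi1 : IntegrableOn (fun u : ℝ => exp (ζ * u)) (Ioi 0) := integrableOn_exp_mul_complex_Ioi hre 0
  have hdom := Real.integral_rpow_mul_exp_neg_mul_Ioi (a := k + 1) (r := σ) (by linarith) hσ
  rw [add_sub_cancel_right] at hdom
  have hdomi : IntegrableOn (fun u : ℝ => u ^ k * Real.exp (-(σ * u))) (Ioi 0) := by
    have := (Real.GammaIntegral_convergent (s := k + 1) (by linarith))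
    by_contra hc
    have h0 := integral_undef hc
    rw [h0] at hdom
    have : 0 < (1 / σ) ^ (k + 1) * Real.Gamma (k + 1) := by
      have := Real.Gamma_pos_of_pos (show 0 < k + 1 by linarith)
      positivity
    linarith
  have hpt : ∀ u ∈ Ioi (0:ℝ), ‖exp (ζ * u) * EE k κ u - exp (ζ * u)‖ ≤
      ‖κ‖ * (u ^ k * Real.exp (-(σ * u))) := by
    intro u hu
    have hu0 : 0 < u := hu
    have e : exp (ζ * u) * EE k κ u - exp (ζ * u) = exp (ζ * u) * (EE k κ u - 1) := by ring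
    rw [e, norm_mul]
    have h2 : ‖EE k κ u - 1‖ ≤ ‖κ‖ * u ^ k := by
      unfold EE
      have hz : (-(κ * ((u ^ k : ℝ) : ℂ))).re ≤ 0 := by
        rw [Complex.neg_re, Complex.re_mul_ofReal]
        have : 0 ≤ κ.re * u ^ k := by positivity
        linarith
      have h3 : ‖exp (-(κ * ((u ^ k : ℝ) : ℂ))) - 1‖ ≤ ‖-(κ * ((u ^ k : ℝ) : ℂ))‖ := by
        -- mean value inequality
        set w : ℂ := -(κ * ((u ^ k : ℝ) : ℂ)) with hw
        have h4 : ∀ t ∈ Icc (0:ℝ) 1, HasDerivWithinAt (fun t : ℝ => exp ((t : ℂ) * w))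
            (exp ((t : ℂ) * w) * w) (Icc 0 1) t := by
          intro t _
          have h5 : HasDerivAt (fun t : ℝ => (t : ℂ) * w) w t := by
            simpa using (hasDerivAt_id t).ofReal_comp.mul_const w
          exact h5.cexp.hasDerivWithinAt
        have h6 : ∀ t ∈ Icc (0:ℝ) 1, ‖exp ((t : ℂ) * w) * w‖ ≤ ‖w‖ := by
          intro t ht
          rw [norm_mul, Complex.norm_exp, Complex.re_ofReal_mul]
          have : Real.exp (t * w.re) ≤ 1 := Real.exp_le_one_iff.2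
            (mul_nonpos_of_nonneg_of_nonpos ht.1 hz)
          exact mul_le_of_le_one_left (norm_nonneg _) this
        have h7 := Convex.norm_image_sub_le_of_norm_hasDerivWithin_le h4 h6 (convex_Icc (0:ℝ) 1)
          (x := 0) (y := 1) (by simp) (by simp)
        simpa using h7
      refine h3.trans ?_
      rw [norm_neg, norm_mul, Complex.norm_real, Real.norm_eq_abs, abs_of_pos (by positivity)]
    have h3 : ‖exp (ζ * u)‖ ≤ Real.exp (-(σ * u)) := by
      rw [Complex.norm_exp, Complex.re_mul_ofReal]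
      apply Real.exp_le_exp.2
      have : ζ.re * u ≤ -σ * u := by gcongr
      linarith
    calc ‖exp (ζ * u)‖ * ‖EE k κ u - 1‖ ≤ Real.exp (-(σ * u)) * (‖κ‖ * u ^ k) := by gcongr
      _ = _ := by ring
  have hi2 : IntegrableOn (fun u : ℝ => exp (ζ * u) * EE k κ u - exp (ζ * u)) (Ioi 0) := by
    refine (hdomi.const_mul ‖κ‖).mono' ?_ ?_
    · exact ((KK_meas _ _ _).sub (by fun_prop)).aestronglyMeasurable
    · exact (ae_restrict_iff' measurableSet_Ioi).2 (Eventually.of_forall hpt)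
  have hi3 : IntegrableOn (fun u : ℝ => exp (ζ * u) * EE k κ u) (Ioi 0) := by
    have := hi2.add hi1
    refine this.congr (Eventually.of_forall fun u => ?_)
    simp
  have e : KK k κ ζ + 1 / ζ = ∫ u in Ioi (0:ℝ), (exp (ζ * u) * EE k κ u - exp (ζ * u)) := by
    rw [integral_sub hi3 hi1, h1]
    unfold KK
    ring
  rw [e, ← hdom, ← integral_const_mul]
  refine norm_integral_le_of_norm_le (hdomi.const_mul ‖κ‖) ?_
  exact (ae_restrict_iff' measurableSet_Ioi).2 (Eventually.of_forall hpt)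

/-- the kernel in a disc -/
theorem KK_le_disc (hk : 1 < k) {κ : ℂ} (hκ : 0 < κ.re) (R : ℝ) :
    ∃ C : ℝ, 0 ≤ C ∧ ∀ ζ : ℂ, ζ.re ≤ R → ‖KK k κ ζ‖ ≤ C := by
  refine ⟨∫ u in Ioi (0:ℝ), Real.exp (R * u - κ.re * u ^ k),
    integral_nonneg fun u => (Real.exp_pos _).le, fun ζ hζ => ?_⟩
  unfold KK
  refine norm_integral_le_of_norm_le (int_dom hk hκ R) ?_
  refine (ae_restrict_iff' measurableSet_Ioi).2 (Eventually.of_forall fun u hu => ?_)
  have hu0 : 0 < u := hu
  rw [KK_norm_int]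
  apply Real.exp_le_exp.2
  have : ζ.re * u ≤ R * u := by gcongr
  linarith

/-- the kernel is entire -/
theorem KK_diff (hk : 1 < k) {κ : ℂ} (hκ : 0 < κ.re) : Differentiable ℂ (KK k κ) := by
  intro ζ₀
  have h1 := hasDerivAt_integral_of_dominated_loc_of_deriv_le (μ := volume.restrict (Ioi (0:ℝ)))
    (F := fun (ζ : ℂ) (u : ℝ) => exp (ζ * u) * EE k κ u)
    (F' := fun (ζ : ℂ) (u : ℝ) => exp (ζ * u) * u * EE k κ u) (x₀ := ζ₀)
    (s := Metric.ball ζ₀ 1)
    (bound := fun u => Real.exp ((ζ₀.re + 2) * u - κ.re * u ^ k))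
    (Metric.ball_mem_nhds _ one_pos)
    (Eventually.of_forall fun ζ => (KK_meas _ _ _).aestronglyMeasurable)
    (KK_int hk hκ ζ₀)
    (((by fun_prop : Measurable fun u : ℝ => exp (ζ₀ * u) * (u : ℂ)).mul
      (EE_meas _ _)).aestronglyMeasurable)
    ((ae_restrict_iff' measurableSet_Ioi).2 (Eventually.of_forall fun u hu ζ hζ => by
      have hu0 : 0 < u := hu
      have h2 : ζ.re ≤ ζ₀.re + 1 := by
        have h3 : ‖ζ - ζ₀‖ < 1 := by
          rw [← dist_eq_norm]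
          exact hζ
        have h4 := Complex.re_le_norm (ζ - ζ₀)
        rw [Complex.sub_re] at h4
        linarith
      have hu1 : u ≤ Real.exp u := by
        have := Real.add_one_le_exp u
        linarith
      rw [norm_mul, norm_mul, EE_norm, Complex.norm_exp, Complex.re_mul_ofReal, Complex.norm_real,
        Real.norm_eq_abs, abs_of_pos hu0]
      have h5 : ζ.re * u ≤ (ζ₀.re + 1) * u := by gcongr
      calc Real.exp (ζ.re * u) * u * Real.exp (-(κ.re * u ^ k)) ≤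
          Real.exp ((ζ₀.re + 1) * u) * Real.exp u * Real.exp (-(κ.re * u ^ k)) := by gcongr
        _ = _ := by
          rw [← Real.exp_add, ← Real.exp_add]
          congr 1
          ring))
    (int_dom hk hκ _)
    (Eventually.of_forall fun u ζ _ => by
      have h3 : HasDerivAt (fun ζ : ℂ => exp (ζ * u)) (exp (ζ * u) * u) ζ := by
        have := ((hasDerivAt_id ζ).mul_const (u : ℂ)).cexp
        simpa using this
      exact h3.mul_const _)
  exact h1.2.differentiableAt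

/-- the kernel outside of the sector of growth -/
theorem KK_one_add_le (hk : 1 < k) {ψ : ℝ} (hψ : |k * ψ| < Real.pi / 2) {ζ : ℂ} {σ : ℝ} (hσ : 0 < σ)
    (hζ : (ζ * exp (ψ * I)).re ≤ -σ) :
    ‖KK k 1 ζ + 1 / ζ‖ ≤ (1 / σ) ^ (k + 1) * Real.Gamma (k + 1) := by
  have h1 := KK_rot hk (α := 0) (ψ := ψ) (by simp; positivity) (by rwa [zero_add]) ζ
  rw [Complex.ofReal_zero, zero_mul, Complex.exp_zero, zero_add] at h1
  have hne : exp (ψ * I) ≠ 0 := Complex.exp_ne_zero _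
  have hcos : 0 < Real.cos (k * ψ) := Real.cos_pos_of_mem_Ioo ⟨(abs_lt.1 hψ).1, (abs_lt.1 hψ).2⟩
  have h2 := KK_add_le hk (κ := exp ((k * ψ : ℝ) * I)) (by rw [exp_I_re]; exact hcos.le) hσ hζ
  rw [norm_exp_I, one_mul] at h2
  have e : KK k 1 ζ + 1 / ζ = exp (ψ * I) * (KK k (exp ((k * ψ : ℝ) * I)) (ζ * exp (ψ * I)) +
      1 / (ζ * exp (ψ * I))) := by
    rw [h1, mul_add]
    congr 1
    by_cases hζ0 : ζ = 0
    · rw [hζ0]; simp
    · field_simp
  rw [e, norm_mul, norm_exp_I, one_mul]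
  exact h2

end Pool.Agent.D0H40.KX
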