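import Pool.Agent.D0H40.KX.Par

/-! The kernel on the line and on the rays. -/

set_option autoImplicit false

namespace Pool.Agent.D0H40.KX

open Complex MeasureTheory Filter Topology Set
open Pool.Agent.D0H40.GC (zt zt_re zt_im pt pt_re pt_im)
open scoped ComplexConjugate

variable {k β t ψ : ℝ}

/-- the scaled kernel -/
noncomputable def Kr (k ρ : ℝ) (z : ℂ) : ℂ := (ρ : ℂ)⁻¹ * KK k 1 (z / ρ)

/-- the parameter of the kernel -/
noncomputable def sk (k β ρ : ℝ) : ℂ := exp ((k * β : ℝ) * I) * (ρ ^ k : ℝ)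

theorem sk_re (k β : ℝ) {ρ : ℝ} : (sk k β ρ).re = Real.cos (k * β) * ρ ^ k := by
  unfold sk
  rw [Complex.re_mul_ofReal, exp_I_re]

theorem Par.cos_kβ (P : Par k β t ψ) : 0 < Real.cos (k * β) :=
  Real.cos_pos_of_mem_Ioo ⟨(abs_lt.1 P.kβ).1, (abs_lt.1 P.kβ).2⟩

theorem Par.sk_pos (P : Par k β t ψ) {ρ : ℝ} (hρ : 0 < ρ) : 0 < (sk k β ρ).re := by
  rw [sk_re]
  exact mul_pos P.cos_kβ (Real.rpow_pos_of_pos hρ _)

theorem KK_sk (P : Par k β t ψ) {ρ : ℝ} (hρ : 0 < ρ) (w : ℂ) :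
    KK k (sk k β ρ) w = conj (dl β) * Kr k ρ (conj (dl β) * w) := by
  unfold sk Kr
  rw [KK_scale k hρ, KK_rot P.hk (α := k * β) (ψ := -β) P.kβ (by
    rw [mul_neg, add_neg_cancel, abs_zero]; positivity), mul_neg, add_neg_cancel, conj_dl]
  unfold dl
  rw [Complex.ofReal_zero, zero_mul, Complex.exp_zero]
  have e : w / (ρ : ℂ) * exp ((-β : ℝ) * I) = exp ((-β : ℝ) * I) * w / ρ := by ring
  rw [e]
  ring

theorem NN_eq (P : Par k β t ψ) {ρ : ℝ} (hρ : 0 < ρ) (y : ℝ) : NN k (sk k β ρ) y =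
    conj (dl β) * (Kr k ρ (zt (dl β) y) + 1 / zt (dl β) y) - (1 / (3 + y * I) + 1 / (1 - y * I)) := by
  unfold NN
  rw [KK_sk P hρ]
  have hc : conj (dl β) ≠ 0 := by
    rw [conj_dl]
    exact dl_ne _
  have h3 : (3 + y * I : ℂ) ≠ 0 := by
    intro h
    have := congrArg Complex.re h
    simp at this
  have e1 : conj (dl β) * (3 + y * I) = zt (dl β) y := rfl
  have e2 : conj (dl β) * (1 / zt (dl β) y) = 1 / (3 + y * I) := by
    rw [← e1]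
    field_simp
  rw [e1, mul_add, e2]
  ring

theorem Kr_add (k : ℝ) {ρ : ℝ} (hρ : 0 < ρ) (z : ℂ) :
    Kr k ρ z + 1 / z = (ρ : ℂ)⁻¹ * (KK k 1 (z / ρ) + 1 / (z / ρ)) := by
  have hρc : (ρ : ℂ) ≠ 0 := by exact_mod_cast hρ.ne'
  unfold Kr
  rw [mul_add, one_div_div]
  congr 1
  rw [← mul_div_assoc, inv_mul_cancel₀ hρc]

/-- the kernel on turned points -/
theorem Kr_le (hk : 1 < k) {θ : ℝ} (hθ : |k * θ| < Real.pi / 2) {ρ : ℝ} (hρ : 0 < ρ) {z : ℂ} {q : ℝ}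
    (hq : 0 < q) (hz : (z * exp (θ * I)).re ≤ -q) :
    ‖Kr k ρ z + 1 / z‖ ≤ Real.Gamma (k + 1) * ρ ^ k * q ^ (-(k + 1)) := by
  rw [Kr_add k hρ]
  have h1 : (z / ρ * exp (θ * I)).re ≤ -(q / ρ) := by
    have e : z / ρ * exp (θ * I) = (z * exp (θ * I)) / (ρ : ℝ) := by ring
    rw [e, Complex.div_ofReal_re, ← neg_div]
    exact div_le_div_of_nonneg_right hz hρ.le
  have h2 := KK_one_add_le hk hθ (σ := q / ρ) (by positivity) h1
  rw [norm_mul, norm_inv, Complex.norm_real, Real.norm_eq_abs, abs_of_pos hρ]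
  have e : (1 / (q / ρ)) ^ (k + 1) = ρ * ρ ^ k * q ^ (-(k + 1)) := by
    rw [one_div_div, Real.div_rpow hρ.le hq.le, Real.rpow_neg hq.le, div_eq_mul_inv,
      Real.rpow_add_one hρ.ne']
    ring
  rw [e] at h2
  calc ρ⁻¹ * ‖KK k 1 (z / ρ) + 1 / (z / ρ)‖ ≤
      ρ⁻¹ * (ρ * ρ ^ k * q ^ (-(k + 1)) * Real.Gamma (k + 1)) := by gcongr
    _ = _ := by field_simp

theorem tail_pow (hk : 1 < k) {c : ℝ} (hc : 0 < c) (y : ℝ) :
    (c * (1 + |y|)) ^ (-(k + 1)) ≤ c ^ (-(k + 1)) * (1 + y ^ 2)⁻¹ := by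
  have h1 : (1:ℝ) ≤ 1 + |y| := by linarith [abs_nonneg y]
  rw [Real.mul_rpow hc.le (by linarith)]
  have h2 : (1 + |y|) ^ (-(k + 1)) ≤ (1 + y ^ 2)⁻¹ := by
    have h3 : (1 + |y|) ^ (-(k + 1)) ≤ (1 + |y|) ^ (-(2:ℝ)) :=
      Real.rpow_le_rpow_of_exponent_le h1 (by linarith)
    refine h3.trans ?_
    rw [Real.rpow_neg (by linarith)]
    apply inv_anti₀ (by positivity)
    rw [Real.rpow_two]
    have h4 : y ^ 2 = |y| ^ 2 := (sq_abs y).symm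
    rw [h4]
    have := abs_nonneg y
    nlinarith
  have : 0 ≤ c ^ (-(k + 1)) := Real.rpow_nonneg hc.le _
  gcongr

theorem E_tail (P : Par k β t ψ) : ∃ C : ℝ, 0 ≤ C ∧ ∀ ρ : ℝ, 0 < ρ → ∀ y : ℝ,
    (y < Y1 β t ∨ Y2 β t < y) →
    ‖Kr k ρ (zt (dl β) y) + 1 / zt (dl β) y‖ ≤ C * ρ ^ k * (1 + y ^ 2)⁻¹ := by
  obtain ⟨c₁, hc₁, h1⟩ := P.tail_up
  obtain ⟨c₂, hc₂, h2⟩ := P.tail_down
  have hG : 0 < Real.Gamma (k + 1) := Real.Gamma_pos_of_pos (by linarith [P.k0])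
  refine ⟨Real.Gamma (k + 1) * (c₁ ^ (-(k + 1)) + c₂ ^ (-(k + 1))), by positivity,
    fun ρ hρ y hy => ?_⟩
  have hρk : 0 < ρ ^ k := Real.rpow_pos_of_pos hρ _
  have hp1 : 0 ≤ c₁ ^ (-(k + 1)) := Real.rpow_nonneg hc₁.le _
  have hp2 : 0 ≤ c₂ ^ (-(k + 1)) := Real.rpow_nonneg hc₂.le _
  have hy2 : 0 ≤ (1 + y ^ 2)⁻¹ := by positivity
  have h1y : 0 < 1 + |y| := by linarith [abs_nonneg y]
  rcases hy with hy | hy
  · have h3 := Kr_le P.hk P.kψ' hρ (by positivity) (h2 y hy)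
    calc _ ≤ _ := h3
      _ ≤ Real.Gamma (k + 1) * ρ ^ k * (c₂ ^ (-(k + 1)) * (1 + y ^ 2)⁻¹) := by
          gcongr
          exact tail_pow P.hk hc₂ y
      _ ≤ Real.Gamma (k + 1) * ρ ^ k * ((c₁ ^ (-(k + 1)) + c₂ ^ (-(k + 1))) * (1 + y ^ 2)⁻¹) := by
          gcongr
          linarith
      _ = _ := by ring
  · have h3 := Kr_le P.hk P.kψ hρ (by positivity) (h1 y hy)
    calc _ ≤ _ := h3
      _ ≤ Real.Gamma (k + 1) * ρ ^ k * (c₁ ^ (-(k + 1)) * (1 + y ^ 2)⁻¹) := by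
          gcongr
          exact tail_pow P.hk hc₁ y
      _ ≤ Real.Gamma (k + 1) * ρ ^ k * ((c₁ ^ (-(k + 1)) + c₂ ^ (-(k + 1))) * (1 + y ^ 2)⁻¹) := by
          gcongr
          linarith
      _ = _ := by ring

theorem E_ray (P : Par k β t ψ) : ∃ C : ℝ, 0 ≤ C ∧ ∀ ρ : ℝ, 0 < ρ → ∀ x : ℝ, 0 < x →
    ‖Kr k ρ (pt x t) + 1 / pt x t‖ ≤ C * ρ ^ k * x ^ (-(k + 1)) ∧
    ‖Kr k ρ (pt x (-t)) + 1 / pt x (-t)‖ ≤ C * ρ ^ k * x ^ (-(k + 1)) := by
  have hG : 0 < Real.Gamma (k + 1) := Real.Gamma_pos_of_pos (by linarith [P.k0])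
  set c : ℝ := t * Real.sin ψ - Real.cos ψ with hc
  have hc0 : 0 < c := by
    have := P.ht
    linarith
  refine ⟨Real.Gamma (k + 1) * c ^ (-(k + 1)), by positivity, fun ρ hρ x hx => ?_⟩
  have e : (x * c) ^ (-(k + 1)) = c ^ (-(k + 1)) * x ^ (-(k + 1)) := by
    rw [Real.mul_rpow hx.le hc0.le]
    ring
  constructor
  · have h3 := Kr_le P.hk P.kψ hρ (z := pt x t) (q := x * c) (by positivity) (by
      rw [pt_turn, hc]
      apply le_of_eq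
      ring)
    rw [e] at h3
    exact h3.trans (le_of_eq (by ring))
  · have h3 := Kr_le P.hk P.kψ' hρ (z := pt x (-t)) (q := x * c) (by positivity) (by
      rw [pt_turn, hc, Real.cos_neg, Real.sin_neg]
      apply le_of_eq
      ring)
    rw [e] at h3
    exact h3.trans (le_of_eq (by ring))

theorem E_seg (hk : 1 < k) : ∃ C : ℝ, 0 ≤ C ∧ ∀ ρ : ℝ, 0 < ρ → ∀ u : ℝ,
    ‖Kr k ρ (pt ρ u) + 1 / pt ρ u‖ ≤ C / ρ := by
  obtain ⟨C, hC0, hC⟩ := KK_le_disc hk (κ := 1) (by norm_num) 1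
  refine ⟨C + 1, by positivity, fun ρ hρ u => ?_⟩
  have h1 : (pt ρ u / (ρ : ℝ)).re = 1 := by
    rw [Complex.div_ofReal_re, pt_re, div_self hρ.ne']
  have h2 := hC (pt ρ u / ρ) h1.le
  have h3 : ρ ≤ ‖pt ρ u‖ := by
    have := Complex.abs_re_le_norm (pt ρ u)
    rw [pt_re, abs_of_pos hρ] at this
    exact this
  unfold Kr
  refine (norm_add_le _ _).trans ?_
  rw [norm_mul, norm_inv, Complex.norm_real, Real.norm_eq_abs, abs_of_pos hρ, norm_div, norm_one,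
    add_div]
  refine add_le_add ?_ (one_div_le_one_div_of_le hρ h3)
  calc ρ⁻¹ * ‖KK k 1 (pt ρ u / ρ)‖ ≤ ρ⁻¹ * C := by gcongr
    _ = C / ρ := by ring

theorem frac_le (y : ℝ) : ‖(1 / (3 + y * I) + 1 / (1 - y * I) : ℂ)‖ ≤ 4 * (1 + y ^ 2)⁻¹ := by
  have h3 : (3 + y * I : ℂ) ≠ 0 := by
    intro h
    have := congrArg Complex.re h
    simp at this
  have h1 : (1 - y * I : ℂ) ≠ 0 := by
    intro h
    have := congrArg Complex.re h
    simp at this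
  have e : (1 / (3 + y * I) + 1 / (1 - y * I) : ℂ) = 4 / ((3 + y * I) * (1 - y * I)) := by
    rw [div_add_div _ _ h3 h1]
    congr 1
    ring
  have hn1 : ‖(1 - y * I : ℂ)‖ = √(1 + y ^ 2) := by
    rw [Complex.norm_def, Complex.normSq_apply]
    congr 1
    simp
    ring
  have hn3 : √(1 + y ^ 2) ≤ ‖(3 + y * I : ℂ)‖ := by
    rw [Complex.norm_def, Complex.normSq_apply]
    apply Real.sqrt_le_sqrt
    simp
    nlinarith
  rw [e, norm_div, norm_mul, hn1]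
  have hs : 0 < √(1 + y ^ 2) := Real.sqrt_pos.2 (by positivity)
  have hm : 1 + y ^ 2 ≤ ‖(3 + y * I : ℂ)‖ * √(1 + y ^ 2) := by
    calc 1 + y ^ 2 = √(1 + y ^ 2) * √(1 + y ^ 2) := (Real.mul_self_sqrt (by positivity)).symm
      _ ≤ _ := by gcongr
  rw [div_eq_mul_inv]
  have : ‖(4 : ℂ)‖ = 4 := by simp
  rw [this]
  gcongr

theorem NN_cont (hk : 1 < k) {κ : ℂ} (hκ : 0 < κ.re) : Continuous (NN k κ) := by
  unfold NN
  have h1 : Continuous (KK k κ) := (KK_diff hk hκ).continuous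
  refine (h1.comp (by fun_prop)).sub ?_
  refine continuous_const.div (by fun_prop) fun y => ?_
  intro h
  have := congrArg Complex.re h
  simp at this

theorem NN_tail (P : Par k β t ψ) : ∃ C : ℝ, 0 ≤ C ∧ ∀ ρ : ℝ, 0 < ρ → ∀ y : ℝ,
    (y < Y1 β t ∨ Y2 β t < y) → ‖NN k (sk k β ρ) y‖ ≤ (C * ρ ^ k + 4) * (1 + y ^ 2)⁻¹ := by
  obtain ⟨C, hC0, hC⟩ := E_tail P
  refine ⟨C, hC0, fun ρ hρ y hy => ?_⟩
  rw [NN_eq P hρ]
  refine (norm_sub_le _ _).trans ?_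
  rw [norm_mul, Complex.norm_conj, dl_norm, one_mul, add_mul]
  exact add_le_add (hC ρ hρ y hy) (frac_le y)

theorem NN_int (P : Par k β t ψ) {ρ : ℝ} (hρ : 0 < ρ) : Integrable (NN k (sk k β ρ)) := by
  obtain ⟨C, hC0, hC⟩ := NN_tail P
  have hcont := NN_cont P.hk (P.sk_pos hρ)
  obtain ⟨M, hM⟩ := (isCompact_Icc (a := Y1 β t) (b := Y2 β t)).exists_bound_of_continuousOn
    hcont.continuousOn
  set B : ℝ := 1 + max (|Y1 β t|) (|Y2 β t|) ^ 2 with hB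
  have hmx : 0 ≤ max (|Y1 β t|) (|Y2 β t|) := (abs_nonneg _).trans (le_max_left _ _)
  have hB0 : 0 < B := by positivity
  refine Integrable.mono' (g := fun y => (|M| * B + (C * ρ ^ k + 4)) * (1 + y ^ 2)⁻¹)
    (integrable_inv_one_add_sq.const_mul _) hcont.aestronglyMeasurable
    (Eventually.of_forall fun y => ?_)
  have hρk : 0 < ρ ^ k := Real.rpow_pos_of_pos hρ _
  have hy2 : 0 < (1 + y ^ 2)⁻¹ := by positivity
  by_cases hy : y ∈ Icc (Y1 β t) (Y2 β t)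
  · have h1 := (hM y hy).trans (le_abs_self M)
    have h2 : 1 + y ^ 2 ≤ B := by
      have h3 : |y| ≤ max (|Y1 β t|) (|Y2 β t|) := by
        rw [abs_le]
        constructor
        · have := neg_abs_le (Y1 β t)
          have := le_max_left (|Y1 β t|) (|Y2 β t|)
          linarith [hy.1]
        · have := le_abs_self (Y2 β t)
          have := le_max_right (|Y1 β t|) (|Y2 β t|)
          linarith [hy.2]
      have h4 : y ^ 2 ≤ max (|Y1 β t|) (|Y2 β t|) ^ 2 := by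
        rw [← sq_abs]
        exact pow_le_pow_left₀ (abs_nonneg _) h3 2
      linarith
    have h3 : 1 ≤ B * (1 + y ^ 2)⁻¹ := by
      rw [← div_eq_mul_inv, one_le_div (by positivity)]
      exact h2
    calc ‖NN k (sk k β ρ) y‖ ≤ |M| * 1 := by rw [mul_one]; exact h1
      _ ≤ |M| * (B * (1 + y ^ 2)⁻¹) := by gcongr
      _ ≤ (|M| * B + (C * ρ ^ k + 4)) * (1 + y ^ 2)⁻¹ := by
          have : 0 ≤ (C * ρ ^ k + 4) * (1 + y ^ 2)⁻¹ := by positivity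
          linarith
  · have h1 : y < Y1 β t ∨ Y2 β t < y := by
      by_contra hc
      push Not at hc
      exact hy ⟨hc.1, hc.2⟩
    have h2 := hC ρ hρ y h1
    have h3 : 0 ≤ |M| * B * (1 + y ^ 2)⁻¹ := by positivity
    linarith

/-- **Inversion** for the parameters of the problem. -/
theorem inv_sk (P : Par k β t ψ) {ρ : ℝ} (hρ : 0 < ρ) {u : ℝ} (hu : 0 ≤ u) :
    EE k (sk k β ρ) u - exp (-(4 * u)) =
      (1 / (2 * Real.pi) : ℝ) * ∫ y : ℝ, NN k (sk k β ρ) y * exp (-((3 + y * I) * u)) :=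
  inv_line P.hk (P.sk_pos hρ) (NN_int P hρ) hu

end Pool.Agent.D0H40.KX
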