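import Pool.Agent.D0H40.KX.AbsK

/-! Means of trigonometric polynomials along the integers. -/

set_option autoImplicit false

namespace Pool.Agent.D0H40.KX

open Complex Filter Topology

/-- the mean -/
noncomputable def mean (u : ℕ → ℂ) (n : ℕ) : ℂ := (n : ℂ)⁻¹ * ∑ i ∈ Finset.range n, u i

/-- the real mean -/
noncomputable def rmean (u : ℕ → ℝ) (n : ℕ) : ℝ := (n : ℝ)⁻¹ * ∑ i ∈ Finset.range n, u i

theorem rmean_tendsto {u : ℕ → ℝ} {l : ℝ} (h : Tendsto u atTop (𝓝 l)) :
    Tendsto (rmean u) atTop (𝓝 l) := h.cesaro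

theorem geo_mean {ζ : ℂ} (h1 : ‖ζ‖ = 1) (h2 : ζ ≠ 1) :
    Tendsto (mean fun i => ζ ^ i) atTop (𝓝 0) := by
  have h3 : ζ - 1 ≠ 0 := sub_ne_zero.2 h2
  rw [tendsto_zero_iff_norm_tendsto_zero]
  refine squeeze_zero (g := fun n : ℕ => (n : ℝ)⁻¹ * (2 / ‖ζ - 1‖)) (fun n => norm_nonneg _) (fun n => ?_) ?_
  · unfold mean
    rw [geom_sum_eq h2, norm_mul, norm_inv, Complex.norm_natCast, norm_div]
    have h4 : ‖ζ ^ n - 1‖ ≤ 2 := by
      refine (norm_sub_le _ _).trans ?_
      rw [norm_pow, h1, one_pow, norm_one]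
      norm_num
    gcongr
  · have h4 : Tendsto (fun n : ℕ => (n : ℝ)⁻¹) atTop (𝓝 0) := tendsto_inv_atTop_nhds_zero_nat
    have := h4.mul_const (2 / ‖ζ - 1‖)
    rwa [zero_mul] at this

theorem one_mean : Tendsto (mean fun _ => 1) atTop (𝓝 1) := by
  refine Tendsto.congr' ?_ tendsto_const_nhds
  filter_upwards [eventually_ne_atTop 0] with n hn
  unfold mean
  rw [Finset.sum_const, Finset.card_range, nsmul_eq_mul, mul_one, inv_mul_cancel₀]
  exact_mod_cast hn

theorem mean_sum (S : Finset ℂ) (u : ℂ → ℕ → ℂ) (a : ℂ → ℂ) (n : ℕ) :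
    mean (fun i => ∑ z ∈ S, a z * u z i) n = ∑ z ∈ S, a z * mean (u z) n := by
  unfold mean
  rw [Finset.sum_comm, Finset.mul_sum]
  refine Finset.sum_congr rfl fun z _ => ?_
  rw [← Finset.mul_sum]
  ring

/-- the mean of a trigonometric polynomial -/
theorem mean_trig (S : Finset ℂ) (a ζ : ℂ → ℂ) (h1 : ∀ z ∈ S, ‖ζ z‖ = 1) :
    Tendsto (mean fun i => ∑ z ∈ S, a z * ζ z ^ i) atTop
      (𝓝 (∑ z ∈ S, a z * if ζ z = 1 then 1 else 0)) := by
  have h2 : (mean fun i => ∑ z ∈ S, a z * ζ z ^ i) =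
      fun n => ∑ z ∈ S, a z * mean (fun i => ζ z ^ i) n := by
    funext n
    exact mean_sum S (fun z i => ζ z ^ i) a n
  rw [h2]
  refine tendsto_finsetSum _ fun z hz => Tendsto.const_mul _ ?_
  by_cases h3 : ζ z = 1
  · rw [if_pos h3, h3]
    simp only [one_pow]
    exact one_mean
  · rw [if_neg h3]
    exact geo_mean (h1 z hz) h3

theorem norm_mean_le (u : ℕ → ℂ) (n : ℕ) : ‖mean u n‖ ≤ rmean (fun i => ‖u i‖) n := by
  unfold mean rmean
  rw [norm_mul, norm_inv, Complex.norm_natCast]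
  gcongr
  exact norm_sum_le _ _

/-- uniqueness -/
theorem coef_zero (S : Finset ℂ) (a ζ : ℂ → ℂ) (h1 : ∀ z ∈ S, ‖ζ z‖ = 1)
    (hinj : Set.InjOn ζ (S : Set ℂ))
    (h : Tendsto (rmean fun i => ‖∑ z ∈ S, a z * ζ z ^ i‖) atTop (𝓝 0)) {w : ℂ} (hw : w ∈ S) :
    a w = 0 := by
  have hw0 : ζ w ≠ 0 := by
    intro h0
    have := h1 w hw
    rw [h0, norm_zero] at this
    exact zero_ne_one this
  have h2 := mean_trig S a (fun z => ζ z / ζ w) (fun z hz => by rw [norm_div, h1 z hz, h1 w hw, div_one])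
  have h3 : ∑ z ∈ S, a z * (if ζ z / ζ w = 1 then (1:ℂ) else 0) = a w := by
    rw [Finset.sum_eq_single w]
    · rw [if_pos (div_self hw0), mul_one]
    · intro z hz hzw
      rw [if_neg, mul_zero]
      intro h4
      rw [div_eq_one_iff_eq hw0] at h4
      exact hzw (hinj hz hw h4)
    · intro h4
      exact absurd hw h4
  rw [h3] at h2
  have h4 : Tendsto (mean fun i => ∑ z ∈ S, a z * (ζ z / ζ w) ^ i) atTop (𝓝 0) := by
    rw [tendsto_zero_iff_norm_tendsto_zero]
    refine squeeze_zero (fun n => norm_nonneg _) (fun n => ?_) h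
    refine (norm_mean_le _ n).trans (le_of_eq ?_)
    unfold rmean
    congr 1
    refine Finset.sum_congr rfl fun i _ => ?_
    have e : ∑ z ∈ S, a z * (ζ z / ζ w) ^ i = (∑ z ∈ S, a z * ζ z ^ i) * ((ζ w)⁻¹) ^ i := by
      rw [Finset.sum_mul]
      refine Finset.sum_congr rfl fun z _ => ?_
      rw [div_eq_mul_inv, mul_pow, mul_assoc]
    simp only
    rw [e, norm_mul, norm_pow, norm_inv, h1 w hw, inv_one, one_pow, mul_one]
  exact tendsto_nhds_unique h2 h4

/-- two-sided version -/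
theorem coef_zero_of_tendsto (S : Finset ℂ) (a ζ : ℂ → ℂ) (h1 : ∀ z ∈ S, ‖ζ z‖ = 1)
    (hinj : Set.InjOn ζ (S : Set ℂ))
    (h : Tendsto (fun i : ℕ => ∑ z ∈ S, a z * ζ z ^ i) atTop (𝓝 0)) {w : ℂ} (hw : w ∈ S) :
    a w = 0 := by
  refine coef_zero S a ζ h1 hinj (rmean_tendsto ?_) hw
  rw [tendsto_zero_iff_norm_tendsto_zero] at h
  exact h

/-- one-sided version -/
theorem coef_zero_one (S : Finset ℂ) (a ζ : ℂ → ℂ) (h1 : ∀ z ∈ S, ‖ζ z‖ = 1)
    (hinj : Set.InjOn ζ (S : Set ℂ)) (hpos : ∀ z ∈ S, ζ z = 1 → 0 ≤ (a z).re) (u : ℕ → ℝ)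
    (h : Tendsto (fun i : ℕ => (u i : ℂ) - ∑ z ∈ S, a z * ζ z ^ i) atTop (𝓝 0))
    {v : ℕ → ℝ} (hv : Tendsto v atTop (𝓝 0)) (huv : ∀ᶠ i in atTop, u i ≤ v i) {w : ℂ} (hw : w ∈ S) :
    a w = 0 := by
  set f : ℕ → ℂ := fun i => ∑ z ∈ S, a z * ζ z ^ i with hf
  refine coef_zero S a ζ h1 hinj ?_ hw
  -- imaginary part
  have him : Tendsto (fun i => |(f i).im|) atTop (𝓝 0) := by
    have h2 := (Complex.continuous_im.tendsto _).comp h
    have h3 := h2.abs
    rw [Complex.zero_im, abs_zero] at h3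
    refine h3.congr fun i => ?_
    simp only [Function.comp_apply, Complex.sub_im, Complex.ofReal_im, zero_sub, abs_neg]
    rfl
  -- the positive part of the real part
  have hre : Tendsto (fun i => u i - (f i).re) atTop (𝓝 0) := by
    have h2 := (Complex.continuous_re.tendsto _).comp h
    rw [Complex.zero_re] at h2
    refine h2.congr fun i => ?_
    simp only [Function.comp_apply, Complex.sub_re, Complex.ofReal_re]
    rfl
  have hpl : Tendsto (fun i => max (f i).re 0) atTop (𝓝 0) := by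
    have h2 : Tendsto (fun i => |v i| + |u i - (f i).re|) atTop (𝓝 0) := by
      have := hv.abs.add hre.abs
      rwa [abs_zero, add_zero] at this
    refine squeeze_zero' (Eventually.of_forall fun i => le_max_right _ _) ?_ h2
    filter_upwards [huv] with i hi
    refine max_le ?_ (by positivity)
    have h3 := neg_abs_le (u i - (f i).re)
    have h4 := le_abs_self (v i)
    linarith
  -- the mean of the real part
  have hm := mean_trig S a ζ h1
  set A : ℂ := ∑ z ∈ S, a z * (if ζ z = 1 then (1:ℂ) else 0) with hA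
  have hA0 : 0 ≤ A.re := by
    rw [hA, Complex.re_sum]
    refine Finset.sum_nonneg fun z hz => ?_
    split_ifs with h3
    · rw [mul_one]
      exact hpos z hz h3
    · simp
  have hmr : Tendsto (rmean fun i => (f i).re) atTop (𝓝 A.re) := by
    have h2 := (Complex.continuous_re.tendsto _).comp hm
    refine h2.congr fun n => ?_
    simp only [Function.comp_apply]
    unfold mean rmean
    have e : ((n : ℂ)⁻¹ * ∑ i ∈ Finset.range n, f i).re =
        (n : ℝ)⁻¹ * ∑ i ∈ Finset.range n, (f i).re := by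
      rw [← Complex.ofReal_natCast, ← Complex.ofReal_inv, Complex.re_ofReal_mul, Complex.re_sum]
    exact e
  have hmp := rmean_tendsto hpl
  have hmi := rmean_tendsto him
  have hup : Tendsto (fun n => 2 * rmean (fun i => max (f i).re 0) n - rmean (fun i => (f i).re) n +
      rmean (fun i => |(f i).im|) n) atTop (𝓝 (2 * 0 - A.re + 0)) :=
    ((hmp.const_mul 2).sub hmr).add hmi
  have hle : ∀ n, rmean (fun i => ‖f i‖) n ≤ 2 * rmean (fun i => max (f i).re 0) n -
      rmean (fun i => (f i).re) n + rmean (fun i => |(f i).im|) n := by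
    intro n
    have e : 2 * rmean (fun i => max (f i).re 0) n -
        rmean (fun i => (f i).re) n + rmean (fun i => |(f i).im|) n =
        rmean (fun i => 2 * max (f i).re 0 - (f i).re + |(f i).im|) n := by
      unfold rmean
      rw [Finset.sum_add_distrib, Finset.sum_sub_distrib, ← Finset.mul_sum]
      ring
    rw [e]
    unfold rmean
    gcongr with i hi
    have h2 := Complex.norm_le_abs_re_add_abs_im (f i)
    have h3 : |(f i).re| = 2 * max (f i).re 0 - (f i).re := by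
      rcases le_total 0 (f i).re with h4 | h4
      · rw [abs_of_nonneg h4, max_eq_left h4]
        ring
      · rw [abs_of_nonpos h4, max_eq_right h4]
        ring
    rw [h3] at h2
    exact h2
  have h0 : ∀ n, 0 ≤ rmean (fun i => ‖f i‖) n := by
    intro n
    unfold rmean
    exact mul_nonneg (by positivity) (Finset.sum_nonneg fun i _ => norm_nonneg _)
  have hAz : A.re = 0 := by
    have h2 : 0 ≤ 2 * 0 - A.re + 0 := ge_of_tendsto' hup fun n => (h0 n).trans (hle n)
    linarith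
  rw [hAz] at hup
  simp only [mul_zero, sub_zero, add_zero] at hup
  exact squeeze_zero h0 hle hup

/-- a step that separates the frequencies -/
theorem exists_step (S : Finset ℂ) (ω : ℂ → ℝ) (hinj : Set.InjOn ω (S : Set ℂ)) :
    ∃ h : ℝ, 0 < h ∧ Set.InjOn (fun z => exp ((ω z * h : ℝ) * I)) (S : Set ℂ) ∧
      ∀ z ∈ S, exp ((ω z * h : ℝ) * I) = 1 → ω z = 0 := by
  have h1 : ∀ d : ℝ, d ≠ 0 → ∀ᶠ h : ℝ in 𝓝[>] 0, exp ((d * h : ℝ) * I) ≠ 1 := by
    intro d hd
    have h2 : ∀ᶠ h : ℝ in 𝓝[>] 0, h < 2 * Real.pi / |d| :=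
      (eventually_lt_nhds (by have := Real.pi_pos; positivity)).filter_mono nhdsWithin_le_nhds
    filter_upwards [h2, self_mem_nhdsWithin] with h h3 h4 h5
    have h4' : 0 < h := h4
    rw [lt_div_iff₀ (abs_pos.2 hd)] at h3
    rw [Complex.exp_eq_one_iff] at h5
    obtain ⟨n, hn⟩ := h5
    have h6 : d * h = n * (2 * Real.pi) := by
      have h7 := congrArg Complex.im hn
      simpa using h7
    have h8 : n ≠ 0 := by
      rintro rfl
      rw [Int.cast_zero, zero_mul] at h6
      rcases mul_eq_zero.1 h6 with h9 | h9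
      · exact hd h9
      · exact h4'.ne' h9
    have h9 : (1:ℝ) ≤ |(n:ℝ)| := by
      have := Int.one_le_abs h8
      exact_mod_cast this
    have h10 : |d| * h = |(n:ℝ)| * (2 * Real.pi) := by
      have := congrArg abs h6
      rw [abs_mul, abs_mul, abs_of_pos h4', abs_of_pos (by have := Real.pi_pos; positivity : 0 < 2 * Real.pi)] at this
      exact this
    have h11 : 2 * Real.pi ≤ |(n:ℝ)| * (2 * Real.pi) :=
      le_mul_of_one_le_left (by have := Real.pi_pos; positivity) h9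
    linarith
  have h2 : ∀ᶠ h : ℝ in 𝓝[>] 0, ∀ z ∈ S, ∀ w ∈ S, z ≠ w → exp (((ω z - ω w) * h : ℝ) * I) ≠ 1 := by
    rw [Finset.eventually_all]
    intro z hz
    rw [Finset.eventually_all]
    intro w hw
    by_cases hzw : z = w
    · exact Eventually.of_forall fun h h3 => absurd hzw h3
    · refine (h1 (ω z - ω w) ?_).mono fun h h3 _ => h3
      intro h4
      exact hzw (hinj hz hw (sub_eq_zero.1 h4))
  have h3 : ∀ᶠ h : ℝ in 𝓝[>] 0, ∀ z ∈ S, ω z ≠ 0 → exp ((ω z * h : ℝ) * I) ≠ 1 := by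
    rw [Finset.eventually_all]
    intro z hz
    by_cases hz0 : ω z = 0
    · exact Eventually.of_forall fun h h3 => absurd hz0 h3
    · exact (h1 (ω z) hz0).mono fun h h3 _ => h3
  obtain ⟨h, h4, h5, h6⟩ := (h2.and (h3.and self_mem_nhdsWithin)).exists
  refine ⟨h, h6, fun z hz w hw hzw => ?_, fun z hz h7 => ?_⟩
  · by_contra hc
    apply h4 z hz w hw hc
    have h7 : exp ((ω z * h : ℝ) * I) = exp ((ω w * h : ℝ) * I) := hzw
    have h8 : (((ω z - ω w) * h : ℝ) : ℂ) * I = (ω z * h : ℝ) * I - (ω w * h : ℝ) * I := by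
      push_cast
      ring
    rw [h8, Complex.exp_sub, h7, div_self (Complex.exp_ne_zero _)]
  · by_contra hc
    exact h5 z hz hc h7

end Pool.Agent.D0H40.KX
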