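import Pool.Agent.D0H40.KX.Inv
import Pool.Agent.D0H40.GC.Law2

/-! The parameters and the geometry. -/

set_option autoImplicit false

namespace Pool.Agent.D0H40.KX

open Complex MeasureTheory Filter Topology Set
open Pool.Agent.D0H40.GC (zt zt_re zt_im pt pt_re pt_im)
open scoped ComplexConjugate

/-- the parameters: exponent `k`, direction `β`, slope `t`, turning angle `ψ` -/
structure Par (k β t ψ : ℝ) : Prop where
  hk : 1 < k
  hβ : |β| < ψ
  hψ : k * ψ < Real.pi / 2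
  ht : Real.cos ψ < t * Real.sin ψ
  ht2 : t * |Real.sin β| < Real.cos β

variable {k β t ψ : ℝ}

theorem Par.k0 (P : Par k β t ψ) : 0 < k := by linarith [P.hk]

theorem Par.ψ0 (P : Par k β t ψ) : 0 < ψ := (abs_nonneg _).trans_lt P.hβ

theorem Par.ψ2 (P : Par k β t ψ) : ψ < Real.pi / 2 := by
  have h1 := P.hψ
  have h2 : ψ < k * ψ := by
    have := mul_lt_mul_of_pos_right P.hk P.ψ0
    linarith
  linarith

theorem Par.sinψ (P : Par k β t ψ) : 0 < Real.sin ψ :=
  Real.sin_pos_of_pos_of_lt_pi P.ψ0 (by linarith [P.ψ2, Real.pi_pos])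

theorem Par.cosψ (P : Par k β t ψ) : 0 < Real.cos ψ :=
  Real.cos_pos_of_mem_Ioo ⟨by linarith [P.ψ0, Real.pi_pos], P.ψ2⟩

theorem Par.t0 (P : Par k β t ψ) : 0 < t := by
  have h1 := P.cosψ.trans P.ht
  by_contra hc
  push Not at hc
  have := mul_nonpos_of_nonpos_of_nonneg hc P.sinψ.le
  linarith

theorem Par.cosβ (P : Par k β t ψ) : 0 < Real.cos β :=
  (mul_nonneg P.t0.le (abs_nonneg _)).trans_lt P.ht2

theorem Par.kψ (P : Par k β t ψ) : |k * ψ| < Real.pi / 2 := by
  rw [abs_of_pos (mul_pos P.k0 P.ψ0)]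
  exact P.hψ

theorem Par.kψ' (P : Par k β t ψ) : |k * (-ψ)| < Real.pi / 2 := by
  rw [mul_neg, abs_neg]
  exact P.kψ

theorem Par.kβ (P : Par k β t ψ) : |k * β| < Real.pi / 2 := by
  rw [abs_mul, abs_of_pos P.k0]
  have h1 := mul_lt_mul_of_pos_left P.hβ P.k0
  linarith [P.hψ]

/-- the direction -/
noncomputable def dl (β : ℝ) : ℂ := exp (β * I)

theorem dl_re (β : ℝ) : (dl β).re = Real.cos β := Complex.exp_ofReal_mul_I_re β

theorem dl_im (β : ℝ) : (dl β).im = Real.sin β := Complex.exp_ofReal_mul_I_im β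

theorem dl_norm (β : ℝ) : ‖dl β‖ = 1 := Complex.norm_exp_ofReal_mul_I β

theorem dl_ne (β : ℝ) : dl β ≠ 0 := Complex.exp_ne_zero _

theorem conj_dl (β : ℝ) : conj (dl β) = dl (-β) := by
  unfold dl
  rw [← Complex.exp_conj]
  congr 1
  simp

theorem dl_mul_conj (β : ℝ) : dl β * conj (dl β) = 1 := by
  rw [conj_dl]
  unfold dl
  rw [← Complex.exp_add]
  simp

theorem mul_zt (β y : ℝ) : dl β * zt (dl β) y = 3 + y * I := by
  unfold zt
  rw [← mul_assoc, dl_mul_conj, one_mul]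

theorem Par.den1 (P : Par k β t ψ) : 0 < Real.cos β + t * Real.sin β := by
  have h1 := P.ht2
  have h2 : -(t * Real.sin β) ≤ t * |Real.sin β| := by
    rw [← mul_neg]
    exact mul_le_mul_of_nonneg_left (neg_le_abs _) P.t0.le
  linarith

theorem Par.den2 (P : Par k β t ψ) : 0 < Real.cos β - t * Real.sin β := by
  have h1 := P.ht2
  have h2 : t * Real.sin β ≤ t * |Real.sin β| := mul_le_mul_of_nonneg_left (le_abs_self _) P.t0.le
  linarith

/-- the end points -/
noncomputable def X2 (β t : ℝ) : ℝ := 3 / (Real.cos β - t * Real.sin β)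

noncomputable def X1 (β t : ℝ) : ℝ := 3 / (Real.cos β + t * Real.sin β)

noncomputable def Y2 (β t : ℝ) : ℝ := X2 β t * (Real.sin β + t * Real.cos β)

noncomputable def Y1 (β t : ℝ) : ℝ := X1 β t * (Real.sin β - t * Real.cos β)

theorem Par.X2pos (P : Par k β t ψ) : 0 < X2 β t := div_pos (by norm_num) P.den2

theorem Par.X1pos (P : Par k β t ψ) : 0 < X1 β t := div_pos (by norm_num) P.den1

theorem Par.zY2 (P : Par k β t ψ) : zt (dl β) (Y2 β t) = pt (X2 β t) t := by
  have h1 := P.den2.ne'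
  have h2 := Real.sin_sq_add_cos_sq β
  apply Complex.ext
  · rw [zt_re, pt_re, dl_re, dl_im]
    unfold Y2 X2
    field_simp
    linear_combination h2
  · rw [zt_im, pt_im, dl_re, dl_im]
    unfold Y2 X2
    field_simp
    linear_combination t * h2

theorem Par.zY1 (P : Par k β t ψ) : zt (dl β) (Y1 β t) = pt (X1 β t) (-t) := by
  have h1 := P.den1.ne'
  have h2 := Real.sin_sq_add_cos_sq β
  apply Complex.ext
  · rw [zt_re, pt_re, dl_re, dl_im]
    unfold Y1 X1
    field_simp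
    linear_combination h2
  · rw [zt_im, pt_im, dl_re, dl_im]
    unfold Y1 X1
    field_simp
    linear_combination (-t) * h2

theorem Par.Y12 (P : Par k β t ψ) : Y1 β t < Y2 β t := by
  have h1 := P.den1
  have h2 := P.den2
  have h3 := Real.sin_sq_add_cos_sq β
  have e : Y2 β t - Y1 β t = 6 * t / ((Real.cos β - t * Real.sin β) * (Real.cos β + t * Real.sin β)) := by
    unfold Y1 Y2 X1 X2
    rw [div_mul_eq_mul_div, div_mul_eq_mul_div, div_sub_div _ _ h2.ne' h1.ne']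
    congr 1
    linear_combination (6 * t) * h3
  have h4 : 0 < 6 * t / ((Real.cos β - t * Real.sin β) * (Real.cos β + t * Real.sin β)) := by
    have := P.t0
    positivity
  linarith

/-- the turned point above -/
theorem turn_up (β ψ y : ℝ) : (zt (dl β) y * exp (ψ * I)).re =
    3 * Real.cos (ψ - β) - y * Real.sin (ψ - β) := by
  have e : zt (dl β) y * exp (ψ * I) = (3 + y * I) * exp ((ψ - β : ℝ) * I) := by
    unfold zt
    rw [conj_dl]
    unfold dl
    rw [mul_comm (exp _) (3 + (y : ℂ) * I), mul_assoc, ← Complex.exp_add]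
    congr 2
    push_cast
    ring
  rw [e, Complex.mul_re, Complex.exp_ofReal_mul_I_re, Complex.exp_ofReal_mul_I_im]
  simp

theorem pt_turn (x u ψ : ℝ) : (pt x u * exp (ψ * I)).re = x * (Real.cos ψ - u * Real.sin ψ) := by
  rw [Complex.mul_re, Complex.exp_ofReal_mul_I_re, Complex.exp_ofReal_mul_I_im, pt_re, pt_im]
  ring

/-- the linear lower bound in the tails -/
theorem Par.tail_up (P : Par k β t ψ) : ∃ c : ℝ, 0 < c ∧ ∀ y : ℝ, Y2 β t < y →
    (zt (dl β) y * exp (ψ * I)).re ≤ -(c * (1 + |y|)) := by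
  have hx := P.X2pos
  set c₁ : ℝ := X2 β t * (t * Real.sin ψ - Real.cos ψ) with hc₁
  have hc10 : 0 < c₁ := mul_pos hx (by linarith [P.ht])
  set c₂ : ℝ := Real.sin (ψ - β) with hc₂
  have hβ := abs_lt.1 P.hβ
  have hc20 : 0 < c₂ := by
    refine Real.sin_pos_of_pos_of_lt_pi (by linarith [hβ.2]) ?_
    have := P.ψ2
    linarith [hβ.1]
  have hat : 3 * Real.cos (ψ - β) - Y2 β t * Real.sin (ψ - β) = -c₁ := by
    rw [← turn_up, P.zY2, pt_turn, hc₁]
    ring
  set A : ℝ := (1 + |Y2 β t|) / c₁ + 1 / c₂ with hA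
  have hA0 : 0 < A := by positivity
  refine ⟨1 / A, by positivity, fun y hy => ?_⟩
  rw [turn_up]
  have h1 : 3 * Real.cos (ψ - β) - y * Real.sin (ψ - β) = -(c₁ + c₂ * (y - Y2 β t)) := by
    rw [← hc₂] at hat ⊢
    linear_combination hat
  rw [h1, neg_le_neg_iff, one_div, inv_mul_le_iff₀ hA0]
  set q : ℝ := c₁ + c₂ * (y - Y2 β t) with hq
  have hyy : 0 ≤ y - Y2 β t := by linarith
  have hq1 : c₁ ≤ q := by
    rw [hq]
    have := mul_nonneg hc20.le hyy
    linarith
  have h2 : 1 + |Y2 β t| ≤ (1 + |Y2 β t|) / c₁ * q := by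
    rw [div_mul_eq_mul_div, le_div_iff₀ hc10]
    exact mul_le_mul_of_nonneg_left hq1 (by positivity)
  have h3 : y - Y2 β t ≤ 1 / c₂ * q := by
    rw [one_div, ← div_eq_inv_mul, le_div_iff₀ hc20, hq]
    linarith
  have h4 : |y| ≤ |Y2 β t| + (y - Y2 β t) := by
    have := abs_add_le (Y2 β t) (y - Y2 β t)
    rw [add_sub_cancel, abs_of_nonneg hyy] at this
    exact this
  calc 1 + |y| ≤ (1 + |Y2 β t|) + (y - Y2 β t) := by linarith
    _ ≤ (1 + |Y2 β t|) / c₁ * q + 1 / c₂ * q := add_le_add h2 h3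
    _ = A * q := by rw [hA]; ring

theorem Par.tail_down (P : Par k β t ψ) : ∃ c : ℝ, 0 < c ∧ ∀ y : ℝ, y < Y1 β t →
    (zt (dl β) y * exp ((-ψ : ℝ) * I)).re ≤ -(c * (1 + |y|)) := by
  have hx := P.X1pos
  set c₁ : ℝ := X1 β t * (t * Real.sin ψ - Real.cos ψ) with hc₁
  have hc10 : 0 < c₁ := mul_pos hx (by linarith [P.ht])
  set c₂ : ℝ := Real.sin (ψ + β) with hc₂
  have hβ := abs_lt.1 P.hβ
  have hc20 : 0 < c₂ := by
    refine Real.sin_pos_of_pos_of_lt_pi (by linarith [hβ.1]) ?_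
    have := P.ψ2
    linarith [hβ.2]
  have hsin : Real.sin (-ψ - β) = -c₂ := by
    rw [hc₂, ← Real.sin_neg]
    congr 1
    ring
  have hat : 3 * Real.cos (-ψ - β) - Y1 β t * Real.sin (-ψ - β) = -c₁ := by
    rw [← turn_up, P.zY1, pt_turn, hc₁, Real.cos_neg, Real.sin_neg]
    ring
  set A : ℝ := (1 + |Y1 β t|) / c₁ + 1 / c₂ with hA
  have hA0 : 0 < A := by positivity
  refine ⟨1 / A, by positivity, fun y hy => ?_⟩
  rw [turn_up]
  have h1 : 3 * Real.cos (-ψ - β) - y * Real.sin (-ψ - β) = -(c₁ + c₂ * (Y1 β t - y)) := by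
    rw [hsin] at hat ⊢
    linear_combination hat
  rw [h1, neg_le_neg_iff, one_div, inv_mul_le_iff₀ hA0]
  set q : ℝ := c₁ + c₂ * (Y1 β t - y) with hq
  have hyy : 0 ≤ Y1 β t - y := by linarith
  have hq1 : c₁ ≤ q := by
    rw [hq]
    have := mul_nonneg hc20.le hyy
    linarith
  have h2 : 1 + |Y1 β t| ≤ (1 + |Y1 β t|) / c₁ * q := by
    rw [div_mul_eq_mul_div, le_div_iff₀ hc10]
    exact mul_le_mul_of_nonneg_left hq1 (by positivity)
  have h3 : Y1 β t - y ≤ 1 / c₂ * q := by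
    rw [one_div, ← div_eq_inv_mul, le_div_iff₀ hc20, hq]
    linarith
  have h4 : |y| ≤ |Y1 β t| + (Y1 β t - y) := by
    have := abs_sub (Y1 β t) (Y1 β t - y)
    rw [sub_sub_cancel, abs_of_nonneg hyy] at this
    exact this
  calc 1 + |y| ≤ (1 + |Y1 β t|) + (Y1 β t - y) := by linarith
    _ ≤ (1 + |Y1 β t|) / c₁ * q + 1 / c₂ * q := add_le_add h2 h3
    _ = A * q := by rw [hA]; ring

end Pool.Agent.D0H40.KX
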