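import Mathlib

/-! Turning the line of integration for kernels `exp (-s u^k)`, `k > 1`. -/

set_option autoImplicit false

namespace Pool.Agent.D0H40.KX

open Complex MeasureTheory Filter Topology Set

theorem pow_dom {k : ℝ} (hk : 1 < k) {c : ℝ} (hc : 0 < c) (A : ℝ) :
    ∃ M : ℝ, ∀ u : ℝ, 0 ≤ u → A * u - c * u ^ k ≤ M - u := by
  set u₀ : ℝ := ((|A| + 1) / c) ^ (1 / (k - 1)) with hu₀
  have hb : 0 ≤ (|A| + 1) / c := by positivity
  have hu₀0 : 0 ≤ u₀ := Real.rpow_nonneg hb _
  refine ⟨(|A| + 1) * u₀, fun u hu => ?_⟩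
  have hA : A * u ≤ |A| * u := mul_le_mul_of_nonneg_right (le_abs_self A) hu
  rcases le_total u u₀ with h | h
  · have h1 : (|A| + 1) * u ≤ (|A| + 1) * u₀ := by gcongr
    have h2 : 0 ≤ c * u ^ k := by positivity
    linarith
  · rcases hu.eq_or_lt with h0 | h0
    · rw [← h0] at h ⊢
      have h2 : 0 ≤ c * (0:ℝ) ^ k := by positivity
      have h3 : 0 ≤ (|A| + 1) * u₀ := by positivity
      linarith
    · have h1 : (|A| + 1) / c ≤ u ^ (k - 1) := by
        have h2 : u₀ ^ (k - 1) ≤ u ^ (k - 1) := Real.rpow_le_rpow hu₀0 h (by linarith)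
        rw [hu₀, ← Real.rpow_mul hb, one_div, inv_mul_cancel₀ (by linarith), Real.rpow_one] at h2
        exact h2
      have h3 : |A| + 1 ≤ c * u ^ (k - 1) := by
        rw [div_le_iff₀ hc] at h1
        linarith
      have h4 : (|A| + 1) * u ≤ c * u ^ k := by
        have e : u ^ k = u ^ (k - 1) * u := by
          rw [← Real.rpow_add_one h0.ne']
          congr 1
          ring
        rw [e, ← mul_assoc]
        exact mul_le_mul_of_nonneg_right h3 hu
      have h5 : 0 ≤ (|A| + 1) * u₀ := by positivity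
      linarith

theorem int_dom {k : ℝ} (hk : 1 < k) {c : ℝ} (hc : 0 < c) (A : ℝ) :
    IntegrableOn (fun u : ℝ => Real.exp (A * u - c * u ^ k)) (Ioi 0) := by
  obtain ⟨M, hM⟩ := pow_dom hk hc A
  have h1 : IntegrableOn (fun u : ℝ => Real.exp M * Real.exp (-1 * u)) (Ioi 0) := by
    have := integrableOn_exp_mul_Ioi (a := (-1:ℝ)) (by norm_num) 0
    exact this.const_mul _
  refine h1.mono' ?_ ?_
  · refine (Measurable.aestronglyMeasurable ?_)
    fun_prop
  · refine (ae_restrict_iff' measurableSet_Ioi).2 (Eventually.of_forall fun u hu => ?_)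
    have hu0 : 0 < u := hu
    rw [Real.norm_eq_abs, abs_of_pos (Real.exp_pos _), ← Real.exp_add]
    apply Real.exp_le_exp.2
    have := hM u hu0.le
    linarith

theorem exp_dom_tendsto {k : ℝ} (hk : 1 < k) {c : ℝ} (hc : 0 < c) (A : ℝ) :
    Tendsto (fun u : ℝ => Real.exp (A * u - c * u ^ k)) atTop (𝓝 0) := by
  obtain ⟨M, hM⟩ := pow_dom hk hc A
  have h1 : Tendsto (fun u : ℝ => Real.exp (M - u)) atTop (𝓝 0) := by
    refine Real.tendsto_exp_atBot.comp ?_
    exact tendsto_atBot_add_const_left _ M tendsto_neg_atTop_atBot |>.congr fun u => by ring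
  refine squeeze_zero' (Eventually.of_forall fun u => (Real.exp_pos _).le) ?_ h1
  filter_upwards [eventually_ge_atTop 0] with u hu
  exact Real.exp_le_exp.2 (hM u hu)

/-- the factor `exp (-κ u^k)` -/
noncomputable def EE (k : ℝ) (κ : ℂ) (u : ℝ) : ℂ := exp (-(κ * ((u ^ k : ℝ) : ℂ)))

theorem EE_norm (k : ℝ) (κ : ℂ) (u : ℝ) : ‖EE k κ u‖ = Real.exp (-(κ.re * u ^ k)) := by
  unfold EE
  rw [Complex.norm_exp, Complex.neg_re, Complex.re_mul_ofReal]

theorem EE_meas (k : ℝ) (κ : ℂ) : Measurable (EE k κ) := by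
  unfold EE
  fun_prop

theorem exp_I_re (x : ℝ) : (exp (x * I)).re = Real.cos x := Complex.exp_ofReal_mul_I_re x

theorem norm_exp_I (x : ℝ) : ‖exp (x * I)‖ = 1 := Complex.norm_exp_ofReal_mul_I x

/-- the turned integrand -/
noncomputable def gr (k α : ℝ) (h : ℂ → ℂ) (ψ u : ℝ) : ℂ :=
  exp (ψ * I) * h (exp (ψ * I) * u) * EE k (exp ((α + k * ψ : ℝ) * I)) u

/-- its derivative in `ψ` -/
noncomputable def gr' (k α : ℝ) (h : ℂ → ℂ) (ψ u : ℝ) : ℂ :=
  I * (exp (ψ * I) * h (exp (ψ * I) * u) * EE k (exp ((α + k * ψ : ℝ) * I)) u +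
    exp (ψ * I) * (deriv h (exp (ψ * I) * u) * (exp (ψ * I) * u)) * EE k (exp ((α + k * ψ : ℝ) * I)) u -
    exp (ψ * I) * h (exp (ψ * I) * u) * (exp ((α + k * ψ : ℝ) * I) * (k * (u ^ k : ℝ))) *
      EE k (exp ((α + k * ψ : ℝ) * I)) u)

variable {k α c C : ℝ} {h : ℂ → ℂ}

theorem gr_hasDeriv (hh : Differentiable ℂ h) (ψ u : ℝ) :
    HasDerivAt (fun ψ : ℝ => gr k α h ψ u) (gr' k α h ψ u) ψ := by
  have h1 : HasDerivAt (fun ψ : ℝ => exp ((ψ : ℂ) * I)) (exp (ψ * I) * I) ψ := by
    have := ((hasDerivAt_id ψ).ofReal_comp.mul_const I).cexp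
    simpa using this
  have h2 : HasDerivAt (fun ψ : ℝ => exp ((ψ : ℂ) * I) * u) (exp (ψ * I) * I * u) ψ := h1.mul_const _
  have h3 : HasDerivAt (fun ψ : ℝ => h (exp ((ψ : ℂ) * I) * u))
      (deriv h (exp (ψ * I) * u) * (exp (ψ * I) * I * u)) ψ :=
    ((hh _).hasDerivAt).comp ψ h2
  have h4 : HasDerivAt (fun ψ : ℝ => exp (((α + k * ψ : ℝ) : ℂ) * I))
      (exp ((α + k * ψ : ℝ) * I) * (k * I)) ψ := by
    have h5 : HasDerivAt (fun ψ : ℝ => α + k * ψ) k ψ := by
      simpa using ((hasDerivAt_id ψ).const_mul k).const_add α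
    have := (h5.ofReal_comp.mul_const I).cexp
    simpa using this
  have h6 : HasDerivAt (fun ψ : ℝ => EE k (exp (((α + k * ψ : ℝ) : ℂ) * I)) u)
      (EE k (exp ((α + k * ψ : ℝ) * I)) u * -(exp ((α + k * ψ : ℝ) * I) * (k * I) * (u ^ k : ℝ))) ψ := by
    unfold EE
    exact (h4.mul_const _).fun_neg.cexp
  have h7 := (h1.mul h3).mul h6
  refine h7.congr_deriv ?_
  unfold gr'
  simp only [Pi.mul_apply]
  ring

/-- derivative in `u` -/
theorem gr_u (hh : Differentiable ℂ h) (ψ : ℝ) {u : ℝ} (hu : 0 < u) :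
    HasDerivAt (fun u : ℝ => I * (u * gr k α h ψ u)) (gr' k α h ψ u) u := by
  have h1 : HasDerivAt (fun u : ℝ => (u : ℂ)) 1 u := by
    simpa using (hasDerivAt_id u).ofReal_comp
  have h2 : HasDerivAt (fun u : ℝ => exp (ψ * I) * (u : ℂ)) (exp (ψ * I)) u := by
    simpa using h1.const_mul (exp (ψ * I))
  have h3 : HasDerivAt (fun u : ℝ => h (exp (ψ * I) * (u : ℂ)))
      (deriv h (exp (ψ * I) * u) * exp (ψ * I)) u := ((hh _).hasDerivAt).comp u h2
  have h4 : HasDerivAt (fun u : ℝ => ((u ^ k : ℝ) : ℂ)) ((k * u ^ (k - 1) : ℝ) : ℂ) u :=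
    (Real.hasDerivAt_rpow_const (Or.inl hu.ne')).ofReal_comp
  have h5 : HasDerivAt (fun u : ℝ => EE k (exp ((α + k * ψ : ℝ) * I)) u)
      (EE k (exp ((α + k * ψ : ℝ) * I)) u *
        -(exp ((α + k * ψ : ℝ) * I) * ((k * u ^ (k - 1) : ℝ) : ℂ))) u := by
    unfold EE
    exact (h4.const_mul _).fun_neg.cexp
  have h6 := (h1.mul ((h3.const_mul (exp (ψ * I))).mul h5)).const_mul I
  refine h6.congr_deriv ?_
  unfold gr'
  have e : ((u ^ k : ℝ) : ℂ) = ((u ^ (k - 1) : ℝ) : ℂ) * u := by
    rw [← Complex.ofReal_mul, ← Real.rpow_add_one hu.ne']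
    congr 2
    ring
  rw [e]
  simp only [Pi.mul_apply]
  push_cast
  ring

theorem deriv_bound (hh : Differentiable ℂ h) (hC : ∀ v : ℂ, ‖h v‖ ≤ C * Real.exp (c * ‖v‖))
    (hc : 0 ≤ c) (v : ℂ) : ‖deriv h v‖ ≤ (C * Real.exp c) * Real.exp (c * ‖v‖) := by
  have hC0 : 0 ≤ C := by
    have := (norm_nonneg _).trans (hC 0)
    simpa using this
  have h1 := Complex.norm_deriv_le_of_forall_mem_sphere_norm_le (c := v) (R := 1)
    (C := C * Real.exp c * Real.exp (c * ‖v‖)) (f := h) one_pos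
    (hh.diffContOnCl) (fun w hw => by
      refine (hC w).trans ?_
      have h2 : ‖w‖ ≤ ‖v‖ + 1 := by
        have : ‖w - v‖ = 1 := by
          rw [mem_sphere_iff_norm] at hw
          exact hw
        have h3 := norm_le_norm_add_norm_sub' w v
        rw [norm_sub_rev] at h3
        have h4 : ‖w‖ ≤ ‖v‖ + ‖w - v‖ := by
          have := norm_add_le v (w - v)
          rwa [add_sub_cancel] at this
        linarith
      calc C * Real.exp (c * ‖w‖) ≤ C * Real.exp (c * (‖v‖ + 1)) := by gcongr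
        _ = C * Real.exp c * Real.exp (c * ‖v‖) := by
          rw [mul_assoc, ← Real.exp_add]
          congr 2
          ring)
  simpa using h1

theorem gr_norm_le (hC : ∀ v : ℂ, ‖h v‖ ≤ C * Real.exp (c * ‖v‖)) {c₀ ψ : ℝ}
    (hc0 : c₀ ≤ Real.cos (α + k * ψ)) {u : ℝ} (hu : 0 < u) :
    ‖gr k α h ψ u‖ ≤ C * Real.exp (c * u - c₀ * u ^ k) := by
  unfold gr
  rw [norm_mul, norm_mul, norm_exp_I, one_mul, EE_norm, exp_I_re]
  have hv : ‖exp (ψ * I) * (u : ℂ)‖ = u := by
    rw [norm_mul, norm_exp_I, one_mul, Complex.norm_real, Real.norm_eq_abs, abs_of_pos hu]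
  have h1 := hC (exp (ψ * I) * u)
  rw [hv] at h1
  have hC0 : 0 ≤ C := by
    have := (norm_nonneg _).trans (hC 0)
    simpa using this
  have h2 : Real.exp (-(Real.cos (α + k * ψ) * u ^ k)) ≤ Real.exp (-(c₀ * u ^ k)) := by
    apply Real.exp_le_exp.2
    have : c₀ * u ^ k ≤ Real.cos (α + k * ψ) * u ^ k := by gcongr
    linarith
  calc ‖h (exp (ψ * I) * u)‖ * Real.exp (-(Real.cos (α + k * ψ) * u ^ k)) ≤
      (C * Real.exp (c * u)) * Real.exp (-(c₀ * u ^ k)) := by gcongr
    _ = _ := by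
      rw [mul_assoc, ← Real.exp_add, ← sub_eq_add_neg]

theorem gr'_norm_le (hk : 1 < k) (hh : Differentiable ℂ h)
    (hC : ∀ v : ℂ, ‖h v‖ ≤ C * Real.exp (c * ‖v‖)) (hc : 0 ≤ c) {c₀ ψ : ℝ} (hc00 : 0 < c₀)
    (hc0 : c₀ ≤ Real.cos (α + k * ψ)) {u : ℝ} (hu : 0 < u) :
    ‖gr' k α h ψ u‖ ≤ (C + C * Real.exp c + C * k * (2 / c₀)) *
      Real.exp ((c + 1) * u - (c₀ / 2) * u ^ k) := by
  have hv : ‖exp (ψ * I) * (u : ℂ)‖ = u := by
    rw [norm_mul, norm_exp_I, one_mul, Complex.norm_real, Real.norm_eq_abs, abs_of_pos hu]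
  have hC0 : 0 ≤ C := by
    have := (norm_nonneg _).trans (hC 0)
    simpa using this
  have h1 := hC (exp (ψ * I) * u)
  rw [hv] at h1
  have h1' := deriv_bound hh hC hc (exp (ψ * I) * u)
  rw [hv] at h1'
  set E : ℝ := ‖EE k (exp ((α + k * ψ : ℝ) * I)) u‖ with hE
  have hE1 : E ≤ Real.exp (-(c₀ * u ^ k)) := by
    rw [hE, EE_norm, exp_I_re]
    apply Real.exp_le_exp.2
    have : c₀ * u ^ k ≤ Real.cos (α + k * ψ) * u ^ k := by gcongr
    linarith
  have hE0 : 0 ≤ E := norm_nonneg _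
  have huk : 0 ≤ u ^ k := by positivity
  have hu1 : u ≤ Real.exp u := by
    have := Real.add_one_le_exp u
    linarith
  have h1u : 1 ≤ Real.exp u := Real.one_le_exp hu.le
  have hhalf : Real.exp (-(c₀ * u ^ k)) ≤ Real.exp (-(c₀ / 2 * u ^ k)) := by
    apply Real.exp_le_exp.2
    have : 0 ≤ c₀ / 2 * u ^ k := by positivity
    linarith
  have hpk : u ^ k * Real.exp (-(c₀ * u ^ k)) ≤ 2 / c₀ * Real.exp (-(c₀ / 2 * u ^ k)) := by
    have h2 : c₀ / 2 * u ^ k ≤ Real.exp (c₀ / 2 * u ^ k) := by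
      have := Real.add_one_le_exp (c₀ / 2 * u ^ k)
      linarith
    have h3 : Real.exp (-(c₀ * u ^ k)) = Real.exp (-(c₀ / 2 * u ^ k)) * Real.exp (-(c₀ / 2 * u ^ k)) := by
      rw [← Real.exp_add]
      congr 1
      ring
    have h4 : u ^ k * Real.exp (-(c₀ / 2 * u ^ k)) ≤ 2 / c₀ := by
      rw [Real.exp_neg, ← div_eq_mul_inv, div_le_div_iff₀ (Real.exp_pos _) hc00]
      linarith
    rw [h3, ← mul_assoc]
    exact mul_le_mul_of_nonneg_right h4 (Real.exp_pos _).le
  set X : ℝ := Real.exp ((c + 1) * u - (c₀ / 2) * u ^ k) with hX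
  have hXe : X = Real.exp (c * u) * Real.exp u * Real.exp (-(c₀ / 2 * u ^ k)) := by
    rw [hX, ← Real.exp_add, ← Real.exp_add]
    congr 1
    ring
  have t1 : ‖exp (ψ * I) * h (exp (ψ * I) * u) * EE k (exp ((α + k * ψ : ℝ) * I)) u‖ ≤ C * X := by
    rw [norm_mul, norm_mul, norm_exp_I, one_mul, ← hE]
    calc ‖h (exp (ψ * I) * u)‖ * E ≤ (C * Real.exp (c * u)) * Real.exp (-(c₀ / 2 * u ^ k)) := by
          gcongr
          exact hE1.trans hhalf
      _ ≤ (C * Real.exp (c * u)) * Real.exp (-(c₀ / 2 * u ^ k)) * Real.exp u :=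
          le_mul_of_one_le_right (by positivity) h1u
      _ = C * X := by rw [hXe]; ring
  have t2 : ‖exp (ψ * I) * (deriv h (exp (ψ * I) * u) * (exp (ψ * I) * u)) *
      EE k (exp ((α + k * ψ : ℝ) * I)) u‖ ≤ C * Real.exp c * X := by
    rw [norm_mul, norm_mul, norm_exp_I, one_mul, norm_mul, hv, ← hE]
    calc ‖deriv h (exp (ψ * I) * u)‖ * u * E ≤
        (C * Real.exp c * Real.exp (c * u)) * Real.exp u * Real.exp (-(c₀ / 2 * u ^ k)) := by
          gcongr
          exact hE1.trans hhalf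
      _ = C * Real.exp c * X := by rw [hXe]; ring
  have t3 : ‖exp (ψ * I) * h (exp (ψ * I) * u) * (exp ((α + k * ψ : ℝ) * I) * (k * (u ^ k : ℝ))) *
      EE k (exp ((α + k * ψ : ℝ) * I)) u‖ ≤ C * k * (2 / c₀) * X := by
    rw [norm_mul, norm_mul, norm_mul, norm_exp_I, one_mul, norm_mul, norm_exp_I, one_mul, norm_mul,
      Complex.norm_real, Complex.norm_real, Real.norm_eq_abs, Real.norm_eq_abs,
      abs_of_pos (by linarith : 0 < k), abs_of_nonneg huk, ← hE]
    calc ‖h (exp (ψ * I) * u)‖ * (k * u ^ k) * E ≤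
        (C * Real.exp (c * u)) * (k * u ^ k) * Real.exp (-(c₀ * u ^ k)) := by gcongr
      _ = C * k * Real.exp (c * u) * (u ^ k * Real.exp (-(c₀ * u ^ k))) := by ring
      _ ≤ C * k * Real.exp (c * u) * (2 / c₀ * Real.exp (-(c₀ / 2 * u ^ k))) := by gcongr
      _ ≤ C * k * Real.exp (c * u) * (2 / c₀ * Real.exp (-(c₀ / 2 * u ^ k))) * Real.exp u :=
          le_mul_of_one_le_right (by positivity) h1u
      _ = C * k * (2 / c₀) * X := by rw [hXe]; ring
  unfold gr'
  rw [norm_mul, Complex.norm_I, one_mul]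
  calc _ ≤ C * X + C * Real.exp c * X + C * k * (2 / c₀) * X :=
        (norm_sub_le _ _).trans (add_le_add ((norm_add_le _ _).trans (add_le_add t1 t2)) t3)
    _ = _ := by ring

theorem gr_int (hk : 1 < k) (hh : Differentiable ℂ h)
    (hC : ∀ v : ℂ, ‖h v‖ ≤ C * Real.exp (c * ‖v‖)) {ψ : ℝ} (hψ : 0 < Real.cos (α + k * ψ)) :
    IntegrableOn (gr k α h ψ) (Ioi 0) := by
  refine Integrable.mono' ((int_dom hk hψ c).const_mul C) ?_ ?_
  · refine (Measurable.aestronglyMeasurable ?_)
    unfold gr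
    exact (((hh.continuous.comp (by fun_prop)).measurable.const_mul _)).mul (EE_meas _ _)
  · refine (ae_restrict_iff' measurableSet_Ioi).2 (Eventually.of_forall fun u hu => ?_)
    exact gr_norm_le hC le_rfl hu

/-- **Turning the line of integration.** -/
theorem rot (hk : 1 < k) (hh : Differentiable ℂ h)
    (hC : ∀ v : ℂ, ‖h v‖ ≤ C * Real.exp (c * ‖v‖)) (hc : 0 ≤ c) (hα : |α| < Real.pi / 2) {ψ : ℝ}
    (hψ : |α + k * ψ| < Real.pi / 2) :
    ∫ u in Ioi (0:ℝ), h u * EE k (exp (α * I)) u =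
      ∫ u in Ioi (0:ℝ), exp (ψ * I) * h (exp (ψ * I) * u) * EE k (exp ((α + k * ψ : ℝ) * I)) u := by
  have hk0 : 0 < k := by linarith
  set S : Set ℝ := {ψ | |α + k * ψ| < Real.pi / 2} with hS
  have hSo : IsOpen S := isOpen_lt (by fun_prop) continuous_const
  have hSp : IsPreconnected S := by
    refine Convex.isPreconnected ?_
    intro x hx y hy s t hs ht hst
    have hx' := abs_lt.1 (show |α + k * x| < Real.pi / 2 from hx)
    have hy' := abs_lt.1 (show |α + k * y| < Real.pi / 2 from hy)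
    show |α + k * (s • x + t • y)| < Real.pi / 2
    have e : α + k * (s • x + t • y) = s * (α + k * x) + t * (α + k * y) := by
      simp only [smul_eq_mul]
      have : α = (s + t) * α := by rw [hst, one_mul]
      linear_combination this
    rw [e, abs_lt]
    rcases hs.eq_or_lt with h0 | h0
    · have ht1 : t = 1 := by linarith
      rw [← h0, ht1]
      constructor <;> linarith [hy'.1, hy'.2]
    · constructor
      · have h1 : s * (-(Real.pi / 2)) < s * (α + k * x) := mul_lt_mul_of_pos_left hx'.1 h0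
        have h2 : t * (-(Real.pi / 2)) ≤ t * (α + k * y) := mul_le_mul_of_nonneg_left hy'.1.le ht
        have h3 : s * (-(Real.pi / 2)) + t * (-(Real.pi / 2)) = -(Real.pi / 2) := by
          rw [← add_mul, hst, one_mul]
        linarith
      · have h1 : s * (α + k * x) < s * (Real.pi / 2) := mul_lt_mul_of_pos_left hx'.2 h0
        have h2 : t * (α + k * y) ≤ t * (Real.pi / 2) := mul_le_mul_of_nonneg_left hy'.2.le ht
        have h3 : s * (Real.pi / 2) + t * (Real.pi / 2) = Real.pi / 2 := by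
          rw [← add_mul, hst, one_mul]
        linarith
  have hcos : ∀ ψ ∈ S, 0 < Real.cos (α + k * ψ) := by
    intro ψ hψ
    have := abs_lt.1 (show |α + k * ψ| < Real.pi / 2 from hψ)
    exact Real.cos_pos_of_mem_Ioo ⟨this.1, this.2⟩
  set J : ℝ → ℂ := fun ψ => ∫ u in Ioi (0:ℝ), gr k α h ψ u with hJ
  have hder : ∀ ψ ∈ S, HasDerivAt J 0 ψ := by
    intro ψ hψ
    have hcp := hcos ψ hψ
    set c₀ : ℝ := Real.cos (α + k * ψ) / 2 with hc₀
    have hc00 : 0 < c₀ := by positivity
    have hnh : {x : ℝ | c₀ < Real.cos (α + k * x)} ∈ 𝓝 ψ := by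
      refine (isOpen_lt continuous_const (by fun_prop)).mem_nhds ?_
      show c₀ < Real.cos (α + k * ψ)
      linarith
    have h1 := hasDerivAt_integral_of_dominated_loc_of_deriv_le (μ := volume.restrict (Ioi (0:ℝ)))
      (F := gr k α h) (F' := gr' k α h) (x₀ := ψ)
      (bound := fun u => (C + C * Real.exp c + C * k * (2 / c₀)) *
        Real.exp ((c + 1) * u - (c₀ / 2) * u ^ k)) hnh
      (Eventually.of_forall fun x => by
        refine (Measurable.aestronglyMeasurable ?_)
        unfold gr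
        exact (((hh.continuous.comp (by fun_prop)).measurable.const_mul _)).mul (EE_meas _ _))
      (gr_int hk hh hC hcp)
      (by
        refine (Measurable.aestronglyMeasurable ?_)
        unfold gr'
        have m1 : Measurable fun u : ℝ => h (exp (ψ * I) * u) :=
          (hh.continuous.comp (by fun_prop)).measurable
        have m2 : Measurable fun u : ℝ => deriv h (exp (ψ * I) * u) := by
          have : Continuous (deriv h) := (hh.contDiff (n := 1)).continuous_deriv (by norm_num)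
          exact (this.comp (by fun_prop)).measurable
        have m3 := EE_meas k (exp ((α + k * ψ : ℝ) * I))
        have m4 : Measurable fun u : ℝ => ((u ^ k : ℝ) : ℂ) := by fun_prop
        have m5 : Measurable fun u : ℝ => (u : ℂ) := by fun_prop
        exact ((((m1.const_mul _).mul m3).add (((m2.mul (m5.const_mul _)).const_mul _).mul m3)).sub
          (((m1.const_mul _).mul ((m4.const_mul _).const_mul _)).mul m3)).const_mul _)
      ((ae_restrict_iff' measurableSet_Ioi).2 (Eventually.of_forall fun u hu x hx =>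
        gr'_norm_le hk hh hC hc hc00 (le_of_lt hx) hu))
      ((int_dom hk (by positivity) (c + 1)).const_mul _)
      (Eventually.of_forall fun u x _ => gr_hasDeriv hh x u)
    have h2 : ∫ u in Ioi (0:ℝ), gr' k α h ψ u = 0 := by
      have h3 := integral_Ioi_of_hasDerivAt_of_tendsto (a := (0:ℝ)) (m := (0:ℂ))
        (f := fun u : ℝ => I * (u * gr k α h ψ u)) (f' := gr' k α h ψ) ?_
        (fun u hu => gr_u hh ψ hu) h1.1 ?_
      · rw [h3]
        simp
      · -- continuity at zero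
        have h4 : Tendsto (fun u : ℝ => I * ((u : ℂ) * gr k α h ψ u)) (𝓝[Ici 0] 0) (𝓝 0) := by
          rw [tendsto_zero_iff_norm_tendsto_zero]
          have h5 : Tendsto (fun u : ℝ => |u| * (C * Real.exp (c * |u|))) (𝓝[Ici 0] 0) (𝓝 0) := by
            have : Continuous fun u : ℝ => |u| * (C * Real.exp (c * |u|)) := by fun_prop
            have h6 := this.tendsto 0
            simp only [abs_zero, zero_mul] at h6
            exact h6.mono_left nhdsWithin_le_nhds
          refine squeeze_zero' (Eventually.of_forall fun u => norm_nonneg _) ?_ h5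
          filter_upwards [self_mem_nhdsWithin] with u hu
          have hu0 : 0 ≤ u := hu
          rw [norm_mul, Complex.norm_I, one_mul, norm_mul, Complex.norm_real, Real.norm_eq_abs]
          rcases hu0.eq_or_lt with h0 | h0
          · rw [← h0]
            simp
          · have h6 := gr_norm_le hC (c₀ := 0) (ψ := ψ) (α := α) (k := k) hcp.le h0
            have h7 : C * Real.exp (c * u - 0 * u ^ k) = C * Real.exp (c * |u|) := by
              rw [zero_mul, sub_zero, abs_of_pos h0]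
            rw [h7] at h6
            exact mul_le_mul_of_nonneg_left h6 (abs_nonneg _)
        unfold ContinuousWithinAt
        simpa using h4
      · rw [tendsto_zero_iff_norm_tendsto_zero]
        have h5 := (exp_dom_tendsto hk hcp (c + 1)).const_mul C
        rw [mul_zero] at h5
        refine squeeze_zero' (Eventually.of_forall fun u => norm_nonneg _) ?_ h5
        filter_upwards [eventually_gt_atTop 0] with u hu
        rw [norm_mul, Complex.norm_I, one_mul, norm_mul, Complex.norm_real, Real.norm_eq_abs,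
          abs_of_pos hu]
        have h6 := gr_norm_le hC (ψ := ψ) (α := α) (k := k) le_rfl hu
        have hu1 : u ≤ Real.exp u := by
          have := Real.add_one_le_exp u
          linarith
        calc u * ‖gr k α h ψ u‖ ≤ Real.exp u * (C * Real.exp (c * u - Real.cos (α + k * ψ) * u ^ k)) := by
              gcongr
          _ = C * Real.exp ((c + 1) * u - Real.cos (α + k * ψ) * u ^ k) := by
              rw [mul_left_comm, ← Real.exp_add]
              congr 2
              ring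
    have h3 := h1.2
    rw [h2] at h3
    exact h3
  have h0S : (0:ℝ) ∈ S := by
    show |α + k * 0| < Real.pi / 2
    rw [mul_zero, add_zero]
    exact hα
  have h1 := hSo.is_const_of_deriv_eq_zero hSp
    (fun x hx => (hder x hx).differentiableAt.differentiableWithinAt) (fun x hx => (hder x hx).deriv)
    h0S hψ
  have e1 : J 0 = ∫ u in Ioi (0:ℝ), h u * EE k (exp (α * I)) u := by
    rw [hJ]
    simp only [gr, Complex.ofReal_zero, zero_mul, Complex.exp_zero, one_mul, mul_zero, add_zero]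
  rw [← e1, h1]
  rfl

end Pool.Agent.D0H40.KX
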