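import Pool.Agent.D0H40.KX.KLaw
import Pool.Agent.D0H40.GC.Frul

/-! The weighted sums as integrals. -/

set_option autoImplicit false

namespace Pool.Agent.D0H40.KX

open Complex MeasureTheory Filter Topology Set
open Pool.Agent.W189.ML (ser)
open Pool.Agent.D0H40.GC (Dat Dat2 hb hb_le hb_meas frul int_exp_real slit_of_re norm_log_sub_le)
open scoped ComplexConjugate

variable {k β t ψ : ℝ} {lam c : ℕ → ℝ} {G Φ : ℂ → ℂ}

/-- the weighted sum -/
noncomputable def fk (lam c : ℕ → ℝ) (k : ℝ) (κ : ℂ) : ℂ := ∑' i, (c i : ℂ) * EE k κ (lam i)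

theorem term_norm (κ : ℂ) (i : ℕ) :
    ‖(c i : ℂ) * EE k κ (lam i)‖ = |c i| * Real.exp (-(κ.re * lam i ^ k)) := by
  rw [norm_mul, EE_norm, Complex.norm_real, Real.norm_eq_abs]

theorem fk_summable (D : Dat lam c G Φ) (hk : 1 < k) {κ : ℂ} (hκ : 0 < κ.re) :
    Summable fun i => ‖(c i : ℂ) * EE k κ (lam i)‖ := by
  obtain ⟨M, hM⟩ := pow_dom hk hκ 3
  refine Summable.of_nonneg_of_le (fun i => norm_nonneg _) (fun i => ?_) (D.sum.mul_left (Real.exp M))
  rw [term_norm]
  have h1 := hM (lam i) (D.lam_pos i)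
  have h2 : Real.exp (-(κ.re * lam i ^ k)) ≤ Real.exp M * Real.exp (-(2 * lam i)) := by
    rw [← Real.exp_add]
    apply Real.exp_le_exp.2
    have := D.lam_pos i
    linarith
  calc |c i| * Real.exp (-(κ.re * lam i ^ k)) ≤ |c i| * (Real.exp M * Real.exp (-(2 * lam i))) := by
        gcongr
    _ = _ := by ring

/-- the representation of the series -/
theorem rep_ser (P : Par k β t ψ) (D : Dat lam c G Φ) {ρ : ℝ} (hρ : 0 < ρ) :
    (1 / (2 * Real.pi) : ℝ) * ∫ y : ℝ, NN k (sk k β ρ) y * ser lam c (3 + y * I) =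
      fk lam c k (sk k β ρ) - ser lam c 4 := by
  have hN := NN_int P hρ
  set F : ℕ → ℝ → ℂ := fun i y =>
    (c i : ℂ) * (NN k (sk k β ρ) y * exp (-((3 + y * I) * lam i))) with hF
  have hn : ∀ i y, ‖F i y‖ = |c i| * Real.exp (-(3 * lam i)) * ‖NN k (sk k β ρ) y‖ := by
    intro i y
    rw [hF]
    simp only
    rw [norm_mul, norm_mul, Complex.norm_real, Real.norm_eq_abs, Complex.norm_exp (-(_ * _))]
    have : (-((3 + (y : ℂ) * I) * lam i)).re = -(3 * lam i) := by simp
    rw [this]
    ring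
  have hint : ∀ i, Integrable (F i) := fun i => by
    refine Integrable.const_mul ?_ _
    refine hN.mul_bdd (c := 1) ?_ (Eventually.of_forall fun y => ?_)
    · exact (by fun_prop : Continuous fun y : ℝ => exp (-((3 + y * I) * lam i))).aestronglyMeasurable
    · rw [Complex.norm_exp]
      apply Real.exp_le_one_iff.2
      have := D.lam_pos i
      have e : (-((3 + (y : ℂ) * I) * lam i)).re = -(3 * lam i) := by simp
      rw [e]
      linarith
  have hs : Summable fun i => ∫ y, ‖F i y‖ := by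
    simp only [hn, integral_const_mul]
    refine Summable.mul_right _ ?_
    refine Summable.of_nonneg_of_le (fun i => by positivity) (fun i => ?_) D.sum
    refine mul_le_mul_of_nonneg_left ?_ (abs_nonneg _)
    apply Real.exp_le_exp.2
    have := D.lam_pos i
    linarith
  have h := hasSum_integral_of_summable_integral_norm hint hs
  have e1 : ∀ y : ℝ, ∑' i, F i y = NN k (sk k β ρ) y * ser lam c (3 + y * I) := by
    intro y
    unfold ser
    rw [← tsum_mul_left]
    refine tsum_congr fun i => ?_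
    rw [hF]
    ring
  simp only [e1] at h
  have h2 := h.mul_left (((1 / (2 * Real.pi) : ℝ)) : ℂ)
  have e2 : ∀ i, ((1 / (2 * Real.pi) : ℝ) : ℂ) * ∫ y, F i y =
      (c i : ℂ) * EE k (sk k β ρ) (lam i) - (c i : ℂ) * exp (-(4 * (lam i : ℂ))) := by
    intro i
    rw [← mul_sub, inv_sk P hρ (D.lam_pos i), hF]
    simp only
    rw [integral_const_mul]
    ring
  simp only [e2] at h2
  rw [← h2.tsum_eq]
  have h3 : Summable fun i => (c i : ℂ) * EE k (sk k β ρ) (lam i) :=
    (fk_summable D P.hk (P.sk_pos hρ)).of_norm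
  have h4 : Summable fun i => (c i : ℂ) * exp (-(4 * (lam i : ℂ))) := by
    refine Summable.of_norm_bounded D.sum fun i => ?_
    rw [norm_mul, Complex.norm_real, Real.norm_eq_abs, Complex.norm_exp]
    refine mul_le_mul_of_nonneg_left ?_ (abs_nonneg _)
    apply Real.exp_le_exp.2
    have e : (-(4 * (lam i : ℂ))).re = -(4 * lam i) := by simp
    rw [e]
    have := D.lam_pos i
    linarith
  rw [h3.tsum_sub h4]
  rfl

/-- the contribution of a zero -/
noncomputable def Ak (k : ℝ) (b κ : ℂ) : ℂ := ∫ u in Ioi (0:ℝ), hb b u * EE k κ u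

theorem hbE_int (hk : 1 < k) (b : ℂ) {κ : ℂ} (hκ : 0 < κ.re) :
    IntegrableOn (fun u : ℝ => hb b u * EE k κ u) (Ioi 0) := by
  refine Integrable.mono' (g := fun u => ‖b‖ * Real.exp (|b.re| * u - κ.re * u ^ k))
    ((int_dom hk hκ _).const_mul _) ?_ ?_
  · exact ((hb_meas b).mul (EE_meas _ _)).aestronglyMeasurable
  · refine (ae_restrict_iff' measurableSet_Ioi).2 (Eventually.of_forall fun u hu => ?_)
    have hu0 : 0 < u := hu
    rw [norm_mul, EE_norm, sub_eq_add_neg, Real.exp_add, ← mul_assoc]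
    exact mul_le_mul_of_nonneg_right (hb_le (abs_nonneg _) (le_abs_self _) hu0) (Real.exp_pos _).le

theorem hb4_int {b : ℂ} (hb2 : b.re ≤ 2) :
    IntegrableOn (fun u : ℝ => hb b u * exp (-(4 * (u : ℂ)))) (Ioi 0) := by
  obtain ⟨i1, -⟩ := int_exp_real one_pos
  refine Integrable.mono' (g := fun u => ‖b‖ * Real.exp (-(1 * u))) (i1.const_mul _) ?_ ?_
  · have := hb_meas b
    exact (Measurable.aestronglyMeasurable (by fun_prop))
  · refine (ae_restrict_iff' measurableSet_Ioi).2 (Eventually.of_forall fun u hu => ?_)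
    have hu0 : 0 < u := hu
    have h1 := hb_le (by norm_num : (0:ℝ) ≤ 2) hb2 hu0
    rw [norm_mul, Complex.norm_exp]
    have e : (-(4 * (u : ℂ))).re = -(4 * u) := by simp
    rw [e]
    calc ‖hb b u‖ * Real.exp (-(4 * u)) ≤ (‖b‖ * Real.exp (2 * u)) * Real.exp (-(4 * u)) := by gcongr
      _ = ‖b‖ * Real.exp (-(2 * u)) := by
          rw [mul_assoc, ← Real.exp_add]
          ring_nf
      _ ≤ ‖b‖ * Real.exp (-(1 * u)) := by
          gcongr
          norm_num

/-- the representation of the logarithms -/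
theorem rep_log (P : Par k β t ψ) {b : ℂ} (hb2 : b.re ≤ 2) {ρ : ℝ} (hρ : 0 < ρ) :
    (1 / (2 * Real.pi) : ℝ) * ∫ y : ℝ, NN k (sk k β ρ) y * (log (3 + y * I - b) - log (3 + y * I)) =
      (∫ u in Ioi (0:ℝ), hb b u * exp (-(4 * (u : ℂ)))) - Ak k b (sk k β ρ) := by
  have hN := NN_int P hρ
  have e1 : ∀ y : ℝ, NN k (sk k β ρ) y * (log (3 + y * I - b) - log (3 + y * I)) =
      -∫ u in Ioi (0:ℝ), NN k (sk k β ρ) y * (exp (-((3 + y * I) * u)) * hb b u) := by
    intro y
    rw [integral_const_mul, ← frul (by simp) (by simp; linarith)]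
    ring
  simp only [e1]
  rw [integral_neg]
  obtain ⟨i1, -⟩ := int_exp_real one_pos
  have hint : Integrable (Function.uncurry fun (y u : ℝ) =>
      NN k (sk k β ρ) y * (exp (-((3 + y * I) * u)) * hb b u))
      ((volume : Measure ℝ).prod (volume.restrict (Ioi (0 : ℝ)))) := by
    refine Integrable.mono' (hN.norm.mul_prod (i1.const_mul ‖b‖)) ?_ ?_
    · refine Measurable.aestronglyMeasurable ?_
      unfold Function.uncurry
      have := hb_meas b
      have h2 : Measurable (NN k (sk k β ρ)) := (NN_cont P.hk (P.sk_pos hρ)).measurable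
      fun_prop
    · have hmem : ∀ᵐ q : ℝ × ℝ ∂((volume : Measure ℝ).prod (volume.restrict (Ioi (0 : ℝ)))),
          q.2 ∈ Ioi (0:ℝ) := by
        have h3 : (volume : Measure ℝ).prod (volume.restrict (Ioi (0 : ℝ))) =
            ((volume : Measure ℝ).prod volume).restrict (univ ×ˢ Ioi (0:ℝ)) := by
          rw [← Measure.prod_restrict, Measure.restrict_univ]
        rw [h3]
        filter_upwards [ae_restrict_mem (MeasurableSet.univ.prod measurableSet_Ioi)] with q hq
        exact hq.2
      filter_upwards [hmem] with q hq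
      have hq0 : 0 < q.2 := hq
      simp only [Function.uncurry]
      rw [norm_mul, norm_mul, Complex.norm_exp (-(_ * _)), Complex.neg_re, Complex.re_mul_ofReal]
      refine mul_le_mul_of_nonneg_left ?_ (norm_nonneg _)
      have h1 := hb_le (by norm_num : (0:ℝ) ≤ 2) hb2 hq0
      have e : (3 + (q.1 : ℂ) * I).re = 3 := by simp
      rw [e]
      calc Real.exp (-(3 * q.2)) * ‖hb b q.2‖ ≤
          Real.exp (-(3 * q.2)) * (‖b‖ * Real.exp (2 * q.2)) := by gcongr
        _ = ‖b‖ * (Real.exp (-(3 * q.2)) * Real.exp (2 * q.2)) := by ring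
        _ = _ := by
            rw [← Real.exp_add]
            ring_nf
  rw [integral_integral_swap hint]
  unfold Ak
  rw [← integral_sub (hb4_int hb2) (hbE_int P.hk b (P.sk_pos hρ)), mul_neg, ← integral_const_mul,
    ← integral_neg]
  refine setIntegral_congr_fun measurableSet_Ioi fun u hu => ?_
  have hu0 : 0 < u := hu
  have e2 : ∀ y : ℝ, NN k (sk k β ρ) y * (exp (-((3 + y * I) * u)) * hb b u) =
      (NN k (sk k β ρ) y * exp (-((3 + y * I) * u))) * hb b u := fun y => by ring
  simp only [e2]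
  rw [integral_mul_const, ← mul_assoc, ← inv_sk P hρ hu0.le]
  ring

end Pool.Agent.D0H40.KX
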